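import Pool.Agent.Lib.MP_fc2ced_ag.EWed

/-! Rank one idempotents in group algebras. -/

namespace Pool.Agent.Lib.MP_fc2ced_ag.E

namespace Alg

theorem wed_closed' {K Γ : Type} [Field K] [Group Γ] [Fintype Γ] [CharZero K] [IsAlgClosed K] :
    ∃ (J : Type) (_ : Fintype J) (ε : J → MonoidAlgebra K Γ) (φ : J → Γ → K), ∑ j, ε j = 1 ∧
      (∀ j, ε j * ε j = ε j) ∧
      (∀ j γ, ε j * MonoidAlgebra.single γ 1 * ε j = φ j γ • ε j) ∧ ∀ j, φ j 1 = 1 := by
  have : NeZero (Nat.card Γ : K) := ⟨Nat.cast_ne_zero.mpr Nat.card_pos.ne'⟩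
  obtain ⟨m, d, -, ⟨e⟩⟩ :=
    IsSemisimpleRing.exists_algEquiv_pi_matrix_of_isAlgClosed K (MonoidAlgebra K Γ)
  refine ⟨Σ i : Fin m, Fin (d i), inferInstance,
    fun j => e.symm (Pi.single j.1 (Matrix.single j.2 j.2 1)),
    fun j γ => e (MonoidAlgebra.single γ 1) j.1 j.2 j.2, ?_, ?_, ?_, ?_⟩
  · apply e.injective
    rw [map_sum, map_one]
    simp only [AlgEquiv.apply_symm_apply]
    rw [Fintype.sum_sigma]
    funext i
    rw [Finset.sum_apply, Finset.sum_eq_single i]
    · rw [Finset.sum_apply]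
      simp only [Pi.single_eq_same, Pi.one_apply]
      exact Matrix.sum_single_one
    · intro b _ hb
      rw [Finset.sum_apply]
      exact Finset.sum_eq_zero fun x _ => Pi.single_eq_of_ne hb.symm _
    · simp
  · intro j
    apply e.injective
    rw [map_mul]
    simp only [AlgEquiv.apply_symm_apply]
    rw [← Pi.single_mul, Matrix.single_mul_single_same, mul_one]
  · intro j γ
    apply e.injective
    rw [map_mul, map_mul, map_smul]
    simp only [AlgEquiv.apply_symm_apply]
    funext i
    by_cases hi : i = j.1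
    · subst hi
      simp only [Pi.mul_apply, Pi.smul_apply, Pi.single_eq_same, Matrix.single_mul_mul_single,
        Matrix.smul_single, one_mul, mul_one, smul_eq_mul]
    · simp only [Pi.mul_apply, Pi.smul_apply, Pi.single_eq_of_ne hi, mul_zero, smul_zero]
  · intro j
    simp only [← MonoidAlgebra.one_def, map_one, Pi.one_apply, Matrix.one_apply_eq]

section Dual

variable {F Γ : Type} [Field F] [Group Γ]

/-- The anti-automorphism of the group algebra given by inversion. -/
noncomputable def inv (x : MonoidAlgebra F Γ) : MonoidAlgebra F Γ :=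
  MonoidAlgebra.mapDomain (fun γ => γ⁻¹) x

theorem inv_zero' : inv (0 : MonoidAlgebra F Γ) = 0 := MonoidAlgebra.mapDomain_zero _

theorem inv_add (x y : MonoidAlgebra F Γ) : inv (x + y) = inv x + inv y :=
  MonoidAlgebra.mapDomain_add _ _ _

theorem inv_single (γ : Γ) (c : F) :
    inv (MonoidAlgebra.single γ c) = MonoidAlgebra.single γ⁻¹ c :=
  MonoidAlgebra.mapDomain_single

theorem inv_smul (c : F) (x : MonoidAlgebra F Γ) : inv (c • x) = c • inv x := by
  induction x using MonoidAlgebra.induction_linear with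
  | zero => simp only [smul_zero, inv_zero']
  | add x y hx hy => simp only [smul_add, inv_add, hx, hy]
  | single g r => simp only [MonoidAlgebra.smul_single, inv_single]

theorem inv_mul (x y : MonoidAlgebra F Γ) : inv (x * y) = inv y * inv x := by
  induction x using MonoidAlgebra.induction_linear with
  | zero => simp only [zero_mul, inv_zero', mul_zero]
  | add x x' hx hx' => simp only [add_mul, mul_add, inv_add, hx, hx']
  | single g r =>
    induction y using MonoidAlgebra.induction_linear with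
    | zero => simp only [zero_mul, inv_zero', mul_zero]
    | add y y' hy hy' => simp only [add_mul, mul_add, inv_add, hy, hy']
    | single h s =>
      simp only [MonoidAlgebra.single_mul_single, inv_single, mul_inv_rev, mul_comm r s]

theorem inv_injective : Function.Injective (inv : MonoidAlgebra F Γ → MonoidAlgebra F Γ) :=
  MonoidAlgebra.mapDomain_injective _root_.inv_injective

theorem coeff_mul_one [Fintype Γ] (x y : MonoidAlgebra F Γ) :
    (x * y).coeff 1 = ∑ γ, x.coeff γ * y.coeff γ⁻¹ := by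
  rw [MonoidAlgebra.coeff_mul_apply_left, Finsupp.sum_fintype _ _ (fun _ => zero_mul _)]
  simp only [mul_one]

theorem coeff_comm [Fintype Γ] (x y : MonoidAlgebra F Γ) :
    (x * y).coeff 1 = (y * x).coeff 1 := by
  rw [coeff_mul_one, coeff_mul_one]
  refine Fintype.sum_equiv (Equiv.inv Γ) _ _ fun γ => ?_
  rw [Equiv.inv_apply, inv_inv, mul_comm]

end Dual

section Ext

variable {F : Type} [Field F] (K : Type) [Field K] [Algebra F K] {X X' : Type}

/-- The extension of scalars of a space of functions. -/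
def ext (I : Submodule F (X → F)) : Submodule K (X → K) where
  carrier := {w | ∀ l : K →ₗ[F] F, (fun x => l (w x)) ∈ I}
  zero_mem' := fun l => by
    have : (fun x => l ((0 : X → K) x)) = 0 := by funext x; simp
    rw [this]
    exact I.zero_mem
  add_mem' := fun {a b} ha hb l => by
    have : (fun x => l ((a + b) x)) = (fun x => l (a x)) + fun x => l (b x) := by
      funext x; simp
    rw [this]
    exact I.add_mem (ha l) (hb l)
  smul_mem' := fun c w hw l => hw (l ∘ₗ LinearMap.mulLeft F c)

theorem map_mem_ext {I : Submodule F (X → F)} {z : X → F} (hz : z ∈ I) :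
    (fun x => algebraMap F K (z x)) ∈ ext K I := fun l => by
  have : (fun x => l (algebraMap F K (z x))) = l 1 • z := by
    funext x
    rw [Algebra.algebraMap_eq_smul_one, map_smul, Pi.smul_apply, smul_eq_mul, smul_eq_mul,
      mul_comm]
  rw [this]
  exact I.smul_mem _ hz

open Classical in
theorem mul_mem_ext {G : Type} [Group G] (I : Submodule F (G × G → F))
    (hI : ∀ z ∈ I, ∀ g g', (fun p => z (p.1, g * p.2 * g')) ∈ I) {r : G → F}
    (hd : (fun p => if p.1 = p.2 then r p.1 else 0) ∈ I) (x y : MonoidAlgebra K G) :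
    (fun p : G × G => algebraMap F K (r p.1) *
      (x * MonoidAlgebra.single p.1 1 * y).coeff p.2) ∈ ext K I := by
  induction x using MonoidAlgebra.induction_linear with
  | zero =>
    simp only [zero_mul, MonoidAlgebra.coeff_zero, Finsupp.zero_apply, mul_zero]
    exact (ext K I).zero_mem
  | add x x' hx hx' =>
    simp only [add_mul, MonoidAlgebra.coeff_add, Finsupp.add_apply, mul_add]
    exact (ext K I).add_mem hx hx'
  | single a c =>
    induction y using MonoidAlgebra.induction_linear with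
    | zero =>
      simp only [MonoidAlgebra.coeff_zero, Finsupp.zero_apply, mul_zero]
      exact (ext K I).zero_mem
    | add y y' hy hy' =>
      simp only [MonoidAlgebra.coeff_add, Finsupp.add_apply, mul_add]
      exact (ext K I).add_mem hy hy'
    | single b c' =>
      have h := (ext K I).smul_mem (c * c') (map_mem_ext K (hI _ hd a⁻¹ b⁻¹))
      convert h using 1
      funext p
      simp only [MonoidAlgebra.single_mul_single, MonoidAlgebra.coeff_single, Finsupp.single_apply,
        Pi.smul_apply, smul_eq_mul, mul_one]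
      by_cases h1 : a * p.1 * b = p.2
      · rw [if_pos h1, if_pos (by rw [← h1]; group), mul_comm]
      · rw [if_neg h1, if_neg (fun h2 => h1 (by rw [h2]; group)), map_zero, mul_zero, mul_zero]

end Ext

end Alg

theorem exists_rank_one' (Γ : Type) [Group Γ] [Fintype Γ] :
    ∃ (F : Type) (_ : Field F) (_ : CharZero F) (_ : FiniteDimensional ℚ F) (J : Type)
      (_ : Fintype J) (ε : J → MonoidAlgebra F Γ) (φ : J → Γ → F), ∑ j, ε j = 1 ∧
      (∀ j, ε j * ε j = ε j) ∧
      ∀ j γ, ε j * MonoidAlgebra.single γ 1 * ε j = φ j γ • ε j := by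
  obtain ⟨J, hJ, ε, φ, h1, h2, h3, -⟩ := Alg.wed_closed' (K := AlgebraicClosure ℚ) (Γ := Γ)
  let S : Set (AlgebraicClosure ℚ) :=
    Set.range (fun p : J × Γ => (ε p.1).coeff p.2) ∪ Set.range (fun p : J × Γ => φ p.1 p.2)
  have : Finite S := ((Set.finite_range _).union (Set.finite_range _)).to_subtype
  let F := IntermediateField.adjoin ℚ S
  have hfin : FiniteDimensional ℚ F :=
    IntermediateField.finiteDimensional_adjoin fun x _ =>
      ((AlgebraicClosure.isAlgebraic ℚ).isAlgebraic x).isIntegral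
  have hm1 : ∀ j γ, (ε j).coeff γ ∈ F := fun j γ =>
    IntermediateField.subset_adjoin ℚ S (Or.inl ⟨(j, γ), rfl⟩)
  have hm2 : ∀ j γ, φ j γ ∈ F := fun j γ =>
    IntermediateField.subset_adjoin ℚ S (Or.inr ⟨(j, γ), rfl⟩)
  let f : F →+* AlgebraicClosure ℚ := algebraMap F (AlgebraicClosure ℚ)
  have hf : Function.Injective f := f.injective
  let Φ := MonoidAlgebra.mapRingHom Γ f
  have hΦ : Function.Injective Φ := MonoidAlgebra.map_injective (f : F →+ AlgebraicClosure ℚ) hf
  let ε' : J → MonoidAlgebra F Γ := fun j =>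
    MonoidAlgebra.ofCoeff (Finsupp.equivFunOnFinite.symm fun γ => ⟨(ε j).coeff γ, hm1 j γ⟩)
  let φ' : J → Γ → F := fun j γ => ⟨φ j γ, hm2 j γ⟩
  have hε : ∀ j, Φ (ε' j) = ε j := by
    intro j
    ext γ
    rw [MonoidAlgebra.coeff_mapRingHom]
    rfl
  have hφ : ∀ j γ, f (φ' j γ) = φ j γ := fun j γ => rfl
  have hsm : ∀ (r : F) (x : MonoidAlgebra F Γ), Φ (r • x) = f r • Φ x := by
    intro r x
    ext γ
    rw [MonoidAlgebra.coeff_mapRingHom, MonoidAlgebra.coeff_smul_apply,
      MonoidAlgebra.coeff_smul_apply, MonoidAlgebra.coeff_mapRingHom, smul_eq_mul, smul_eq_mul,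
      map_mul]
  refine ⟨F, inferInstance, inferInstance, ?_, J, hJ, ε', φ', ?_, ?_, ?_⟩
  · exact hfin
  · apply hΦ
    rw [map_sum, map_one]
    simp only [hε, h1]
  · intro j
    apply hΦ
    rw [map_mul, hε, h2]
  · intro j γ
    apply hΦ
    rw [map_mul, map_mul, hsm, hε, hφ, MonoidAlgebra.mapRingHom_single, map_one, h3]

/-- The dual of a rank one idempotent. -/
theorem exists_dual {F Γ : Type} [Field F] [Group Γ] [Fintype Γ] {ε : MonoidAlgebra F Γ}
    {φ : Γ → F} (h0 : ε ≠ 0) (h2 : ε * ε = ε)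
    (h3 : ∀ γ, ε * MonoidAlgebra.single γ 1 * ε = φ γ • ε) :
    ∃ η : MonoidAlgebra F Γ, η ≠ 0 ∧ η * η = η ∧
      (∀ γ, η * MonoidAlgebra.single γ 1 * η = φ γ⁻¹ • η) ∧ ∑ γ, φ γ * φ γ⁻¹ ≠ 0 := by
  refine ⟨Alg.inv ε, fun h => h0 (Alg.inv_injective (h.trans Alg.inv_zero'.symm)), ?_, ?_, ?_⟩
  · rw [← Alg.inv_mul, h2]
  · intro γ
    rw [← Alg.inv_smul, ← h3, Alg.inv_mul, Alg.inv_mul, Alg.inv_single, inv_inv, mul_assoc]
  · have h4 : ∀ γ, ε.coeff γ = φ γ⁻¹ * ε.coeff 1 := by
      intro γ
      have h := congrArg (fun x : MonoidAlgebra F Γ => x.coeff 1) (h3 γ⁻¹)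
      simp only [MonoidAlgebra.coeff_smul_apply, smul_eq_mul] at h
      rw [← h, Alg.coeff_comm, ← mul_assoc, h2, MonoidAlgebra.coeff_mul_single_apply]
      simp
    have h5 : ε.coeff 1 ≠ 0 := by
      intro h
      refine h0 (MonoidAlgebra.coeff_eq_zero.1 (Finsupp.ext fun γ => ?_))
      rw [h4, h, mul_zero, Finsupp.zero_apply]
    intro h6
    apply h5
    have h7 : (ε * ε).coeff 1 = (∑ γ, φ γ * φ γ⁻¹) * (ε.coeff 1 * ε.coeff 1) := by
      rw [Alg.coeff_mul_one, Finset.sum_mul]
      refine Finset.sum_congr rfl fun γ _ => ?_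
      rw [h4 γ, h4 γ⁻¹, inv_inv]
      ring
    rwa [h2, h6, zero_mul] at h7

open Classical in
theorem alg_split {F α : Type} [Field F] [CharZero F] [Fintype α] [DecidableEq α]
    (I : Submodule F (Equiv.Perm α × Equiv.Perm α → F))
    (hI : ∀ z ∈ I, ∀ g g', (fun p => z (p.1, g * p.2 * g')) ∈ I) {r : Equiv.Perm α → F}
    (hr : r ≠ 0) (hd : (fun p => if p.1 = p.2 then r p.1 else 0) ∈ I) :
    ∃ (J : Type) (_ : Fintype J) (_ : Nonempty J) (y : (J → Equiv.Perm α) → F), y ≠ 0 ∧
      ∀ I' : Submodule F ((J → Equiv.Perm α) × Equiv.Perm α → F),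
        (∀ z ∈ I, ∀ (j : J) (σ : J → Equiv.Perm α),
          (fun p => if ∀ i, i ≠ j → p.1 i = σ i then z (p.1 j, p.2) else 0) ∈ I') →
        (fun p => if p.2 = 1 then y p.1 else 0) ∈ I' := by
  obtain ⟨J, hJ, ε, φ, h1, -, h3, h4⟩ :=
    Alg.wed_closed' (K := AlgebraicClosure F) (Γ := Equiv.Perm α)
  obtain ⟨s, hs⟩ := Function.ne_iff.1 hr
  have hne : Nonempty J := by
    by_contra h
    rw [not_nonempty_iff] at h
    rw [Finset.univ_eq_empty, Finset.sum_empty] at h1
    exact zero_ne_one h1
  let y : J → Equiv.Perm α → AlgebraicClosure F := fun j σ =>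
    algebraMap F _ (r σ) * φ j (s⁻¹ * σ)
  have hy : ∀ j, (fun p : Equiv.Perm α × Equiv.Perm α => y j p.1 * (ε j).coeff p.2) ∈
      Alg.ext (AlgebraicClosure F) I := by
    intro j
    have h := Alg.mul_mem_ext (AlgebraicClosure F) I hI (r := r) (by convert hd)
      (ε j * MonoidAlgebra.single s⁻¹ 1) (ε j)
    convert h using 2 with p
    rw [mul_assoc (ε j), MonoidAlgebra.single_mul_single, mul_one, h3,
      MonoidAlgebra.coeff_smul_apply, smul_eq_mul, mul_assoc]
  have hY : ∏ j, y j s ≠ 0 := by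
    refine Finset.prod_ne_zero_iff.2 fun j _ => ?_
    simp only [y, inv_mul_cancel, h4, mul_one]
    exact (map_ne_zero _).2 hs
  obtain ⟨l, hl⟩ := not_forall.1 (mt (Module.forall_dual_apply_eq_zero_iff F _).1 hY)
  refine ⟨J, hJ, hne, fun σ => l (∏ j, y j (σ j)), fun h => hl (congrFun h fun _ => s), ?_⟩
  intro I' hI'
  have h5 : ∀ (j : J) (τ : J → Equiv.Perm α),
      (fun p : (J → Equiv.Perm α) × Equiv.Perm α =>
        if ∀ i, i ≠ j → p.1 i = τ i then y j (p.1 j) * (ε j).coeff p.2 else 0) ∈
        Alg.ext (AlgebraicClosure F) I' := by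
    intro j τ l'
    have h := hI' _ (hy j l') j τ
    convert h using 2 with p
    beta_reduce
    split_ifs
    · rfl
    · exact map_zero l'
  have h6 := (Alg.ext (AlgebraicClosure F) I').sum_mem (t := Finset.univ) fun j _ =>
    (Alg.ext (AlgebraicClosure F) I').sum_mem (t := Finset.univ) fun τ _ =>
      (Alg.ext (AlgebraicClosure F) I').smul_mem
        (if τ j = 1 then ∏ i ∈ Finset.univ.erase j, y i (τ i) else 0) (h5 j τ)
  convert h6 l using 2 with p
  have h7 : ∀ j, (∑ τ : J → Equiv.Perm α,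
      (if τ j = 1 then ∏ i ∈ Finset.univ.erase j, y i (τ i) else 0) •
        fun p : (J → Equiv.Perm α) × Equiv.Perm α =>
          if ∀ i, i ≠ j → p.1 i = τ i then y j (p.1 j) * (ε j).coeff p.2 else 0) p =
      (∏ i, y i (p.1 i)) * (ε j).coeff p.2 := by
    intro j
    rw [Finset.sum_apply, Finset.sum_eq_single (Function.update p.1 j 1)]
    · simp only [Pi.smul_apply, smul_eq_mul, Function.update_self, if_true]
      rw [if_pos fun i hi => (Function.update_of_ne hi _ _).symm, ← mul_assoc,
        ← Finset.prod_erase_mul _ _ (Finset.mem_univ j)]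
      congr 2
      exact Finset.prod_congr rfl fun i hi => by
        rw [Function.update_of_ne (Finset.ne_of_mem_erase hi)]
    · intro τ _ hτ
      simp only [Pi.smul_apply, smul_eq_mul]
      split_ifs with c1 c2
      · refine absurd (funext fun i => ?_) hτ
        by_cases hi : i = j
        · rw [hi, Function.update_self, c1]
        · rw [Function.update_of_ne hi, c2 i hi]
      · exact mul_zero _
      · exact zero_mul _
      · exact zero_mul _
    · simp
  rw [Finset.sum_apply]
  simp only [h7]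
  rw [← Finset.mul_sum, ← Finsupp.finsetSum_apply, ← MonoidAlgebra.coeff_sum, h1,
    MonoidAlgebra.one_def, MonoidAlgebra.coeff_single, Finsupp.single_apply]
  by_cases hp : p.2 = 1
  · rw [if_pos hp, if_pos hp.symm, mul_one]
  · rw [if_neg hp, if_neg (Ne.symm hp), mul_zero, map_zero]

end Pool.Agent.Lib.MP_fc2ced_ag.E
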