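import Pool.Agent.Lib.MP_fc2ced_ag.R.Defs

/-! The BN-pair of a pinned reductive group: first properties. -/

open Matrix

namespace Pool.Agent.Lib.MP_fc2ced_ag.R

noncomputable section

variable {k : Type} [Field k] {G : Type} [Group G] {n r : ℕ} {S : Type} (D : Red k G n r S)

namespace Red

/-- The positive simple root subgroups. -/
def x (s : S) (c : k) : G := D.φ s (xx c)

/-- The negative simple root subgroups. -/
def y (s : S) (c : k) : G := D.φ s (yy c)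

/-- The simple reflections. -/
def w (s : S) : G := D.φ s ww

theorem x_add (s : S) (c c' : k) : D.x s (c + c') = D.x s c * D.x s c' := by
  rw [x, x, x, ← map_mul]; congr 1; ext i j; fin_cases i <;> fin_cases j <;>
    simp [xx, mul_apply, Fin.sum_univ_two, add_comm]

theorem x_zero (s : S) : D.x s 0 = 1 := by
  rw [x, ← map_one (D.φ s)]; congr 1; ext i j; fin_cases i <;> fin_cases j <;> simp [xx]

theorem x_neg (s : S) (c : k) : D.x s (-c) = (D.x s c)⁻¹ :=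
  eq_inv_of_mul_eq_one_left (by rw [← x_add, neg_add_cancel, x_zero])

theorem xmem (s : S) (c : k) : D.x s c ∈ D.U := D.x_mem s c

theorem ι_mem (t : Fin r → kˣ) : D.ι t ∈ D.N := D.N_eq ▸ Subgroup.subset_closure (.inl ⟨t, rfl⟩)

theorem w_mem (s : S) : D.w s ∈ D.N := D.N_eq ▸ Subgroup.subset_closure (.inr ⟨s, rfl⟩)

theorem norm' (t : Fin r → kˣ) {u : G} (hu : u ∈ D.U) : (D.ι t)⁻¹ * u * D.ι t ∈ D.U := by
  simpa using D.norm t⁻¹ u hu

/-- The Borel subgroup. -/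
def Bor : Subgroup G where
  carrier := {g | ∃ t, ∃ u ∈ D.U, g = D.ι t * u}
  one_mem' := ⟨1, 1, one_mem _, by simp⟩
  mul_mem' := by
    rintro _ _ ⟨t, u, hu, rfl⟩ ⟨t', u', hu', rfl⟩
    exact ⟨t * t', _, mul_mem (D.norm' t' hu) hu', by simp [mul_assoc]⟩
  inv_mem' := by
    rintro _ ⟨t, u, hu, rfl⟩
    exact ⟨t⁻¹, _, D.norm t _ (inv_mem hu), by simp [mul_assoc]⟩

theorem mem_Bor {g : G} : g ∈ D.Bor ↔ ∃ t, ∃ u ∈ D.U, g = D.ι t * u := Iff.rfl

theorem ι_mem_Bor (t : Fin r → kˣ) : D.ι t ∈ D.Bor := ⟨t, 1, one_mem _, by simp⟩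

theorem U_le_Bor : D.U ≤ D.Bor := fun u hu => ⟨1, u, hu, by simp⟩

theorem ι_inj : Function.Injective D.ι := by
  obtain ⟨π, τ, -, h, -⟩ := D.big
  intro t t' e
  rw [← (h t 1 (one_mem _) 1 (one_mem _)).2, e, (h t' 1 (one_mem _) 1 (one_mem _)).2]

theorem eq_one_of_ι_mem {t : Fin r → kˣ} (h : D.ι t ∈ D.U) : t = 1 := by
  obtain ⟨π, τ, -, h1, -⟩ := D.big
  rw [← (h1 t 1 (one_mem _) 1 (one_mem _)).2, ← (h1 1 1 (one_mem _) _ h).2, map_one, mul_one,
    mul_one]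

theorem eq_one_of_conj {u : G} (hu : u ∈ D.U) (h : D.n₀⁻¹ * u * D.n₀ ∈ D.U) : u = 1 := by
  obtain ⟨π, τ, -, h1, -⟩ := D.big
  refine (h1 1 u hu 1 (one_mem _)).1.symm.trans (.trans ?_ (h1 1 1 (one_mem _) _ h).1)
  simp [mul_assoc]

/-- Conjugation by a diagonal matrix on `SL_2`. -/
def cd (a : kˣ) (g : SpecialLinearGroup (Fin 2) k) : SpecialLinearGroup (Fin 2) k :=
  ⟨!![g 0 0, a * g 0 1; (a⁻¹ : kˣ) * g 1 0, g 1 1], by
    have := g.det_coe
    rw [det_fin_two] at this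
    rw [det_fin_two_of, mul_mul_mul_comm, Units.mul_inv, one_mul, this]⟩

theorem sl_ind {p : SpecialLinearGroup (Fin 2) k → Prop} (hx : ∀ c, p (xx c)) (hy : ∀ c, p (yy c))
    (hm : ∀ g h, p g → p h → p (g * h)) (g : SpecialLinearGroup (Fin 2) k) : p g := by
  have h1 : ∀ g : SpecialLinearGroup (Fin 2) k, g 1 0 ≠ 0 → p g := fun g h => by
    have e := g.det_coe
    rw [det_fin_two] at e
    have : g = xx ((g 0 0 - 1) / g 1 0) * yy (g 1 0) * xx ((g 1 1 - 1) / g 1 0) := by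
      ext i j
      fin_cases i <;> fin_cases j <;> simp [xx, yy, mul_apply, Fin.sum_univ_two] <;> field_simp
      · ring
      · linear_combination -e
      · ring
    exact this ▸ hm _ _ (hm _ _ (hx _) (hy _)) (hx _)
  by_cases h : g 1 0 = 0
  · have e := g.det_coe
    rw [det_fin_two, h, mul_zero, sub_zero] at e
    have : g = yy (-1) * (yy 1 * g) := by
      rw [← mul_assoc, show yy (-1 : k) * yy 1 = 1 by
        ext i j; fin_cases i <;> fin_cases j <;> simp [yy, mul_apply, Fin.sum_univ_two], one_mul]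
    refine this ▸ hm _ _ (hy _) (h1 _ ?_)
    simpa [yy, mul_apply, Fin.sum_univ_two, h] using left_ne_zero_of_mul_eq_one e
  · exact h1 g h

theorem conj_of {s : S} {t : Fin r → kˣ} {a : kˣ} (h : ∀ c,
    D.ι t * D.φ s (xx c) * (D.ι t)⁻¹ = D.φ s (xx (a * c)) ∧
      D.ι t * D.φ s (yy c) * (D.ι t)⁻¹ = D.φ s (yy ((a⁻¹ : kˣ) * c)))
    (g : SpecialLinearGroup (Fin 2) k) : D.ι t * D.φ s g * (D.ι t)⁻¹ = D.φ s (cd a g) := by
  induction g using sl_ind with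
  | hx c =>
    rw [(h c).1]; congr 1; ext i j; fin_cases i <;> fin_cases j <;> simp [xx, cd]
  | hy c =>
    rw [(h c).2]; congr 1; ext i j; fin_cases i <;> fin_cases j <;> simp [yy, cd]
  | hm g g' h1 h2 =>
    rw [map_mul, ← conj_mul, h1, h2, ← map_mul]
    congr 1
    ext i j
    fin_cases i <;> fin_cases j <;> simp [cd, mul_apply, Fin.sum_univ_two] <;> field_simp

theorem N_le : D.N ≤ Subgroup.normalizer D.ι.range := by
  rw [D.N_eq, Subgroup.closure_le]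
  rintro _ (⟨t, rfl⟩ | ⟨s, rfl⟩)
  · exact Subgroup.le_normalizer ⟨t, rfl⟩
  have h : ∀ t, D.φ s ww * D.ι t * (D.φ s ww)⁻¹ ∈ D.ι.range ∧
      (D.φ s ww)⁻¹ * D.ι t * D.φ s ww ∈ D.ι.range := fun t => by
    obtain ⟨a, ha⟩ := D.scale s t
    have h1 := D.conj_of ha ww
    have h2 : cd a ww = dd a * ww := by
      ext i j; fin_cases i <;> fin_cases j <;> simp [cd, dd, ww, mul_apply, Fin.sum_univ_two]
    have h3 : cd a ww = ww * dd a⁻¹ := by
      ext i j; fin_cases i <;> fin_cases j <;> simp [cd, dd, ww, mul_apply, Fin.sum_univ_two]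
    constructor
    · convert mul_mem (inv_mem (D.d_mem s a)) (⟨t, rfl⟩ : D.ι t ∈ D.ι.range) using 1
      rw [eq_mul_inv_of_mul_eq (map_mul (D.φ s) (dd a) ww).symm, ← h2, ← h1]
      group
    · convert mul_mem (D.d_mem s a⁻¹) (⟨t, rfl⟩ : D.ι t ∈ D.ι.range) using 1
      rw [eq_inv_mul_of_mul_eq (map_mul (D.φ s) ww (dd a⁻¹)).symm, ← h3, ← h1]
      group
  refine Subgroup.mem_normalizer_iff.2 fun g => ⟨?_, fun ⟨t, ht⟩ => ?_⟩
  · rintro ⟨t, rfl⟩
    exact (h t).1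
  · simpa [ht, mul_assoc] using (h t).2

theorem x_mul_w' (s : S) (c : kˣ) : D.x s c * D.w s =
    D.y s ((c⁻¹ : kˣ) : k) * D.φ s (dd c) * D.x s (-((c⁻¹ : kˣ) : k)) := by
  rw [x, x, y, w, ← map_mul, ← map_mul, ← map_mul]; congr 1; ext i j
  fin_cases i <;> fin_cases j <;> simp [xx, yy, dd, ww, mul_apply, Fin.sum_univ_two]

theorem exists_cj {m : G} (hm : m ∈ D.N) (t : Fin r → kˣ) : ∃ t', D.ι t' = m * D.ι t * m⁻¹ := by
  exact (Subgroup.mem_normalizer_iff.1 (D.N_le hm) _).1 ⟨t, rfl⟩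

/-- The action of the normalizer on the torus. -/
def cj (m : D.N) : (Fin r → kˣ) →* (Fin r → kˣ) where
  toFun t := (D.exists_cj m.2 t).choose
  map_one' := D.ι_inj (by rw [(D.exists_cj m.2 1).choose_spec]; simp)
  map_mul' t t' := D.ι_inj (by
    rw [(D.exists_cj m.2 _).choose_spec, map_mul, map_mul, (D.exists_cj m.2 _).choose_spec,
      (D.exists_cj m.2 _).choose_spec]; simp [mul_assoc])

theorem ι_cj (m : D.N) (t : Fin r → kˣ) : D.ι (D.cj m t) = m * D.ι t * (m : G)⁻¹ :=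
  (D.exists_cj m.2 t).choose_spec

theorem cj_mul (m m' : D.N) (t : Fin r → kˣ) : D.cj (m * m') t = D.cj m (D.cj m' t) :=
  D.ι_inj (by simp [ι_cj, mul_assoc])

theorem cj_one (t : Fin r → kˣ) : D.cj 1 t = t := D.ι_inj (by simp [ι_cj])

theorem w_conj_x (s : S) (c : k) : (D.w s)⁻¹ * D.x s c * D.w s = D.y s (-c) := by
  rw [mul_assoc, inv_mul_eq_iff_eq_mul, x, y, w, ← map_mul, ← map_mul]; congr 1; ext i j
  fin_cases i <;> fin_cases j <;> simp [xx, yy, ww, mul_apply, Fin.sum_univ_two]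

theorem w_conj_y (s : S) (c : k) : (D.w s)⁻¹ * D.y s c * D.w s = D.x s (-c) := by
  rw [mul_assoc, inv_mul_eq_iff_eq_mul, x, y, w, ← map_mul, ← map_mul]; congr 1; ext i j
  fin_cases i <;> fin_cases j <;> simp [xx, yy, ww, mul_apply, Fin.sum_univ_two]

theorem eq_zero_of_y_mem {s : S} {c : k} (h : D.y s c ∈ D.Bor) : c = 0 := by
  by_contra hc
  lift c to kˣ using Ne.isUnit hc
  obtain ⟨d, hd⟩ := D.d_mem s c⁻¹
  have h1 := D.x_mul_w' s c⁻¹
  rw [inv_inv, ← hd, ← eq_inv_mul_iff_mul_eq] at h1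
  obtain ⟨t, u, hu, e⟩ : D.w s ∈ D.Bor := h1 ▸ mul_mem (inv_mem (D.U_le_Bor (D.xmem s _)))
    (mul_mem (mul_mem h (D.ι_mem_Bor d)) (D.U_le_Bor (D.xmem s _)))
  exact D.w_not s t u hu e

theorem x_inj (s : S) : Function.Injective (D.x s) := by
  intro c c' e
  have h := D.w_conj_x s (c' + -c)
  rw [x_add, x_neg, e, mul_inv_cancel, mul_one, inv_mul_cancel] at h
  linear_combination D.eq_zero_of_y_mem (h ▸ one_mem D.Bor)

theorem exists_al (s : S) : ∃ a : (Fin r → kˣ) →* kˣ, ∀ t c,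
    D.ι t * D.x s c * (D.ι t)⁻¹ = D.x s (a t * c) ∧
      D.ι t * D.y s c * (D.ι t)⁻¹ = D.y s (((a t)⁻¹ : kˣ) * c) := by
  choose a ha using D.scale s
  refine ⟨MonoidHom.mk' a fun t t' => Units.ext (D.x_inj s ?_), ha⟩
  have h := (ha (t * t') 1).1
  rw [mul_one] at h
  rw [x, x, ← h, Units.val_mul, ← (ha t _).1, ← mul_one (a t' : k), ← (ha t' 1).1, map_mul]
  group

/-- The simple roots. -/
def al (s : S) : (Fin r → kˣ) →* kˣ := (D.exists_al s).choose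

theorem conj_x (s : S) (t : Fin r → kˣ) (c : k) :
    D.ι t * D.x s c * (D.ι t)⁻¹ = D.x s (D.al s t * c) := ((D.exists_al s).choose_spec t c).1

theorem conj_y (s : S) (t : Fin r → kˣ) (c : k) :
    D.ι t * D.y s c * (D.ι t)⁻¹ = D.y s (((D.al s t)⁻¹ : kˣ) * c) :=
  ((D.exists_al s).choose_spec t c).2

theorem exists_cv (s : S) : ∃ d : kˣ →* (Fin r → kˣ), ∀ a, D.ι (d a) = D.φ s (dd a) := by
  choose d hd using D.d_mem s
  refine ⟨MonoidHom.mk' d fun a b => D.ι_inj ?_, hd⟩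
  rw [map_mul, hd, hd, hd, ← map_mul]; congr 1; ext i j
  fin_cases i <;> fin_cases j <;> simp [dd, mul_apply, Fin.sum_univ_two, mul_comm]

/-- The simple coroots. -/
def cv (s : S) : kˣ →* (Fin r → kˣ) := (D.exists_cv s).choose

theorem ι_cv (s : S) (a : kˣ) : D.ι (D.cv s a) = D.φ s (dd a) := (D.exists_cv s).choose_spec a

theorem al_cv (s : S) (a : kˣ) : D.al s (D.cv s a) = a ^ 2 := by
  refine Units.ext (D.x_inj s ?_)
  rw [← mul_one (D.al s _ : k), ← conj_x, ι_cv, mul_inv_eq_iff_eq_mul, x, x, ← map_mul, ← map_mul]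
  congr 1; ext i j
  fin_cases i <;> fin_cases j <;> simp [xx, dd, mul_apply, Fin.sum_univ_two, sq]

theorem conj_φ (s : S) (t : Fin r → kˣ) (g : SpecialLinearGroup (Fin 2) k) :
    D.ι t * D.φ s g * (D.ι t)⁻¹ = D.φ s (cd (D.al s t) g) := by
  exact D.conj_of (fun c => ⟨D.conj_x s t c, D.conj_y s t c⟩) g

theorem x_mul_w (s : S) (c : kˣ) : D.x s c * D.w s =
    D.y s ((c⁻¹ : kˣ) : k) * D.ι (D.cv s c) * D.x s (-((c⁻¹ : kˣ) : k)) := by
  rw [ι_cv, x_mul_w']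

theorem w_mul_w (s : S) : D.w s * D.w s = D.ι (D.cv s (-1)) := by
  rw [ι_cv, w, ← map_mul]; congr 1; ext i j
  fin_cases i <;> fin_cases j <;> simp [dd, ww, mul_apply, Fin.sum_univ_two]

theorem conj_w_iff {s : S} {v : G} :
    D.w s * v * (D.w s)⁻¹ ∈ D.U ↔ (D.w s)⁻¹ * v * D.w s ∈ D.U := by
  refine ⟨fun h => ?_, fun h => ?_⟩
  · simpa [← w_mul_w, mul_assoc] using D.norm' (D.cv s (-1)) h
  · simpa [← w_mul_w, mul_assoc] using D.norm (D.cv s (-1)) _ h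

theorem w_mul_x (s : S) (c : kˣ) : D.w s * D.x s c =
    D.x s (-((c⁻¹ : kˣ) : k)) * D.ι (D.cv s c⁻¹) * D.y s ((c⁻¹ : kˣ) : k) := by
  rw [ι_cv, x, x, y, w, ← map_mul, ← map_mul, ← map_mul]; congr 1; ext i j
  fin_cases i <;> fin_cases j <;> simp [xx, yy, dd, ww, mul_apply, Fin.sum_univ_two]

/-- The coordinate along a simple root subgroup. -/
def cs (s : S) : G → k := (D.coord s).choose

theorem cs_mem (s : S) : D.cs s ∈ Pol fun x => co (D.ρ x) := (D.coord s).choose_spec.1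

theorem left_mem (s : S) {u : G} (hu : u ∈ D.U) :
    (D.w s)⁻¹ * (D.x s (-D.cs s u) * u) * D.w s ∈ D.U := (D.coord s).choose_spec.2 u hu

theorem left_mem' (s : S) {u : G} (hu : u ∈ D.U) :
    D.w s * (D.x s (-D.cs s u) * u) * (D.w s)⁻¹ ∈ D.U := by
  exact D.conj_w_iff.2 (D.left_mem s hu)

theorem cs_eq {s : S} {u : G} {c : k} (hu : u ∈ D.U)
    (h : (D.w s)⁻¹ * (D.x s (-c) * u) * D.w s ∈ D.U) : D.cs s u = c := by
  have h1 := mul_mem h (inv_mem (D.left_mem s hu))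
  have h2 := D.w_conj_x s (-c + D.cs s u)
  rw [x_add] at h2
  rw [D.x_neg s (D.cs s u)] at h1
  have h3 : D.y s (-(-c + D.cs s u)) ∈ D.U := by rw [← h2]; simpa [mul_assoc] using h1
  linear_combination -D.eq_zero_of_y_mem (D.U_le_Bor h3)

theorem right_mem (s : S) {u : G} (hu : u ∈ D.U) :
    (D.w s)⁻¹ * (u * D.x s (D.cs s u⁻¹)) * D.w s ∈ D.U := by
  simpa [x_neg, mul_assoc] using inv_mem (D.left_mem s (inv_mem hu))

theorem right_mem' (s : S) {u : G} (hu : u ∈ D.U) :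
    D.w s * (u * D.x s (D.cs s u⁻¹)) * (D.w s)⁻¹ ∈ D.U := by
  exact D.conj_w_iff.2 (D.right_mem s hu)

theorem cs_conj (s : S) {u : G} (hu : u ∈ D.U) (h : D.w s * u * (D.w s)⁻¹ ∈ D.U) :
    D.cs s u = 0 := by
  exact D.cs_eq hu (by rw [neg_zero, x_zero, one_mul]; exact D.conj_w_iff.1 h)

variable [Infinite k]

theorem eq_one_of_mem_N {u : G} (hu : u ∈ D.U) (hN : u ∈ D.N) : u = 1 := by
  have h0 : ∀ m ∈ D.N, ∀ u, (∀ t, D.ι t * u * (D.ι t)⁻¹ = u) →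
      ∀ t, D.ι t * (m⁻¹ * u * m) * (D.ι t)⁻¹ = m⁻¹ * u * m := fun m hm u h t => by
    obtain ⟨t', ht⟩ := D.exists_cj hm t
    conv_rhs => rw [← h t', ht]
    group
  have h1 : ∀ s, ∀ u ∈ D.U, (∀ t, D.ι t * u * (D.ι t)⁻¹ = u) → (D.w s)⁻¹ * u * D.w s ∈ D.U :=
    fun s u hu h => by
      classical
      obtain ⟨b, hb⟩ := Infinite.exists_notMem_finset ({0, 1, -1} : Finset k)
      simp only [Finset.mem_insert, Finset.mem_singleton, not_or] at hb
      lift b to kˣ using (Ne.isUnit hb.1)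
      obtain ⟨t', ht⟩ := D.exists_cj (inv_mem (D.w_mem s)) (D.cv s b)
      have h2 := D.cs_eq (s := s) (c := (b ^ 2 : kˣ) * D.cs s u) hu (by
        convert D.norm t' _ (D.left_mem s hu) using 1
        rw [← mul_neg, ← al_cv D s, ← conj_x, ht]
        nth_rw 2 [← h (D.cv s b)]
        group)
      have h3 : D.cs s u = 0 := (mul_eq_zero.1 (show ((b : k) ^ 2 - 1) * D.cs s u = 0 by
        rw [Units.val_pow_eq_pow_val] at h2
        linear_combination -h2)).resolve_left fun e =>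
          (sq_eq_one_iff.1 (sub_eq_zero.1 e)).elim hb.2.1 hb.2.2
      simpa [h3, x_zero] using D.left_mem s hu
  have h2 : ∀ m ∈ D.N, ∀ u ∈ D.U, (∀ t, D.ι t * u * (D.ι t)⁻¹ = u) → m⁻¹ * u * m ∈ D.U :=
    fun m hm => by
      rw [D.N_eq] at hm
      induction hm using Subgroup.closure_induction'' with
      | mem m hm =>
        rcases hm with ⟨t, rfl⟩ | ⟨s, rfl⟩
        exacts [fun u hu _ => D.norm' t hu, h1 s]
      | inv_mem m hm =>
        rw [inv_inv]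
        rcases hm with ⟨t, rfl⟩ | ⟨s, rfl⟩
        exacts [fun u hu _ => D.norm t u hu, fun u hu h => D.conj_w_iff.2 (h1 s u hu h)]
      | one => simp +contextual
      | mul m m' hm _ a b =>
        intro u hu h
        simpa [mul_assoc] using b _ (a u hu h) (h0 m (D.N_eq ▸ hm) u h)
  refine D.eq_one_of_conj hu (h2 _ D.n₀_mem u hu fun t => ?_)
  obtain ⟨t', ht⟩ := D.exists_cj (inv_mem hN) t
  have h3 : t' * t⁻¹ = 1 := D.eq_one_of_ι_mem (by
    simpa [ht, mul_assoc] using mul_mem (inv_mem hu) (D.norm t u hu))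
  rw [mul_inv_eq_one.1 h3, inv_inv, mul_assoc, eq_inv_mul_iff_mul_eq] at ht
  rw [← ht, mul_inv_cancel_right]

theorem exists_ι_of_mem {m : G} (hB : m ∈ D.Bor) (hN : m ∈ D.N) : ∃ t, m = D.ι t := by
  obtain ⟨t, u, hu, rfl⟩ := hB
  exact ⟨t, by rw [D.eq_one_of_mem_N hu ((mul_mem_cancel_left (D.ι_mem t)).1 hN), mul_one]⟩

/-- The Bruhat cells. -/
def cell (m : G) : Set G := {g | ∃ u ∈ D.U, ∃ b ∈ D.Bor, g = u * m * b}

/-- The simple root `s` is an ascent of `m`. -/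
def Asc (s : S) (m : G) : Prop := ∀ c, m⁻¹ * D.x s c * m ∈ D.U

omit [Infinite k] in
theorem self_mem_cell (m : G) : m ∈ D.cell m := ⟨1, one_mem _, 1, one_mem _, by simp⟩

omit [Infinite k] in
theorem mul_mem_cell {m g b : G} (hg : g ∈ D.cell m) (hb : b ∈ D.Bor) : g * b ∈ D.cell m := by
  obtain ⟨u, hu, b', hb', rfl⟩ := hg
  exact ⟨u, hu, _, mul_mem hb' hb, by simp [mul_assoc]⟩

omit [Infinite k] in
theorem cell_mul_mem {m g b : G} (hm : m ∈ D.N) (hb : b ∈ D.Bor) (hg : g ∈ D.cell m) :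
    b * g ∈ D.cell m := by
  obtain ⟨t, v, hv, rfl⟩ := hb
  obtain ⟨u, hu, b, hb, rfl⟩ := hg
  obtain ⟨t', ht⟩ := D.exists_cj (inv_mem hm) t
  exact ⟨_, D.norm t _ (mul_mem hv hu), _, mul_mem (D.ι_mem_Bor t') hb, by rw [ht]; group⟩

omit [Infinite k] in
theorem cell_mul_ι (m : G) (t : Fin r → kˣ) : D.cell (m * D.ι t) = D.cell m := by
  ext g
  refine ⟨fun ⟨u, hu, b, hb, e⟩ => ⟨u, hu, _, mul_mem (D.ι_mem_Bor t) hb, ?_⟩,
    fun ⟨u, hu, b, hb, e⟩ => ⟨u, hu, _, mul_mem (inv_mem (D.ι_mem_Bor t)) hb, ?_⟩⟩ <;> rw [e] <;>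
    group

omit [Infinite k] in
theorem not_asc_y {s : S} {m : G} (hm : m ∈ D.N) (h : ¬ D.Asc s m) (c : k) :
    m⁻¹ * D.y s c * m ∈ D.U := (D.dich s m hm).resolve_left h c

set_option linter.unusedVariables false in
omit [Infinite k] in
theorem w_mul_mem_of_asc {s : S} {m g : G} (hm : m ∈ D.N) (h : D.Asc s m) (hg : g ∈ D.cell m) :
    D.w s * g ∈ D.cell (D.w s * m) := by
  obtain ⟨u, hu, b, hb, rfl⟩ := hg
  exact ⟨_, D.right_mem' s hu, _, mul_mem (D.U_le_Bor (h (-D.cs s u⁻¹))) hb, by rw [x_neg]; group⟩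

omit [Infinite k] in
theorem w_mul_mem {s : S} {m g : G} (hm : m ∈ D.N) (hg : g ∈ D.cell m) :
    D.w s * g ∈ D.cell (D.w s * m) ∨ D.w s * g ∈ D.cell m := by
  by_cases h : D.Asc s m
  · exact .inl (D.w_mul_mem_of_asc hm h hg)
  obtain ⟨u, hu, b, hb, rfl⟩ := hg
  have h1 := D.right_mem' s hu
  by_cases hc : -D.cs s u⁻¹ = 0
  · rw [neg_eq_zero.1 hc, x_zero, mul_one] at h1
    exact .inl ⟨_, h1, b, hb, by group⟩
  have h2 := D.w_mul_x s (.mk0 _ hc)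
  rw [Units.val_mk0, x_neg] at h2
  have h3 := mul_inv_eq_of_eq_mul h2 ▸ mul_mem (D.U_le_Bor (D.xmem s _)) (D.ι_mem_Bor _)
  refine .inr ?_
  convert D.cell_mul_mem hm (mul_mem (D.U_le_Bor h1) h3) (D.mul_mem_cell (D.self_mem_cell m)
    (mul_mem (D.U_le_Bor (D.not_asc_y hm h ((Units.mk0 _ hc)⁻¹ : kˣ))) hb)) using 1
  group

omit [Infinite k] in
theorem exists_cell (g : G) : ∃ m ∈ D.N, g ∈ D.cell m := by
  have hg : g ∈ Subgroup.closure ((Set.range D.ι ∪ Set.range fun s => D.φ s ww) ∪ D.U) := by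
    rw [Subgroup.closure_union, ← D.N_eq, Subgroup.closure_eq, D.gen]
    trivial
  have h1 : ∀ s g, (∃ m ∈ D.N, g ∈ D.cell m) → ∃ m ∈ D.N, D.w s * g ∈ D.cell m :=
    fun s g ⟨m, hm, h⟩ => (D.w_mul_mem hm h).elim (fun h => ⟨_, mul_mem (D.w_mem s) hm, h⟩)
      fun h => ⟨m, hm, h⟩
  have h2 : ∀ b ∈ D.Bor, ∀ g, (∃ m ∈ D.N, g ∈ D.cell m) → ∃ m ∈ D.N, b * g ∈ D.cell m :=
    fun b hb g ⟨m, hm, h⟩ => ⟨m, hm, D.cell_mul_mem hm hb h⟩
  induction hg using Subgroup.closure_induction_left with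
  | one => exact ⟨1, one_mem _, D.self_mem_cell 1⟩
  | mul_left x hx g _ h =>
    rcases hx with (⟨t, rfl⟩ | ⟨s, rfl⟩) | hx
    exacts [h2 _ (D.ι_mem_Bor t) g h, h1 s g h, h2 _ (D.U_le_Bor hx) g h]
  | inv_mul_cancel x hx g _ h =>
    rcases hx with (⟨t, rfl⟩ | ⟨s, rfl⟩) | hx
    · exact h2 _ (inv_mem (D.ι_mem_Bor t)) g h
    · simpa [← w_mul_w, w] using h2 _ (inv_mem (D.ι_mem_Bor (D.cv s (-1)))) _ (h1 s g h)
    · exact h2 _ (inv_mem (D.U_le_Bor hx)) g h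

end Red

end

end Pool.Agent.Lib.MP_fc2ced_ag.R
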