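import Pool.Agent.Lib.MP_fc2ced_ag.R.BN1

/-! The BN-pair of a pinned reductive group: lengths, reduced words and cells. -/

open Matrix

set_option linter.unusedSectionVars false

namespace Pool.Agent.Lib.MP_fc2ced_ag.R

noncomputable section

variable {k : Type} [Field k] {G : Type} [Group G] {n r : ℕ} {S : Type} (D : Red k G n r S)

namespace Red

/-- The product of simple reflections attached to a word. -/
def wd {l : ℕ} (s : Fin l → S) : G := (List.ofFn fun i => D.w (s i)).prod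

/-- The parametrization of a cell. -/
def ψ {l : ℕ} (s : Fin l → S) (a : Fin l → k) : G :=
  (List.ofFn fun i => D.x (s i) (a i) * D.w (s i)).prod

/-- The product of elements of the groups `SL_2` attached to a word. -/
def pφ {l : ℕ} (s : Fin l → S) (g : Fin l → SpecialLinearGroup (Fin 2) k) : G :=
  (List.ofFn fun i => D.φ (s i) (g i)).prod

theorem wd_zero (s : Fin 0 → S) : D.wd s = 1 := rfl

theorem ψ_nil (s : Fin 0 → S) (a : Fin 0 → k) : D.ψ s a = 1 := rfl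

theorem pφ_nil (s : Fin 0 → S) (g : Fin 0 → SpecialLinearGroup (Fin 2) k) : D.pφ s g = 1 := rfl

theorem wd_succ {l : ℕ} (s : Fin (l + 1) → S) :
    D.wd s = D.w (s 0) * D.wd fun i => s i.succ := by simp [wd, List.ofFn_succ]

theorem ψ_succ {l : ℕ} (s : Fin (l + 1) → S) (a : Fin (l + 1) → k) :
    D.ψ s a = D.x (s 0) (a 0) * D.w (s 0) * D.ψ (fun i => s i.succ) fun i => a i.succ := by
  simp [ψ, List.ofFn_succ]

theorem pφ_succ {l : ℕ} (s : Fin (l + 1) → S) (g : Fin (l + 1) → SpecialLinearGroup (Fin 2) k) :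
    D.pφ s g = D.φ (s 0) (g 0) * D.pφ (fun i => s i.succ) fun i => g i.succ := by
  simp [pφ, List.ofFn_succ]

theorem ψ_eq_pφ {l : ℕ} (s : Fin l → S) (a : Fin l → k) :
    D.ψ s a = D.pφ s fun i => xx (a i) * ww := by simp [ψ, pφ, x, w]

theorem ψ_zero {l : ℕ} (s : Fin l → S) : D.ψ s 0 = D.wd s := by simp [ψ, wd, x_zero]

theorem wd_mem {l : ℕ} (s : Fin l → S) : D.wd s ∈ D.N :=
  list_prod_mem fun _ h => by obtain ⟨i, rfl⟩ := List.mem_ofFn.1 h; exact D.w_mem _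

/-- The length of an element of the normalizer of the torus. -/
def len (m : G) : ℕ := sInf {l | ∃ (s : Fin l → S) (t : Fin r → kˣ), m = D.wd s * D.ι t}

/-- `m` is the product of `l` simple reflections and an element of the torus. -/
def HasW (l : ℕ) (m : G) : Prop := ∃ (s : Fin l → S) (t : Fin r → kˣ), m = D.wd s * D.ι t

namespace BN2

theorem w_inv (s : S) : (D.w s)⁻¹ = D.w s * D.ι (D.cv s (-1))⁻¹ :=
  inv_eq_of_mul_eq_one_right (by rw [← mul_assoc, w_mul_w, ← map_mul, mul_inv_cancel, map_one])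

theorem w_inv' (s : S) : (D.w s)⁻¹ = D.ι (D.cv s (-1))⁻¹ * D.w s :=
  inv_eq_of_mul_eq_one_left (by rw [mul_assoc, w_mul_w, ← map_mul, inv_mul_cancel, map_one])

theorem swap {m : G} (hm : m ∈ D.N) (t : Fin r → kˣ) : ∃ t', D.ι t * m = m * D.ι t' := by
  obtain ⟨t', h⟩ := D.exists_cj (inv_mem hm) t
  exact ⟨t', by rw [h]; group⟩

variable {D} {l l' : ℕ} {m m' : G}

theorem mem (h : D.HasW l m) : m ∈ D.N := by
  obtain ⟨s, t, rfl⟩ := h
  exact mul_mem (D.wd_mem s) (D.ι_mem t)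

theorem zero_iff : D.HasW 0 m ↔ ∃ t, m = D.ι t :=
  ⟨fun ⟨s, t, h⟩ => ⟨t, by rw [h, wd_zero, one_mul]⟩,
    fun ⟨t, h⟩ => ⟨Fin.elim0, t, by rw [h, wd_zero, one_mul]⟩⟩

theorem cons (s : S) (h : D.HasW l m) : D.HasW (l + 1) (D.w s * m) := by
  obtain ⟨s', t, rfl⟩ := h
  exact ⟨Fin.cons s s', t, by simp [wd_succ, mul_assoc]⟩

theorem uncons (h : D.HasW (l + 1) m) : ∃ s m₁, D.HasW l m₁ ∧ m = D.w s * m₁ := by
  obtain ⟨s, t, rfl⟩ := h
  exact ⟨s 0, _, ⟨fun i => s i.succ, t, rfl⟩, by rw [wd_succ, mul_assoc]⟩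

theorem mul_ι (h : D.HasW l m) (t : Fin r → kˣ) : D.HasW l (m * D.ι t) := by
  obtain ⟨s, t', rfl⟩ := h
  exact ⟨s, t' * t, by rw [map_mul, mul_assoc]⟩

theorem ι_mul (h : D.HasW l m) (t : Fin r → kˣ) : D.HasW l (D.ι t * m) := by
  obtain ⟨t', e⟩ := swap D (mem h) t
  exact e ▸ mul_ι h t'

theorem mul (h : D.HasW l m) (h' : D.HasW l' m') : D.HasW (l + l') (m * m') := by
  induction l generalizing m with
  | zero =>
    obtain ⟨t, rfl⟩ := zero_iff.1 h
    simpa using ι_mul h' t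
  | succ l ih =>
    obtain ⟨s, m₁, h₁, rfl⟩ := uncons h
    rw [Nat.add_right_comm, mul_assoc]
    exact cons s (ih h₁)

theorem one_w (s : S) : D.HasW 1 (D.w s) := by
  simpa using cons s (zero_iff.2 ⟨1, (map_one D.ι).symm⟩ : D.HasW 0 1)

theorem one_w_inv (s : S) : D.HasW 1 (D.w s)⁻¹ := w_inv D s ▸ mul_ι (one_w s) _

theorem inv (h : D.HasW l m) : D.HasW l m⁻¹ := by
  induction l generalizing m with
  | zero =>
    obtain ⟨t, rfl⟩ := zero_iff.1 h
    exact zero_iff.2 ⟨t⁻¹, (map_inv _ _).symm⟩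
  | succ l ih =>
    obtain ⟨s, m₁, h₁, rfl⟩ := uncons h
    rw [_root_.mul_inv_rev]
    exact mul (ih h₁) (one_w_inv s)

theorem exists_hasW (hm : m ∈ D.N) : ∃ l, D.HasW l m := by
  rw [D.N_eq] at hm
  induction hm using Subgroup.closure_induction with
  | mem g hg =>
    rcases hg with ⟨t, rfl⟩ | ⟨s, rfl⟩
    · exact ⟨0, zero_iff.2 ⟨t, rfl⟩⟩
    · exact ⟨1, one_w s⟩
  | one => exact ⟨0, zero_iff.2 ⟨1, (map_one D.ι).symm⟩⟩
  | mul a b _ _ ha hb => exact ⟨_, mul ha.choose_spec hb.choose_spec⟩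
  | inv a _ ha => exact ⟨_, inv ha.choose_spec⟩

theorem len_le' (h : D.HasW l m) : D.len m ≤ l := Nat.sInf_le h

end BN2

open BN2

theorem exists_word {m : G} (hm : m ∈ D.N) :
    ∃ (s : Fin (D.len m) → S) (t : Fin r → kˣ), m = D.wd s * D.ι t :=
  Nat.sInf_mem (s := {l | D.HasW l m}) (exists_hasW hm)

theorem len_le {l : ℕ} (s : Fin l → S) (t : Fin r → kˣ) : D.len (D.wd s * D.ι t) ≤ l :=
  Nat.sInf_le ⟨s, t, rfl⟩

theorem len_mul_ι (m : G) (t : Fin r → kˣ) : D.len (m * D.ι t) = D.len m :=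
  congrArg sInf (Set.ext fun l => ⟨fun h => by
    have h1 : D.HasW l (m * D.ι t * D.ι t⁻¹) := mul_ι h t⁻¹
    have h2 : m * D.ι t * D.ι t⁻¹ = m := by rw [mul_assoc, ← map_mul, mul_inv_cancel, map_one, mul_one]
    rw [h2] at h1
    exact h1, fun h => mul_ι h t⟩)

theorem len_ι_mul {m : G} (hm : m ∈ D.N) (t : Fin r → kˣ) : D.len (D.ι t * m) = D.len m := by
  obtain ⟨t', e⟩ := swap D hm t
  rw [e, len_mul_ι]

theorem len_mul_le {m m' : G} (hm : m ∈ D.N) (hm' : m' ∈ D.N) :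
    D.len (m * m') ≤ D.len m + D.len m' :=
  len_le' (mul (D.exists_word hm) (D.exists_word hm'))

theorem len_inv {m : G} (hm : m ∈ D.N) : D.len m⁻¹ = D.len m :=
  le_antisymm (len_le' (inv (D.exists_word hm)))
    (by simpa using len_le' (inv (D.exists_word (inv_mem hm))))

theorem len_eq_zero {m : G} (hm : m ∈ D.N) : D.len m = 0 ↔ ∃ t, m = D.ι t :=
  ⟨fun h => zero_iff.1 (h ▸ D.exists_word hm), fun h => Nat.le_zero.1 (len_le' (zero_iff.2 h))⟩

namespace BN2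

variable {D} {m m' g : G}

theorem len_w_le (s : S) (hm : m ∈ D.N) : D.len (D.w s * m) ≤ D.len m + 1 :=
  len_le' (cons s (D.exists_word hm))

theorem le_len_w (s : S) (hm : m ∈ D.N) : D.len m ≤ D.len (D.w s * m) + 1 := by
  have h := len_w_le s (mul_mem (D.w_mem s) hm)
  rwa [← mul_assoc, w_mul_w, D.len_ι_mul hm] at h

theorem len_mul_w_le (s : S) (hm : m ∈ D.N) : D.len (m * D.w s) ≤ D.len m + 1 :=
  len_le' (mul (D.exists_word hm) (one_w s))

theorem mem_cell_of (h : g ∈ D.cell m) (h' : g ∈ D.cell m') : m' ∈ D.cell m := by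
  obtain ⟨u, hu, b, hb, rfl⟩ := h
  obtain ⟨u', hu', b', hb', e⟩ := h'
  exact ⟨u'⁻¹ * u, mul_mem (inv_mem hu') hu, b * b'⁻¹, mul_mem hb (inv_mem hb'), by
    rw [show u'⁻¹ * u * m * (b * b'⁻¹) = u'⁻¹ * (u * m * b) * b'⁻¹ by group, e]; group⟩

theorem inv_mem_cell (hm : m ∈ D.N) (h : g ∈ D.cell m) : g⁻¹ ∈ D.cell m⁻¹ := by
  obtain ⟨u, hu, b, hb, rfl⟩ := h
  rw [_root_.mul_inv_rev, _root_.mul_inv_rev]
  exact D.cell_mul_mem (inv_mem hm) (inv_mem hb)
    (D.mul_mem_cell (D.self_mem_cell _) (D.U_le_Bor (inv_mem hu)))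

theorem mul_w_mem (s : S) (hm : m ∈ D.N) (h : g ∈ D.cell m) :
    g * D.w s ∈ D.cell (m * D.w s) ∨ g * D.w s ∈ D.cell m := by
  have h1 := D.w_mul_mem (s := s) (inv_mem hm)
    (D.cell_mul_mem (inv_mem hm) (D.ι_mem_Bor (D.cv s (-1))⁻¹) (inv_mem_cell hm h))
  rw [← mul_assoc, ← w_inv, ← _root_.mul_inv_rev] at h1
  rcases h1 with h1 | h1
  · have h2 := inv_mem_cell (mul_mem (D.w_mem s) (inv_mem hm)) h1
    rw [inv_inv, _root_.mul_inv_rev, inv_inv, w_inv, ← mul_assoc, cell_mul_ι] at h2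
    exact .inl h2
  · exact .inr (by simpa using inv_mem_cell (inv_mem hm) h1)

theorem exists_of_le [Infinite k] {l : ℕ} (hm : m ∈ D.N) (hm' : D.HasW l m') (hl : l ≤ D.len m)
    (h : m' ∈ D.cell m) : ∃ t, m' = m * D.ι t := by
  induction l generalizing m m' with
  | zero =>
    obtain ⟨t', rfl⟩ := zero_iff.1 hm'
    obtain ⟨u, hu, b, hb, e⟩ := mem_cell_of (D.self_mem_cell _) h
    obtain ⟨t, rfl⟩ := D.exists_ι_of_mem
      (e ▸ mul_mem (mul_mem (D.U_le_Bor hu) (D.ι_mem_Bor t')) hb) hm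
    exact ⟨t⁻¹ * t', by rw [← map_mul, mul_inv_cancel_left]⟩
  | succ l ih =>
    obtain ⟨s, m₁, h₁, rfl⟩ := uncons hm'
    have h1 := D.w_mul_mem (s := s) hm (D.cell_mul_mem hm (D.ι_mem_Bor (D.cv s (-1))⁻¹) h)
    rw [← mul_assoc, ← w_inv, inv_mul_cancel_left] at h1
    rcases h1 with h1 | h1
    · obtain ⟨t, rfl⟩ := ih (mul_mem (D.w_mem s) hm) h₁ (by have := le_len_w s hm; omega) h1
      obtain ⟨t', e⟩ := swap D hm (D.cv s (-1))
      exact ⟨t' * t, by rw [← mul_assoc, ← mul_assoc, w_mul_w, e, map_mul, mul_assoc]⟩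
    · obtain ⟨t, rfl⟩ := ih hm h₁ (by omega) h1
      have := len_le' h₁
      rw [len_mul_ι] at this
      omega

end BN2

variable [Infinite k]

theorem exists_of_mem_cell {m m' : G} (hm : m ∈ D.N) (hm' : m' ∈ D.N) (h : m' ∈ D.cell m) :
    ∃ t, m' = m * D.ι t := by
  rcases le_total (D.len m') (D.len m) with hl | hl
  · exact exists_of_le hm (D.exists_word hm') hl h
  · obtain ⟨t, e⟩ := exists_of_le hm' (D.exists_word hm) hl (mem_cell_of (D.self_mem_cell _) h)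
    exact ⟨t⁻¹, by rw [e, map_inv, mul_inv_cancel_right]⟩

theorem exists_of_cell {m m' g : G} (hm : m ∈ D.N) (hm' : m' ∈ D.N) (h : g ∈ D.cell m)
    (h' : g ∈ D.cell m') : ∃ t, m' = m * D.ι t :=
  D.exists_of_mem_cell hm hm' (mem_cell_of h h')

namespace BN2

variable {D} {m g : G} {s : S}

theorem w_mul_mem_of_le {l : ℕ} (hm : m ∈ D.N) (hl : D.len m = l)
    (h : D.len m ≤ D.len (D.w s * m)) (hg : g ∈ D.cell m) : D.w s * g ∈ D.cell (D.w s * m) := by
  induction l generalizing m g with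
  | zero =>
    obtain ⟨t, rfl⟩ := (D.len_eq_zero hm).1 hl
    obtain ⟨u, hu, b, hb, rfl⟩ := hg
    rw [cell_mul_ι]
    exact D.mul_mem_cell (D.self_mem_cell _)
      (mul_mem (mul_mem (D.U_le_Bor hu) (D.ι_mem_Bor t)) hb)
  | succ l ih =>
    obtain ⟨s', m₂, h₂, e⟩ := uncons (hl ▸ inv (D.exists_word hm) : D.HasW (l + 1) m⁻¹)
    obtain ⟨m₁, h₁, rfl⟩ : ∃ m₁, D.HasW l m₁ ∧ m = m₁ * D.w s' :=
      ⟨_, mul_ι (inv h₂) (D.cv s' (-1))⁻¹, by
        rw [mul_assoc, ← w_inv', ← _root_.mul_inv_rev, ← e, inv_inv]⟩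
    have hm₁ := mem h₁
    have hw := mul_mem (D.w_mem s) hm₁
    have l1 := len_le' h₁
    have l2 := len_mul_w_le s' hm₁
    have l3 := len_mul_w_le s' hw
    rw [mul_assoc] at l3
    rcases D.w_mul_mem (s := s) hm hg with h1 | h1
    · exact h1
    obtain ⟨u, hu, b, hb, rfl⟩ := hg
    have h3 : D.w s * (u * m₁) ∈ D.cell (D.w s * m₁) :=
      ih hm₁ (by omega) (by omega) ⟨u, hu, 1, one_mem _, (mul_one _).symm⟩
    have e1 : D.w s * (u * (m₁ * D.w s') * b) = D.w s * (u * m₁) * D.w s' * b := by group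
    rcases mul_w_mem s' hw h3 with h4 | h4
    · rw [e1, ← mul_assoc (D.w s) m₁]
      exact D.mul_mem_cell h4 hb
    · obtain ⟨t, e2⟩ := D.exists_of_cell hm hw h1 (e1 ▸ D.mul_mem_cell h4 hb)
      obtain ⟨t', e3⟩ := swap D (D.w_mem s') t
      rw [← mul_assoc (D.w s), e2, mul_assoc _ (D.ι t), e3, ← mul_assoc, mul_assoc m₁, w_mul_w,
        len_mul_ι, len_mul_ι] at h
      omega

omit [Infinite k] in
theorem w_mul_x (s : S) : D.w s * D.x s 1 = D.x s (-1) * D.y s 1 := by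
  have h := D.x_mul_w s 1
  simp only [Units.val_one, inv_one, map_one, mul_one, x_neg] at h
  rw [x_neg, ← inv_mul_cancel_left (D.x s 1) (D.w s), h]
  group

theorem len_lt (hm : m ∈ D.N) (h : ¬ D.Asc s m) : D.len (D.w s * m) < D.len m := by
  by_contra! hl
  have h1 := w_mul_mem_of_le hm rfl hl
    (⟨D.x s 1, D.xmem s 1, 1, one_mem _, (mul_one _).symm⟩ : D.x s 1 * m ∈ D.cell m)
  have h2 : D.w s * (D.x s 1 * m) ∈ D.cell m :=
    ⟨_, D.xmem s (-1), _, D.U_le_Bor (D.not_asc_y hm h 1), by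
      rw [← mul_assoc, w_mul_x]; group⟩
  obtain ⟨t, e⟩ := D.exists_of_cell hm (mul_mem (D.w_mem s) hm) h2 h1
  obtain ⟨t', e'⟩ := D.exists_cj hm t
  exact D.w_not s t' 1 (one_mem _) (by rw [mul_one, e', ← e, mul_inv_cancel_right]; rfl)

theorem not_asc (hm : m ∈ D.N) (h : D.Asc s m) : ¬ D.Asc s (D.w s * m) := fun h' => by
  have h1 : m⁻¹ * D.y s 1 * m ∈ D.U := by
    have := h' (-1)
    rwa [show (D.w s * m)⁻¹ * D.x s (-1) * (D.w s * m) =
      m⁻¹ * ((D.w s)⁻¹ * D.x s (-1) * D.w s) * m by group, w_conj_x, neg_neg] at this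
  have h2 : m⁻¹ * D.w s * m ∈ D.U := by
    have e : D.w s = D.x s (-1) * D.y s 1 * D.x s (-1) := by
      rw [← w_mul_x, x_neg, mul_inv_cancel_right]
    rw [e, show m⁻¹ * (D.x s (-1) * D.y s 1 * D.x s (-1)) * m =
      m⁻¹ * D.x s (-1) * m * (m⁻¹ * D.y s 1 * m) * (m⁻¹ * D.x s (-1) * m) by group]
    exact mul_mem (mul_mem (h _) h1) (h _)
  have h3 := D.eq_one_of_mem_N h2 (mul_mem (mul_mem (inv_mem hm) (D.w_mem s)) hm)
  refine D.w_not s 1 1 (one_mem _) ?_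
  rw [map_one, mul_one]
  calc D.w s = m * (m⁻¹ * D.w s * m) * m⁻¹ := by group
    _ = 1 := by rw [h3, mul_one, mul_inv_cancel]

end BN2

theorem asc_iff {s : S} {m : G} (hm : m ∈ D.N) :
    D.Asc s m ↔ D.len (D.w s * m) = D.len m + 1 := by
  refine ⟨fun h => ?_, fun h => by_contra fun h' => by have := len_lt hm h'; omega⟩
  have h1 := len_lt (mul_mem (D.w_mem s) hm) (not_asc hm h)
  rw [← mul_assoc, w_mul_w, D.len_ι_mul hm] at h1
  have := len_w_le s hm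
  omega

theorem len_of_not_asc {s : S} {m : G} (hm : m ∈ D.N) (h : ¬ D.Asc s m) :
    D.len (D.w s * m) + 1 = D.len m := by
  have := len_lt hm h
  have := le_len_w s hm
  omega

theorem induction {p : G → Prop} (h1 : ∀ t, p (D.ι t))
    (hs : ∀ s, ∀ m ∈ D.N, D.Asc s m → p m → p (D.w s * m)) {m : G} (hm : m ∈ D.N) : p m := by
  obtain ⟨l, hl⟩ : ∃ l, D.len m = l := ⟨_, rfl⟩
  induction l generalizing m with
  | zero =>
    obtain ⟨t, rfl⟩ := (D.len_eq_zero hm).1 hl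
    exact h1 t
  | succ l ih =>
    obtain ⟨s, m₁, h₁, rfl⟩ := uncons (hl ▸ D.exists_word hm : D.HasW (l + 1) m)
    have l1 := len_le' h₁
    have l2 := len_w_le s (mem h₁)
    exact hs s m₁ (mem h₁) ((D.asc_iff (mem h₁)).2 (by omega)) (ih (mem h₁) (by omega))

theorem len_mul_n₀ {m : G} (hm : m ∈ D.N) : D.len (m * D.n₀) + D.len m = D.len D.n₀ := by
  refine D.induction (p := fun m => D.len (m * D.n₀) + D.len m = D.len D.n₀) (fun t => ?_)
    (fun s m hm h ih => ?_) hm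
  · rw [D.len_ι_mul D.n₀_mem, (D.len_eq_zero (D.ι_mem t)).2 ⟨t, rfl⟩, add_zero]
  · have h1 : ¬ D.Asc s (m * D.n₀) := fun h' => by
      have h2 := D.eq_one_of_conj (h 1) (by
        have := h' 1
        rwa [show (m * D.n₀)⁻¹ * D.x s 1 * (m * D.n₀) =
          D.n₀⁻¹ * (m⁻¹ * D.x s 1 * m) * D.n₀ by group] at this)
      refine one_ne_zero (D.x_inj s (?_ : D.x s 1 = D.x s 0))
      calc D.x s 1 = m * (m⁻¹ * D.x s 1 * m) * m⁻¹ := by group
        _ = D.x s 0 := by rw [h2, mul_one, mul_inv_cancel, x_zero]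
    have h2 := D.len_of_not_asc (mul_mem hm D.n₀_mem) h1
    have h3 := (D.asc_iff hm).1 h
    rw [mul_assoc]
    omega

theorem exists_n₀_sq : ∃ t, D.n₀ * D.n₀ = D.ι t :=
  (D.len_eq_zero (mul_mem D.n₀_mem D.n₀_mem)).1 (by have := D.len_mul_n₀ D.n₀_mem; omega)

end Red

end

end Pool.Agent.Lib.MP_fc2ced_ag.R
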