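import Pool.Agent.Lib.MP_fc2ced_ag.R.BN2

/-! The BN-pair of a pinned reductive group: parametrization of cells. -/

open Matrix

set_option linter.unusedSectionVars false

namespace Pool.Agent.Lib.MP_fc2ced_ag.R

noncomputable section

variable {k : Type} [Field k] {G : Type} [Group G] {n r : ℕ} {S : Type} (D : Red k G n r S)

namespace Red

variable [Infinite k]

theorem bn3_wd {l : ℕ} (s : Fin l → S) : D.len (D.wd s) ≤ l := by simpa using D.len_le s 1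

theorem bn3_w (s : S) : D.len (D.w s) ≤ 1 := by simpa [wd] using D.bn3_wd fun _ : Fin 1 => s

theorem bn3_red {l : ℕ} (s : Fin (l + 1) → S) {m : G} (hm : m ∈ D.N)
    (h : D.len (D.wd s * m) = l + 1 + D.len m) :
    D.len ((D.wd fun i => s i.succ) * m) = l + D.len m ∧
      D.Asc (s 0) ((D.wd fun i => s i.succ) * m) := by
  have h0 := mul_mem (D.wd_mem fun i => s i.succ) hm
  have h1 := D.len_mul_le (D.w_mem (s 0)) h0
  have h2 := D.len_mul_le (D.wd_mem fun i => s i.succ) hm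
  have h3 := D.bn3_wd fun i => s i.succ
  have h4 := D.bn3_w (s 0)
  rw [wd_succ, mul_assoc] at h
  exact ⟨by omega, (D.asc_iff h0).2 (by omega)⟩

theorem bn3_key {s : S} {m g g' : G} {c : k} (hm : m ∈ D.N) (h : D.Asc s m) (hg : g ∈ D.cell m)
    (hg' : g' ∈ D.cell m) (e : D.x s c * (D.w s * g) = D.w s * g') : c = 0 := by
  by_contra hc
  obtain ⟨u, rfl⟩ : ∃ u : kˣ, -((u⁻¹ : kˣ) : k) = c :=
    ⟨(Units.mk0 _ (neg_ne_zero.2 hc))⁻¹, by simp⟩
  have h1 := D.cell_mul_mem (mul_mem (D.w_mem s) hm) (D.U_le_Bor (D.xmem s u))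
    (D.w_mul_mem_of_asc hm h (D.cell_mul_mem hm (inv_mem (mul_mem (D.ι_mem_Bor (D.cv s u))
      (D.U_le_Bor (D.xmem s (-((u⁻¹ : kˣ) : k)))))) hg))
  rw [← mul_assoc, x_mul_w, mul_assoc (D.y _ _), mul_assoc, mul_inv_cancel_left,
    ← neg_neg ((u⁻¹ : kˣ) : k), ← w_conj_x, mul_assoc, mul_assoc, e, inv_mul_cancel_left] at h1
  obtain ⟨t, ht⟩ := D.exists_of_cell hm (mul_mem (D.w_mem s) hm) hg' h1
  have h2 := (D.asc_iff hm).1 h
  rw [ht, len_mul_ι] at h2
  omega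

theorem ψ_mul_mem {l : ℕ} (s : Fin l → S) {m g : G} (hm : m ∈ D.N)
    (h : D.len (D.wd s * m) = l + D.len m) (a : Fin l → k) (hg : g ∈ D.cell m) :
    D.ψ s a * g ∈ D.cell (D.wd s * m) := by
  induction l with
  | zero => simpa only [ψ_nil, wd_zero, one_mul] using hg
  | succ l ih =>
    obtain ⟨h1, h2⟩ := D.bn3_red s hm h
    have h0 := mul_mem (D.wd_mem fun i => s i.succ) hm
    rw [ψ_succ, wd_succ, mul_assoc, mul_assoc, mul_assoc]
    exact D.cell_mul_mem (mul_mem (D.w_mem _) h0) (D.U_le_Bor (D.xmem _ _))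
      (D.w_mul_mem_of_asc h0 h2 (ih _ h1 _))

theorem conj_ψ_mem {l : ℕ} (s : Fin l → S) {m : G} (hm : m ∈ D.N)
    (h : D.len (m * D.wd s) = D.len m + l) (a : Fin l → k) :
    m * (D.ψ s a * (D.wd s)⁻¹) * m⁻¹ ∈ D.U := by
  induction l generalizing m with
  | zero => simpa only [ψ_nil, wd_zero, inv_one, mul_one, mul_inv_cancel] using one_mem D.U
  | succ l ih =>
    have h0 := mul_mem hm (D.w_mem (s 0))
    have h1 := D.len_mul_le h0 (D.wd_mem fun i => s i.succ)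
    have h2 := D.len_mul_le hm (D.w_mem (s 0))
    have h3 := D.bn3_wd fun i => s i.succ
    have h4 := D.bn3_w (s 0)
    rw [wd_succ, ← mul_assoc] at h
    have h5 : D.Asc (s 0) m⁻¹ := (D.asc_iff (inv_mem hm)).2 (by
      rw [← D.len_inv (mul_mem (D.w_mem _) (inv_mem hm)), ← D.len_mul_ι _ (D.cv (s 0) (-1)),
        ← w_mul_w, D.len_inv hm, _root_.mul_inv_rev, inv_inv, mul_assoc, inv_mul_cancel_left]
      omega)
    convert mul_mem (h5 (a 0)) (ih (fun i => s i.succ) h0 (by omega) fun i => a i.succ) using 1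
    rw [ψ_succ, wd_succ]
    group

theorem ψ_unique {l : ℕ} (s : Fin l → S) {m g g' : G} (hm : m ∈ D.N)
    (h : D.len (D.wd s * m) = l + D.len m) {a a' : Fin l → k} (hg : g ∈ D.cell m)
    (hg' : g' ∈ D.cell m) (e : D.ψ s a * g = D.ψ s a' * g') : a = a' := by
  induction l with
  | zero => exact Subsingleton.elim _ _
  | succ l ih =>
    obtain ⟨h1, h2⟩ := D.bn3_red s hm h
    rw [ψ_succ, ψ_succ, mul_assoc, mul_assoc, mul_assoc, mul_assoc, ← inv_mul_eq_iff_eq_mul,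
      ← mul_assoc, ← x_neg, ← x_add] at e
    have h3 := D.bn3_key (mul_mem (D.wd_mem _) hm) h2 (D.ψ_mul_mem _ hm h1 _ hg)
      (D.ψ_mul_mem _ hm h1 _ hg') e
    rw [h3, x_zero, one_mul, mul_right_inj] at e
    exact funext (Fin.cases (neg_add_eq_zero.1 h3).symm (congrFun (ih _ h1 e)))

omit [Infinite k] in
theorem exists_ψ {l : ℕ} (s : Fin l → S) {u : G} (hu : u ∈ D.U) :
    ∃ a, ∃ u' ∈ D.U, u * D.wd s = D.ψ s a * u' := by
  induction l generalizing u with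
  | zero => exact ⟨0, u, hu, by rw [ψ_nil, wd_zero, mul_one, one_mul]⟩
  | succ l ih =>
    obtain ⟨a, u', hu', e⟩ := ih (fun i => s i.succ) (D.left_mem (s 0) hu)
    refine ⟨Fin.cons (D.cs (s 0) u) a, u', hu', ?_⟩
    simp only [ψ_succ, wd_succ, Fin.cons_zero, Fin.cons_succ]
    rw [mul_assoc, ← e, x_neg]
    group

omit [Infinite k] in
theorem bn3_up (s : S) {g : SpecialLinearGroup (Fin 2) k} (h : g 1 0 = 0) :
    ∃ t c, D.φ s g = D.ι t * D.x s c := by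
  have h1 := g.det_coe
  rw [det_fin_two, h, mul_zero, sub_zero] at h1
  refine ⟨D.cv s (Units.mkOfMulEqOne _ _ h1), g 1 1 * g 0 1, ?_⟩
  rw [ι_cv, x, ← map_mul]
  congr 1
  ext i j
  fin_cases i <;> fin_cases j <;>
    simp [dd, xx, mul_apply, Fin.sum_univ_two, h, ← mul_assoc, h1, Units.mkOfMulEqOne]

omit [Infinite k] in
theorem bn3_big (s : S) {g : SpecialLinearGroup (Fin 2) k} (h : g 1 0 ≠ 0) :
    ∃ t c, D.φ s g = D.x s (g 0 0 / g 1 0) * (D.w s * (D.ι t * D.x s c)) := by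
  obtain ⟨t, c, e⟩ := D.bn3_up s (g := (xx (g 0 0 / g 1 0) * ww)⁻¹ * g) (by
    simp [xx, ww, mul_apply, Fin.sum_univ_two, adjugate_fin_two, h])
  exact ⟨t, c, by rw [← e, map_mul, map_inv, map_mul, ← mul_assoc, x, w, mul_inv_cancel_left]⟩

theorem bn3_cell {l : ℕ} (s : Fin l → S) (g : Fin l → SpecialLinearGroup (Fin 2) k) :
    ∃ v ∈ D.N, D.len v ≤ l ∧ D.pφ s g ∈ D.cell v := by
  induction l with
  | zero => exact ⟨_, D.wd_mem s, D.bn3_wd s, D.self_mem_cell _⟩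
  | succ l ih =>
    obtain ⟨v, hv, h1, h2⟩ := ih (fun i => s i.succ) fun i => g i.succ
    have hb := fun t c => mul_mem (D.ι_mem_Bor t) (D.U_le_Bor (D.xmem (s 0) c))
    rw [pφ_succ]
    by_cases h : g 0 1 0 = 0
    · obtain ⟨t, c, e⟩ := D.bn3_up (s 0) h
      exact ⟨v, hv, by omega, e ▸ D.cell_mul_mem hv (hb t c) h2⟩
    obtain ⟨t, c, e⟩ := D.bn3_big (s 0) h
    rw [e, mul_assoc, mul_assoc]
    have h3 := D.len_mul_le (D.w_mem (s 0)) hv
    have h4 := D.bn3_w (s 0)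
    have h5 := mul_mem (D.w_mem (s 0)) hv
    exact (D.w_mul_mem (s := s 0) hv (D.cell_mul_mem hv (hb t c) h2)).elim
      (fun k => ⟨_, h5, by omega, D.cell_mul_mem h5 (D.U_le_Bor (D.xmem _ _)) k⟩)
      fun k => ⟨v, hv, by omega, D.cell_mul_mem hv (D.U_le_Bor (D.xmem _ _)) k⟩

/-- The fibre of a Bott-Samelson variety over the centre of the open cell. -/
theorem eq_zero_of_pφ {l : ℕ} (s : Fin l → S) (h : D.len (D.wd s) = l)
    (g : Fin l → SpecialLinearGroup (Fin 2) k) (hg : (D.wd s)⁻¹ * D.pφ s g ∈ D.Bor) (i : Fin l) :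
    g i 0 0 = 0 := by
  induction l with
  | zero => exact i.elim0
  | succ l ih =>
    have h0 : D.len 1 = 0 := (D.len_eq_zero (one_mem _)).2 ⟨1, (map_one _).symm⟩
    obtain ⟨h1, h2⟩ := D.bn3_red s (one_mem _) (by rw [mul_one, h, h0])
    rw [mul_one] at h1 h2
    rw [h0, add_zero] at h1
    obtain ⟨v, hv, h3, h4⟩ := D.bn3_cell (fun i => s i.succ) fun i => g i.succ
    have hb := fun t c => mul_mem (D.ι_mem_Bor t) (D.U_le_Bor (D.xmem (s 0) c))
    have h5 := D.mul_mem_cell (D.self_mem_cell (D.wd s)) hg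
    rw [mul_inv_cancel_left] at h5
    have h6 : D.pφ s g ∉ D.cell v := fun k => by
      obtain ⟨t, e⟩ := D.exists_of_cell hv (D.wd_mem s) k h5
      rw [e, len_mul_ι] at h
      omega
    rw [pφ_succ] at h5 h6 hg
    have h7 : g 0 1 0 ≠ 0 := fun k => by
      obtain ⟨t, c, e⟩ := D.bn3_up (s 0) k
      exact h6 (e ▸ D.cell_mul_mem hv (hb t c) h4)
    obtain ⟨t, c, e⟩ := D.bn3_big (s 0) h7
    rw [e, mul_assoc, mul_assoc] at h5 h6 hg
    have h8 := D.cell_mul_mem hv (hb t c) h4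
    have h9 := mul_mem (D.w_mem (s 0)) hv
    obtain ⟨t', e'⟩ := D.exists_of_cell h9 (D.wd_mem s) (D.cell_mul_mem h9
      (D.U_le_Bor (D.xmem _ _)) ((D.w_mul_mem (s := s 0) hv h8).resolve_right fun k =>
        h6 (D.cell_mul_mem hv (D.U_le_Bor (D.xmem _ _)) k))) h5
    rw [wd_succ, mul_assoc, mul_right_inj] at e'
    rw [← D.cell_mul_ι v t', ← e'] at h8
    have k1 := D.bn3_key (D.wd_mem _) h2 h8 (D.mul_mem_cell (D.self_mem_cell _) hg)
      (by rw [← mul_assoc (D.w (s 0)) (D.wd _), ← wd_succ, mul_inv_cancel_left])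
    refine Fin.cases ((div_eq_zero_iff.1 k1).resolve_right h7) (ih _ h1 (fun i => g i.succ) ?_) i
    obtain ⟨t'', e''⟩ := D.exists_cj (inv_mem (D.wd_mem fun i => s i.succ)) t
    convert mul_mem (inv_mem (mul_mem (e'' ▸ D.ι_mem_Bor t'') (D.U_le_Bor (h2 c)))) hg using 1
    rw [k1, x_zero, wd_succ]
    group

/-- The initial products of a word. -/
def pre : ∀ {l : ℕ}, (Fin l → S) → Fin l → D.N
  | 0, _ => Fin.elim0
  | _ + 1, s => Fin.cons 1 fun i => pre (fun i => s i.succ) i * ⟨_, D.w_mem (s 0)⟩⁻¹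

/-- The weights of the torus on a cell. -/
def wt {l : ℕ} (s : Fin l → S) (i : Fin l) : (Fin r → kˣ) →* kˣ :=
  (D.al (s i)).comp (D.cj (D.pre s i))

omit [Infinite k] in
theorem wt_apply {l : ℕ} (s : Fin l → S) (i : Fin l) (t : Fin r → kˣ) :
    D.wt s i t = D.al (s i) (D.cj (D.pre s i) t) := rfl

omit [Infinite k] in
theorem wt_zero {l : ℕ} (s : Fin (l + 1) → S) (t : Fin r → kˣ) : D.wt s 0 t = D.al (s 0) t := by
  simp [wt_apply, pre, cj_one]

omit [Infinite k] in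
theorem wt_succ {l : ℕ} (s : Fin (l + 1) → S) (i : Fin l) (t : Fin r → kˣ) :
    D.wt s i.succ t = D.wt (fun i => s i.succ) i (D.cj ⟨_, D.w_mem (s 0)⟩⁻¹ t) := by
  simp [wt_apply, pre, cj_mul]

omit [Infinite k] in
theorem ι_mul_ψ {l : ℕ} (s : Fin l → S) (t : Fin r → kˣ) (a : Fin l → k) : D.ι t * D.ψ s a =
    D.ψ s (fun i => D.wt s i t * a i) * D.ι (D.cj ⟨_, D.wd_mem s⟩⁻¹ t) := by
  induction l generalizing t with
  | zero => rw [ψ_nil, ψ_nil, ι_cj]; simp [wd_zero]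
  | succ l ih =>
    have e : (⟨_, D.wd_mem s⟩ : D.N) = ⟨_, D.w_mem (s 0)⟩ * ⟨_, D.wd_mem fun i => s i.succ⟩ :=
      Subtype.ext (D.wd_succ s)
    simp only [ψ_succ, wt_zero, wt_succ, e, _root_.mul_inv_rev, cj_mul]
    rw [mul_assoc _ _ (D.ι _), ← ih, ← conj_x, ι_cj]
    simp [mul_assoc]

omit [Infinite k] in
theorem cj_w_inv (s : S) (t : Fin r → kˣ) :
    D.cj ⟨_, D.w_mem s⟩⁻¹ t = t * D.cv s (D.al s t)⁻¹ := by
  refine D.ι_inj ?_
  have h := D.conj_φ s t ww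
  have e : cd (D.al s t) (ww : SpecialLinearGroup (Fin 2) k) = ww * dd (D.al s t)⁻¹ := by
    ext i j; fin_cases i <;> fin_cases j <;> simp [cd, ww, dd, mul_apply, Fin.sum_univ_two]
  rw [e, map_mul, ← D.ι_cv, mul_inv_eq_iff_eq_mul, mul_assoc, ← map_mul, mul_comm (D.cv s _)] at h
  rw [ι_cj, mul_assoc]
  exact inv_mul_eq_iff_eq_mul.2 ((congrArg _ (inv_inv _)).trans h)

end Red

end

end Pool.Agent.Lib.MP_fc2ced_ag.R
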