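import Pool.Agent.Lib.MP_fc2ced_ag.R.BN3

/-! The BN-pair of a pinned reductive group: the Weyl group and the open cell. -/

open Matrix

set_option linter.unusedSectionVars false

namespace Pool.Agent.Lib.MP_fc2ced_ag.R

noncomputable section

variable {k : Type} [Field k] {G : Type} [Group G] {n r : ℕ} {S : Type} (D : Red k G n r S)

namespace Red

variable [Infinite k]

/-- The Weyl group. -/
def W : Type := D.N ⧸ D.ι.range.subgroupOf D.N

/-- The length of an element of the Weyl group. -/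
def lw (v : D.W) : ℕ := D.len (Quotient.out v : D.N)

/-- A reduced word. -/
def sw (v : D.W) : Fin (D.lw v) → S := (D.exists_word (Quotient.out v : D.N).2).choose

/-- Representatives of the elements of the Weyl group. -/
def ν (v : D.W) : G := D.wd (D.sw v)

omit [Infinite k] in
theorem ν_mem (v : D.W) : D.ν v ∈ D.N := D.wd_mem _

omit [Infinite k] in
theorem out_eq (v : D.W) : ∃ t, ((Quotient.out v : D.N) : G) = D.ν v * D.ι t :=
  (D.exists_word (Quotient.out v : D.N).2).choose_spec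

omit [Infinite k] in
theorem mk_ν (v : D.W) :
    (QuotientGroup.mk ⟨D.ν v, D.ν_mem v⟩ : D.N ⧸ D.ι.range.subgroupOf D.N) = v := by
  obtain ⟨t, ht⟩ := D.out_eq v
  refine Eq.trans (QuotientGroup.eq.2 ?_) (Quotient.out_eq v)
  refine Subgroup.mem_subgroupOf.2 ⟨t, ?_⟩
  rw [Subgroup.coe_mul, ht]
  simp

omit [Infinite k] in
theorem exists_cj' {m : G} (hm : m ∈ D.N) (t : Fin r → kˣ) :
    ∃ t', D.ι t' = m⁻¹ * D.ι t * m := by
  simpa using D.exists_cj (inv_mem hm) t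

omit [Infinite k] in
theorem mem_cell_one {g : G} : g ∈ D.cell 1 ↔ g ∈ D.Bor :=
  ⟨fun ⟨u, hu, b, hb, e⟩ => e ▸ mul_mem (mul_mem (D.U_le_Bor hu) (one_mem _)) hb,
    fun h => ⟨1, one_mem _, g, h, by simp⟩⟩

omit [Infinite k] in
theorem len_one : D.len 1 = 0 := (D.len_eq_zero (one_mem _)).2 ⟨1, by simp⟩

omit [Infinite k] in
theorem len_ν (v : D.W) : D.len (D.ν v) = D.lw v := by
  obtain ⟨t, ht⟩ := D.out_eq v
  rw [← D.len_mul_ι _ t, ← ht, lw]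

omit [Infinite k] in
theorem exists_ν {m : G} (hm : m ∈ D.N) : ∃ v t, m = D.ν v * D.ι t := by
  obtain ⟨⟨h, hh⟩, e⟩ := QuotientGroup.mk_out_eq_mul (D.ι.range.subgroupOf D.N) ⟨m, hm⟩
  obtain ⟨t', ht'⟩ := Subgroup.mem_subgroupOf.1 hh
  obtain ⟨t, ht⟩ := D.out_eq (QuotientGroup.mk ⟨m, hm⟩ : D.N ⧸ D.ι.range.subgroupOf D.N)
  refine ⟨(QuotientGroup.mk ⟨m, hm⟩ : D.N ⧸ D.ι.range.subgroupOf D.N), t * t'⁻¹, ?_⟩
  rw [map_mul, ← mul_assoc, ← ht, map_inv, ht', eq_mul_inv_iff_mul_eq]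
  exact (congrArg Subtype.val e).symm

omit [Infinite k] in
theorem ν_inj {v v' : D.W} {t : Fin r → kˣ} (h : D.ν v' = D.ν v * D.ι t) : v' = v := by
  rw [← D.mk_ν v, ← D.mk_ν v', eq_comm]
  refine QuotientGroup.eq.2 (Subgroup.mem_subgroupOf.2 ⟨t, ?_⟩)
  rw [Subgroup.coe_mul]
  simp [h]

theorem finite_W [Finite S] : Finite D.W := by
  have h := (List.finite_length_le S (D.len D.n₀)).to_subtype
  refine Finite.of_injective (β := {l : List S | l.length ≤ D.len D.n₀})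
    (fun v => ⟨List.ofFn (D.sw v), ?_⟩) fun v v' e => ?_
  · have h1 := D.len_mul_n₀ (D.ν_mem v)
    rw [D.len_ν] at h1
    simp only [Set.mem_ofPred_eq, List.length_ofFn]
    omega
  · have h1 : ∀ v, D.ν v = ((List.ofFn (D.sw v)).map D.w).prod := fun v => by
      rw [List.map_ofFn]; rfl
    have h2 : List.ofFn (D.sw v) = List.ofFn (D.sw v') := congrArg Subtype.val e
    exact D.ν_inj (t := 1) (by rw [h1, h1, h2, map_one, mul_one])

instance [Finite S] : Fintype D.W := @Fintype.ofFinite _ D.finite_W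

omit [Infinite k] in
theorem exists_cl (g : G) : ∃ v, g ∈ D.cell (D.ν v) := by
  obtain ⟨m, hm, hg⟩ := D.exists_cell g
  obtain ⟨v, t, rfl⟩ := D.exists_ν hm
  exact ⟨v, D.cell_mul_ι _ t ▸ hg⟩

/-- The cell that contains an element. -/
def cl (g : G) : D.W := (D.exists_cl g).choose

theorem mem_cell_iff {g : G} {v : D.W} : g ∈ D.cell (D.ν v) ↔ D.cl g = v := by
  refine ⟨fun h => ?_, fun h => h ▸ (D.exists_cl g).choose_spec⟩
  obtain ⟨t, ht⟩ := D.exists_of_cell (D.ν_mem v) (D.ν_mem _) h (D.exists_cl g).choose_spec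
  exact D.ν_inj ht

/-- The number of positive roots. -/
def NN : ℕ := D.lw (D.cl D.n₀)

/-- A reduced word of the longest element. -/
def s₀ : Fin D.NN → S := D.sw (D.cl D.n₀)

/-- The longest element. -/
def n₁ : G := D.wd D.s₀

omit [Infinite k] in
theorem n₁_mem : D.n₁ ∈ D.N := D.wd_mem _

omit [Infinite k] in
theorem len_n₁ : D.len D.n₁ = D.NN := D.len_ν _

theorem exists_n₀ : ∃ t, D.n₀ = D.n₁ * D.ι t := by
  exact D.exists_of_mem_cell D.n₁_mem D.n₀_mem (D.mem_cell_iff.2 rfl)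

omit [Infinite k] in
theorem δ_ne_iff (g : G) : D.δ g ≠ 0 ↔ g ∈ D.cell D.n₀ := by
  constructor
  · intro h
    obtain ⟨t, u, hu, u', hu', rfl⟩ := D.δ_ne g h
    exact ⟨u, hu, _, ⟨t, u', hu', rfl⟩, by simp [mul_assoc]⟩
  · rintro ⟨u, hu, _, ⟨t, u', hu', rfl⟩, rfl⟩
    obtain ⟨χ, hχ⟩ := D.δ_cell
    rw [← mul_assoc, hχ t u hu u' hu']
    exact Units.ne_zero _

theorem δ_ne_iff' (g : G) : D.δ g ≠ 0 ↔ g ∈ D.cell D.n₁ := by
  obtain ⟨t, ht⟩ := D.exists_n₀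
  rw [D.δ_ne_iff, ht, D.cell_mul_ι]

theorem exists_compl (v : D.W) :
    ∃ (l : ℕ) (s : Fin l → S), D.len (D.wd s * D.ν v) = l + D.lw v ∧
      ∃ t, D.wd s * D.ν v = D.n₀ * D.ι t := by
  have hm : D.n₀ * (D.ν v)⁻¹ ∈ D.N := mul_mem D.n₀_mem (inv_mem (D.ν_mem v))
  obtain ⟨s, t, e⟩ := D.exists_word hm
  obtain ⟨t', ht'⟩ := D.exists_cj' (D.ν_mem v) t
  obtain ⟨t₀, h0⟩ := D.exists_n₀_sq
  have e1 : D.wd s * D.ν v = D.n₀ * D.ι t'⁻¹ := by
    rw [map_inv, ht', eq_mul_inv_iff_mul_eq]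
    refine Eq.trans ?_ (mul_inv_eq_iff_eq_mul.1 e).symm
    simp [mul_assoc]
  have e2 : (D.n₀ * (D.ν v)⁻¹)⁻¹ = D.ν v * D.n₀ * D.ι t₀⁻¹ := by
    rw [map_inv, ← h0]
    simp [mul_assoc]
  refine ⟨_, s, ?_, _, e1⟩
  rw [e1, D.len_mul_ι, ← D.len_inv hm, e2, D.len_mul_ι, ← D.len_ν, D.len_mul_n₀ (D.ν_mem v)]

/-- The coordinates on the unipotent radical. -/
def ξ (a : Fin D.NN → k) : D.U :=
  ⟨D.ψ D.s₀ a * D.n₁⁻¹, by simpa [n₁] using D.conj_ψ_mem D.s₀ (one_mem _) (by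
    simpa [(D.len_eq_zero (one_mem _)).2 ⟨1, by simp⟩, n₁] using D.len_n₁) a⟩

theorem ξ_val (a : Fin D.NN → k) : (D.ξ a : G) = D.ψ D.s₀ a * D.n₁⁻¹ := rfl

theorem ξ_zero : D.ξ 0 = 1 := Subtype.ext (by simp [ξ_val, ψ_zero, n₁])

theorem eq_one_of_conj' {u : G} (hu : u ∈ D.U) (h : D.n₁⁻¹ * u * D.n₁ ∈ D.U) : u = 1 := by
  obtain ⟨t, ht⟩ := D.exists_n₀
  refine D.eq_one_of_conj hu ?_
  have := D.norm' t h
  rw [ht]
  simpa [mul_assoc] using this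

theorem ξ_bij : Function.Bijective D.ξ := by
  refine ⟨fun a a' e => ?_, fun u => ?_⟩
  · have e1 : D.ψ D.s₀ a = D.ψ D.s₀ a' := mul_right_cancel (congrArg Subtype.val e)
    refine D.ψ_unique D.s₀ (one_mem _) ?_ (D.self_mem_cell 1) (D.self_mem_cell 1) (by rw [e1])
    rw [mul_one, D.len_one]
    exact D.len_n₁
  · obtain ⟨a, u', hu', e⟩ := D.exists_ψ D.s₀ u.2
    refine ⟨a, Subtype.ext (inv_mul_eq_one.1 (D.eq_one_of_conj'
      (mul_mem (inv_mem (D.ξ a).2) u.2) ?_))⟩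
    have e1 : D.n₁⁻¹ * ((D.ξ a : G)⁻¹ * u) * D.n₁ = u' := by
      rw [ξ_val, mul_assoc, mul_assoc, show (u : G) * D.n₁ = _ from e]
      simp [mul_assoc]
    rwa [e1]

theorem conj_ξ (t : Fin r → kˣ) (a : Fin D.NN → k) :
    D.ι t * D.ξ a * (D.ι t)⁻¹ = D.ξ fun i => D.wt D.s₀ i t * a i := by
  rw [ξ_val, ξ_val, ← mul_assoc, D.ι_mul_ψ, D.ι_cj]
  simp [n₁, mul_assoc]

theorem big_unique {u u' v v' : G} (hu : u ∈ D.U) (hu' : u' ∈ D.U) (hv : v ∈ D.U)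
    (hv' : v' ∈ D.U) {t t' : Fin r → kˣ} (h : u * D.n₁ * D.ι t * v = u' * D.n₁ * D.ι t' * v') :
    u = u' ∧ t = t' ∧ v = v' := by
  obtain ⟨t₀, h0⟩ := D.exists_n₀
  obtain ⟨π, τ, M, hb, -⟩ := D.big
  have e : ∀ (u v : G) (t : Fin r → kˣ),
      u * D.n₁ * D.ι t * v = u * D.n₀ * D.ι (t₀⁻¹ * t) * v := fun u v t => by
    rw [h0, map_mul, map_inv]
    simp [mul_assoc]
  have h1 := hb (t₀⁻¹ * t) u hu v hv
  have h2 := hb (t₀⁻¹ * t') u' hu' v' hv'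
  rw [← e, h] at h1
  rw [← e] at h2
  obtain rfl : u = u' := h1.1.symm.trans h2.1
  obtain rfl : t = t' := mul_left_cancel (h1.2.symm.trans h2.2)
  exact ⟨rfl, rfl, mul_left_cancel h⟩

/-- The only point fixed by the torus in a chart is its centre. -/
theorem eq_of_chart {v v' : D.W} {a : Fin D.NN → k}
    (h : (D.ν v' * D.n₁)⁻¹ * (D.ν v * D.ξ a * D.n₁) ∈ D.Bor) : v' = v ∧ a = 0 := by
  have hm : (D.ν v)⁻¹ * D.ν v' * D.n₁ ∈ D.N :=
    mul_mem (mul_mem (inv_mem (D.ν_mem v)) (D.ν_mem v')) D.n₁_mem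
  have h1 : (D.ξ a : G) * D.n₁ ∈ D.cell D.n₁ := ⟨_, (D.ξ a).2, 1, one_mem _, by simp⟩
  have h2 : (D.ξ a : G) * D.n₁ ∈ D.cell ((D.ν v)⁻¹ * D.ν v' * D.n₁) :=
    ⟨1, one_mem _, _, h, by simp [mul_assoc]⟩
  obtain ⟨t, ht⟩ := D.exists_of_cell D.n₁_mem hm h1 h2
  obtain ⟨t', ht'⟩ := D.exists_cj D.n₁_mem t
  obtain rfl : v' = v := D.ν_inj (t := t') (by rw [ht', ← ht]; simp [mul_assoc])
  obtain ⟨t₁, u, hu, e⟩ := h
  have e1 : (D.ξ a : G) * D.n₁ * D.ι 1 * 1 = 1 * D.n₁ * D.ι t₁ * u := by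
    rw [mul_assoc (1 * D.n₁), ← e]
    simp [mul_assoc]
  have e2 := (D.big_unique (D.ξ a).2 (one_mem _) (one_mem _) hu e1).1
  exact ⟨rfl, D.ξ_bij.1 (Subtype.ext (by rw [e2, ξ_zero]; rfl))⟩

theorem eq_of_coset {v v' : D.W} {g : G} (h : (D.ν v * D.n₁)⁻¹ * g ∈ D.Bor)
    (h' : (D.ν v' * D.n₁)⁻¹ * g ∈ D.Bor) : v' = v := by
  refine (D.eq_of_chart (a := 0) ?_).1
  have := mul_mem h' (inv_mem h)
  rw [ξ_zero]
  simpa [mul_assoc] using this

/-- The fixed points of a regular element of the torus on the flag variety. -/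
theorem fixed_iff {t : Fin r → kˣ} (ht : ∀ s m, D.al s (D.cj m t) ≠ 1) (g : G) :
    g⁻¹ * D.ι t * g ∈ D.Bor ↔ ∃ v, (D.ν v * D.n₁)⁻¹ * g ∈ D.Bor := by
  constructor
  · intro h
    obtain ⟨v, u, hu, b, hb, rfl⟩ := D.exists_cl g
    obtain ⟨a, u', hu', e⟩ := D.exists_ψ (D.sw v) hu
    have hb' : u' * b ∈ D.Bor := mul_mem (D.U_le_Bor hu') hb
    rw [show u * D.ν v = _ from e, mul_assoc _ u'] at h ⊢
    generalize u' * b = b' at h hb'
    have e1 : (fun i => D.wt (D.sw v) i t * a i) = a := by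
      refine D.ψ_unique (D.sw v) (one_mem _) ?_
        (D.mem_cell_one.2 (mul_mem (D.ι_mem_Bor (D.cj ⟨_, D.wd_mem (D.sw v)⟩⁻¹ t)) hb'))
        (D.mem_cell_one.2 (mul_mem hb' h)) ?_
      · rw [mul_one, D.len_one]
        exact D.len_ν v
      · rw [← mul_assoc, ← D.ι_mul_ψ]
        simp [mul_assoc]
    obtain rfl : a = 0 := funext fun i => by
      by_contra h0
      have h1 : (D.wt (D.sw v) i t : k) = 1 :=
        mul_right_cancel₀ h0 ((congrFun e1 i).trans (one_mul _).symm)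
      exact ht _ _ (Units.val_eq_one.1 h1)
    obtain ⟨v', t₁, e2⟩ := D.exists_ν (mul_mem (D.ν_mem v) (inv_mem D.n₁_mem))
    obtain ⟨t₂, e3⟩ := D.exists_cj' D.n₁_mem t₁
    refine ⟨v', ?_⟩
    have e4 : (D.ν v' * D.n₁)⁻¹ * (D.ψ (D.sw v) 0 * b') = D.ι t₂ * b' := by
      rw [e3, ψ_zero, show D.wd (D.sw v) = _ from mul_inv_eq_iff_eq_mul.1 e2]
      simp [mul_assoc]
    rw [e4]
    exact mul_mem (D.ι_mem_Bor _) hb'
  · rintro ⟨v, h⟩
    obtain ⟨t', e⟩ := D.exists_cj' (mul_mem (D.ν_mem v) D.n₁_mem) t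
    have := mul_mem (mul_mem (inv_mem h) (D.ι_mem_Bor t')) h
    rw [e] at this
    simpa [mul_assoc] using this

/-- The Borel subgroup is the complement of finitely many translates of the open cell. -/
theorem exists_not_mem_Bor [Finite S] :
    ∃ M : Set G, M.Finite ∧ ∀ g, g ∉ D.Bor ↔ ∃ m ∈ M, D.δ (m * g) ≠ 0 := by
  choose l s h1 t h2 using D.exists_compl
  refine ⟨(fun v => D.wd (s v)) '' {v | D.ν v ∉ D.Bor}, (Set.toFinite _).image _, fun g => ?_⟩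
  constructor
  · intro hg
    obtain ⟨v, hv⟩ := D.exists_cl g
    refine ⟨_, ⟨v, fun hb => hg ?_, rfl⟩, ?_⟩
    · obtain ⟨u, hu, b, hb', rfl⟩ := hv
      exact mul_mem (mul_mem (D.U_le_Bor hu) hb) hb'
    · have := D.ψ_mul_mem (s v) (D.ν_mem v) (by rw [h1, D.len_ν]) 0 hv
      rwa [ψ_zero, h2, D.cell_mul_ι, ← D.δ_ne_iff] at this
  · rintro ⟨_, ⟨v, hv, rfl⟩, h⟩ hg
    obtain ⟨t', e⟩ := D.exists_of_cell (D.wd_mem (s v)) D.n₀_mem
      (D.mul_mem_cell (D.self_mem_cell _) hg) ((D.δ_ne_iff _).1 h)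
    have e1 := h2 v
    rw [e, mul_assoc, ← map_mul] at e1
    exact hv (mul_left_cancel e1 ▸ D.ι_mem_Bor _)

/-- Regular elements. -/
theorem exists_regular [Finite S] (P : Subgroup G) (hP : ∀ s g, D.φ s g ∈ P) :
    ∃ t, D.ι t ∈ P ∧ ∀ s m, D.al s (D.cj m t) ≠ 1 := by
  have := Fintype.ofFinite S
  by_contra hc
  push Not at hc
  have hν : ∀ v, D.ν v ∈ P := fun v => list_prod_mem fun _ h => by
    obtain ⟨i, rfl⟩ := List.mem_ofFn.1 h
    exact hP _ _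
  let χ : S × D.W → (P.comap D.ι →* kˣ) := fun p =>
    ((D.al p.1).comp (D.cj ⟨_, D.ν_mem p.2⟩)).comp (P.comap D.ι).subtype
  obtain ⟨p, -, hp⟩ := Subgroup.exists_finiteIndex_of_leftCoset_cover (s := Finset.univ)
    (H := fun p => (χ p).ker) (g := fun _ => 1) (by
      refine Set.eq_univ_of_forall fun t => ?_
      obtain ⟨s, m, h⟩ := hc t t.2
      obtain ⟨v, t', e⟩ := D.exists_ν m.2
      have e1 : D.cj ⟨_, D.ν_mem v⟩ t = D.cj m t := D.ι_inj (by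
        rw [ι_cj, ι_cj, e, mul_assoc (D.ν v) (D.ι t'), ← map_mul, mul_comm t', map_mul]
        simp [mul_assoc])
      refine Set.mem_iUnion₂.2 ⟨(s, v), Finset.mem_univ _, t, ?_, one_smul _ _⟩
      exact (congrArg (D.al s) e1).trans h)
  have hN : 2 * (χ p).ker.index ≠ 0 := mul_ne_zero two_ne_zero hp.index_ne_zero
  have h1 : ∀ a : kˣ, a ^ (2 * (χ p).ker.index) = 1 := fun a => by
    have h2 : D.cj ⟨_, D.ν_mem p.2⟩⁻¹ (D.cv p.1 a) ∈ P.comap D.ι := by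
      rw [Subgroup.mem_comap, ι_cj, ι_cv]
      exact mul_mem (mul_mem (inv_mem (hν _)) (hP _ _)) (inv_mem (inv_mem (hν _)))
    have h3 : χ p ⟨_, h2⟩ = a ^ 2 := by
      rw [← D.al_cv p.1 a]
      exact congrArg (D.al p.1) ((D.cj_mul _ _ _).symm.trans (by rw [mul_inv_cancel, cj_one]))
    rw [pow_mul, ← h3, ← map_pow]
    exact (χ p).ker.pow_index_mem _
  have : NeZero (2 * (χ p).ker.index) := ⟨hN⟩
  have : Finite kˣ := Finite.of_injective
    (fun a => (⟨a, h1 a⟩ : rootsOfUnity (2 * (χ p).ker.index) k)) fun a b e => congrArg Subtype.val e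
  refine Set.infinite_univ (α := k) (((Set.finite_range (Units.val : kˣ → k)).insert 0).subset ?_)
  intro c _
  by_cases h0 : c = 0
  · exact .inl h0
  · exact .inr ⟨Units.mk0 c h0, rfl⟩

end Red

end

end Pool.Agent.Lib.MP_fc2ced_ag.R
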