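import Pool.Agent.Lib.MP_fc2ced_ag.R.Quo

/-! Associated bundles. -/

open Function Set

namespace Pool.Agent.Lib.MP_fc2ced_ag.E

open Var R

noncomputable section

variable {k : Type} [Field k] [IsAlgClosed k] {Q X R E Y : Type} [Var k Q] [Var k X] [Var k R]
  [Var k E] [Var k Y] {H : Type} [Group H] [Var k H] {ι : Type} [Finite ι]

/-- The action on a sum of characters. -/
def lin (χ : ι → H →* kˣ) (h : H) (v : ι → k) : ι → k := fun i => χ i h * v i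

theorem hAct_lin {χ : ι → H →* kˣ} (hχ : ∀ i, Rg k (χ i)) : HAct k (lin χ) :=
  ⟨.pi fun i => ((hχ i).comp Rg.id.fst).val.mul ((Rg.apply i).comp Rg.id.snd),
    fun _ => funext fun _ => by simp [lin], fun _ _ _ => funext fun _ => by simp [lin, mul_assoc]⟩

theorem VB.isOp {p : E → Y} {nz : Set E} (V : VB k p ι nz) : IsOp k nz := by
  refine isOp_of_cover fun x hx => ?_
  obtain ⟨b, hb⟩ := V.cover (p x)
  obtain ⟨i, hi⟩ := Function.ne_iff.1 ((V.mem b x hb).1 hx)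
  have h : RgOn k {e | V.f b (p e) ≠ 0} fun e => V.s b e i :=
    fun _ _ _ hj hU => (Rg.apply i).comp ((V.rg_s b).rg hj hU)
  exact ⟨_, h.isOp (.ne ((V.rg_f b).comp V.rg)) (.ne (f := fun c : k => c) .id), ⟨hb, hi⟩,
    fun e he => (V.mem b e he.1).2 (Function.ne_iff.2 ⟨i, he.2⟩)⟩

theorem VB.oimm {p : E → Y} {nz : Set E} (V : VB k p ι nz) (b : V.I) {val : R → Y}
    (hv : IsLoc val (V.f b)) : OImm k (fun x : R × (ι → k) => V.r b (val x.1, x.2)) ∧
      range (fun x : R × (ι → k) => V.r b (val x.1, x.2)) = {e | V.f b (p e) ≠ 0} := by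
  have h0 : ∀ x, V.f b (val x) ≠ 0 := fun x => (hv.range _).1 ⟨x, rfl⟩
  have h1 : range (fun x : R × (ι → k) => V.r b (val x.1, x.2)) = {e | V.f b (p e) ≠ 0} := by
    refine Set.ext fun e => ⟨?_, fun he => ?_⟩
    · rintro ⟨x, rfl⟩
      exact (congrArg (V.f b) (V.p_r b _ _ (h0 _))).trans_ne (h0 _)
    · obtain ⟨x, hx⟩ := (hv.range _).2 he
      exact ⟨(x, V.s b e), (congrArg (fun y => V.r b (y, V.s b e)) hx).trans (V.r_s b e he)⟩
  refine ⟨⟨(V.rg_r b).rg ((hv.rg_val.comp Rg.id.fst).pair Rg.id.snd) fun x => h0 x.1,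
    fun x y e => Prod.ext (hv.inj ?_) ?_, h1 ▸ .ne ((V.rg_f b).comp V.rg), fun he => ?_⟩, h1⟩
  · exact (V.p_r b _ _ (h0 _)).symm.trans ((congrArg p e).trans (V.p_r b _ _ (h0 _)))
  · exact (V.s_r b _ _ (h0 _)).symm.trans ((congrArg (V.s b) e).trans (V.s_r b _ _ (h0 _)))
  · exact ((hv.lift ((V.rg.comp he).congr fun _ => (V.p_r b _ _ (h0 _)).symm)).pair
      ((V.rg_s b).rg he fun _ => h1.le ⟨_, rfl⟩)).congr fun _ =>
        Prod.ext rfl (V.s_r b _ _ (h0 _)).symm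

theorem IsQuo.exists_vb [GVar k H] {a : H → Q → Q} {π : Q → X} (h : IsQuo k a π)
    {χ : ι → H →* kˣ} (hχ : ∀ i, Rg k (χ i)) {πE : Q × (ι → k) → E}
    (hE : IsQuo k (fun g (x : Q × (ι → k)) => (a g x.1, lin χ g x.2)) πE) :
    ∃ (p : E → X) (nz : Set E) (V : VB k p ι nz) (σ : V.I → X → Q),
      (∀ x, p (πE x) = π x.1) ∧ (∀ x, πE x ∈ nz ↔ x.2 ≠ 0) ∧
      (∀ b, RgOn k {x | V.f b x ≠ 0} (σ b)) ∧ (∀ b x, V.r b x = πE (σ b x.1, x.2)) ∧
      ∀ b y, V.f b (π y) ≠ 0 → ∃ c : ι → kˣ, ∀ v i, V.s b (πE (y, v)) i = c i * v i := by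
  have hl := hAct_lin hχ
  choose f hf hf0 σ ρ hσ hρ h1 h2 h3 using h.loc
  obtain ⟨t, ht⟩ := exists_finite_cover (k := k) fun x => IsOp.ne (hf x)
  obtain ⟨p, hp⟩ := hE.exists_desc (fun x => π x.1) univ fun g y _ => h.inv g y.1
  replace hp : ∀ x, p (πE x) = π x.1 := fun x => hp x trivial
  have l0 : ∀ g v, lin χ g v = 0 ↔ v = 0 := fun g v => by simp [funext_iff, lin]
  obtain ⟨nz, hnz⟩ := hE.exists_set {x | x.2 ≠ 0} fun g y hy e => hy ((l0 _ _).1 e)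
  choose s hs using fun b => hE.exists_desc (fun x => lin χ (ρ b x.1)⁻¹ x.2)
    {x | f b (π x.1) ≠ 0} fun g y hy => by
      rw [h3 b g _ hy, ← hl.mul, mul_inv_rev, inv_mul_cancel_right]
  have h4 : ∀ b x, f b x ≠ 0 → f b (π (σ b x)) ≠ 0 := fun b x hx => by rwa [h1 b x hx]
  have h5 : ∀ b x, f b x ≠ 0 → ρ b (σ b x) = 1 := fun b x hx => by
    have e := h3 b (ρ b (σ b x)) _ (h4 b x hx)
    have e' := h2 b _ (h4 b x hx)
    rw [h1 b x hx] at e'
    rw [e'] at e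
    exact left_eq_mul.1 e
  have hsurj := hE.sec.surj
  refine ⟨p, nz,
    { I := t
      f := fun b => f b
      s := fun b => s b
      r := fun b x => πE (σ b x.1, x.2)
      g := fun a b x i => (χ i (ρ a (σ b x)))⁻¹
      rg := hE.sec.rg_of ((h.rg.comp Rg.id.fst).congr hp)
      rg_f := fun b => hf b
      cover := fun y => (ht y ⟨y, hf0 y⟩).elim fun b hb => ⟨⟨b, hb.1⟩, hb.2⟩
      rg_s := fun b => hE.sec.rgOn fun _ _ j hj hU => ?_
      rg_r := fun b _ _ _ hj hU => hE.rg.comp (((hσ b).rg hj.fst hU).pair hj.snd)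
      rg_g := fun a b _ _ j hj hU => .pi fun i => ((hχ i).comp ((hρ a).rg
        ((hσ b).rg hj fun r => (hU r).2) fun r =>
          (congrArg (f a) (h1 b _ (hU r).2)).trans_ne (hU r).1)).units_inv
      p_r := fun b y v hy => (hp _).trans (h1 b y hy)
      s_r := fun b y v hy => ?_
      r_s := fun b e he => ?_
      mem := fun b e he => ?_
      trans := fun a b e i ha hb => ?_ }, fun b => σ b, hp, hnz, fun b => hσ b, fun _ _ => rfl,
    fun b y hy => ⟨fun i => χ i (ρ b y)⁻¹, fun v i => congrFun (hs b (y, v) hy) i⟩⟩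
  · have hU' : ∀ r, f b (π (j r).1) ≠ 0 := fun r => hp (j r) ▸ hU r
    exact (hl.rg.comp (((hρ b).rg hj.fst hU').ginv.pair hj.snd)).congr fun r => hs b _ (hU' r)
  · rw [hs b (σ b y, v) (h4 b y hy), h5 b y hy, inv_one, hl.one]
  · obtain ⟨x, rfl⟩ := hsurj e
    rw [hp] at he
    rw [hs b x he, hp]
    exact (hE.eq _ _).2 ⟨ρ b x.1, Prod.ext (h2 b _ he) (by
      rw [← hl.mul, mul_inv_cancel, hl.one])⟩
  · obtain ⟨x, rfl⟩ := hsurj e
    rw [hp] at he
    rw [hs b x he, hnz]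
    exact (l0 _ _).not.symm
  · obtain ⟨x, rfl⟩ := hsurj e
    rw [hp] at ha hb
    have e := h3 a (ρ b x.1) (σ b (π x.1)) (by rwa [h1 b _ hb])
    rw [h2 b _ hb] at e
    rw [hs a x ha, hs b x hb, hp, e]
    simp [lin, mul_assoc]

end

end Pool.Agent.Lib.MP_fc2ced_ag.E
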