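import Pool.Agent.Lib.MP_fc2ced_ag.R.MTd
import Pool.Agent.Lib.MP_fc2ced_ag.R.Quo2

/-! The Thom isomorphism for sums of line bundles. -/

open CategoryTheory CategoryTheory.Limits CategoryTheory.Pretriangulated Function Set
open PiTensorProduct renaming tprod → tp
open scoped TensorProduct

namespace Pool.Agent.Lib.MP_fc2ced_ag.E

open Var R Ob Pair Pr

noncomputable section

variable {k : Type} [Field k] [IsAlgClosed k] {F : Type} [Field F] {P Q R : Type} [Var k P]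
  [Var k Q] [Var k R] {X : Pr k P} {Y : Pr k Q} {Z : Pr k R} {e e' : P → Q} (Θ : Theory k F)

variable {E Y : Type} [Var k E] [Var k Y] {p : E → Y} {ι : Type} [Finite ι] {nz : Set E}

namespace ThomAux

theorem exists_fs {A J : Type} [Finite J] (u : J → A) :
    ∃ s : Finset A, ∀ q : A → Prop, (∃ f ∈ s, q f) ↔ ∃ j, q (u j) :=
  ⟨(finite_range u).toFinset, fun q => by simp⟩

theorem g_mul (V : VB k p ι nz) {a b c : V.I} {y : Y} (ha : V.f a y ≠ 0) (hb : V.f b y ≠ 0)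
    (hc : V.f c y ≠ 0) (i : ι) : (V.g a c y i : k) = V.g a b y i * V.g b c y i := by
  have e := V.p_r c y 1 hc
  have h1 := V.trans a b (V.r c (y, 1)) i (by rwa [e]) (by rwa [e])
  have h2 := V.trans b c (V.r c (y, 1)) i (by rwa [e]) (by rwa [e])
  have h3 := V.trans a c (V.r c (y, 1)) i (by rwa [e]) (by rwa [e])
  rw [h2, h3, e, V.s_r c y 1 hc] at h1
  simpa using h1

theorem g_self (V : VB k p ι nz) {b : V.I} {y : Y} (hb : V.f b y ≠ 0) (i : ι) :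
    (V.g b b y i : k) = 1 :=
  (mul_left_cancel₀ (V.g b b y i).ne_zero ((mul_one _).trans (g_mul V hb hb hb i))).symm

/-- Global functions that give the charts and the transition functions. -/
structure Dat (V : VB k p ι nz) where
  M : ℕ
  m : ι → V.I → V.I → B k Y
  n : ι → V.I → B k E
  pos : M ≠ 0
  hm : ∀ i a b y, pt y (m i a b) = (V.f b y * V.f a y) ^ M * V.g b a y i
  hn : ∀ i b x, pt x (n i b) = V.f b (p x) ^ M * V.s b x i

theorem exists_dat (V : VB k p ι nz) : Nonempty (Dat V) := by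
  have h1 := fun x : ι × V.I × V.I => RgOn.exists_pow ((V.rg_f x.2.2).mul (V.rg_f x.2.1))
    (g := fun y => (V.g x.2.2 x.2.1 y x.1 : k)) fun _ _ _ hj hU => ((Rg.apply x.1).comp
      ((V.rg_g _ _).rg hj fun r => mul_ne_zero_iff.1 (hU r))).val
  have h2 := fun x : ι × V.I => RgOn.exists_pow ((V.rg_f x.2).comp V.rg)
    (g := fun y => V.s x.2 y x.1) fun _ _ _ hj hU => (Rg.apply x.1).comp ((V.rg_s _).rg hj hU)
  choose M₁ h1 using h1
  choose M₂ h2 using h2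
  obtain ⟨A, hA⟩ := (finite_range M₁).bddAbove
  obtain ⟨A', hA'⟩ := (finite_range M₂).bddAbove
  exact ⟨⟨A + A' + 1, fun i a b => fn _, fun i b => fn _, by omega,
    fun i a b => pt_fn (h1 (i, a, b) _ ((hA ⟨_, rfl⟩).trans (by omega))),
    fun i b => pt_fn (h2 (i, b) _ ((hA' ⟨_, rfl⟩).trans (by omega)))⟩⟩

variable {V : VB k p ι nz} (D : Dat V)

section Alg
variable {O : Type} [CommRing O] [Algebra k O]

theorem Dat.mm (y : Pt k Y O) (i : ι) (a b c : V.I) :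
    y (D.m i b c) * y (D.m i a b) = y (D.m i b b) * y (D.m i a c) := by
  rw [← map_mul, ← map_mul]
  refine congrArg y (B_ext fun y => ?_)
  simp only [map_mul, D.hm]
  by_cases ha : V.f a y = 0
  · simp [ha, D.pos]
  by_cases hb : V.f b y = 0
  · simp [hb, D.pos]
  by_cases hc : V.f c y = 0
  · simp [hc, D.pos]
  rw [g_mul V hc hb ha, g_self V hb]
  ring

theorem Dat.mn (x : Pt k E O) (i : ι) (b c : V.I) :
    V.rg.pm x (D.m i b c) * x (D.n i b) = V.rg.pm x (D.m i b b) * x (D.n i c) := by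
  rw [V.rg.pm_apply, V.rg.pm_apply, ← map_mul, ← map_mul]
  refine congrArg x (B_ext fun y => ?_)
  rw [map_mul, map_mul, pt_fn ((rg_pt _).comp V.rg), pt_fn ((rg_pt _).comp V.rg)]
  simp only [D.hm, D.hn]
  by_cases hb : V.f b (p y) = 0
  · simp [hb, D.pos]
  by_cases hc : V.f c (p y) = 0
  · simp [hc, D.pos]
  rw [V.trans c b y i hc hb, g_self V hb]
  ring

theorem Dat.unit_m {y : Pt k Y O} (i : ι) {b c : V.I} (hb : IsUnit (y (fn (V.f b))))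
    (hc : IsUnit (y (fn (V.f c)))) : IsUnit (y (D.m i b c)) := by
  have := ((Pt.in_of_fn (V.rg_f b) hb fun _ h => h).inter
    (Pt.in_of_fn (V.rg_f c) hc fun _ h => h)).isUnit (rg_pt (D.m i b c)) fun y h => by
      rw [D.hm]
      exact mul_ne_zero (pow_ne_zero _ (mul_ne_zero h.2 h.1)) (Units.ne_zero _)
  rwa [fn_pt] at this

theorem Dat.unit_f {x : Pt k E O} {i : ι} {b : V.I} (h : IsUnit (x (D.n i b))) :
    IsUnit (V.rg.pm x (fn (V.f b))) := by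
  rw [V.rg.pm_fn (V.rg_f b)]
  refine Pt.In.isUnit (U := {y | pt y (D.n i b) ≠ 0}) ⟨_, fun _ h => h, h⟩
    ((V.rg_f b).comp V.rg) fun y hy h0 => hy ?_
  rw [D.hn, h0, zero_pow D.pos, zero_mul]

theorem Dat.unit_n {x : Pt k E O} {i : ι} {b c : V.I} (h : IsUnit (x (D.n i b)))
    (hc : IsUnit (V.rg.pm x (fn (V.f c)))) : IsUnit (x (D.n i c)) :=
  isUnit_of_mul_isUnit_right (D.mn x i b c ▸ (D.unit_m i (D.unit_f h) hc).mul h)

/-- The coordinates of the map to the projective space. -/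
def Dat.v (b : V.I) (y : Pt k Y O) (i : ι) : Option V.I → O :=
  fun a => a.elim 0 fun a => y (D.m i a b)

theorem Dat.unit_v {y : Pt k Y O} {b : V.I} (hb : IsUnit (y (fn (V.f b)))) (i : ι) :
    ∃ a, IsUnit (D.v b y i a) := ⟨some b, D.unit_m i hb hb⟩

theorem Dat.map_v {O' : Type} [CommRing O'] [Algebra k O'] (g : O →ₐ[k] O') (b : V.I)
    (y : Pt k Y O) (i : ι) (a : Option V.I) : g (D.v b y i a) = D.v b (g.comp y) i a := by
  cases a
  exacts [map_zero g, rfl]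

end Alg

variable {T : Ob k F} {κ : (tP k).ob F ⟶ T} {Φ : ∀ ⦃O : Aic k⦄, (Option V.I → O) → O → T.V O}

/-- The Thom class on points. -/
def Dat.Om (Φ : ∀ ⦃O : Aic k⦄, (Option V.I → O) → O → T.V O)
    (ω : ∀ ⦃O : Aic k⦄, Pt k E O → (T.pow ι).V O) : Prop :=
  ∀ ⦃O : Aic k⦄ (x : Pt k E O) (b : V.I), IsUnit (V.rg.pm x (fn (V.f b))) →
    ω x = tp F fun i => Φ (D.v b (V.rg.pm x) i) (x (D.n i b))

theorem Dat.exists_om (h : Thom (Option V.I) none T κ Φ) : ∃ ω, D.Om Φ ω := by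
  classical
  refine ⟨fun O x => if hx : ∃ b, IsUnit (V.rg.pm x (fn (V.f b))) then
    tp F fun i => Φ (D.v hx.choose (V.rg.pm x) i) (x (D.n i hx.choose)) else 0,
    fun O x c hc => ?_⟩
  have hx : ∃ b, IsUnit (V.rg.pm x (fn (V.f b))) := ⟨c, hc⟩
  have hb := hx.choose_spec
  simp only [dif_pos hx]
  generalize hx.choose = b at hb
  refine congrArg (tp F) (funext fun i => ?_)
  rw [← h.smul _ _ _ (D.unit_v hb i) (D.unit_m i hb hc),
    ← h.smul _ _ _ (D.unit_v hc i) (D.unit_m i hb hb), D.mn]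
  refine congrArg (Φ · _) (funext fun a => ?_)
  cases a
  exacts [(mul_zero _).trans (mul_zero _).symm, D.mm _ _ _ _ _]

variable {D} {ω : ∀ ⦃O : Aic k⦄, Pt k E O → (T.pow ι).V O}

theorem Dat.Om.isLift (hω : D.Om Φ ω) (h : Thom (Option V.I) none T κ Φ) {X : Fn k} {A : Pair X}
    {C : Pair (.spec k (B k E))} {q : ∀ ⦃O : Aic k⦄, Pt k E O → X.X O}
    (hq : ∀ ⦃O O' : Aic k⦄ (g : O →ₐ[k] O') (x : Pt k E O), X.map g (q x) = q (g.comp x))
    (n : ∀ ⦃O : Aic k⦄ (x : Pt k E O), C.N x → A.N (q x) ∧ ∃ b, IsUnit (V.rg.pm x (fn (V.f b))))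
    (d : ∀ ⦃O : Aic k⦄ (x : Pt k E O), C.D x → A.D (q x) ∨ ∃ i b, IsUnit (x (D.n i b))) :
    IsLift C ((A.ob F).ten (T.pow ι)) fun _ x => A.cl F (q x) ⊗ₜ ω x := by
  refine ⟨fun _ x _ hd => ?_, fun _ _ g x hx => ?_⟩
  · rcases d x hd with hd | ⟨i, b, hd⟩
    · rw [A.cl_dead hd, TensorProduct.zero_tmul]
    · rw [hω x b (D.unit_f hd), (tp F).map_coord_zero i
        (h.dead _ _ (D.unit_v (D.unit_f hd) i) hd), TensorProduct.tmul_zero]
  · obtain ⟨h1, b, hb⟩ := n x hx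
    rw [TensorProduct.map_tmul, map_cl g h1, hq, hω x b hb, hω (g.comp x) b (hb.map g),
      PiTensorProduct.map_tprod]
    refine congrArg (fun z => _ ⊗ₜ tp F z) (funext fun i => ?_)
    rw [h.nat g _ _ (D.unit_v hb i), funext (D.map_v g b _ i)]
    rfl

omit [IsAlgClosed k] in
theorem uiso_fam {I : Type} [Finite I] {i₀ : I} {Φ : ∀ ⦃O : Aic k⦄, (I → O) → O → T.V O}
    (h : Thom I i₀ T κ Φ) {X : Fn k} {A : Pair X} (hA : Con (A.ob F))
    (v : ∀ ⦃O⦄, X.X O → ι → I → O) (u : ∀ ⦃O⦄, X.X O → ι → O) {b : I} (hb : b ≠ i₀)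
    (hv : ∀ ⦃O O' : Aic k⦄ (g : O →ₐ[k] O') (x : X.X O), A.N x → ∀ i j,
      g (v x i j) = v (X.map g x) i j)
    (hu : ∀ ⦃O O' : Aic k⦄ (g : O →ₐ[k] O') (x : X.X O), A.N x → ∀ i,
      g (u x i) = u (X.map g x) i)
    (hvb : ∀ ⦃O⦄ (x : X.X O), A.N x → ∀ i, IsUnit (v x i b) ∧ IsUnit (u x i)) :
    ∃ l : IsLift (A.prod ((tP k).pi ι)) ((A.ob F).ten (T.pow ι))
      fun _ x => A.cl F x.1 ⊗ₜ tp F fun i => Φ (v x.1 i) (u x.1 i * x.2 i), UIso l.hom :=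
  ⟨Phi2.isLift_fam h v u hv hu fun _ x hx i => ⟨⟨b, (hvb x hx i).1⟩, (hvb x hx i).2⟩,
    .of_null_sub (h.null_chart hA v u (fun _ => b) (fun _ => hb) hv hu hvb _ _)
      (h.uiso_std hA ι)⟩

section Chart
variable {O : Type} [CommRing O] [Algebra k O] {b : V.I}

theorem in_chart {x : Pt k E O} (hx : IsUnit (V.rg.pm x (fn (V.f b)))) :
    x.In {y | V.f b (p y) ≠ 0} :=
  Pt.in_of_fn ((V.rg_f b).comp V.rg) (V.rg.pm_fn (V.rg_f b) x ▸ hx) fun _ h => h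

theorem in_pair {y : Pt k Y O} (hy : IsUnit (y (fn (V.f b)))) (z : Pt k (ι → k) O) :
    (y.pair z).In {x | V.f b x.1 ≠ 0} :=
  Pt.in_of_fn ((V.rg_f b).comp Rg.id.fst) (by
    rwa [← (Rg.id (k := k)).fst.pm_fn (V.rg_f b), Pt.fst_pair]) fun _ h => h

variable [Nontrivial O]

theorem pm_comp {U : Set P} {U' : Set Q} {d : Q → R} {c : P → R} (h : RgOn k U e)
    (h' : RgOn k U' d) (h'' : Rg k c) (he : ∀ y ∈ U, d (e y) = c y) {x : Pt k P O} (hx : x.In U)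
    (hx' : (h.pm x).In U') : h'.pm (h.pm x) = h''.pm x :=
  (h.pm_comp h' (h''.rgOn U) (fun y hy _ _ => he y hy) hx hx' hx).trans
    ((h''.rgOn U).pm_eq h'' (fun _ _ => rfl) hx)

theorem Dat.n_eq (D : Dat V) {x : Pt k E O} (hx : IsUnit (V.rg.pm x (fn (V.f b)))) (i : ι) :
    x (D.n i b) = V.rg.pm x (fn (V.f b)) ^ D.M * (V.rg_s b).pm x (fn fun v => v i) := by
  have := (V.rg_s b).pm_fn (Rg.apply i) (rg_pt (D.n i b)) (((V.rg_f b).comp V.rg).pow D.M)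
    (fun y _ => D.hn i b y) (in_chart hx)
  rwa [fn_pt, fn_pow ((V.rg_f b).comp V.rg), map_pow, ← V.rg.pm_fn (V.rg_f b)] at this

theorem chart_left {x : Pt k E O} (hx : IsUnit (V.rg.pm x (fn (V.f b)))) :
    (V.rg_r b).pm ((V.rg.pm x).pair ((V.rg_s b).pm x)) = x := by
  have h := (V.rg.rgOn _).pm_pair (V.rg_s b) (in_chart hx)
  rw [(V.rg.rgOn _).pm_eq V.rg (fun _ _ => rfl) (in_chart hx)] at h
  have h' := in_pair hx ((V.rg_s b).pm x)
  rw [← h] at h' ⊢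
  exact (pm_comp _ _ .id (fun y hy => V.r_s b y hy) (in_chart hx) h').trans
    (Rg.pm_id _ (fun _ => rfl) x)

theorem chart_right {y : Pt k Y O} (hy : IsUnit (y (fn (V.f b)))) (z : Pt k (ι → k) O) :
    ∃ x : Pt k E O, V.rg.pm x = y ∧ (V.rg_s b).pm x = z := by
  have h : V.rg.pm ((V.rg_r b).pm (y.pair z)) = y := by
    rw [← (V.rg.rgOn univ).pm_eq V.rg (fun _ _ => rfl) (Pt.in_univ _),
      pm_comp _ _ Rg.id.fst (fun w hw => V.p_r b w.1 w.2 hw) (in_pair hy z) (Pt.in_univ _),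
      Pt.fst_pair]
  refine ⟨_, h, ?_⟩
  rw [pm_comp _ _ Rg.id.snd (fun w hw => V.s_r b w.1 w.2 hw) (in_pair hy z)
    (in_chart (h.symm ▸ hy)), Pt.snd_pair]

end Chart

variable (D) in
/-- The Thom space of the bundle over a pair. -/
structure Dat.Ov (A : Pair (.spec k (B k Y))) (C : Pair (.spec k (B k E))) : Prop where
  n : ∀ ⦃O : Aic k⦄ (x : Pt k E O), C.N x ↔ A.N (V.rg.pm x)
  d : ∀ ⦃O : Aic k⦄ (x : Pt k E O), C.D x ↔ A.D (V.rg.pm x) ∨ ∃ i b, IsUnit (x (D.n i b))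

variable (V ω) in
/-- The Thom map. -/
abbrev Th (A : Pair (.spec k (B k Y))) (C : Pair (.spec k (B k E))) : Prop :=
  IsLift C ((A.ob F).ten (T.pow ι)) fun _ x => A.cl F (V.rg.pm x) ⊗ₜ ω x

variable {A A' : Pair (.spec k (B k Y))} {C C' : Pair (.spec k (B k E))}

theorem Dat.Ov.th (o : D.Ov A C) (hω : D.Om Φ ω) (h : Thom (Option V.I) none T κ Φ)
    (hA : ∀ ⦃O : Aic k⦄ (y : Pt k Y O), A.N y → ∃ b, IsUnit (y (fn (V.f b)))) : Th V ω A C :=
  hω.isLift h (fun _ _ _ _ => rfl) (fun _ x hx => ⟨(o.n x).1 hx, hA _ ((o.n x).1 hx)⟩)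
    fun _ x => (o.d x).1

theorem Dat.Ov.isMap (o : D.Ov A C) (o' : D.Ov A' C') (h : IsMap A A' fun _ x => x) :
    IsMap C C' fun _ x => x :=
  isMap_id (fun _ x hx => (o'.n x).2 (h.n _ ((o.n x).1 hx))) fun _ x hx hd =>
    (o'.d x).2 (((o.d x).1 hd).imp_left (h.d _ ((o.n x).1 hx)))

theorem Dat.Ov.sq (o : D.Ov A C) (l : Th V ω A C) (l' : Th V ω A' C')
    (h : IsMap A A' fun _ x => x) (h' : IsMap C C' fun _ x => x) :
    h'.hom F ≫ l'.hom = l.hom ≫ tenMap (h.hom F) (𝟙 _) := Pair.hom_ext fun O x hx _ => by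
  rw [Ob.comp_apply, Ob.comp_apply, h'.hom_cl hx, l'.hom_cl (h'.n x hx), l.hom_cl hx,
    tenMap_app, TensorProduct.map_tmul, h.hom_cl ((o.n x).1 hx)]
  rfl

theorem Dat.Ov.uiso_chart (o : D.Ov A C) (hω : D.Om Φ ω) (h : Thom (Option V.I) none T κ Φ)
    (hA : Con (A.ob F)) {b : V.I}
    (hb : ∀ ⦃O : Aic k⦄ (y : Pt k Y O), A.N y → IsUnit (y (fn (V.f b)))) (l : Th V ω A C) :
    UIso l.hom := by
  obtain ⟨l₀, u₀⟩ := uiso_fam h hA (fun _ y i => D.v b y i)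
    (fun _ y _ => y (fn (V.f b)) ^ D.M) (b := some b) (by simp)
    (fun _ _ g y _ i a => D.map_v g b y i a) (fun _ _ g y _ _ => map_pow g _ _)
    fun _ y hy i => ⟨D.unit_m i (hb y hy) (hb y hy), (hb y hy).pow _⟩
  have hx : ∀ ⦃O : Aic k⦄ (x : Pt k E O), C.N x → IsUnit (V.rg.pm x (fn (V.f b))) :=
    fun _ x h => hb _ ((o.n x).1 h)
  have a : IsMap C (A.prod ((tP k).pi ι))
      fun _ x => (V.rg.pm x, fun i => (V.rg_s b).pm x (fn fun v => v i)) := by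
    refine ⟨fun _ _ g x h => Prod.ext rfl (funext fun i => ?_),
      fun _ x h => ⟨(o.n x).1 h, fun _ => trivial⟩, fun _ x h hd => ((o.d x).1 hd).imp_right ?_⟩
    · exact congr($((V.rg_s b).comp_pm g (in_chart (hx x h))) _)
    · rintro ⟨i, c, hc⟩
      exact ⟨i, isUnit_of_mul_isUnit_right (D.n_eq (hx x h) i ▸ D.unit_n hc (hx x h))⟩
  have ba : Bij (a.hom F) := by
    refine a.bij (fun _ x h hd => (o.d x).2 (hd.imp_right ?_)) (fun _ x x' h _ h' _ e => ?_)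
      fun _ y hy _ => ?_
    · rintro ⟨i, hi⟩
      exact ⟨i, b, D.n_eq (hx x h) i ▸ ((hx x h).pow _).mul hi⟩
    · have e1 : V.rg.pm x = V.rg.pm x' := congrArg Prod.fst e
      rw [← chart_left (hx x h), ← chart_left (hx x' h'), e1,
        Pt.ext_aff fun i => congrFun (congrArg Prod.snd e) i]
    · obtain ⟨z, hz⟩ := Pt.exists_aff (k := k) y.2
      obtain ⟨x, h1, h2⟩ := chart_right (hb _ hy.1) z
      exact ⟨x, (o.n x).2 (h1 ▸ hy.1), Prod.ext h1 (funext fun i => h2 ▸ hz i)⟩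
  have e : l.hom = a.hom F ≫ l₀.hom := Pair.hom_ext fun O x hn _ => by
    rw [Ob.comp_apply, a.hom_cl hn, l₀.hom_cl (a.n x hn), l.hom_cl hn, hω x b (hx x hn)]
    simp only [D.n_eq (hx x hn)]
  exact e ▸ ba.uiso.comp u₀

theorem Dat.exists_ov (D : Dat V) (s t : Finset (B k Y)) : ∃ s' t' : Finset (B k E),
    D.Ov (opP k s t) (opP k s' t') ∧ opSet s' = p ⁻¹' opSet s ∧
      opSet t' = p ⁻¹' opSet t ∪ nz := by
  classical
  obtain ⟨u, hu⟩ := exists_fs fun x : ι × V.I => D.n x.1 x.2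
  refine ⟨s.image V.rg.hom, t.image V.rg.hom ∪ u, ⟨fun O x => by simp [Rg.pm], fun O x => ?_⟩,
    opSet_image V.rg.pt_hom s, ?_⟩
  · refine (ex_union _ _).trans (or_congr (by simp [Rg.pm]) ((hu _).trans Prod.exists))
  · rw [opSet_union, opSet_image V.rg.pt_hom]
    refine congrArg _ (Set.ext fun x => (hu _).trans ⟨fun ⟨⟨i, b⟩, h⟩ => ?_, fun h => ?_⟩)
    · rw [D.hn, mul_ne_zero_iff, pow_ne_zero_iff D.pos] at h
      exact (V.mem b x h.1).2 fun h0 => h.2 (congrFun h0 i)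
    · obtain ⟨b, hb⟩ := V.cover (p x)
      obtain ⟨i, hi⟩ := Function.ne_iff.1 ((V.mem b x hb).1 h)
      exact ⟨(i, b), D.hn i b x ▸ mul_ne_zero (pow_ne_zero _ hb) hi⟩

theorem Dat.Om.uiso (hω : D.Om Φ ω) (h : Thom (Option V.I) none T κ Φ) {s : Finset (B k Y)}
    (hs : ∀ q : B k Y → Prop, (∃ f ∈ s, q f) ↔ ∃ b, q (fn (V.f b))) (u : Finset V.I) :
    ∀ (t : Finset (B k Y)) (C : Pair (.spec k (B k E))), D.Ov (opP k s t) C →
      (∀ ⦃O : Aic k⦄ (y : Pt k Y O) (b : V.I), IsUnit (y (fn (V.f b))) →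
        (∃ f ∈ t, IsUnit (y f)) ∨ ∃ c ∈ u, IsUnit (y (fn (V.f c)))) →
      ∀ l : Th V ω (opP k s t) C, UIso l.hom := by
  classical
  induction u using Finset.induction_on with
  | empty =>
    intro t C o ht l
    have d : ∀ ⦃O : Aic k⦄ (y : Pt k Y O), (opP k s t).N y → (opP k s t).D y := fun O y hy =>
      ((hs _).1 hy).elim fun b hb => by simpa using ht y b hb
    exact (UZero.dead fun _ x hx => (o.d x).2 (.inl (d _ ((o.n x).1 hx)))).uiso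
      ((UZero.dead d).ten (h.con.pow ι)) _
  | insert b u _ ih =>
    intro t C o ht l
    obtain ⟨s₁, t₁, o₁, -⟩ := D.exists_ov {fn (V.f b)} t
    obtain ⟨s₃, t₃, o₃, -⟩ := D.exists_ov s (insert (fn (V.f b)) t)
    have h₁ : IsMap (opP k {fn (V.f b)} t) (opP k s t) fun _ x => x :=
      isMap_id (fun _ y hy => (hs _).2 ⟨b, by simpa using hy⟩) fun _ _ _ h => h
    have h₂ : IsMap (opP k s t) (opP k s (insert (fn (V.f b)) t)) fun _ x => x :=
      isMap_id (fun _ _ h => h) fun _ y _ ⟨f, hf, h⟩ => ⟨f, Finset.mem_insert_of_mem hf, h⟩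
    have l₁ := o₁.th hω h fun _ y hy => ⟨b, by simpa using hy⟩
    have l₃ := o₃.th hω h fun _ y hy => (hs _).1 hy
    refine (Pair.ses (o₁.isMap o h₁) (o.isMap o₃ h₂) (fun _ x _ hd => (o₁.d x).2 ((o.d x).1 hd))
      (fun _ x _ => ?_) fun _ x hx _ => (o.n x).2 ((o₃.n x).1 hx)).five₂
      ((Pair.ses h₁ h₂ (fun _ _ _ h => h) (fun _ y _ => by simp [or_comm])
        fun _ _ h _ => h).ten _) (o₁.sq l₁ l h₁ _) (o.sq l l₃ h₂ _)
      (o₁.uiso_chart hω h (con_opP _ _) (fun _ y hy => by simpa using hy) l₁)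
      (ih _ _ o₃ (fun _ y c hc => ?_) l₃)
    · rw [o₃.d, o.d, o₁.n]
      simp only [Finset.mem_insert, exists_eq_or_imp, Finset.mem_singleton, exists_eq_left]
      exact or_assoc.trans or_comm
    · have := ht y c hc
      simp only [Finset.mem_insert, exists_eq_or_imp] at this ⊢
      exact or_assoc.2 (or_left_comm.1 this)

theorem opSet_eq {s : Finset (B k Y)}
    (hs : ∀ q : B k Y → Prop, (∃ f ∈ s, q f) ↔ ∃ b, q (fn (V.f b))) : opSet s = univ :=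
  eq_univ_of_forall fun y => (hs _).2 ((V.cover y).imp fun b hb => by rwa [pt_fn (V.rg_f b)])

end ThomAux

open ThomAux

theorem VB.thom_epi (V : VB k p ι nz) {W : Set Y} (hW : IsOp k W)
    (h : Mp (.top k Y) (.sup hW) fun x => x) (he : ∀ Θ' : Theory k F, Epi (h.mt Θ'))
    {W' : Set E} (hW' : IsOp k W') (e : ∀ x, x ∈ W' ↔ x ∈ nz ∨ p x ∈ W)
    (h' : Mp (.sup V.isOp) (.sup hW') fun x => x) : Epi (h'.mt Θ) := by
  obtain ⟨D⟩ := exists_dat V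
  obtain ⟨T, κ, Φ, hT⟩ := exists_thom (k := k) (F := F) (Option V.I) none
  obtain ⟨ω, hω⟩ := D.exists_om hT
  obtain ⟨s, hs⟩ := exists_fs fun b => fn (k := k) (V.f b)
  have := Fintype.ofFinite V.I
  obtain ⟨t, ht⟩ := id hW
  obtain ⟨s₁, t₁, o₁, a₁, b₁⟩ := D.exists_ov s ∅
  obtain ⟨s₂, t₂, o₂, a₂, b₂⟩ := D.exists_ov s t
  have e₀ : opSet (∅ : Finset (B k Y)) = ∅ := by simp [opSet]
  have m₁ : (Pr.top k Y).Md s ∅ := ⟨opSet_eq hs, by rw [e₀]⟩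
  have m₂ : (Pr.sup hW).Md s t := ⟨opSet_eq hs, by rw [← ht]⟩
  have m₃ : (Pr.sup V.isOp).Md s₁ t₁ := ⟨by rw [a₁, opSet_eq hs]; rfl, by rw [b₁, e₀]; simp⟩
  have m₄ : (Pr.sup hW').Md s₂ t₂ := ⟨by rw [a₂, opSet_eq hs]; rfl, by
    rw [b₂, ← ht]; exact congrArg _ (Set.ext fun x => ((e x).trans or_comm).symm)⟩
  have i : IsMap (opP k s ∅) (opP k s t) fun _ x => x :=
    isMap_id (fun _ _ h => h) fun _ _ _ h => by simp at h
  have l₁ := o₁.th hω hT fun _ y hy => (hs _).1 hy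
  have l₂ := o₂.th hω hT fun _ y hy => (hs _).1 hy
  have := hω.uiso hT hs Finset.univ _ _ o₁ (fun _ _ b hb => .inr ⟨b, Finset.mem_univ _, hb⟩) l₁ Θ
  have := hω.uiso hT hs Finset.univ _ _ o₂ (fun _ _ b hb => .inr ⟨b, Finset.mem_univ _, hb⟩) l₂ Θ
  have := he (Θ.ten _ (hT.con.pow ι))
  have q := h.mt_spec (Θ.ten _ (hT.con.pow ι)) m₁ m₂ i fun _ x hx =>
    (h.rg.pm_id (fun _ _ => rfl) hx).symm
  have : Epi (Θ.Φ.map (tenMap (i.hom F) (𝟙 (T.pow ι)))) := by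
    rw [← Iso.eq_comp_inv] at q
    exact q ▸ epi_comp' (epi_comp' inferInstance this) inferInstance
  have q₁ := congrArg Θ.Φ.map (o₁.sq l₁ l₂ i (o₁.isMap o₂ i))
  rw [Functor.map_comp, Functor.map_comp, ← IsIso.eq_comp_inv] at q₁
  have : Epi (Θ.Φ.map ((o₁.isMap o₂ i).hom F)) := q₁ ▸ inferInstance
  have q₂ := h'.mt_spec Θ m₃ m₄ (o₁.isMap o₂ i) fun _ x hx =>
    (h'.rg.pm_id (fun _ _ => rfl) hx).symm
  have : Epi ((m₃.cmp Θ).hom ≫ h'.mt Θ) := q₂ ▸ inferInstance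
  exact epi_of_epi (m₃.cmp Θ).hom _

theorem VB.thom_mono (V : VB k p ι nz) {j : (ι → k) → E}
    (h : Mp (.pt k (0 : ι → k)) (.sup V.isOp) j) (b : V.I) (y : Y) (hb : V.f b y ≠ 0)
    (hp : ∀ v, p (j v) = y) (c : ι → kˣ) (hc : ∀ v i, V.s b (j v) i = c i * v i) :
    Mono (h.mt Θ) := by
  obtain ⟨D⟩ := exists_dat V
  obtain ⟨T, κ, Φ, hT⟩ := exists_thom (k := k) (F := F) (Option V.I) none
  obtain ⟨ω, hω⟩ := D.exists_om hT
  obtain ⟨s, hs⟩ := exists_fs fun b => fn (k := k) (V.f b)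
  obtain ⟨s₁, t₁, o, a₁, b₁⟩ := D.exists_ov s ∅
  obtain ⟨t, m, a, ba⟩ := exists_md_aff (k := k) (F := F) ι
  have m₁ : (Pr.sup V.isOp).Md s₁ t₁ :=
    ⟨by rw [a₁, opSet_eq hs]; rfl, by rw [b₁]; simp [opSet]⟩
  have hj : Rg k j := h.rg.rg_of_forall fun _ => trivial
  have e₁ : ∀ ⦃O : Aic k⦄ (x : Pt k (ι → k) O), V.rg.pm (hj.pm x) = Pt.const y := fun _ x =>
    (hj.pm_pm V.rg (.const y) hp x).trans (Rg.pm_const _ _ _)
  have u₁ : ∀ O : Aic k, IsUnit ((Pt.const y : Pt k Y O) (fn (V.f b))) := fun O => by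
    rw [Pt.const_fn (V.rg_f b)]
    exact hb.isUnit.map _
  have u₂ : ∀ (O : Aic k) i, IsUnit (algebraMap k O (V.f b y ^ D.M * c i)) := fun O i =>
    ((hb.isUnit.pow _).mul (c i).isUnit).map _
  have e₂ : ∀ ⦃O : Aic k⦄ (x : Pt k (ι → k) O) i, hj.pm x (D.n i b) =
      algebraMap k O (V.f b y ^ D.M * c i) * x (fn fun v => v i) := fun _ x i => by
    rw [hj.pm_apply, ← x.commutes, ← fn_const, ← map_mul, ← fn_mul (.const _) (Rg.apply i)]
    simp only [D.hn, hp, hc, mul_assoc]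
  have i : IsMap (opP k {1} t) (opP k s₁ t₁) fun _ x => hj.pm x :=
    ⟨fun _ _ _ _ _ => rfl, fun O x _ => (o.n _).2 ((hs _).2 ⟨b, (e₁ x).symm ▸ u₁ O⟩),
      fun O x hx hd => (o.d _).2 (.inr (((a.d x hx hd).imp fun i hi =>
        ⟨b, (e₂ x i).symm ▸ (u₂ O i).mul hi⟩)))⟩
  have l := hω.isLift hT (A := ptP k 0) (C := opP k s₁ t₁) (q := fun O _ => ((0 : ℕ) : O))
    (fun _ _ g _ => map_natCast g 0) (fun _ x hx => ⟨rfl, (hs _).1 ((o.n x).1 hx)⟩)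
    fun _ x hd => .inr (((o.d x).1 hd).resolve_left (by simp))
  obtain ⟨l₀, u₀⟩ := uiso_fam hT (con_ptP 0) (fun _ _ i => D.v b (Pt.const y) i)
    (fun O _ i => algebraMap k O (V.f b y ^ D.M * c i)) (b := some b) (by simp)
    (fun _ _ g _ _ i a => by rw [D.map_v, Pt.comp_const]) (fun _ _ g _ _ _ => g.commutes _)
    fun O _ _ i => ⟨D.unit_m i (u₁ O) (u₁ O), u₂ O i⟩
  have a₁ : IsMap ((tP k).pi ι) ((ptP k 0).prod ((tP k).pi ι)) fun O x => (((0 : ℕ) : O), x) :=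
    ⟨fun _ _ g _ _ => Prod.ext (map_natCast g 0) rfl, fun _ _ h => ⟨rfl, h⟩, fun _ _ _ => .inr⟩
  have ba₁ : Bij (a₁.hom F) := a₁.bij (fun _ _ _ h => h.resolve_left id)
    (fun _ _ _ _ _ _ _ e => congrArg Prod.snd e)
    fun _ z hz _ => ⟨z.2, hz.2, Prod.ext hz.1.symm rfl⟩
  have e : i.hom F ≫ l.hom = (a.hom F ≫ a₁.hom F) ≫ l₀.hom := Pair.hom_ext fun O x hx _ => by
    rw [Ob.comp_apply, Ob.comp_apply, Ob.comp_apply, i.hom_cl hx, l.hom_cl (i.n x hx),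
      a.hom_cl hx, a₁.hom_cl (a.n x hx), l₀.hom_cl (a₁.n _ (a.n x hx)),
      hω _ b ((e₁ x).symm ▸ u₁ O), e₁]
    simp only [e₂]
  have := (e ▸ (ba.comp ba₁).uiso.comp u₀ : UIso (i.hom F ≫ l.hom)) Θ
  rw [Functor.map_comp] at this
  have := mono_of_mono (Θ.Φ.map (i.hom F)) (Θ.Φ.map l.hom)
  have q := h.mt_spec Θ m m₁ i fun _ x hx => (h.rg.pm_eq hj (fun _ _ => rfl) hx).symm
  rw [← Iso.inv_comp_eq] at q
  exact q ▸ inferInstance

end

end Pool.Agent.Lib.MP_fc2ced_ag.E
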