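import Pool.Agent.Lib.MP_fc2ced_ag.R.Lef1
import Pool.Agent.Lib.MP_fc2ced_ag.R.Thom

/-! The Euler class of the flag variety. -/

open CategoryTheory CategoryTheory.Limits Function Set Matrix

set_option linter.unusedSectionVars false

namespace Pool.Agent.Lib.MP_fc2ced_ag.R

open E E.Var E.Pr

noncomputable section

variable {k : Type} [Field k] [IsAlgClosed k] {G : Type} [Group G] {n r : ℕ} {S : Type}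
  (D : Red k G n r S)
  [Var k G] [Var k D.U] [GVar k G] [GVar k D.U] [Geo D] {P : Type} [Var k P]
  {F : Type} [Field F] [CharZero F] [Finite S] (Θ : Theory k F)

namespace Flag

variable {D} (𝔉 : Flag D)

theorem mp_ρ : Mp (.top k 𝔉.X) (.top k 𝔉.X) 𝔉.ρ :=
  ⟨𝔉.rg_ρ.rgOn _, fun _ _ => trivial, fun _ _ h => h.elim⟩

/-- The graph of a translation. -/
def gr (g : G) (y : 𝔉.X) : 𝔉.X × 𝔉.X := (𝔉.l (g, 𝔉.ρ y), y)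

theorem gr_π (g x : G) : 𝔉.gr g (𝔉.π x) = (𝔉.π (g * (x * D.n₁⁻¹)), 𝔉.π x) := by
  rw [gr, 𝔉.ρ_π, 𝔉.l_π]

theorem rg_gr {g : P → G} {y : P → 𝔉.X} (hg : Rg k g) (hy : Rg k y) :
    Rg k fun x => 𝔉.gr (g x) (y x) :=
  (𝔉.rg_l.comp (hg.pair (𝔉.rg_ρ.comp hy))).pair hy

/-- A neighbourhood of the incidence variety. -/
@[reducible] def nb : Pr k (𝔉.X × 𝔉.X) := ⟨𝔉.O, 𝔉.Δ, 𝔉.op_O, 𝔉.op_Δ⟩

theorem mp_nb : Mp 𝔉.nb (.sup 𝔉.op_Δ) fun x => x := .incl (fun _ _ => trivial) fun _ _ h => h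

instance isIso_nb : IsIso (𝔉.mp_nb.mt Θ) := by
  refine 𝔉.mp_nb.isIso_incl Θ fun x => ⟨fun h => ⟨trivial, h.2⟩, fun h => ⟨?_, h.2⟩⟩
  obtain ⟨x, y⟩ := x
  obtain ⟨x, rfl⟩ := 𝔉.surj x
  obtain ⟨y, rfl⟩ := 𝔉.surj y
  have h1 := not_not.1 (mt (𝔉.mem_Δ x y).2 h.2)
  have := D.δ_big 0 h1
  rw [D.ξ_zero, OneMemClass.coe_one, one_mul, mul_inv_cancel_left] at this
  exact (𝔉.mem_O x y).2 this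

theorem mp_c : Mp 𝔉.nb (.sup 𝔉.vb.isOp) 𝔉.c := by
  refine ⟨𝔉.rg_c, fun _ _ => trivial, ?_⟩
  rintro ⟨x, y⟩ h1 h2
  obtain ⟨x, rfl⟩ := 𝔉.surj x
  obtain ⟨y, rfl⟩ := 𝔉.surj y
  have h3 := (𝔉.mem_O x y).1 h1
  rw [𝔉.c_π x y h3]
  refine (𝔉.mem_nz _).2 fun h => (𝔉.mem_Δ x y).1 h2 ?_
  have h4 := D.big_eq h3
  rw [show D.bA (x⁻¹ * y) = 0 from h, D.ξ_zero, OneMemClass.coe_one, one_mul] at h4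
  rw [h4, mul_assoc D.n₁, inv_mul_cancel_left]
  exact mul_mem (D.ι_mem_Bor _) (D.U_le_Bor (D.bU _).2)

theorem mp_gr (g : G) : Mp (.top k 𝔉.X) (.sup 𝔉.op_Δ) (𝔉.gr g) :=
  ⟨(𝔉.rg_gr (.const g) .id).rgOn _, fun _ _ => trivial, fun _ _ h => h.elim⟩

theorem gr_one (x : G) : (1 * (x * D.n₁⁻¹))⁻¹ * x = D.ξ 0 * D.n₁ * 1 := by
  simp [D.ξ_zero]

theorem mp_gr_one : Mp (.top k 𝔉.X) 𝔉.nb (𝔉.gr 1) := by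
  refine ⟨(𝔉.rg_gr (.const 1) .id).rgOn _, fun y _ => ?_, fun _ _ h => h.elim⟩
  obtain ⟨x, rfl⟩ := 𝔉.surj y
  rw [gr_π]
  refine (𝔉.mem_O _ _).2 ?_
  rw [gr_one]
  exact D.δ_big 0 (one_mem _)

theorem mt_gr_one : 𝔉.mp_ρ.mt Θ ≫ 𝔉.mp_z.mt Θ =
    (𝔉.mp_gr 1).mt Θ ≫ inv (𝔉.mp_nb.mt Θ) ≫ 𝔉.mp_c.mt Θ := by
  rw [← 𝔉.mp_gr_one.mt_comp Θ 𝔉.mp_nb (𝔉.mp_gr 1) fun _ _ => rfl, Category.assoc,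
    IsIso.hom_inv_id_assoc, 𝔉.mp_ρ.mt_comp Θ 𝔉.mp_z (𝔉.mp_ρ.comp 𝔉.mp_z) fun _ _ => rfl]
  refine (𝔉.mp_gr_one.mt_comp Θ 𝔉.mp_c _ fun y _ => ?_).symm
  obtain ⟨x, rfl⟩ := 𝔉.surj y
  rw [gr_π, 𝔉.c_π _ _ (by rw [gr_one]; exact D.δ_big 0 (one_mem _)), gr_one,
    D.bA_eq 0 (one_mem _), 𝔉.ρ_π, 𝔉.z_π, one_mul]

theorem mt_gr {m : G} {γ : k → G} (hγ : Rg k γ) (h0 : γ 0 = 1) (h1 : γ 1 = m) :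
    (𝔉.mp_gr 1).mt Θ = (𝔉.mp_gr m).mt Θ :=
  Mp.mt_htpy Θ (X := .top k 𝔉.X) (Y := .sup 𝔉.op_Δ) (H := fun x => 𝔉.gr (γ x.2) x.1)
    ⟨(𝔉.rg_gr (hγ.comp Rg.id.snd) Rg.id.fst).rgOn _, fun _ _ => trivial,
      fun _ _ h => h.elim (fun h => h.elim) fun h => h.elim⟩ _ _
    (fun _ _ => by rw [h0]) fun _ _ => by rw [h1]

theorem op_all : IsOp k {y | ∀ v, y ∈ 𝔉.W (D.ν v)} := IsOp.forall fun v => 𝔉.op_W (D.ν v)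

theorem mp_all : Mp (.top k 𝔉.X) (.sup 𝔉.op_all) fun x => x :=
  .incl (fun _ h => h) fun _ _ h => h.elim

theorem mp_all_W (v : D.W) : Mp (.sup 𝔉.op_all) (.sup (𝔉.op_W (D.ν v))) fun x => x :=
  .incl (fun _ h => h) fun _ _ h => h v

theorem mp_j_all (v : D.W) : Mp (.pt k (0 : Fin D.NN → k)) (.sup 𝔉.op_all) (𝔉.j (D.ν v)) :=
  ⟨(𝔉.rg_j _).rgOn _, fun _ _ => trivial, fun _ _ h _ =>
    (𝔉.mem_W _ _).2 fun h' => h (D.eq_of_chart h').2⟩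

theorem sum_all : ∑ v, (𝔉.mp_all_W v).mt Θ ≫ inv ((𝔉.mp_j (D.ν v)).mt Θ) ≫
    (𝔉.mp_j_all v).mt Θ = 𝟙 _ := by
  refine Pr.sum_pieces Θ (fun v => 𝔉.op_W (D.ν v)) (fun v v' h y => ?_) 𝔉.op_all
    (fun _ => Iff.rfl) 𝔉.mp_all_W 𝔉.mp_j_all (fun v => 𝔉.mp_j (D.ν v)) fun v v' h a _ =>
      (𝔉.mem_W _ _).2 fun h' => h (D.eq_of_chart h').1.symm
  obtain ⟨x, rfl⟩ := 𝔉.surj y
  rw [𝔉.mem_W, 𝔉.mem_W, ← not_and_or]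
  exact fun h' => h (D.eq_of_coset h'.2 h'.1)

variable {t : Fin r → kˣ}

theorem mp_gr_all (ht : ∀ s m, D.al s (D.cj m t) ≠ 1) :
    Mp (.sup 𝔉.op_all) (.sup 𝔉.op_Δ) (𝔉.gr (D.ι t)) := by
  refine ⟨(𝔉.rg_gr (.const _) .id).rgOn _, fun _ _ => trivial, fun y _ h => ?_⟩
  obtain ⟨x, rfl⟩ := 𝔉.surj y
  rw [gr_π]
  refine (𝔉.mem_Δ _ _).2 fun h' => ?_
  obtain ⟨v, hv⟩ := (D.fixed_iff ht x).1 (by simpa [mul_assoc] using inv_mem h')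
  exact (𝔉.mem_W _ _).1 (h v) hv

theorem gr_j (t : Fin r → kˣ) (v : D.W) (a : Fin D.NN → k) :
    (D.ι t * (D.ν v * D.ξ a * D.n₁ * D.n₁⁻¹))⁻¹ * (D.ν v * D.ξ a * D.n₁) =
      (D.ξ a : G)⁻¹ * D.ι (D.cj ⟨_, D.ν_mem v⟩⁻¹ t⁻¹) * D.ξ a * D.n₁ := by
  simp [D.ι_cj, mul_assoc]

theorem δ_j (t : Fin r → kˣ) (a : Fin D.NN → k) :
    D.δ ((D.ξ a : G)⁻¹ * D.ι t * D.ξ a * D.n₁) ≠ 0 := by
  obtain ⟨t', h⟩ := D.exists_cj' D.n₁_mem t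
  exact (D.δ_ne_iff' _).2 ⟨_, mul_mem (inv_mem (D.ξ a).2) (D.norm t _ (D.ξ a).2), _,
    D.ι_mem_Bor t', by rw [h]; simp [mul_assoc]⟩

theorem mp_gr_j (ht : ∀ s m, D.al s (D.cj m t) ≠ 1) (v : D.W) :
    Mp (.pt k (0 : Fin D.NN → k)) 𝔉.nb fun a => 𝔉.gr (D.ι t) (𝔉.j (D.ν v) a) := by
  have h := (𝔉.mp_j_all v).comp (𝔉.mp_gr_all ht)
  refine ⟨h.rg, fun a _ => ?_, h.v⟩
  rw [j, gr_π]
  refine (𝔉.mem_O _ _).2 ?_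
  rw [gr_j]
  exact δ_j _ _

theorem mt_gr_j (ht : ∀ s m, D.al s (D.cj m t) ≠ 1) (v : D.W) {γ : k → G} (hγ : Rg k γ)
    (h0 : γ 0 = 1) (h1 : γ 1 = D.ι t * D.ν v) :
    (𝔉.mp_j_all v).mt Θ ≫ (𝔉.mp_gr_all ht).mt Θ ≫ inv (𝔉.mp_nb.mt Θ) ≫ 𝔉.mp_c.mt Θ =
      𝔉.mp_fib.mt Θ := by
  have h := (𝔉.mp_j_all v).comp (𝔉.mp_gr_all ht)
  rw [← Category.assoc, (𝔉.mp_j_all v).mt_comp Θ (𝔉.mp_gr_all ht) h fun _ _ => rfl,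
    ← (𝔉.mp_gr_j ht v).mt_comp Θ 𝔉.mp_nb h fun _ _ => rfl, Category.assoc,
    IsIso.hom_inv_id_assoc,
    (𝔉.mp_gr_j ht v).mt_comp Θ 𝔉.mp_c ((𝔉.mp_gr_j ht v).comp 𝔉.mp_c) fun _ _ => rfl]
  refine 𝔉.mt_local Θ hγ h0 h1 (t := D.cj ⟨_, D.ν_mem v⟩⁻¹ t⁻¹) (fun i => ?_) _ fun a => ?_
  · rw [D.wt_apply, ← D.cj_mul, map_inv, map_inv, ne_eq, inv_eq_one]
    exact ht _ _
  · rw [j, gr_π, 𝔉.c_π _ _ (by rw [gr_j]; exact δ_j _ _), gr_j, mul_inv_cancel_right,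
      mul_assoc (D.ι t)]

/-- The fixed point formula. -/
theorem lefschetz : 𝔉.mp_ρ.mt Θ ≫ 𝔉.mp_z.mt Θ =
    Fintype.card D.W • ((𝔉.mp_W 1).mt Θ ≫ inv ((𝔉.mp_j 1).mt Θ) ≫ 𝔉.mp_fib.mt Θ) := by
  obtain ⟨Q, hQ, hp⟩ := D.exists_path
  obtain ⟨t, htQ, ht⟩ := D.exists_regular Q hQ
  have hν : ∀ v, D.ν v ∈ Q := fun v => list_prod_mem fun _ h => by
    obtain ⟨i, rfl⟩ := List.mem_ofFn.1 h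
    exact hQ _ _
  obtain ⟨γ, hγ, h0, h1⟩ := hp _ htQ
  rw [mt_gr_one, 𝔉.mt_gr Θ hγ h0 h1,
    ← 𝔉.mp_all.mt_comp Θ (𝔉.mp_gr_all ht) (𝔉.mp_gr _) fun _ _ => rfl,
    ← Category.id_comp ((𝔉.mp_gr_all ht).mt Θ), ← 𝔉.sum_all Θ, Preadditive.sum_comp,
    Preadditive.comp_sum, Preadditive.sum_comp, ← Finset.card_univ, ← Finset.sum_const]
  refine Finset.sum_congr rfl fun v _ => ?_
  obtain ⟨γ₁, hγ₁, a0, a1⟩ := hp _ (mul_mem htQ (hν v))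
  obtain ⟨γ₂, hγ₂, b0, b1⟩ := hp _ (hν v)
  simp only [Category.assoc]
  rw [𝔉.mt_gr_j Θ ht v hγ₁ a0 a1, ← Category.assoc,
    𝔉.mp_all.mt_comp Θ (𝔉.mp_all_W v) (𝔉.mp_W _) fun _ _ => rfl, ← Category.assoc,
    𝔉.mt_W Θ hγ₂ b0 b1, Category.assoc]

theorem euler (he : Epi ((𝔉.mp_W 1).mt Θ)) (h : 𝔉.mp_z.mt Θ = 0) :
    IsZero ((Pr.pt k (0 : Fin D.NN → k)).mo Θ) := by
  obtain ⟨b, hb⟩ := 𝔉.vb.cover (𝔉.π 1)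
  obtain ⟨c, hc⟩ := 𝔉.fib b 1 hb
  have := 𝔉.vb.thom_mono Θ 𝔉.mp_fib b _ hb (fun _ => 𝔉.p_π _) c hc
  have h1 := 𝔉.lefschetz Θ
  have : Nonempty D.W := ⟨D.cl 1⟩
  rw [h, comp_zero, eq_comm] at h1
  have h2 := Θ.eq_zero_of_nsmul Fintype.card_ne_zero h1
  rw [IsZero.iff_id_eq_zero, ← cancel_mono (𝔉.mp_fib.mt Θ),
    ← cancel_epi (inv ((𝔉.mp_j 1).mt Θ)), ← cancel_epi ((𝔉.mp_W 1).mt Θ)]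
  simpa using h2

end Flag

end

end Pool.Agent.Lib.MP_fc2ced_ag.R
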