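import Pool.Agent.Lib.MP_fc2ced_ag.R.Phi

/-! The Thom class on a chart. -/

open CategoryTheory
open PiTensorProduct renaming tprod → tp
open scoped TensorProduct

namespace Pool.Agent.Lib.MP_fc2ced_ag.E

open Ob Pair

variable {k : Type} [Field k] {F : Type} [Field F] {I : Type} {i₀ : I} {R : Ob k F}
  {κ : (tP k).ob F ⟶ R} {Φ : ∀ ⦃O : Aic k⦄, (I → O) → O → R.V O}

theorem Thom.con (h : Thom I i₀ R κ Φ) : Con R := (Con.uiso_iff h.uiso).1 con_tP

/-- Homotopy invariance: two natural families of sections joined by a polynomial family. -/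
theorem null_of_htpy {X : Fn k} {P : Pair X} (hP : Con (P.ob F)) {M : Ob k F}
    {c : ∀ ⦃O⦄, (X.prod (.line k)).X O → M.V O} (h : IsLift (P.prod (Fn.line k).top) M c)
    {c₀ c₁ : ∀ ⦃O⦄, X.X O → M.V O} (h₀ : IsLift P M c₀) (h₁ : IsLift P M c₁)
    (e₀ : ∀ ⦃O⦄ (x : X.X O), P.N x → c₀ x = c (x, 0))
    (e₁ : ∀ ⦃O⦄ (x : X.X O), P.N x → c₁ x = c (x, 1)) : Null (h₀.hom - h₁.hom) := by
  have k₀ : h₀.hom = (isMap_sec P 0).hom F ≫ h.hom := Pair.hom_ext fun O x hx _ => by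
    rw [Ob.comp_apply, IsMap.hom_cl _ hx, h₀.hom_cl hx, h.hom_cl ((isMap_sec P 0).n x hx),
      Nat.cast_zero, e₀ x hx]
  have k₁ : h₁.hom = (isMap_sec P 1).hom F ≫ h.hom := Pair.hom_ext fun O x hx _ => by
    rw [Ob.comp_apply, IsMap.hom_cl _ hx, h₁.hom_cl hx, h.hom_cl ((isMap_sec P 1).n x hx),
      Nat.cast_one, e₁ x hx]
  rw [k₀, k₁, ← Preadditive.sub_comp]
  exact (null_sec hP 0 1).comp _

namespace Phi2

theorem isLift_one {X : Fn k} {P : Pair X} {M : Ob k F}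
    {c : ∀ ⦃O⦄, (X.prod (.line k)).X O → M.V O} (h : IsLift (P.prod (Fn.line k).top) M c) :
    IsLift P M fun _ x => c (x, 1) :=
  ⟨fun _ x h1 h2 => h.dead (x, 1) ⟨h1, trivial⟩ (.inl h2), fun _ _ g x h1 =>
    (h.nat g (x, 1) ⟨h1, trivial⟩).trans (congrArg (fun t => c (X.map g x, t)) (map_one g))⟩

theorem isLift_fam (h : Thom I i₀ R κ Φ) {X : Fn k} {P : Pair X} {ι : Type} [Finite ι]
    (w : ∀ ⦃O⦄, X.X O → ι → I → O) (u : ∀ ⦃O⦄, X.X O → ι → O)
    (hw : ∀ ⦃O O' : Aic k⦄ (g : O →ₐ[k] O') (x : X.X O), P.N x → ∀ i j,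
      g (w x i j) = w (X.map g x) i j)
    (hu : ∀ ⦃O O' : Aic k⦄ (g : O →ₐ[k] O') (x : X.X O), P.N x → ∀ i,
      g (u x i) = u (X.map g x) i)
    (hb : ∀ ⦃O⦄ (x : X.X O), P.N x → ∀ i, (∃ j, IsUnit (w x i j)) ∧ IsUnit (u x i)) :
    IsLift (P.prod ((tP k).pi ι)) ((P.ob F).ten (R.pow ι))
      fun _ x => P.cl F x.1 ⊗ₜ tp F fun i => Φ (w x.1 i) (u x.1 i * x.2 i) := by
  refine ⟨fun _ x hx hd => ?_, fun _ _ g x hx => ?_⟩
  · rcases hd with hd | ⟨a, hd⟩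
    · rw [P.cl_dead hd, TensorProduct.zero_tmul]
    · rw [(tp F).map_coord_zero a (h.dead _ _ (hb _ hx.1 a).1 ((hb _ hx.1 a).2.mul hd)),
        TensorProduct.tmul_zero]
  · rw [TensorProduct.map_tmul, map_cl g hx.1, PiTensorProduct.map_tprod]
    congr 2
    funext i
    rw [h.nat g _ _ (hb _ hx.1 i).1, map_mul, hu g _ hx.1, funext (hw g _ hx.1 i)]

theorem isLift_htpy (h : Thom I i₀ R κ Φ) {X : Fn k} {P : Pair X} {ι : Type} [Finite ι]
    (w : ∀ ⦃O⦄, X.X O → O → ι → I → O) (u : ∀ ⦃O⦄, X.X O → ι → O)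
    (hw : ∀ ⦃O O' : Aic k⦄ (g : O →ₐ[k] O') (x : X.X O), P.N x → ∀ t i j,
      g (w x t i j) = w (X.map g x) (g t) i j)
    (hu : ∀ ⦃O O' : Aic k⦄ (g : O →ₐ[k] O') (x : X.X O), P.N x → ∀ i,
      g (u x i) = u (X.map g x) i)
    (hb : ∀ ⦃O⦄ (x : X.X O), P.N x → ∀ t i, (∃ j, IsUnit (w x t i j)) ∧ IsUnit (u x i)) :
    IsLift ((P.prod ((tP k).pi ι)).prod (Fn.line k).top) ((P.ob F).ten (R.pow ι))
      fun _ y => P.cl F y.1.1 ⊗ₜ tp F fun i => Φ (w y.1.1 y.2 i) (u y.1.1 i * y.1.2 i) := by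
  refine ⟨fun _ x hx hd => ?_, fun _ _ g x hx => ?_⟩
  · rcases hd with (hd | ⟨a, hd⟩) | hd
    · rw [P.cl_dead hd, TensorProduct.zero_tmul]
    · rw [(tp F).map_coord_zero a (h.dead _ _ (hb _ hx.1.1 _ a).1 ((hb _ hx.1.1 x.2 a).2.mul hd)),
        TensorProduct.tmul_zero]
    · exact hd.elim
  · rw [TensorProduct.map_tmul, map_cl g hx.1.1, PiTensorProduct.map_tprod]
    congr 2
    funext i
    rw [h.nat g _ _ (hb _ hx.1.1 _ i).1, map_mul, hu g _ hx.1.1, funext (hw g _ hx.1.1 x.2 i)]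

end Phi2

/-- On a chart where all the line bundles are trivial, the Thom class is the standard one. -/
theorem Thom.null_chart [Finite I] (h : Thom I i₀ R κ Φ) {X : Fn k} {P : Pair X}
    (hP : Con (P.ob F)) {ι : Type} [Finite ι] (v : ∀ ⦃O⦄, X.X O → ι → I → O)
    (u : ∀ ⦃O⦄, X.X O → ι → O) (b : ι → I) (hb : ∀ i, b i ≠ i₀)
    (hv : ∀ ⦃O O' : Aic k⦄ (g : O →ₐ[k] O') (x : X.X O), P.N x → ∀ i j,
      g (v x i j) = v (X.map g x) i j)
    (hu : ∀ ⦃O O' : Aic k⦄ (g : O →ₐ[k] O') (x : X.X O), P.N x → ∀ i,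
      g (u x i) = u (X.map g x) i)
    (hvb : ∀ ⦃O⦄ (x : X.X O), P.N x → ∀ i, IsUnit (v x i (b i)) ∧ IsUnit (u x i))
    (h₀ : IsLift (P.prod ((tP k).pi ι)) ((P.ob F).ten (R.pow ι))
      fun _ x => P.cl F x.1 ⊗ₜ tp F fun i => Φ (v x.1 i) (u x.1 i * x.2 i))
    (h₁ : IsLift (P.prod ((tP k).pi ι)) ((P.ob F).ten (R.pow ι))
      fun O x => P.cl F x.1 ⊗ₜ tp F fun i => κ.1 O ((tP k).cl F (x.2 i))) :
    Null (h₀.hom - h₁.hom) := by
  classical
  have H₁ := Phi2.isLift_htpy h (P := P)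
    (fun _ x t i j => if j = b i then v x i j else
      (1 - t) * v x i j + t * (u x i * if j = i₀ then 1 else 0)) u
    (fun _ _ g x hx t i j => by
      split_ifs <;> simp [hv g x hx, hu g x hx]) hu
    fun _ x hx t i => ⟨⟨b i, by rw [if_pos rfl]; exact (hvb x hx i).1⟩, (hvb x hx i).2⟩
  have H₂ := Phi2.isLift_htpy h (P := P)
    (fun _ x t i j => if j = b i then (1 - t) * v x i j else u x i * if j = i₀ then 1 else 0) u
    (fun _ _ g x hx t i j => by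
      split_ifs <;> simp [hv g x hx, hu g x hx]) hu
    fun _ x hx t i => ⟨⟨i₀, by
      rw [if_neg (hb i).symm, if_pos rfl, mul_one]; exact (hvb x hx i).2⟩, (hvb x hx i).2⟩
  have hQ : Con ((P.prod ((tP k).pi ι)).ob F) :=
    (Eqv.ob_ten _ _).con (hP.ten ((Eqv.ob_pow _ _).con (con_tP.pow ι)))
  refine (null_of_htpy hQ H₁ h₀ (Phi2.isLift_one H₁) (fun _ x _ => ?_) fun _ _ _ => rfl).trans
    (null_of_htpy hQ H₂ (Phi2.isLift_one H₁) h₁ (fun _ x _ => ?_) fun _ x hx => ?_)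
  · simp
  · simp
  · congr 2
    funext i
    rw [← h.base (fun j => if j = i₀ then 1 else 0) (x.2 i) (if_pos rfl) fun j hj => if_neg hj,
      ← h.smul _ _ (u x.1 i) ⟨i₀, by rw [if_pos rfl]; exact isUnit_one⟩ (hvb _ hx.1 i).2]
    congr 1
    funext j
    by_cases e : j = b i
    · rw [if_pos e, if_neg (e ▸ hb i), sub_self, zero_mul, mul_zero]
    · rw [if_neg e]

theorem Thom.isLift_std (h : Thom I i₀ R κ Φ) {X : Fn k} (P : Pair X) (ι : Type) [Finite ι] :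
    IsLift (P.prod ((tP k).pi ι)) ((P.ob F).ten (R.pow ι))
      fun O x => P.cl F x.1 ⊗ₜ tp F fun i => κ.1 O ((tP k).cl F (x.2 i)) := by
  have _ := h
  refine ⟨fun _ x hx hd => ?_, fun _ _ g x hx => ?_⟩
  · rcases hd with hd | ⟨a, hd⟩
    · rw [P.cl_dead hd, TensorProduct.zero_tmul]
    · rw [(tp F).map_coord_zero a (by rw [(tP k).cl_dead hd, map_zero]), TensorProduct.tmul_zero]
  · rw [TensorProduct.map_tmul, map_cl g hx.1, PiTensorProduct.map_tprod]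
    congr 2
    funext i
    rw [← Ob.nat, map_cl g (hx.2 i)]

theorem Thom.uiso_std (h : Thom I i₀ R κ Φ) {X : Fn k} {P : Pair X} (hP : Con (P.ob F)) (ι : Type)
    [Finite ι] : UIso (h.isLift_std P ι).hom := by
  have e : (h.isLift_std P ι).hom = (isLift_ten F P ((tP k).pi ι)).hom ≫
      tenMap (𝟙 _) ((isLift_pow F (tP k) ι).hom ≫ powMap fun _ => κ) :=
    Pair.hom_ext fun O x hx _ => by
      rw [Ob.comp_apply, IsLift.hom_cl _ hx, IsLift.hom_cl _ hx, tenMap_app, TensorProduct.map_tmul,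
        Ob.comp_apply, IsLift.hom_cl _ hx.2, powMap_app, PiTensorProduct.map_tprod]
      rfl
  rw [e]
  exact (bij_ten _ _).uiso.comp (((bij_pow _ _).uiso.comp (h.uiso.pow con_tP ι)).ten_left hP)

/-- Scalars act trivially on the Thom space of a trivial bundle. -/
theorem null_diag [IsAlgClosed k] {ι : Type} [Finite ι] (c : ι → kˣ)
    (h : IsMap ((tP k).pi ι) ((tP k).pi ι) fun O x i => algebraMap k O (c i) * x i) :
    Null (h.hom F - 𝟙 _) := by
  obtain ⟨R, κ, Φ, T⟩ := exists_thom (k := k) (F := F) (Option Unit) none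
  have hP : Con ((Fn.line k).top.ob F) := (Con.uiso_iff uiso_aug).2 .one
  have L (c : ι → kˣ) := Phi2.isLift_fam T (P := (Fn.line k).top) (fun _ _ _ _ => 1)
    (fun O _ i => algebraMap k O (c i)) (fun _ _ g _ _ _ _ => map_one g)
    (fun _ _ g _ _ _ => g.commutes _)
    fun O _ _ i => ⟨⟨none, isUnit_one⟩, (c i).isUnit.map (algebraMap k O)⟩
  have N (c : ι → kˣ) : Null ((L c).hom - (T.isLift_std _ ι).hom) :=
    T.null_chart hP (fun _ _ _ _ => 1) (fun O _ i => algebraMap k O (c i)) (fun _ => some ())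
      (fun _ => by simp) (fun _ _ g _ _ _ _ => map_one g) (fun _ _ g _ _ _ => g.commutes _)
      (fun O _ _ i => ⟨isUnit_one, (c i).isUnit.map (algebraMap k O)⟩) _ _
  have m := (Fn.line k).top.isMap_refl.prod h
  have e : m.hom F ≫ (L 1).hom = (L c).hom := Pair.hom_ext fun O x hx _ => by
    rw [Ob.comp_apply, m.hom_cl hx, IsLift.hom_cl _ (m.n x hx), IsLift.hom_cl _ hx]
    simp
  have n : Null (m.hom F - 𝟙 _) := .of_comp_uiso (.of_null_sub (N 1) (T.uiso_std hP ι)) (by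
    rw [Preadditive.sub_comp, e, Category.id_comp]
    exact (N c).trans (N 1).symm)
  have s : IsMap ((tP k).pi ι) ((Fn.line k).top.prod ((tP k).pi ι)) fun _ x => (0, x) :=
    ⟨fun _ _ g _ _ => Prod.ext (map_zero g) rfl, fun _ _ hx => ⟨trivial, hx⟩, fun _ _ _ => .inr⟩
  have p : IsMap ((Fn.line k).top.prod ((tP k).pi ι)) ((tP k).pi ι) fun _ x => x.2 :=
    ⟨fun _ _ _ _ _ => rfl, fun _ _ hx => hx.2, fun _ _ _ hd => hd.elim False.elim id⟩
  have := (n.precomp (s.hom F)).comp (p.hom F)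
  have e₁ : (s.hom F ≫ m.hom F) ≫ p.hom F = h.hom F := Pair.hom_ext fun O x hx _ => by
    rw [Ob.comp_apply, Ob.comp_apply, s.hom_cl hx, m.hom_cl (s.n x hx), p.hom_cl (m.n _ (s.n x hx)),
      h.hom_cl hx]
  rwa [Preadditive.comp_sub, Preadditive.sub_comp, Category.comp_id, e₁,
    s.hom_comp p (isMap_refl _) fun _ _ _ => rfl, hom_refl] at this

end Pool.Agent.Lib.MP_fc2ced_ag.E
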