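import Pool.Agent.Lib.MP_fc2ced_ag.R.PtA

/-! Points of finite products. -/

open Function
open scoped TensorProduct Polynomial

namespace Pool.Agent.Lib.MP_fc2ced_ag.E

open Var R

noncomputable section

variable {k : Type} [Field k] [IsAlgClosed k] {P Q R : Type} [Var k P] [Var k Q] [Var k R]
  {O : Type} [CommRing O] [Algebra k O]

theorem PtP.key (ι : Type) [Finite ι] :
    (∀ x : ι → Pt k P O, ∃ z : Pt k (ι → P) O, ∀ i, (Rg.apply (k := k) i).pm z = x i) ∧
    ∀ z z' : Pt k (ι → P) O,
      (∀ i, (Rg.apply (k := k) i).pm z = (Rg.apply (k := k) i).pm z') → z = z' := by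
  refine @Finite.induction_empty_option (fun ι => ∀ [Finite ι],
    (∀ x : ι → Pt k P O, ∃ z : Pt k (ι → P) O, ∀ i, (Rg.apply (k := k) i).pm z = x i) ∧
    ∀ z z' : Pt k (ι → P) O,
      (∀ i, (Rg.apply (k := k) i).pm z = (Rg.apply (k := k) i).pm z') → z = z') ?_ ?_ ?_ ι _ _
  · intro α β e ih _
    have := Finite.of_equiv β e.symm
    have h1 : Rg k fun (v : α → P) (j : β) => v (e.symm j) := .pi fun j => .apply _
    have h2 : Rg k fun (v : β → P) (i : α) => v (e i) := .pi fun i => .apply _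
    refine ⟨fun x => ?_, fun z z' h => ?_⟩
    · obtain ⟨z, hz⟩ := ih.1 fun i => x (e i)
      exact ⟨h1.pm z, fun j => (h1.pm_pm _ (.apply (e.symm j)) (fun _ => rfl) z).trans
        ((hz _).trans (by rw [e.apply_symm_apply]))⟩
    · have e1 := ih.2 (h2.pm z) (h2.pm z') fun i => by
        rw [h2.pm_pm _ (.apply (e i)) fun _ => rfl, h2.pm_pm _ (.apply (e i)) fun _ => rfl, h]
      have e2 := h2.pm_pm_id (O := O) h1 fun v => funext fun j => congrArg v (e.apply_symm_apply j)
      rw [← e2 z, e1, e2]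
  · intro _
    refine ⟨fun x => ⟨Pt.const default, fun i => i.elim⟩, fun z z' _ => ?_⟩
    have h : Rg k fun _ : PEmpty.{1} → P => (default : PEmpty.{1} → P) := .const _
    rw [← h.pm_id (fun _ => Subsingleton.elim _ _) z, ← h.pm_id (fun _ => Subsingleton.elim _ _) z',
      h.pm_const, h.pm_const]
  · intro α _ ih _
    have h0 : Rg k fun (v : Option α → P) (i : α) => v (some i) := .pi fun i => .apply _
    have h1 : Rg k fun v : Option α → P => (v none, fun i => v (some i)) := (Rg.apply none).pair h0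
    have h2 : Rg k fun (v : P × (α → P)) (o : Option α) => o.elim v.1 v.2 := .pi fun o => by
      cases o with
      | none => exact Rg.id.fst
      | some i => exact (Rg.apply i).comp Rg.id.snd
    refine ⟨fun x => ?_, fun z z' h => ?_⟩
    · obtain ⟨z, hz⟩ := ih.1 fun i => x (some i)
      refine ⟨h2.pm ((x none).pair z), fun o => ?_⟩
      cases o with
      | none => exact (h2.pm_pm _ Rg.id.fst (fun _ => rfl) _).trans (Pt.fst_pair _ _)
      | some i =>
        exact (h2.pm_pm _ ((Rg.apply i).comp Rg.id.snd) (fun _ => rfl) _).trans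
          (((Rg.apply i).pm_pair_snd _ _ _).trans (hz i))
    · have e1 := ih.2 (h0.pm z) (h0.pm z') fun i => by
        rw [h0.pm_pm _ (.apply (some i)) fun _ => rfl, h0.pm_pm _ (.apply (some i)) fun _ => rfl, h]
      have e2 := h1.pm_pm_id (O := O) h2 fun v => funext fun o => by cases o <;> rfl
      rw [← e2 z, ← e2 z', (Rg.apply none).pm_pair h0, (Rg.apply none).pm_pair h0, e1, h]

theorem Pt.exists_pi {ι : Type} [Finite ι] (x : ι → Pt k P O) :
    ∃ z : Pt k (ι → P) O, ∀ i, (Rg.apply (k := k) i).pm z = x i := by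
  exact (PtP.key ι).1 x

theorem Pt.ext_pi {ι : Type} [Finite ι] {z z' : Pt k (ι → P) O}
    (h : ∀ i, (Rg.apply (k := k) i).pm z = (Rg.apply (k := k) i).pm z') : z = z' := by
  exact (PtP.key ι).2 z z' h

theorem Pt.exists_aff {ι : Type} [Finite ι] (a : ι → O) :
    ∃ z : Pt k (ι → k) O, ∀ i, z (fn fun v => v i) = a i := by
  choose x hx using fun i => Pt.exists_line (k := k) (a i)
  obtain ⟨z, hz⟩ := Pt.exists_pi x
  exact ⟨z, fun i => ((Rg.apply i).pm_fn .id z).symm.trans (by rw [hz, hx])⟩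

theorem Pt.ext_aff {ι : Type} [Finite ι] {z z' : Pt k (ι → k) O}
    (h : ∀ i, z (fn fun v => v i) = z' (fn fun v => v i)) : z = z' := by
  exact Pt.ext_pi fun i => Pt.ext_line (((Rg.apply i).pm_fn .id z).trans
    ((h i).trans ((Rg.apply i).pm_fn .id z').symm))

theorem isLoc_torus (J : Type) [Fintype J] :
    IsLoc (fun (t : J → kˣ) j => (t j : k)) fun v : J → k => ∏ j, v j := by
  refine ⟨.prod _ fun j => .apply j, .pi fun j => (Rg.apply j).val,
    fun t t' h => funext fun j => Units.ext (congrFun h j), fun v => ⟨?_, fun h => ?_⟩,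
    fun h => .pi fun j => rg_units ((Rg.apply j).comp h)⟩
  · rintro ⟨t, rfl⟩
    exact Finset.prod_ne_zero_iff.2 fun j _ => (t j).ne_zero
  · exact ⟨fun j => Units.mk0 (v j) (Finset.prod_ne_zero_iff.1 h j (Finset.mem_univ j)), rfl⟩

end

end Pool.Agent.Lib.MP_fc2ced_ag.E
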