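import Pool.Agent.Lib.MP_fc2ced_ag.R.MTc
import Pool.Agent.Lib.MP_fc2ced_ag.R.Phi2
import Pool.Agent.Lib.MP_fc2ced_ag.R.PtP

/-! Consequences of the basic properties of motives of pairs. -/

open CategoryTheory CategoryTheory.Limits CategoryTheory.Pretriangulated Function Set

namespace Pool.Agent.Lib.MP_fc2ced_ag.E

open Var R Ob Pair Pr

noncomputable section

variable {k : Type} [Field k] [IsAlgClosed k] {F : Type} [Field F] {P Q R : Type} [Var k P]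
  [Var k Q] [Var k R] {X : Pr k P} {Y : Pr k Q} {Z : Pr k R} {e e' : P → Q} (Θ : Theory k F)

theorem Pr.Mp.isIso_of_inv {d : Q → P} (h : Mp X Y e) (h' : Mp Y X d)
    (h1 : ∀ x ∈ X.U, d (e x) = x) (h2 : ∀ y ∈ Y.U, e (d y) = y) : IsIso (h.mt Θ) :=
  ⟨h'.mt Θ, (h.mt_comp Θ h' (.refl X) h1).trans (Mp.mt_id Θ _ fun _ _ => rfl),
    (h'.mt_comp Θ h (.refl Y) h2).trans (Mp.mt_id Θ _ fun _ _ => rfl)⟩

theorem Pr.Mp.mt_eq_zero (h : Mp X Y e) (h0 : ∀ x ∈ X.U, e x ∈ Y.V) : h.mt Θ = 0 := by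
  have h₁ : Mp X ⟨Y.U ∩ Y.V, Y.V, Y.hU.inter Y.hV, Y.hV⟩ e :=
    ⟨h.rg, fun x hx => ⟨h.u x hx, h0 x hx⟩, h.v⟩
  have h₂ : Mp ⟨Y.U ∩ Y.V, Y.V, Y.hU.inter Y.hV, Y.hV⟩ Y fun x => x :=
    .incl inter_subset_left fun _ _ h => h
  rw [← h₁.mt_comp Θ h₂ h fun _ _ => rfl, (Pr.isZero Θ inter_subset_right).eq_of_tgt (h₁.mt Θ) 0,
    zero_comp]

/-- Excision along open immersions. -/
theorem Pr.Mp.isIso_of_oimm (h : Mp X Y e) (he : OImm k e)
    (h1 : ∀ x, x ∈ X.U ∧ x ∉ X.V ↔ e x ∈ Y.U ∧ e x ∉ Y.V)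
    (h2 : ∀ y ∈ Y.U, y ∉ Y.V → y ∈ range e) : IsIso (h.mt Θ) := by
  rcases isEmpty_or_nonempty P with hP | hP
  · refine (Pr.isZero Θ fun x _ => hP.elim x).isIso (Pr.isZero Θ fun y hy => ?_) _
    by_contra k
    exact (h2 y hy k).elim fun x _ => hP.elim x
  obtain ⟨d, hd, e1⟩ := he.exists_inv
  let X' : Pr k P := ⟨X.U, e ⁻¹' Y.V, X.hU, Y.hV.preimage he.rg⟩
  let Y' : Pr k Q := ⟨e '' X.U, Y.V, he.isOp_image X.hU, Y.hV⟩
  have a : Mp X X' fun x => x := .incl Subset.rfl h.v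
  have b : Mp X' Y' e := ⟨h.rg, fun x hx => ⟨x, hx, rfl⟩, fun _ _ h => h⟩
  have b' : Mp Y' X' d := ⟨hd.mono (image_subset_range _ _), by
    rintro _ ⟨x, hx, rfl⟩
    rwa [e1], by
    rintro _ ⟨x, hx, rfl⟩ h
    rwa [e1]⟩
  have c : Mp Y' Y fun x => x := .incl (by
    rintro _ ⟨x, hx, rfl⟩
    exact h.u x hx) fun _ _ h => h
  have := a.isIso_incl Θ fun x => ⟨fun k => ⟨k.1, ((h1 x).1 k).2⟩,
    fun k => (h1 x).2 ⟨h.u x k.1, k.2⟩⟩
  have := b.isIso_of_inv Θ b' (fun x _ => e1 x) (by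
    rintro _ ⟨x, -, rfl⟩
    rw [e1])
  have := c.isIso_incl Θ fun y => ⟨fun k => ⟨c.u y k.1, k.2⟩, fun k => by
    obtain ⟨x, rfl⟩ := h2 y k.1 k.2
    exact ⟨⟨x, ((h1 x).2 k).1, rfl⟩, k.2⟩⟩
  rw [← (a.comp b).mt_comp Θ c h fun _ _ => rfl, ← a.mt_comp Θ b (a.comp b) fun _ _ => rfl]
  infer_instance

theorem Pr.Mp.epi_of_mono {V : Set P} (hV : IsOp k V)
    (h₁ : Mp ⟨V, ∅, hV, .empty⟩ (.top k P) fun x => x) (h₂ : Mp (.top k P) (.sup hV) fun x => x)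
    (h : IsSplitMono (h₁.mt Θ)) : Epi (h₂.mt Θ) := by
  obtain ⟨δ, T⟩ := Pr.exists_tri Θ h₁ h₂ (fun _ _ h => h) Subset.rfl fun x _ => by simp
  exact Triangle.epi₂ _ T (Triangle.mor₃_eq_zero_of_mono₁ _ T
    (inferInstanceAs (Mono (h₁.mt Θ))))

/-- A motive with supports in a disjoint union of closed subsets is the direct sum. -/
theorem Pr.eq_zero_of_pieces {I : Type} [Finite I] {V : I → Set P} (hV : ∀ i, IsOp k (V i))
    (hd : ∀ i j, i ≠ j → ∀ x, x ∈ V i ∨ x ∈ V j) {V₀ : Set P} (h₀ : IsOp k V₀)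
    (e₀ : ∀ x, x ∈ V₀ ↔ ∀ i, x ∈ V i) (h : ∀ i, Mp (.sup h₀) (.sup (hV i)) fun x => x) {A : DM k}
    (g : A ⟶ (sup h₀).mo Θ) (hg : ∀ i, g ≫ (h i).mt Θ = 0) : g = 0 := by
  classical
  have := Fintype.ofFinite I
  have key : ∀ (S : Finset I) (X : Pr k P), (∀ x, x ∈ X.U ↔ ∀ i ∉ S, x ∈ V i) →
      (∀ x, x ∈ X.V ↔ x ∈ V₀) → ∀ g : A ⟶ X.mo Θ,
      (∀ i ∈ S, ∀ m : Mp X (.sup (hV i)) fun x => x, g ≫ m.mt Θ = 0) → g = 0 := by
    intro S
    induction S using Finset.induction_on with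
    | empty =>
      intro X hU hX g _
      exact (Pr.isZero Θ fun x hx => (hX x).2 ((e₀ x).2 fun i =>
        (hU x).1 hx i (Finset.notMem_empty i))).eq_of_tgt _ _
    | insert a S ha ih =>
      intro X hU hX g hg
      let X₁ : Pr k P := ⟨X.U ∩ V a, X.V, X.hU.inter (hV a), X.hV⟩
      let X₃ : Pr k P := ⟨X.U, V a, X.hU, hV a⟩
      have v (i : I) {x : P} (hx : x ∈ X.V) : x ∈ V i := (e₀ x).1 ((hX x).1 hx) i
      have h₁ : Mp X₁ X fun x => x := .incl inter_subset_left fun _ _ h => h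
      have h₂ : Mp X X₃ fun x => x := .incl Subset.rfl fun _ _ => v a
      have h₃ : Mp X₃ (.sup (hV a)) fun x => x := .incl (subset_univ _) fun _ _ h => h
      have := h₃.isIso_incl Θ fun x => ⟨fun k => ⟨trivial, k.2⟩, fun k => ⟨(hU x).2 fun i hi =>
        (hd i a (fun e => hi (e ▸ Finset.mem_insert_self _ _)) x).resolve_right k.2, k.2⟩⟩
      obtain ⟨δ, T⟩ := Pr.exists_tri Θ h₁ h₂ (fun _ _ h => h) Subset.rfl fun x hx =>
        ⟨fun k => .inr ⟨hx, k⟩, fun k => k.elim (v a) fun k => k.2⟩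
      have z : g ≫ h₂.mt Θ = 0 := by
        rw [← cancel_mono (h₃.mt Θ), zero_comp, Category.assoc,
          h₂.mt_comp Θ h₃ (h₂.comp h₃) fun _ _ => rfl]
        exact hg a (Finset.mem_insert_self _ _) _
      obtain ⟨g', rfl⟩ : ∃ g' : A ⟶ X₁.mo Θ, g = g' ≫ h₁.mt Θ :=
        Triangle.coyoneda_exact₂ _ T g z
      rw [ih X₁ (fun x => ⟨fun k i hi => ?_, fun k => ⟨(hU x).2 fun i hi =>
        k i fun e => hi (Finset.mem_insert_of_mem e), k a ha⟩⟩) hX g' fun i hi m => ?_, zero_comp]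
      · by_cases e : i = a
        · exact e ▸ k.2
        · exact (hU x).1 k.1 i fun e' => (Finset.mem_insert.1 e').elim e hi
      · have m' : Mp X (.sup (hV i)) fun x => x := .incl (subset_univ _) fun _ _ => v i
        rw [← h₁.mt_comp Θ m' m fun _ _ => rfl, ← Category.assoc]
        exact hg i (Finset.mem_insert_of_mem hi) m'
  exact key Finset.univ _ (by simp) (fun _ => Iff.rfl) g fun i _ _ => hg i

theorem Pr.sum_pieces {I : Type} [Fintype I] {V : I → Set P} (hV : ∀ i, IsOp k (V i))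
    (hd : ∀ i j, i ≠ j → ∀ x, x ∈ V i ∨ x ∈ V j) {V₀ : Set P} (h₀ : IsOp k V₀)
    (e₀ : ∀ x, x ∈ V₀ ↔ ∀ i, x ∈ V i) (h : ∀ i, Mp (.sup h₀) (.sup (hV i)) fun x => x)
    {j : I → Q → P} (hj : ∀ i, Mp Y (.sup h₀) (j i)) (hj' : ∀ i, Mp Y (.sup (hV i)) (j i))
    [∀ i, IsIso ((hj' i).mt Θ)] (h0 : ∀ i i', i ≠ i' → ∀ y ∈ Y.U, j i y ∈ V i') :
    ∑ i, (h i).mt Θ ≫ inv ((hj' i).mt Θ) ≫ (hj i).mt Θ = 𝟙 _ := by
  refine sub_eq_zero.1 (Pr.eq_zero_of_pieces Θ hV hd h₀ e₀ h _ fun i => ?_)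
  rw [Preadditive.sub_comp, Category.id_comp, Preadditive.sum_comp, Finset.sum_eq_single i,
    Category.assoc, Category.assoc, (hj i).mt_comp Θ (h i) (hj' i) fun _ _ => rfl, IsIso.inv_hom_id,
    Category.comp_id, sub_self]
  · intro i' _ e
    rw [Category.assoc, Category.assoc, (hj i').mt_comp Θ (h i) ((hj i').comp (h i)) fun _ _ => rfl,
      Mp.mt_eq_zero Θ ((hj i').comp (h i)) (h0 i' i e), comp_zero, comp_zero]
  · exact fun k => (k (Finset.mem_univ i)).elim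

omit [IsAlgClosed k] in
theorem MTd.md_aff (ι : Type) [Finite ι] : ∃ t : Finset (B k (ι → k)),
    (Pr.pt k (0 : ι → k)).Md {1} t ∧ ∀ (O : Aic k) (x : Pt k (ι → k) O),
      (∃ f ∈ t, IsUnit (x f)) ↔ ∃ i, IsUnit (x (fn (k := k) fun v : ι → k => v i)) := by
  classical
  have := Fintype.ofFinite ι
  refine ⟨Finset.univ.image fun i => fn (k := k) fun v : ι → k => v i,
    ⟨eq_univ_of_forall fun x => ⟨1, by simp, by simp⟩, congrArg _ (Set.ext fun v => ?_)⟩,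
    fun O x => by simp⟩
  have e (i : ι) : Var.pt v (fn (k := k) fun v : ι → k => v i) = v i := pt_fn (Rg.apply i) v
  simp [opSet, e, funext_iff]

theorem MTd.bij_aff {ι : Type} [Finite ι] {t : Finset (B k (ι → k))}
    (ht : ∀ (O : Aic k) (x : Pt k (ι → k) O),
      (∃ f ∈ t, IsUnit (x f)) ↔ ∃ i, IsUnit (x (fn (k := k) fun v : ι → k => v i))) :
    ∃ h : IsMap (opP k {1} t) ((tP k).pi ι)
      fun _ x i => x (fn (k := k) fun v : ι → k => v i), Bij (h.hom F) :=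
  have h : IsMap (opP k {1} t) ((tP k).pi ι) fun _ x i => x (fn (k := k) fun v : ι → k => v i) :=
    ⟨fun _ _ _ _ _ => rfl, fun _ _ _ _ => trivial, fun O x _ => (ht O x).1⟩
  ⟨h, h.bij (fun O x _ => (ht O x).2) (fun _ _ _ _ _ _ _ e => Pt.ext_aff (congrFun e))
    fun _ y _ _ => (Pt.exists_aff y).imp fun _ hx => ⟨by simp, funext hx⟩⟩

/-- The standard model of the Thom space of a vector space. -/
theorem exists_md_aff (ι : Type) [Finite ι] : ∃ t : Finset (B k (ι → k)),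
    (Pr.pt k (0 : ι → k)).Md {1} t ∧ ∃ h : IsMap (opP k {1} t) ((tP k).pi ι)
      fun _ x i => x (fn (k := k) fun v : ι → k => v i), Bij (h.hom F) := by
  obtain ⟨t, m, ht⟩ := MTd.md_aff (k := k) ι
  exact ⟨t, m, MTd.bij_aff ht⟩

theorem mt_diag {ι : Type} [Finite ι] (c : ι → kˣ)
    (h : Mp (.pt k (0 : ι → k)) (.pt k (0 : ι → k)) fun v i => c i * v i) : h.mt Θ = 𝟙 _ := by
  obtain ⟨t, m, ht⟩ := MTd.md_aff (k := k) ι
  obtain ⟨φ, hφ⟩ := MTd.bij_aff (F := F) ht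
  have hr : Rg k fun (v : ι → k) i => c i * v i := h.rg.rg_of_forall fun _ => trivial
  have e {O : Aic k} (x : Pt k (ι → k) O) (i : ι) : hr.pm x (fn (k := k) fun v : ι → k => v i) =
      algebraMap k O (c i) * x (fn (k := k) fun v : ι → k => v i) := by
    rw [hr.pm_fn (Rg.apply i), fn_mul (.const _) (Rg.apply i), fn_const, map_mul, AlgHom.commutes]
  have u (O : Aic k) (i : ι) : IsUnit (algebraMap k O (c i)) := (c i).isUnit.map _
  have i : IsMap (opP k {1} t) (opP k {1} t) fun _ x => hr.pm x :=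
    ⟨fun _ _ _ _ _ => rfl, fun _ _ _ => by simp, fun O x _ hx => (ht O _).2
      (((ht O x).1 hx).imp fun i hi => e x i ▸ (u O i).mul hi)⟩
  have D : IsMap ((tP k).pi ι) ((tP k).pi ι) fun O x i => algebraMap k O (c i) * x i :=
    ⟨fun _ _ g x _ => funext fun i => by simp, fun _ _ _ _ => trivial,
      fun O _ _ hx => hx.imp fun i hi => (u O i).mul hi⟩
  have e1 : i.hom F ≫ φ.hom F = φ.hom F ≫ D.hom F := Pair.hom_ext fun O x hx _ => by
    rw [Ob.comp_apply, Ob.comp_apply, i.hom_cl hx, φ.hom_cl hx, φ.hom_cl (i.n x hx),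
      D.hom_cl (φ.n x hx), funext (e x)]
  have := hφ.uiso Θ
  have e2 : Θ.Φ.map (i.hom F) = 𝟙 _ := by
    rw [← cancel_mono (Θ.Φ.map (φ.hom F)), ← Θ.Φ.map_comp, e1, Θ.Φ.map_comp,
      (null_diag c D).map_eq Θ, Θ.Φ.map_id, Category.comp_id, Category.id_comp]
  have e3 := h.mt_spec Θ m m i fun _ x hx => (h.rg.pm_eq hr (fun _ _ => rfl) hx).symm
  rw [e2, Category.id_comp] at e3
  rw [← cancel_epi (m.cmp Θ).hom, ← e3, Category.comp_id]

omit [IsAlgClosed k] in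
theorem MTd.isZero_of_eqv {M N : Ob k F} (h : Eqv M N) (h' : IsZero (Θ.Φ.obj N)) :
    IsZero (Θ.Φ.obj M) :=
  h.elim fun f hf => have := hf.uiso Θ; h'.of_iso (asIso (Θ.Φ.map f))

omit [IsAlgClosed k] in
theorem MTd.isZero_gP (h : IsZero (Θ.Φ.obj ((tP k).ob F))) : IsZero (Θ.Φ.obj ((gP k).ob F)) := by
  obtain ⟨j, q, T⟩ := exists_ses_gP (k := k) (F := F)
  exact (Triangle.isZero₁_iff_isIso₂ _ (Θ.dist T)).2 ((uzero_cP Θ).isIso h _)

omit [IsAlgClosed k] in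
theorem MTd.isZero_pow (ι : Type) [Finite ι] : ∀ Θ : Theory k F,
    IsZero (Θ.Φ.obj (((tP k).ob F).pow ι)) → IsZero (Θ.Φ.obj (((gP k).ob F).pow ι)) := by
  refine Finite.induction_empty_option (P := fun α => ∀ [Finite α] (Θ : Theory k F),
    IsZero (Θ.Φ.obj (((tP k).ob F).pow α)) → IsZero (Θ.Φ.obj (((gP k).ob F).pow α)))
    (fun {α β} e h _ Θ h' => ?_) ?_ (fun {α} _ h _ Θ h' => ?_) ι
  · have := Finite.of_equiv _ e.symm
    exact isZero_of_eqv Θ (.reidx _ e.symm) (h Θ (isZero_of_eqv Θ (.reidx _ e) h'))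
  · intro _ Θ h'
    exact isZero_of_eqv Θ ((Eqv.empty _ _).trans (Eqv.empty _ _).symm) h'
  · have h1 := h (Θ.ten _ con_tP) (isZero_of_eqv Θ (Eqv.option _ α).symm h')
    have h2 := isZero_gP (Θ.ten _ (con_gP.pow α)) (isZero_of_eqv Θ (.swap _ _) h1)
    exact isZero_of_eqv Θ ((Eqv.option _ α).trans (.swap _ _)) h2

variable (F) in
/-- A theory that kills the motive of `X` kills a Tate object. -/
def Pr.Cz (X : Pr k P) : Prop := ∃ (ι : Type) (_ : Finite ι), ∀ Θ : Theory k F,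
  IsZero (X.mo Θ) → IsZero (Θ.Φ.obj (((gP k).ob F).pow ι))

theorem Pr.Cz.prod (h : X.Cz F) (h' : Y.Cz F) : (X.prod Y).Cz F := by
  obtain ⟨ι, _, h⟩ := h
  obtain ⟨ι', _, h'⟩ := h'
  refine ⟨ι' ⊕ ι, inferInstance, fun Θ z => ?_⟩
  have h1 := h _ (z.of_iso (X.prodIso Θ Y).symm)
  have h2 := h' (Θ.ten _ (con_gP.pow ι)) (MTd.isZero_of_eqv Θ (.swap _ _) h1)
  exact MTd.isZero_of_eqv Θ (Eqv.symm ⟨_, bij_sumHom (Equiv.refl _)⟩) h2

theorem MTd.cz_iff (h : Mp X Y e) (hi : ∀ Θ : Theory k F, IsIso (h.mt Θ)) : X.Cz F ↔ Y.Cz F :=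
  exists₂_congr fun _ _ => forall_congr' fun Θ =>
    have := hi Θ
    imp_congr_left (asIso (h.mt Θ)).isZero_iff

theorem cz_aff (ι : Type) [Finite ι] : (Pr.pt k (0 : ι → k)).Cz F := by
  obtain ⟨t, m, φ, hφ⟩ := exists_md_aff (k := k) (F := F) ι
  exact ⟨ι, inferInstance, fun Θ z => MTd.isZero_pow ι Θ (MTd.isZero_of_eqv Θ
    (Eqv.symm (Eqv.trans ⟨_, hφ⟩ (.ob_pow _ ι))) (z.of_iso (m.cmp Θ)))⟩

theorem cz_pt_prod {x : P} {y : Q} (h : (Pr.pt k x).Cz F) (h' : (Pr.pt k y).Cz F) :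
    (Pr.pt k (x, y)).Cz F := by
  have e (z : P × Q) : z.1 ≠ x ∨ z.2 ≠ y ↔ z ≠ (x, y) := by
    rw [Ne, Ne, Ne, Prod.ext_iff, not_and_or]
  have m : Mp ((Pr.pt k x).prod (Pr.pt k y)) (Pr.pt k (x, y)) fun z => z :=
    .incl (subset_univ _) fun z _ => (e z).1
  exact (MTd.cz_iff m fun Θ => m.isIso_incl Θ fun z =>
    ⟨fun k => ⟨trivial, mt (e z).2 k.2⟩, fun k => ⟨⟨trivial, trivial⟩, mt (e z).1 k.2⟩⟩).1
    (h.prod h')

theorem OImm.cz_iff (he : OImm k e) (x : P) : (Pr.pt k x).Cz F ↔ (Pr.pt k (e x)).Cz F := by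
  have m : Mp (Pr.pt k x) (Pr.pt k (e x)) e :=
    ⟨he.rg.rgOn _, fun _ _ => trivial, fun _ _ => he.inj.ne⟩
  exact MTd.cz_iff m fun Θ => m.isIso_of_oimm Θ he
    (fun z => and_congr_right' (not_congr he.inj.ne_iff.symm)) fun y _ k => ⟨x, (not_not.1 k).symm⟩

theorem cz_torus (J : Type) [Finite J] : (Pr.pt k (1 : J → kˣ)).Cz F := by
  have := Fintype.ofFinite J
  have h : OImm k fun (v : J → k) j => v j + 1 :=
    .of_iso (by fun_prop) (j' := fun v j => v j - 1) (by fun_prop) (fun _ => by simp)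
      fun _ => by simp
  refine ((isLoc_torus J).oimm.cz_iff 1).2 ?_
  simpa using (h.cz_iff 0).1 (cz_aff J)

end

end Pool.Agent.Lib.MP_fc2ced_ag.E
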