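import Pool.Agent.Lib.MP_fc2ced_ag.R.Geo2
import Pool.Agent.Lib.MP_fc2ced_ag.R.MTd

/-! One step of the Bott-Samelson tower. -/

open CategoryTheory CategoryTheory.Limits Function Set Matrix

set_option linter.unusedSectionVars false

namespace Pool.Agent.Lib.MP_fc2ced_ag.R

open E E.Var E.Pr

noncomputable section

variable {k : Type} [Field k] [IsAlgClosed k] {G : Type} [Group G] {n r : ℕ} {S : Type}
  (D : Red k G n r S)
  [Var k G] [Var k D.U] [GVar k G] [GVar k D.U] [Geo D] {P : Type} [Var k P]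
  {F : Type} [Field F] {J : Type} [Fintype J] {Q : Type} [Var k Q] {a : (J → kˣ) → Q → Q}
  {χ : (J → kˣ) →* kˣ}

namespace Tower

/-- The action on the next floor. -/
def up (a : (J → kˣ) → Q → Q) (χ : (J → kˣ) →* kˣ) (h : Option J → kˣ)
    (x : Q × SpecialLinearGroup (Fin 2) k) : Q × SpecialLinearGroup (Fin 2) k :=
  (a (fun j => h (some j)) x.1, Red.cd (χ fun j => h (some j)) x.2 * dd (h none))

omit [IsAlgClosed k] in
theorem up_apply (c u : kˣ) (g : SpecialLinearGroup (Fin 2) k) :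
    (Red.cd c g * dd u) 0 0 = g 0 0 * u ∧ (Red.cd c g * dd u) 0 1 = c * g 0 1 * (u : k)⁻¹ ∧
      (Red.cd c g * dd u) 1 0 = (c : k)⁻¹ * g 1 0 * u ∧
        (Red.cd c g * dd u) 1 1 = g 1 1 * (u : k)⁻¹ := by
  simp [Red.cd, dd, mul_apply, Fin.sum_univ_two]

omit [IsAlgClosed k] in
theorem sl_ext {g g' : SpecialLinearGroup (Fin 2) k} (h : g 0 0 = g' 0 0 ∧ g 0 1 = g' 0 1 ∧
    g 1 0 = g' 1 0 ∧ g 1 1 = g' 1 1) : g = g' := by
  ext i j
  fin_cases i <;> fin_cases j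
  exacts [h.1, h.2.1, h.2.2.1, h.2.2.2]

theorem rg_cd {c : P → kˣ} {g : P → SpecialLinearGroup (Fin 2) k} (hc : Rg k c) (hg : Rg k g) :
    Rg k fun x => Red.cd (c x) (g x) := by
  refine rg_SL fun i j => ?_
  fin_cases i <;> fin_cases j
  exacts [hg.sl_entry 0 0, hc.val.mul (hg.sl_entry 0 1), hc.units_inv.val.mul (hg.sl_entry 1 0),
    hg.sl_entry 1 1]

theorem act_up (ha : HAct k a) (hχ : Rg k χ) : HAct k (up a χ) where
  rg := by
    have h : Rg k fun (x : (Option J → kˣ) × Q × SpecialLinearGroup (Fin 2) k) j => x.1 (some j) :=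
      .pi fun j => (Rg.apply (some j)).comp Rg.id.fst
    exact (ha.rg.comp (h.pair Rg.id.snd.fst)).pair ((rg_cd (hχ.comp h) Rg.id.snd.snd).gmul
      ((Rg.apply none).comp Rg.id.fst).dd)
  one x := Prod.ext (ha.one _) (sl_ext (by
    simp only [up, up_apply, Pi.one_apply, show χ (fun _ => 1) = 1 from χ.map_one]
    simp))
  mul h h' x := Prod.ext (ha.mul _ _ _) (sl_ext (by
    simp only [up, up_apply, Pi.mul_apply, show (χ fun j => h (some j) * h' (some j)) = _ from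
      χ.map_mul _ _, Units.val_mul, mul_inv]
    refine ⟨?_, ?_, ?_, ?_⟩ <;> ring))

theorem loc_up (ha : Triv k a) (hχ : Rg k χ) (y₀ : Q × SpecialLinearGroup (Fin 2) k)
    {φ : SpecialLinearGroup (Fin 2) k → k} (hφ : Rg k φ)
    (h1 : ∀ c u g, φ (Red.cd c g * dd u) = φ g) (h2 : φ y₀.2 ≠ 0)
    {v : kˣ × SpecialLinearGroup (Fin 2) k → k} (hv : Rg k v) (h3 : ∀ c g, φ g ≠ 0 → v (c, g) ≠ 0)
    (h4 : ∀ (c c' u : kˣ) g, v (c * c', Red.cd c g * dd u) = (u : k) * v (c', g)) :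
    ∃ f : Q × SpecialLinearGroup (Fin 2) k → k, Rg k f ∧ (∀ h y, f (up a χ h y) = f y) ∧
      f y₀ ≠ 0 ∧ ∃ ρ : Q × SpecialLinearGroup (Fin 2) k → Option J → kˣ,
        RgOn k {y | f y ≠ 0} ρ ∧ ∀ h y, f y ≠ 0 → ρ (up a χ h y) = h * ρ y := by
  obtain ⟨f, f1, f2, f3, ρ, r1, r2⟩ := ha.loc y₀.1
  refine ⟨fun x => f x.1 * φ x.2, (f1.comp Rg.id.fst).mul (hφ.comp Rg.id.snd),
    fun h y => congrArg₂ (· * ·) (f2 _ _) (h1 _ _ _), mul_ne_zero f3 h2,
    fun x o => o.elim (un (v (χ (ρ x.1), x.2))) (ρ x.1), fun _ _ j hj hU => ?_, fun h y hy => ?_⟩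
  · have r3 := r1.rg hj.fst fun r => left_ne_zero_of_mul (hU r)
    refine .pi fun o => ?_
    cases o with
    | none =>
      exact (hv.comp ((hχ.comp r3).pair hj.snd)).un fun r => h3 _ _ (right_ne_zero_of_mul (hU r))
    | some i => exact (Rg.apply i).comp r3
  · have r3 := r2 (fun j => h (some j)) y.1 (left_ne_zero_of_mul hy)
    funext o
    cases o with
    | none =>
      have r4 := h3 (χ (ρ y.1)) _ (right_ne_zero_of_mul hy)
      refine Units.ext ?_
      simp only [up, Option.elim, Pi.mul_apply, r3, map_mul, h4, Units.val_mul]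
      rw [un_val (mul_ne_zero (Units.ne_zero _) r4), un_val r4]
    | some i => exact congrFun r3 i

theorem triv_up (ha : Triv k a) (hχ : Rg k χ) : Triv k (up a χ) := by
  refine ⟨act_up ha.act hχ, fun y₀ => ?_⟩
  by_cases h : y₀.2 0 0 * y₀.2 1 1 = 0
  · refine loc_up ha hχ y₀ (φ := fun g => g 0 1 * g 1 0)
      ((Rg.id.sl_entry 0 1).mul (Rg.id.sl_entry 1 0)) (fun c u g => ?_) (fun h' => ?_)
      (v := fun x => x.2 1 0 * x.1) ((Rg.id.snd.sl_entry 1 0).mul Rg.id.fst.val)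
      (fun c g h => mul_ne_zero (right_ne_zero_of_mul h) c.ne_zero) fun c c' u g => ?_
    · simp only [up_apply]
      field_simp
    · have e := y₀.2.det_coe
      rw [det_fin_two, h, h', sub_zero] at e
      exact zero_ne_one e
    · simp only [up_apply, Units.val_mul]
      field_simp
  · refine loc_up ha hχ y₀ (φ := fun g => g 0 0 * g 1 1)
      ((Rg.id.sl_entry 0 0).mul (Rg.id.sl_entry 1 1)) (fun c u g => ?_) h
      (v := fun x => x.2 0 0) (Rg.id.snd.sl_entry 0 0)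
      (fun c g h => left_ne_zero_of_mul h) fun c c' u g => ?_
    · simp only [up_apply]
      field_simp
    · simp only [up_apply, mul_comm]

/-- The contraction of the open cell of `SL_2`. -/
def hm (g : SpecialLinearGroup (Fin 2) k) (t : k) : SpecialLinearGroup (Fin 2) k :=
  yy (t * (g 1 0 * (g 0 0)⁻¹)) * xx (t * (g 0 0 * g 0 1))

omit [IsAlgClosed k] in
theorem hm_apply (g : SpecialLinearGroup (Fin 2) k) (t : k) :
    hm g t 0 0 = 1 ∧ hm g t 0 1 = t * (g 0 0 * g 0 1) ∧ hm g t 1 0 = t * (g 1 0 * (g 0 0)⁻¹) ∧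
      hm g t 1 1 = t * (g 1 0 * (g 0 0)⁻¹) * (t * (g 0 0 * g 0 1)) + 1 := by
  simp [hm, xx, yy, mul_apply, Fin.sum_univ_two]

omit [IsAlgClosed k] in
theorem hm_up (c u : kˣ) (g : SpecialLinearGroup (Fin 2) k) (t : k) :
    Red.cd c (hm g t) * dd 1 = hm (Red.cd c g * dd u) t := sl_ext (by
  simp only [up_apply, hm_apply, Units.val_one, mul_inv]
  refine ⟨?_, ?_, ?_, ?_⟩ <;> field_simp)

omit [IsAlgClosed k] in
theorem hm_zero (g : SpecialLinearGroup (Fin 2) k) : hm g 0 = 1 := sl_ext (by simp [hm_apply])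

omit [IsAlgClosed k] in
theorem hm_one {g : SpecialLinearGroup (Fin 2) k} (h : g 0 0 ≠ 0) :
    Red.cd 1 (hm g 1) * dd (un (g 0 0)) = g := sl_ext (by
  have e := g.det_coe
  rw [det_fin_two] at e
  simp only [up_apply, hm_apply, Units.val_one, un_val h]
  refine ⟨?_, ?_, ?_, ?_⟩ <;> field_simp
  linear_combination -e)

set_option linter.unusedVariables false in
theorem epi_up (ha : Triv k a) (hχ : Rg k χ) {Y : Type} [Var k Y]
    {π : Q × SpecialLinearGroup (Fin 2) k → Y} (hπ : IsQuo k (up a χ) π) {W : Set Y}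
    (hW : IsOp k W) (e : ∀ x, π x ∈ W ↔ x.2 0 0 ≠ 0)
    (h : Mp (.top k Y) (.sup hW) fun x => x) (Θ : Theory k F) : Epi (h.mt Θ) := by
  obtain ⟨H, hH⟩ := hπ.exists_desc (fun x t => π (x.1, hm x.2 t)) univ fun g y _ =>
    funext fun t => by
      rw [← hπ.inv (fun o => o.elim 1 fun j => g (some j)) (y.1, hm y.2 t)]
      exact congrArg (fun z => π (_, z)) (hm_up _ _ _ _).symm
  have H1 (x t) : H (π x) t = π (x.1, hm x.2 t) := congrFun (hH x trivial) t
  have H2 (y t) : H y t ∈ W := by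
    obtain ⟨x, rfl⟩ := hπ.sec.surj y
    rw [H1, e, (hm_apply _ _).1]
    exact one_ne_zero
  let X : Pr k Y := ⟨W, ∅, hW, .empty⟩
  have h₁ : Mp X (.top k Y) fun x => x := .incl (subset_univ _) fun _ _ h => h
  have h₂ : Mp (.top k Y) X fun y => H y 0 :=
    ⟨(hπ.sec.rg_of ((hπ.rg.comp (Rg.id.fst.pair (.const 1))).congr fun x => by
      rw [H1, hm_zero])).rgOn _, fun y _ => H2 y 0, fun _ _ h => h⟩
  have h₃ : Mp (X.prod (.top k k)) X fun x => H x.1 x.2 :=
    ⟨(hπ.sec.prod IsSec.id).rgOn fun _ _ j hj hU => by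
      have g := hj.fst.snd
      exact (hπ.rg.comp (hj.fst.fst.pair ((hj.snd.mul ((g.sl_entry 1 0).mul
        ((g.sl_entry 0 0).inv fun r => (e _).1 (hU r).1))).yy.gmul
        (hj.snd.mul ((g.sl_entry 0 0).mul (g.sl_entry 0 1))).xx))).congr fun r => H1 _ _,
      fun x _ => H2 _ _, fun _ _ h => h.elim id id⟩
  refine h₁.epi_of_mono Θ hW h ⟨⟨h₂.mt Θ, ?_⟩⟩
  rw [h₁.mt_comp Θ h₂ (h₁.comp h₂) fun _ _ => rfl,
    h₃.mt_htpy Θ (h₁.comp h₂) (.refl X) (fun _ _ => rfl) fun y hy => ?_]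
  · exact Mp.mt_id Θ _ fun _ _ => rfl
  · obtain ⟨x, rfl⟩ := hπ.sec.surj y
    rw [H1, ← hπ.inv (fun o => o.elim (un (x.2 0 0)) fun _ => 1)]
    refine congrArg π (Prod.ext (ha.act.one _) ?_)
    exact (congrArg (fun c => Red.cd c _ * _) χ.map_one).trans (hm_one ((e x).1 hy))

end Tower

end

end Pool.Agent.Lib.MP_fc2ced_ag.R
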