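import Pool.Agent.Lib.MP_fc2ced_ag.R.Flag
import Pool.Agent.Lib.MP_fc2ced_ag.R.Tower1
import Pool.Agent.Lib.MP_fc2ced_ag.R.Thom

/-! The class of a point of the flag variety splits off. -/

open CategoryTheory CategoryTheory.Limits Function Set Matrix

set_option linter.unusedSectionVars false

namespace Pool.Agent.Lib.MP_fc2ced_ag.R

open E E.Var E.Pr

noncomputable section

variable {k : Type} [Field k] [IsAlgClosed k] {G : Type} [Group G] {n r : ℕ} {S : Type}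
  (D : Red k G n r S)
  [Var k G] [Var k D.U] [GVar k G] [GVar k D.U] [Geo D] {P : Type} [Var k P]
  {F : Type} [Field F] [CharZero F] [Finite S] (Θ : Theory k F)

namespace Flag

variable {D} (𝔉 : Flag D)

theorem tower_aux (l : ℕ) : ∀ (s : Fin l → S) (J : Type) [Fintype J] (Q : Type) [Var k Q]
    (a : (J → kˣ) → Q → Q) (_ : Triv k a) (m : Q → G) (_ : Rg k m)
    (τ : (J → kˣ) →* (Fin r → kˣ)) (_ : Rg k τ) (_ : ∀ h y, m (a h y) = m y * D.ι (τ h))
    (_ : ∀ y g, 𝔉.π (m y * D.pφ s g) ∉ 𝔉.W 1 → ∀ i, g i 0 0 = 0)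
    (E : Type) [Var k E] (πE : Q × (Fin l → k) → E)
    (_ : IsQuo k (fun h (x : Q × (Fin l → k)) =>
      (a h x.1, lin (fun i => ((D.wt s i).comp τ)⁻¹) h x.2)) πE)
    (nz : Set E) (hnz : IsOp k nz) (_ : ∀ x, πE x ∈ nz ↔ x.2 ≠ 0) (e : E → 𝔉.X)
    (_ : ∀ x, e (πE x) = 𝔉.π (m x.1 * D.ψ s x.2)) (he : Mp (.sup hnz) (.sup (𝔉.op_W 1)) e),
    Epi (he.mt Θ) → Epi ((𝔉.mp_W 1).mt Θ) := by
  induction l with
  | zero =>
    intro s J _ Q _ a ha m hm τ hτ hmτ hc E _ πE hE nz hnz en e he' he hepi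
    have h₁ : Mp (.sup hnz) (.top k 𝔉.X) e := ⟨he.rg, fun _ _ => trivial, fun x _ hx => by
      obtain ⟨y, rfl⟩ := hE.sec.surj x
      exact (en y).1 hx (Subsingleton.elim _ _)⟩
    rw [← h₁.mt_comp Θ (𝔉.mp_W 1) he fun _ _ => rfl] at hepi
    exact epi_of_epi (h₁.mt Θ) _
  | succ l ih =>
    intro s J _ Q _ a ha m hm τ hτ hmτ hc E _ πE hE nz hnz en e he' he hepi
    obtain ⟨χ, hχ⟩ : ∃ χ : (J → kˣ) →* kˣ, ∀ h, χ h = (D.al (s 0) (τ h))⁻¹ :=
      ⟨((D.al (s 0)).comp τ)⁻¹, fun _ => rfl⟩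
    have rχ : Rg k χ := (D.rg_al (s 0) hτ).units_inv.congr hχ
    obtain ⟨τ', hτ'⟩ : ∃ τ' : (Option J → kˣ) →* (Fin r → kˣ),
        ∀ h, τ' h = τ (fun j => h (some j)) * D.cv (s 0) (h none) :=
      ⟨τ.comp (MonoidHom.pi fun j => Pi.evalMonoidHom _ (some j)) *
        (D.cv (s 0)).comp (Pi.evalMonoidHom _ none), fun _ => rfl⟩
    have rτ' : Rg k τ' := Rg.congr (by fun_prop) hτ'
    have ha' := Tower.triv_up ha rχ
    have rw' (i : Fin l) : Rg k (((D.wt (fun i => s i.succ) i).comp τ')⁻¹ :) :=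
      (D.rg_wt (fun i => s i.succ) i rτ').units_inv.congr fun _ => rfl
    obtain ⟨Y', _, π', hπ'⟩ := exists_quo ha'
    obtain ⟨E', _, πE', hE'⟩ := exists_quo (ha'.prod (hAct_lin rw'))
    obtain ⟨p, nz', V, -, hp, en', -⟩ := hπ'.exists_vb rw' hE'
    have hmτ' (h : Option J → kˣ) (y : Q × SpecialLinearGroup (Fin 2) k) :
        m (Tower.up a χ h y).1 * D.φ (s 0) (Tower.up a χ h y).2 =
          m y.1 * D.φ (s 0) y.2 * D.ι (τ' h) := by
      simp only [Tower.up, hmτ, hχ, hτ', map_mul, D.ι_cv, ← map_inv, ← D.conj_φ]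
      simp only [map_inv]
      group
    have hc' (y : Q × SpecialLinearGroup (Fin 2) k) (g : Fin l → SpecialLinearGroup (Fin 2) k)
        (h : 𝔉.π (m y.1 * D.φ (s 0) y.2 * D.pφ (fun i => s i.succ) g) ∉ 𝔉.W 1) :
        y.2 0 0 = 0 ∧ ∀ i, g i 0 0 = 0 := by
      have := hc y.1 (Fin.cons y.2 g) (by rwa [D.pφ_succ, ← mul_assoc])
      exact ⟨this 0, fun i => this i.succ⟩
    obtain ⟨e', he''⟩ := hE'.exists_desc
      (fun x => 𝔉.π (m x.1.1 * D.φ (s 0) x.1.2 * D.ψ (fun i => s i.succ) x.2)) univ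
      fun h y _ => by
        dsimp only
        rw [hmτ', mul_assoc, D.ι_mul_ψ, ← mul_assoc, 𝔉.quo.inv]
        congr 3
        funext i
        simp [lin]
    replace he'' := fun x => he'' x trivial
    have re' : Rg k e' := hE'.sec.rg_of (Rg.congr (𝔉.quo.rg.comp (by fun_prop)) he'')
    obtain ⟨W', eW'⟩ := hπ'.exists_set {x | x.2 0 0 ≠ 0} fun h y hy => by
      simpa [Tower.up, Red.cd, dd, mul_apply] using hy
    have hW' : IsOp k W' := hπ'.sec.isOp (by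
      rw [show π' ⁻¹' W' = _ from Set.ext eW']
      exact .ne (Rg.id.snd.sl_entry 0 0))
    have hW'' : IsOp k (nz' ∪ p ⁻¹' W') := V.isOp.union (hW'.preimage V.rg)
    obtain ⟨i, hi⟩ := hE.exists_desc
      (fun x => πE' ((x.1, xx (x.2 0) * ww), fun i => x.2 i.succ)) univ fun h y _ => by
        refine Eq.symm ((hE'.eq _ _).2 ⟨fun j => j.elim (χ h) h, ?_⟩)
        refine Prod.ext (Prod.ext rfl ?_) ?_
        · ext i j
          fin_cases i <;> fin_cases j <;>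
            simp [Tower.up, Red.cd, dd, xx, ww, lin, mul_apply, D.wt_zero, hχ, mul_comm]
        · funext i
          simp [lin, hτ', hχ, D.wt_succ, D.cj_w_inv]
    replace hi := fun x => hi x trivial
    have e0 (c : k) : (xx c * ww :) 0 0 = c := by simp [xx, ww, mul_apply]
    have mi : Mp (.sup hnz) (.sup hW'') i :=
      ⟨(hE.sec.rg_of (Rg.congr (hE'.rg.comp (by fun_prop)) hi)).rgOn _, fun _ _ => trivial,
        fun x _ hx => by
          obtain ⟨y, rfl⟩ := hE.sec.surj x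
          rw [hi, mem_union, mem_preimage, en', hp, eW', mem_ofPred, e0]
          by_contra! h
          exact (en y).1 hx (funext (Fin.cases h.2 (congrFun h.1)))⟩
    have me : Mp (.sup hW'') (.sup (𝔉.op_W 1)) e' :=
      ⟨re'.rgOn _, fun _ _ => trivial, fun x _ hx => by
        obtain ⟨y, rfl⟩ := hE'.sec.surj x
        rw [mem_union, mem_preimage, en', hp, eW'] at hx
        by_contra h
        rw [he'', D.ψ_eq_pφ] at h
        exact hx.elim (· (funext fun i => (e0 _).symm.trans ((hc' _ _ h).2 i))) (· (hc' _ _ h).1)⟩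
    have h' : Mp (.sup V.isOp) (.sup hW'') fun x => x :=
      .incl Subset.rfl fun _ _ h => .inl h
    have hY : Mp (.top k Y') (.sup hW') fun x => x := .incl Subset.rfl fun _ _ h => h.elim
    have := V.thom_epi Θ hW' hY (Tower.epi_up ha rχ hπ' hW' eW' hY) hW'' (fun _ => Iff.rfl) h'
    rw [← mi.mt_comp Θ me he fun x _ => by
      obtain ⟨y, rfl⟩ := hE.sec.surj x
      rw [hi, he'', he', D.ψ_succ, map_mul, mul_assoc]
      rfl] at hepi
    have := epi_of_epi (mi.mt Θ) (me.mt Θ)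
    refine ih _ _ _ _ ha' (fun y => m y.1 * D.φ (s 0) y.2) (by fun_prop) τ' rτ' hmτ'
      (fun y g h => (hc' y g h).2) E' πE' hE' nz' V.isOp en' e' he'' (h'.comp me) ?_
    rw [← h'.mt_comp Θ me _ fun _ _ => rfl]
    infer_instance

theorem epi_W (h : IsIso ((𝔉.mp_j 1).mt Θ)) : Epi ((𝔉.mp_W 1).mt Θ) := by
  have ha : Triv k fun (_ : Empty → kˣ) (y : Unit) => y :=
    ⟨⟨Rg.id.snd, fun _ => rfl, fun _ _ _ => rfl⟩, fun _ => ⟨fun _ => 1, .const _, fun _ _ => rfl,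
      one_ne_zero, fun _ => 1, (Rg.const _).rgOn _, fun _ _ _ => Subsingleton.elim _ _⟩⟩
  have hr : Rg k (1 : (Empty → kˣ) →* (Fin r → kˣ)) := .const _
  have hA := (ha.prod (hAct_lin (χ := fun i => ((D.wt D.s₀ i).comp 1)⁻¹) fun i =>
    (D.rg_wt D.s₀ i hr).units_inv.congr fun _ => rfl)).act
  have e (g : Empty → kˣ) (y : Unit × (Fin D.NN → k)) := (congrArg
    (fun g => ((y.1, lin (fun i => ((D.wt D.s₀ i).comp 1)⁻¹) g y.2) : Unit × (Fin D.NN → k)))
      (Subsingleton.elim g 1)).trans (hA.one y)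
  refine 𝔉.tower_aux Θ _ D.s₀ Empty Unit _ ha (fun _ => 1) (.const _) 1 hr (by simp)
    (fun _ g hg => D.eq_zero_of_pφ _ D.len_n₁ g ?_) (Fin D.NN → k) Prod.snd
    ⟨hA, Rg.id.snd, fun y y' => ⟨fun h => ⟨1, (e 1 y).trans (Prod.ext rfl h)⟩,
      fun ⟨g, h⟩ => congrArg Prod.snd ((e g y).symm.trans h)⟩,
      fun _ => ⟨fun _ => 1, .const _, one_ne_zero, fun x => ((), x), fun _ => 1,
        (Rg.pair (.const _) .id).rgOn _, (Rg.const _).rgOn _, fun _ _ => rfl, fun y _ => e 1 y,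
        fun _ _ _ => Subsingleton.elim _ _⟩⟩
    _ (isOp_ne 0) (fun _ => Iff.rfl) (𝔉.j 1) (fun x => ?_) (𝔉.mp_j 1) inferInstance
  · simpa [𝔉.mem_W, Red.n₁] using hg
  · simp [j, D.ξ_val]

end Flag

end

end Pool.Agent.Lib.MP_fc2ced_ag.R
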