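import Pool.Agent.Lib.MP_fc2ced_ag.R.Van
import Pool.Agent.Lib.MP_fc2ced_ag.R.Lef
import Pool.Agent.Lib.MP_fc2ced_ag.R.Tower

/-! Conservativity. -/

open CategoryTheory CategoryTheory.Limits Function Set Matrix

set_option linter.unusedSectionVars false

namespace Pool.Agent.Lib.MP_fc2ced_ag.R

open E E.Var E.Pr

noncomputable section

variable {k : Type} [Field k] [IsAlgClosed k] {G : Type} [Group G] {n r : ℕ} {S : Type}
  {D : Red k G n r S} [Finite S] {q : ℕ} {φ : G →* G}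
  [Var k G] [Var k D.U] [GVar k G] [GVar k D.U] [Geo D] {F : Type} [Field F] [CharZero F]

variable (D) in
include D in
theorem cz_one : (Pr.pt k (1 : G)).Cz F := by
  obtain ⟨η, h1, h2, h3⟩ := D.exists_coord
  have hU : (Pr.pt k (1 : D.U)).Cz F := by
    rw [← D.ξ_zero, ← (OImm.of_iso Geo.rg_ξ h1 h2 h3).cz_iff]
    exact cz_aff _
  have h := (D.isLoc_big.oimm.cz_iff (1, 1, 1)).1 (cz_pt_prod hU (cz_pt_prod (cz_torus _) hU))
  have h' := ((OImm.of_iso (k := k) (j := fun g : G => D.n₁⁻¹ * g) (by fun_prop)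
    (j' := fun g => D.n₁ * g) (by fun_prop) (by simp) (by simp)).cz_iff _).1 h
  simpa using h'

theorem conserv (hφ : Stein D q φ) (hq : ∃ p s : ℕ, p.Prime ∧ (p : k) = 0 ∧ 0 < s ∧ q = p ^ s)
    [Fintype (fixG φ)] : ∃ (ι : Type) (_ : Finite ι), ∀ η : MonoidAlgebra F (fixG φ), η ≠ 0 →
      η * η = η → ∀ Θ : Theory k F, D.Hyp Θ η → IsZero (Θ.Φ.obj (((gP k).ob F).pow ι)) := by
  obtain ⟨ι, _, h⟩ := ((cz_aff (F := F) (Fin D.NN)).prod (cz_one D))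
  obtain ⟨𝔉⟩ := exists_flag D
  refine ⟨ι, ‹_›, fun η h0 hη Θ H => h Θ (IsZero.of_iso (𝔉.euler _ (𝔉.epi_W _ inferInstance) ?_)
    (prodIso Θ _ _))⟩
  have hr := hφ.rg
  have hκ := 𝔉.rg_κ
  refine mt_eq_zero_of_nz (a := fun (γ : fixG φ) (g : G) => γ * g) h0
    ⟨fun _ => by fun_prop, fun _ => by simp, fun _ _ _ => by simp [mul_assoc]⟩ 1
    (fun γ h => Subtype.ext (by simpa using h)) _ 𝔉.mp_z
    (Z := {x | x.1⁻¹ * φ x.1 = φ (𝔉.κ x.2)}) (IsCl.eq (by fun_prop) (by fun_prop))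
    (fun γ x => by simp only [mem_ofPred_eq, Red.lang_mul]) (fun g y h => ?_) (fun γ e he => ?_)
    (Red.van hφ hq hη H 𝔉)
  · obtain ⟨y, rfl⟩ := 𝔉.surj y
    simp only [mem_ofPred_eq, 𝔉.z_π, 𝔉.κ_π, D.ξ_zero, OneMemClass.coe_one, mul_one,
      mul_inv_cancel, map_one, inv_mul_eq_one] at h
    exact ⟨⟨g, h.symm⟩, (mul_one _).symm⟩
  · obtain ⟨⟨g, a⟩, rfl⟩ := 𝔉.surjE e
    obtain rfl : a = 0 := by simpa [𝔉.mem_nz] using he
    simp only [mem_ofPred_eq, Red.lang_mul, 𝔉.κ_π, D.ξ_zero]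
    simp

end

end Pool.Agent.Lib.MP_fc2ced_ag.R
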