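import Pool.Agent.Lib.MP_fc2ced_ag.R.Geo2

/-! Products of elements of the normalizer of the torus and of unipotent elements. -/

open CategoryTheory CategoryTheory.Limits Function Set Matrix

set_option linter.unusedSectionVars false

namespace Pool.Agent.Lib.MP_fc2ced_ag.R

open E E.Var

noncomputable section

variable {k : Type} [Field k] [IsAlgClosed k] {G : Type} [Group G] {n r : ℕ} {S : Type}
  (D : Red k G n r S)
  [Var k G] [Var k D.U] [GVar k G] [GVar k D.U] [Geo D] {P : Type} [Var k P]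
  {F : Type} [Field F] [CharZero F]

namespace Red

/-- Families of elements of one coset of the torus in its normalizer. -/
def Mon {J : Type} [Fintype J] (m : (J → kˣ) → G) : Prop :=
  ∃ a ∈ D.N, ∃ d : (J → kˣ) →* (Fin r → kˣ), Rg k d ∧ ∀ t, m t = a * D.ι (d t)

variable {D} {J : Type} [Fintype J] {m m' : (J → kˣ) → G}

theorem Mon.const {a : G} (h : a ∈ D.N) : D.Mon fun _ : J → kˣ => a := by
  exact ⟨a, h, 1, .const 1, fun t => by simp⟩

theorem Mon.mul (h : D.Mon m) (h' : D.Mon m') : D.Mon fun t => m t * m' t := by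
  obtain ⟨a, ha, d, hd, e⟩ := h
  obtain ⟨a', ha', d', hd', e'⟩ := h'
  exact ⟨a * a', mul_mem ha ha', (D.cj ⟨a', ha'⟩⁻¹).comp d * d', (D.rg_cj _ hd).gmul hd',
    fun t => by simp [e, e', ι_cj, mul_assoc]⟩

theorem Mon.inv (h : D.Mon m) : D.Mon fun t => (m t)⁻¹ := by
  obtain ⟨a, ha, d, hd, e⟩ := h
  exact ⟨a⁻¹, inv_mem ha, ((D.cj ⟨a, ha⟩).comp d)⁻¹, (D.rg_cj _ hd).ginv,
    fun t => by simp [e, ι_cj, mul_assoc]⟩

theorem Mon.rg (h : D.Mon m) : Rg k m := by
  obtain ⟨a, -, d, hd, e⟩ := h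
  exact ((Rg.const a).gmul (D.rg_ι hd)).congr e

variable (D)

omit [CharZero F] in
theorem tate_U : Tate k F (univ : Set D.U) := by
  obtain ⟨η, h1, -, h2⟩ := D.exists_coord
  exact (tate_pi tate_line _).retract h1 (D.rg_ξ .id) h2 fun _ => Iff.rfl

theorem tate_U_one : Tate k F ({1} : Set D.U) := by
  obtain ⟨η, h1, -, h2⟩ := D.exists_coord
  exact (tate_set_pi _ fun _ => tate_zero).retract h1 (D.rg_ξ .id) h2 fun y => by
    rw [mem_singleton_iff, ← D.ξ_zero, D.ξ_bij.1.eq_iff, funext_iff]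
    rfl

namespace Conv

variable {B B' X : Type} [Var k B] [Var k B'] [Var k X]

/-- The basic family of varieties. -/
def ZZ (M : B → G) (τ : B → X → G) : Set (B × D.U × D.U × X) :=
  {x | (x.2.1 : G) * M x.1 * x.2.2.1 * τ x.1 x.2.2.2 = 1}

variable {D} {M : B → G} {τ : B → X → G}

omit [CharZero F] in
theorem absorb {α β M' : B → G} (h : Tate k F (ZZ D M τ)) (hα : Rg k α) (hβ : Rg k β)
    (ha : ∀ x, α x ∈ D.U) (hb : ∀ x, β x ∈ D.U) (e : ∀ x, M' x = α x * M x * β x) :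
    Tate k F (ZZ D M' τ) :=
  h.retract (s := fun x => (x.1, x.2.1 * ⟨α x.1, ha _⟩, ⟨β x.1, hb _⟩ * x.2.2.1, x.2.2.2))
    (p := fun x => (x.1, x.2.1 * (⟨α x.1, ha _⟩ : D.U)⁻¹,
      (⟨β x.1, hb _⟩ : D.U)⁻¹ * x.2.2.1, x.2.2.2)) (by fun_prop) (by fun_prop)
    (fun x => by simp) fun y => by simp [ZZ, e, mul_assoc]

omit [CharZero F] in
theorem base {f : B → B'} {g : B' → B} (hf : Rg k f) (hg : Rg k g) (e : ∀ x, g (f x) = x)
    (h : Tate k F (ZZ D (fun x => M (g x)) fun x => τ (g x))) : Tate k F (ZZ D M τ) :=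
  h.retract (s := fun x => (f x.1, x.2)) (p := fun x => (g x.1, x.2)) (by fun_prop) (by fun_prop)
    (fun x => by simp [e]) fun _ => Iff.rfl

omit [CharZero F] in
theorem line (h : Tate k F (ZZ D M τ)) :
    Tate k F (ZZ D (fun x : B × k => M x.1) fun x => τ x.1) :=
  (h.prod tate_line).retract (s := fun x => ((x.1.1, x.2), x.1.2))
    (p := fun x => ((x.1.1, x.2), x.1.2)) (by fun_prop) (by fun_prop) (fun _ => rfl)
    fun y => by simp [ZZ]

theorem split {M : B × k → G} (hM : Rg k M) (hτ : Rg k fun x : B × X => τ x.1 x.2)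
    (h0 : Tate k F (ZZ D (fun x => M (x, 0)) τ))
    (h1 : Tate k F (ZZ D (fun x : B × kˣ => M (x.1, x.2)) fun x => τ x.1)) :
    Tate k F (ZZ D M fun x => τ x.1) := by
  have H : Tate k F {x : (B × D.U × D.U × X) × k |
      (x.1.2.1 : G) * M (x.1.1, x.2) * x.1.2.2.1 * τ x.1.1 x.1.2.2.2 = 1} := by
    refine Tate.split_line (IsCl.eq ?_ (Rg.const 1)).lc h0 ?_
    · exact Rg.gmul (by fun_prop)
        (hτ.comp (g := fun x : (B × D.U × D.U × X) × k => (x.1.1, x.1.2.2.2)) (by fun_prop))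
    · exact h1.retract (s := fun x => ((x.1.1, x.2), x.1.2)) (p := fun x => ((x.1.1, x.2), x.1.2))
        (by fun_prop) (by fun_prop) (fun _ => rfl) fun _ => Iff.rfl
  exact H.retract (s := fun x => ((x.1.1, x.2), x.1.2)) (p := fun x => ((x.1.1, x.2), x.1.2))
    (by fun_prop) (by fun_prop) (fun _ => rfl) fun _ => Iff.rfl

omit [CharZero F] in
theorem diag {d : B → Fin r → kˣ} (hd : Rg k d)
    (h : Tate k F (ZZ D (fun x => M x * D.ι (d x)) τ)) :
    Tate k F (ZZ D M fun x (y : D.U × X) => D.ι (d x) * y.1 * τ x y.2) := by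
  have h1 (x : B) (u : D.U) : D.ι (d x) * u * (D.ι (d x))⁻¹ ∈ D.U := D.norm _ _ u.2
  have h2 (x : B) (u : D.U) : (D.ι (d x))⁻¹ * u * D.ι (d x) ∈ D.U := D.norm' _ u.2
  exact (D.tate_U.prod h).retract
    (s := fun x => (x.2.2.2.1, x.1, x.2.1, ⟨_, h2 x.1 x.2.2.1⟩ * x.2.2.2.1, x.2.2.2.2))
    (p := fun x => (x.2.1, x.2.2.1, ⟨_, h1 x.2.1 (x.2.2.2.1 * x.1⁻¹)⟩, x.1, x.2.2.2.2))
    (by fun_prop) (by fun_prop) (fun x => by simp [mul_assoc]) fun y => by simp [ZZ, mul_assoc]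

omit [CharZero F] in
theorem step {s : S} {v : G} (hv : D.Asc s v) {d : B → Fin r → kˣ} (hd : Rg k d)
    (h : Tate k F (ZZ D (fun x : B × k => M x.1 * D.x s x.2 * D.w s)
      fun x (y : D.U × X) => v * D.ι (d x.1) * y.1 * τ x.1 y.2)) :
    Tate k F (ZZ D M fun x (y : D.U × X) => D.w s * v * D.ι (d x) * y.1 * τ x y.2) := by
  have h2 (x : B) (c : k) : (D.ι (d x))⁻¹ * (v⁻¹ * D.x s c * v) * D.ι (d x) ∈ D.U :=
    D.norm' _ (hv c)
  refine h.retract
    (s := fun x => ((x.1, D.cs s x.2.2.1), x.2.1, ⟨_, D.left_mem s x.2.2.1.2⟩, x.2.2.2))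
    (p := fun x => (x.1.1, x.2.1, ⟨_, D.xmem s x.1.2⟩ * ⟨_, D.right_mem' s x.2.2.1.2⟩,
      ⟨_, h2 x.1.1 (-D.cs s (x.2.2.1 : G)⁻¹)⟩ * x.2.2.2.1, x.2.2.2.2))
    (by fun_prop) (by fun_prop) (fun x => ?_) fun y => ?_
  · have h0 : D.cs s ((D.w s)⁻¹ * (D.x s (-D.cs s x.2.2.1) * x.2.2.1) * D.w s)⁻¹ = 0 :=
      D.cs_conj s (inv_mem (D.left_mem s x.2.2.1.2)) (by
        simpa [mul_assoc] using inv_mem (mul_mem (D.xmem s (-D.cs s x.2.2.1)) x.2.2.1.2))
    refine Prod.ext rfl (Prod.ext rfl (Prod.ext (Subtype.ext ?_) (Prod.ext (Subtype.ext ?_) rfl)))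
    · simp only [Subgroup.coe_mul, h0, x_zero, mul_one]
      simp only [x_neg, mul_assoc, mul_inv_cancel_left, mul_inv_cancel, mul_one]
    · simp only [Subgroup.coe_mul, h0, neg_zero, x_zero, mul_one, inv_mul_cancel, one_mul]
  · simp only [ZZ, Set.mem_ofPred_eq, Subgroup.coe_mul, x_neg, mul_assoc,
      inv_mul_cancel_left, mul_inv_cancel_left]

theorem rg_tl {l : ℕ} {g : B → Fin l → G} {u : B → Fin l → D.U} (hg : ∀ i, Rg k fun x => g x i)
    (hu : Rg k u) : Rg k fun x => E.wd (g x) fun i => (u x i : G) :=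
  Rg.gprod fun i => (hg i).gmul (D.rg_val ((Rg.apply i).comp hu))

theorem tate_one (h : D.Mon m) : Tate k F {t | m t = 1} := by
  obtain ⟨a, -, d, hd, e⟩ := h
  by_cases ha : ∃ c, a = D.ι c
  · obtain ⟨c, rfl⟩ := ha
    exact (tate_torus fun j => (IsChar.const (c j)).mul (isChar_of_hom
      ((Pi.evalMonoidHom _ j).comp d) ((Rg.apply j).comp hd))).congr fun t => by
        rw [Set.mem_ofPred_eq, e, ← map_mul, ← map_one D.ι, D.ι_inj.eq_iff, funext_iff]
        rfl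
  · exact Tate.empty.congr fun t => iff_of_false
      (fun h => ha ⟨(d t)⁻¹, by rw [map_inv, eq_inv_iff_mul_eq_one, ← e, h]⟩) id

variable (D F) in
/-- The statement for `l` factors in the tail. -/
def St (l : ℕ) : Prop :=
  ∀ (J : Type) [Fintype J] (m : (J → kˣ) → G) (ms : Fin l → (J → kˣ) → G), D.Mon m →
    (∀ i, D.Mon (ms i)) → Tate k F (ZZ D m fun t (u : Fin l → D.U) =>
      E.wd (fun i => ms i t) fun i => (u i : G))

theorem st_zero : St D F 0 := by
  rintro J _ m ms hm -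
  have key (x : (J → kˣ) × D.U × D.U × (Fin 0 → D.U)) :
      x ∈ ZZ D m (fun t u => E.wd (fun i => ms i t) fun i => (u i : G)) ↔
        m x.1 = 1 ∧ x.2.1 * x.2.2.1 = 1 := by
    simp only [ZZ, E.wd, List.ofFn_zero, List.prod_nil, mul_one, Set.mem_ofPred_eq]
    refine ⟨fun h => ?_, fun h => ?_⟩
    · obtain ⟨a, ha, d, -, e⟩ := hm
      have h1 : m x.1 = 1 := D.eq_one_of_mem_N (by
        rw [show m x.1 = (x.2.1 : G)⁻¹ * (x.2.2.1 : G)⁻¹ by
          rw [eq_inv_mul_iff_mul_eq, eq_inv_iff_mul_eq_one, h]]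
        exact mul_mem (inv_mem x.2.1.2) (inv_mem x.2.2.1.2)) (e _ ▸ mul_mem ha (D.ι_mem _))
      rw [h1, mul_one] at h
      exact ⟨h1, Subtype.ext h⟩
    · rw [h.1, mul_one]
      exact congrArg Subtype.val h.2
  exact ((tate_one hm).prod (D.tate_U.prod (D.tate_U_one.prod
    (tate_pi D.tate_U (Fin 0))))).retract
    (s := fun x => (x.1, x.2.1, x.2.1 * x.2.2.1, x.2.2.2))
    (p := fun x => (x.1, x.2.1, x.2.1⁻¹ * x.2.2.1, x.2.2.2)) (by fun_prop) (by fun_prop)
    (fun x => by simp) fun y => by simp [key]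

theorem st_aux {l : ℕ} (ih : St D F l) {v : G} (hv : v ∈ D.N) :
    ∀ (J : Type) [Fintype J] (m : (J → kˣ) → G) (d : (J → kˣ) →* (Fin r → kˣ))
      (ms : Fin l → (J → kˣ) → G), D.Mon m → Rg k d → (∀ i, D.Mon (ms i)) →
      Tate k F (ZZ D m fun t (y : D.U × (Fin l → D.U)) =>
        v * D.ι (d t) * y.1 * E.wd (fun i => ms i t) fun i => (y.2 i : G)) := by
  refine D.induction (p := fun v => ∀ (J : Type) [Fintype J] (m : (J → kˣ) → G)
      (d : (J → kˣ) →* (Fin r → kˣ)) (ms : Fin l → (J → kˣ) → G), D.Mon m → Rg k d →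
      (∀ i, D.Mon (ms i)) → Tate k F (ZZ D m fun t (y : D.U × (Fin l → D.U)) =>
        v * D.ι (d t) * y.1 * E.wd (fun i => ms i t) fun i => (y.2 i : G)))
    (fun c J _ m d ms hm hd hms => ?_) (fun s v _ hv ih2 J _ m d ms hm hd hms => ?_) hv
  · simp only [← map_mul]
    exact diag (d := fun t => c * d t) ((Rg.const c).gmul hd)
      (ih J _ ms (hm.mul ⟨_, D.ι_mem c, d, hd, fun _ => map_mul _ _ _⟩) hms)
  have rm := hm.rg
  have h0 := ih2 J (fun t => m t * D.w s) d ms (hm.mul (.const (D.w_mem s))) hd hms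
  refine step (τ := fun t (u : Fin l → D.U) => E.wd (fun i => ms i t) fun i => (u i : G))
    hv hd ?_
  obtain ⟨a, ha, c, hc, e⟩ := id hm
  rcases D.dich s a⁻¹ (inv_mem ha) with h | h
  · have h0' := line h0
    exact absorb h0' (α := fun x => m x.1 * D.x s x.2 * (m x.1)⁻¹) (β := fun _ => 1)
      (by fun_prop) (.const _) (fun x => by
        have := h (D.al s (c x.1) * x.2)
        rw [inv_inv, ← Red.x, ← conj_x] at this
        simpa only [e, mul_assoc, _root_.mul_inv_rev] using this)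
      (fun _ => one_mem _) fun x => by simp only [mul_assoc, inv_mul_cancel_left, mul_one]
  refine split (τ := fun t (y : D.U × (Fin l → D.U)) =>
    v * D.ι (d t) * y.1 * E.wd (fun i => ms i t) fun i => (y.2 i : G)) (by fun_prop) ?_
    (by simpa only [x_zero, mul_one] using h0) ?_
  · exact Rg.gmul (((Rg.const v).gmul (D.rg_ι (hd.comp Rg.id.fst))).gmul (by fun_prop))
      (rg_tl (fun i => (hms i).rg.comp Rg.id.fst) (by fun_prop))
  let q : (Option J → kˣ) →* (J → kˣ) := MonoidHom.pi fun j => Pi.evalMonoidHom _ (some j)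
  have rq : Rg k q := .pi fun j => .apply (some j)
  have hq : ∀ {m : (J → kˣ) → G}, D.Mon m → D.Mon fun t => m (q t) :=
    fun ⟨a, ha, d, hd, e⟩ => ⟨a, ha, d.comp q, hd.comp rq, fun _ => e _⟩
  have h1 := ih2 (Option J) (fun t => m (q t) * D.ι (D.cv s (t none))) (d.comp q)
    (fun i t => ms i (q t)) ((hq hm).mul ⟨1, one_mem _, (D.cv s).comp (Pi.evalMonoidHom _ none),
      D.rg_cv s (.apply none), fun _ => (one_mul _).symm⟩) (hd.comp rq) fun i => hq (hms i)
  have r1 : Rg k fun x : (J → kˣ) × kˣ => m x.1 := by fun_prop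
  have r2 : Rg k fun x : (J → kˣ) × kˣ => ((x.2⁻¹ : kˣ) : k) := Rg.id.snd.units_inv.val
  refine absorb (M := fun x : (J → kˣ) × kˣ => m x.1 * D.ι (D.cv s x.2)) ?_
    ((r1.gmul (D.rg_y s r2)).gmul r1.ginv) (D.rg_x s r2.neg) (fun x => ?_)
    (fun _ => D.xmem s _) fun x => ?_
  · exact base (f := fun x j => Option.elim j x.2 x.1) (g := fun t => (q t, t none))
      (.pi fun i => by cases i <;> simp only [Option.elim] <;> fun_prop)
      (rq.pair (.apply none)) (fun _ => rfl) h1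
  · have := h (((D.al s (c x.1))⁻¹ : kˣ) * ((x.2⁻¹ : kˣ) : k))
    rw [inv_inv, ← Red.y, ← conj_y] at this
    simpa only [e, mul_assoc, _root_.mul_inv_rev] using this
  · rw [mul_assoc (m x.1), x_mul_w]
    simp only [mul_assoc, inv_mul_cancel_left]

theorem st (l : ℕ) : St D F l := by
  induction l with
  | zero => exact st_zero
  | succ l ih =>
    intro J _ m ms hm hms
    obtain ⟨v, hv, d, hd, e⟩ := hms 0
    exact (st_aux ih hv J m d (fun i => ms i.succ) hm hd fun i => hms _).retract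
      (s := fun x => (x.1, x.2.1, x.2.2.1, x.2.2.2 0, fun i => x.2.2.2 i.succ))
      (p := fun x => (x.1, x.2.1, x.2.2.1, fun i => Fin.cases x.2.2.2.1 x.2.2.2.2 i))
      (by fun_prop) (Rg.id.fst.pair (Rg.id.snd.fst.pair (Rg.id.snd.snd.fst.pair (.pi fun i => by
        induction i using Fin.cases <;> simp only [Fin.cases_zero, Fin.cases_succ] <;> fun_prop))))
      (fun x => Prod.ext rfl (Prod.ext rfl (Prod.ext rfl (funext fun i => by
        induction i using Fin.cases <;> rfl)))) fun y => by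
        simp only [ZZ, Set.mem_ofPred_eq, E.wd_succ, e, Fin.cases_zero, Fin.cases_succ]

end Conv

theorem tate_conv (l : ℕ) {ms : Fin l → (J → kˣ) → G} (hm : D.Mon m) (hms : ∀ i, D.Mon (ms i)) :
    Tate k F {x : (J → kˣ) × D.U × D.U × (Fin l → D.U) |
      (x.2.1 : G) * m x.1 * x.2.2.1 * E.wd (fun i => ms i x.1) (fun i => (x.2.2.2 i : G)) = 1} := by
  exact Conv.st l J m ms hm hms

end Red

end

end Pool.Agent.Lib.MP_fc2ced_ag.R
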