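import Pool.Agent.Lib.MP_fc2ced_ag.R.Geo3
import Pool.Agent.Lib.MP_fc2ced_ag.R.Conv

/-! The quotient of a product of two Deligne-Lusztig varieties is of Tate type. -/

open CategoryTheory CategoryTheory.Limits Function Set Matrix

set_option linter.unusedSectionVars false

namespace Pool.Agent.Lib.MP_fc2ced_ag.R

open E E.Var

noncomputable section

variable {k : Type} [Field k] [IsAlgClosed k] {G : Type} [Group G] {n r : ℕ} {S : Type}
  (D : Red k G n r S)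
  [Var k G] [Var k D.U] [GVar k G] [GVar k D.U] [Geo D] {P : Type} [Var k P]
  {F : Type} [Field F] [CharZero F] [Finite S]

namespace Red

theorem tate_bruhat {Y : Type} [Var k Y] {Z : Set (G × Y)} (hZ : LC k Z) (lam rho : D.U → Y → Y)
    (hlam : Rg k fun x : D.U × Y => lam x.1 x.2) (hrho : Rg k fun x : D.U × Y => rho x.1 x.2)
    (lam_inv : ∀ u y, lam u (lam u⁻¹ y) = y) (rho_inv : ∀ u y, rho u (rho u⁻¹ y) = y)
    (lamZ : ∀ (u : D.U) g y, ((u : G) * g, lam u y) ∈ Z ↔ (g, y) ∈ Z)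
    (rhoZ : ∀ (u : D.U) g y, (g * (u : G), rho u y) ∈ Z ↔ (g, y) ∈ Z)
    (hT : ∀ v, Tate k F {x : (Fin r → kˣ) × Y | (D.ν v * D.ι x.1, x.2) ∈ Z}) : Tate k F Z := by
  refine (strat (k := k) (fun x : G × Y => D.cl x.1) (fun v => ?_) (p := fun W => Tate k F (Z ∩ W))
    (Tate.empty.congr (by simp)) (fun Z' W h1 h2 h3 h4 => ?_) fun v => ?_).congr (by simp)
  · obtain ⟨Ω, h1, h2, h3⟩ := D.strat_cl v
    exact ⟨Ω, h1, h2.preimage Rg.id.fst, h3.preimage Rg.id.fst⟩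
  · exact Tate.split (hZ.inter h1) h2 (inter_assoc Z Z' W ▸ h3) (inter_sdiff_assoc Z Z' W ▸ h4)
  obtain ⟨l, s, hv, hc⟩ := D.exists_chart v
  refine ((hv.prod (Q := Y)).tate_iff (hZ.inter ((D.lc_cell v).preimage Rg.id.fst))
    fun x hx => ?_).1 ?_
  · obtain ⟨u, hu, _, ⟨t, u', hu', rfl⟩, e⟩ := D.mem_cell_iff.2 hx.2
    obtain ⟨a, u₁, h1, h2⟩ := D.exists_ψ (D.sw v) hu
    refine (hv.range _).1 ⟨(0, a, t, ⟨_, mul_mem (D.norm' t h1) hu'⟩), ?_⟩
    rw [ν, h2] at e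
    refine Eq.trans ?_ e.symm
    simp [ψ_zero, mul_assoc]
  let u₁ (b : Fin (D.lw v) → k) : D.U := ⟨_, D.ψ_sw_mem v b⟩
  have r1 : Rg k u₁ := D.rg_mk (by fun_prop) _
  refine (((tate_set_pi (Fin l) fun _ => tate_zero).prod ((tate_pi tate_line (Fin (D.lw v))).prod
    D.tate_U)).prod (hT v)).retract
    (s := fun x => ((x.1.1, x.1.2.1, x.1.2.2.2), x.1.2.2.1,
      lam (u₁ x.1.2.1)⁻¹ (rho x.1.2.2.2⁻¹ x.2)))
    (p := fun y => ((y.1.1, y.1.2.1, y.2.1, y.1.2.2), rho y.1.2.2 (lam (u₁ y.1.2.1) y.2.2)))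
    (by fun_prop) (by fun_prop) (fun x => by simp only [lam_inv, rho_inv]) fun y => ?_
  simp only [mem_prod, mem_ofPred_eq, mem_singleton_iff, mem_univ, and_true, mem_preimage,
    mem_inter_iff, ← mem_cell_iff, rhoZ, ← funext_iff]
  rw [and_comm, hc (y.1.1, y.1.2.1, y.2.1, y.1.2.2)]
  refine and_congr_left fun h => ?_
  rw [← lamZ (u₁ y.1.2.1), show y.1.1 = 0 from h]
  simp [u₁, ψ_zero, mul_assoc]

theorem ConvK.cyc {H : Type} [Group H] (a b c : H) : a * (b * c) = 1 ↔ c * a = b⁻¹ := by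
  rw [← mul_assoc, mul_eq_one_comm, ← mul_assoc, mul_eq_one_iff_eq_inv]

@[fun_prop] theorem ConvK.rg_wd {m : ℕ} {a u : P → Fin m → G} (ha : ∀ i, Rg k fun x => a x i)
    (hu : ∀ i, Rg k fun x => u x i) : Rg k fun x => E.wd (a x) (u x) :=
  Rg.gprod fun i => (ha i).gmul (hu i)

@[fun_prop] theorem ConvK.rg_rmul {m : ℕ} {u : P → Fin (m + 1) → G} {e : P → G} (hu : Rg k u)
    (he : Rg k e) : Rg k fun x => rmul (u x) (e x) :=
  .pi fun _ => .ite _ (by fun_prop) (by fun_prop)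

theorem tate_K {q : ℕ} {φ : G →* G} (h : Stein D q φ) {m : ℕ} (w : Fin (m + 1) → D.N) {a : G}
    (ha : a ∈ D.N) : Tate k F {x : (Fin (m + 1) → D.U) × G × D.U |
      x.2.1⁻¹ * E.wd (fun i => (w i : G)) (fun i => (x.1 i : G)) * φ x.2.1 = a * x.2.2} := by
  have hφ := h.rg
  have hφ' : Rg k h.onU := D.rg_mk (hφ.comp Geo.rg_val) _
  have e1 (u : D.U) : (h.onU u : G) = φ u := rfl
  have e4 (u : Fin (m + 1) → D.U) (e) := wd_rmul D.U.subtype (fun i => (w i : G)) u e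
  simp only [Subgroup.coe_subtype] at e4
  have H : Tate k F {x : G × (D.U × D.U) × (Fin (m + 1) → D.U) × D.U |
      E.wd (fun i => (w i : G)) (fun i => (x.2.2.1 i : G)) * φ x.1 =
        x.2.1.1 * x.1 * x.2.1.2 * (a * x.2.2.2)} := by
    refine D.tate_bruhat (IsCl.eq (by fun_prop) (by fun_prop)).lc
      (fun u y => ((y.1.1 * u⁻¹, y.1.2), rmul y.2.1 (h.onU u)⁻¹, y.2.2))
      (fun u y => ((y.1.1, u⁻¹ * y.1.2), y.2.1, y.2.2 * h.onU u)) (by fun_prop) (by fun_prop)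
      (fun u y => by simp) (fun u y => by simp) (fun u g y => ?_) (fun u g y => ?_) fun v => ?_
    · simp [e1, e4, mul_assoc]
    · simp only [e1, mem_ofPred_eq, map_mul, Subgroup.coe_mul, Subgroup.coe_inv,
        ← mul_assoc, mul_left_inj, mul_inv_cancel_right]
    · obtain ⟨φ', h1⟩ := h.exists_onT
      have hm : D.Mon fun t : Fin r → kˣ => D.ν v * D.ι t :=
        ⟨_, D.ν_mem v, .id _, .id, fun _ => rfl⟩
      have hm' : D.Mon fun t : Fin r → kˣ => φ (D.ν v * D.ι t) :=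
        ⟨_, h.map_N _ (D.ν_mem v), φ', D.rg_of_ι (by simp only [h1]; fun_prop),
          fun t => by rw [h1, ← map_mul]⟩
      refine (D.tate_conv (F := F) (m + 1 + 1 + 1) hm'
        (ms := Fin.cons (fun _ => a⁻¹) (Fin.cons (fun t => (D.ν v * D.ι t)⁻¹) fun i _ => w i))
        fun i => i.cases (.const (inv_mem ha)) fun i =>
          i.cases hm.inv fun i => .const (w i).2).retract
        (s := fun x => (x.1, 1, x.2.2.2⁻¹, Fin.cons x.2.1.2⁻¹ (Fin.cons x.2.1.1⁻¹ x.2.2.1)))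
        (p := fun y => (y.1, ((y.2.2.2 (.succ 0))⁻¹, (y.2.2.2 0)⁻¹),
          rmul (fun i => y.2.2.2 i.succ.succ) y.2.1, y.2.2.1⁻¹))
        (by fun_prop) (by fun_prop) (fun x => by simp) fun y => ?_
      rw [mem_ofPred_eq, E.wd_succ, E.wd_succ]
      simp only [mem_ofPred_eq, e4, Fin.cons_zero, Fin.cons_succ]
      rw [mul_assoc, ← mul_assoc (a⁻¹ * _), ← mul_assoc (y.2.2.1 : G), ConvK.cyc]
      simp only [_root_.mul_inv_rev, inv_inv, Subgroup.coe_inv, mul_assoc]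
  refine H.retract (s := fun x => (x.2.1, (1, 1), x.1, x.2.2))
    (p := fun x => (rmul x.2.2.1 (h.onU x.2.1.1)⁻¹, x.2.1.1 * x.1 * x.2.1.2,
      x.2.2.2 * h.onU x.2.1.2)) (by fun_prop) (by fun_prop) (fun x => by simp) fun y => ?_
  simp only [mem_ofPred_eq, e4]
  rw [mul_assoc _⁻¹, inv_mul_eq_iff_eq_mul]
  simp only [e1, map_mul, Subgroup.coe_mul, Subgroup.coe_inv, ← mul_assoc, mul_left_inj,
    inv_mul_cancel_right]

end Red

end

end Pool.Agent.Lib.MP_fc2ced_ag.R
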