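import Pool.Agent.Lib.MP_fc2ced_ag.EDefs

/-! Connected reductive groups with a pinning, Steinberg endomorphisms and their
Deligne-Lusztig varieties. -/

open Matrix

namespace Pool.Agent.Lib.MP_fc2ced_ag.R

noncomputable section

variable {k : Type} [Field k]

/-- The algebra of the functions on `X` that are polynomials in the coordinates `c`. -/
def Pol {X ι : Type} (c : X → ι → k) : Subalgebra k (X → k) :=
  Algebra.adjoin k (Set.range fun i x => c x i)

/-- The functions `c'` are polynomials in the coordinates `c`. -/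
def Reg {X ι ι' : Type} (c : X → ι → k) (c' : X → ι' → k) : Prop :=
  ∀ i, (fun x => c' x i) ∈ Pol c

/-- The coordinates on the general linear group: the entries of `g` and of `g⁻¹`. -/
def co {n : ℕ} (g : GL (Fin n) k) (i : Bool × Fin n × Fin n) : k :=
  (cond i.1 g g⁻¹ : GL (Fin n) k) i.2.1 i.2.2

/-- The coordinates on a torus. -/
def cot {r : ℕ} (t : Fin r → kˣ) (i : Bool × Fin r) : k := (cond i.1 (t i.2) (t i.2)⁻¹ : kˣ)

/-- The upper unitriangular matrix in `SL_2`. -/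
def xx (c : k) : SpecialLinearGroup (Fin 2) k := ⟨!![1, c; 0, 1], by simp [det_fin_two]⟩

/-- The lower unitriangular matrix in `SL_2`. -/
def yy (c : k) : SpecialLinearGroup (Fin 2) k := ⟨!![1, 0; c, 1], by simp [det_fin_two]⟩

/-- The diagonal matrix in `SL_2`. -/
def dd (a : kˣ) : SpecialLinearGroup (Fin 2) k :=
  ⟨!![(a : k), 0; 0, (a⁻¹ : kˣ)], by simp [det_fin_two]⟩

/-- The Weyl element of `SL_2`. -/
def ww : SpecialLinearGroup (Fin 2) k := ⟨!![0, -1; 1, 0], by simp [det_fin_two]⟩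

variable (k) in
/-- A connected reductive group `G` with a maximal torus `T` (the image of `ι`), the unipotent
radical `U` of a Borel subgroup `B = T U`, and the homomorphisms `φ s : SL_2 → G` attached to the
simple roots `s`. -/
structure Red (G : Type) [Group G] (n r : ℕ) (S : Type) where
  /-- `G` is a closed, smooth and connected subgroup of `GL_n` -/
  ρ : G →* GL (Fin n) k
  inj : Function.Injective ρ
  closed : ∀ g : GL (Fin n) k, (∀ f : MvPolynomial (Bool × Fin n × Fin n) k,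
    (∀ x, f.eval (co (ρ x)) = 0) → f.eval (co g) = 0) → g ∈ ρ.range
  smooth : Algebra.Smooth k (Pol fun x => co (ρ x))
  dom : IsDomain (Pol fun x => co (ρ x))
  /-- the torus -/
  ι : (Fin r → kˣ) →* G
  ι_reg : Reg cot fun t => co (ρ (ι t))
  /-- the unipotent radical of the Borel subgroup -/
  U : Subgroup G
  norm : ∀ t, ∀ u ∈ U, ι t * u * (ι t)⁻¹ ∈ U
  /-- the simple root homomorphisms -/
  φ : S → SpecialLinearGroup (Fin 2) k →* G
  φ_reg : ∀ s, Reg (fun (g : SpecialLinearGroup (Fin 2) k) (j : Fin 2 × Fin 2) => g j.1 j.2)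
    fun g => co (ρ (φ s g))
  x_mem : ∀ s c, φ s (xx c) ∈ U
  d_mem : ∀ s a, φ s (dd a) ∈ ι.range
  scale : ∀ s t, ∃ a : kˣ, ∀ c, ι t * φ s (xx c) * (ι t)⁻¹ = φ s (xx (a * c)) ∧
    ι t * φ s (yy c) * (ι t)⁻¹ = φ s (yy ((a⁻¹ : kˣ) * c))
  w_not : ∀ s t, ∀ u ∈ U, φ s ww ≠ ι t * u
  /-- `U = X_s U_s`, where `U_s` is normalized by the simple reflection -/
  coord : ∀ s, ∃ c ∈ Pol fun x => co (ρ x), ∀ u ∈ U,
    (φ s ww)⁻¹ * (φ s (xx (-c u)) * u) * φ s ww ∈ U
  /-- the normalizer of the torus -/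
  N : Subgroup G
  N_eq : N = Subgroup.closure (Set.range ι ∪ Set.range fun s => φ s ww)
  /-- every root is positive or negative -/
  dich : ∀ s, ∀ m ∈ N, (∀ c, m⁻¹ * φ s (xx c) * m ∈ U) ∨ ∀ c, m⁻¹ * φ s (yy c) * m ∈ U
  gen : N ⊔ U = ⊤
  /-- the big cell `U n₀ T U` is the open set where `δ` does not vanish, and multiplication is an
  isomorphism of `U × T × U` onto it -/
  n₀ : G
  n₀_mem : n₀ ∈ N
  δ : G → k
  δ_reg : δ ∈ Pol fun x => co (ρ x)
  δ_cell : ∃ χ : (Fin r → kˣ) →* kˣ, ∀ t, ∀ u ∈ U, ∀ u' ∈ U, δ (u * n₀ * ι t * u') = χ t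
  δ_ne : ∀ g, δ g ≠ 0 → ∃ t, ∃ u ∈ U, ∃ u' ∈ U, g = u * n₀ * ι t * u'
  big : ∃ (π : G → G) (τ : G → Fin r → kˣ) (M : ℕ),
    (∀ t, ∀ u ∈ U, ∀ u' ∈ U, π (u * n₀ * ι t * u') = u ∧ τ (u * n₀ * ι t * u') = t) ∧
    Reg (fun x => co (ρ x)) (fun x i => δ x ^ M * co (ρ (π x)) i) ∧
    Reg (fun x => co (ρ x)) fun x j => δ x ^ M * τ x j

variable {G : Type} [Group G] {n r : ℕ} {S : Type} (D : Red k G n r S)

/-- A Steinberg endomorphism that preserves `T` and `B`: some power of it raises the matrix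
entries to the power `q`. -/
structure Stein (q : ℕ) (F : G →* G) : Prop where
  reg : Reg (fun x => co (D.ρ x)) fun x => co (D.ρ (F x))
  map_U : ∀ u ∈ D.U, F u ∈ D.U
  map_T : ∀ t, F (D.ι t) ∈ D.ι.range
  map_N : ∀ m ∈ D.N, F m ∈ D.N
  pow : ∃ m, 0 < m ∧ ∀ g i j, D.ρ (F^[m] g) i j = D.ρ g i j ^ q

/-- The points of the Deligne-Lusztig variety attached to the sequence `w`. -/
def DL (F : G →* G) {m : ℕ} (w : Fin m → D.N) : Type :=
  {x : G × (Fin m → D.U) // x.1⁻¹ * F x.1 = (List.ofFn fun i => (w i : G) * x.2 i).prod}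

/-- The ring of functions on the Deligne-Lusztig variety. -/
def DLPol (F : G →* G) {m : ℕ} (w : Fin m → D.N) : Subalgebra k (DL D F w → k) :=
  Pol fun x (i : Option (Fin m) × Bool × Fin n × Fin n) =>
    co (D.ρ (i.1.elim x.1.1 fun l => x.1.2 l)) i.2

end

end Pool.Agent.Lib.MP_fc2ced_ag.R
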