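import Pool.Agent.Lib.MP_fc2ced_ag.R.Nz

/-! Schur-finiteness from torsors with Tate quotients. -/

open CategoryTheory CategoryTheory.Limits Function Set

namespace Pool.Agent.Lib.MP_fc2ced_ag.E

open Var R Ob Pair Pr

noncomputable section

variable {k : Type} [Field k] [IsAlgClosed k] {F : Type} [Field F] [CharZero F]
  {P P' Q Y : Type} [Var k P] [Var k P'] [Var k Q] [Var k Y] {Γ : Type} [Group Γ] [Fintype Γ]

omit [CharZero F] [Fintype Γ] in
/-- The representation on a pair. -/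
def IsAct.rep {a : Γ → P → P} (h : IsAct k a) {X : Pair (.spec k (B k P))}
    (ha : ∀ γ, IsMap X X fun _ x => (h.rg γ).pm x) : Γ →* End (X.ob F) where
  toFun γ := (ha γ).hom F
  map_one' := Pair.hom_ext fun _ x hx _ => ((ha 1).hom_cl hx).trans (by
    rw [(h.rg 1).pm_id h.one]; rfl)
  map_mul' γ δ := ((ha δ).hom_comp (ha γ) (ha _) fun _ x _ =>
    (h.rg δ).pm_pm (h.rg γ) (h.rg _) (fun x => (h.mul γ δ x).symm) x).symm

theorem sf_of_tors {J I : Type} [Fintype J] [Fintype I]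
    {ε : J → MonoidAlgebra F Γ} {φ : J → Γ → F} (h1 : ∑ j, ε j = 1) (h2 : ∀ j, ε j * ε j = ε j)
    (h3 : ∀ j γ, ε j * MonoidAlgebra.single γ 1 * ε j = φ j γ • ε j)
    {a : Γ → P → P} (ha : IsAct k a) {a' : Γ → P' → P'} (ha' : IsAct k a') {q : P × P' → Q}
    (hq : Tors k (fun γ (x : P × P') => (a γ x.1, a' γ x.2)) q) {l : P' → Y} (hl : Rg k l)
    (li : ∀ γ x, l (a' γ x) = l x) {μ : Q → Y} (hμ : Rg k μ) (e : ∀ x, μ (q x) = l x.2)
    {Z : I → Set Y} (hZ : ∀ i, IsCl k (Z i)) (hT : ∀ i, Tate k F (μ ⁻¹' Z i)) (ι : Type) [Finite ι]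
    (cons : ∀ η : MonoidAlgebra F Γ, η ≠ 0 → η * η = η → ∀ Θ : Theory k F,
      (∀ (i : I) (R : Type) [Var k R] (W : Set R), LC k W →
        Nz Θ η (fun γ (x : P' × R) => (a' γ x.1, x.2)) {x | l x.1 ∈ Z i ∧ x.2 ∈ W}) →
      IsZero (Θ.Φ.obj (((gP k).ob F).pow ι))) :
    ∃ (ι' : Type) (_ : Finite ι'),
      SF (((Fn.spec k (B k P)).top.ob F).ten (((gP k).ob F).pow ι')) := by
  classical
  choose t ht using hZ
  have m (γ) : IsMap (Fn.spec k (B k P)).top (Fn.spec k (B k P)).top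
      fun _ x => (ha.rg γ).pm x := ⟨fun _ _ _ _ _ => rfl, fun _ _ h => h, fun _ _ _ h => h⟩
  have im {P' : Type} [Var k P'] {l : P' → Y} (hl : Rg k l) (i) {O : Aic k} (x : Pt k P' O) :
      (opP k {1} ((t i).image hl.hom)).D x ↔ ∃ f ∈ t i, IsUnit (hl.pm x f) := by
    simp [Rg.pm]
  have os {P' : Type} [Var k P'] {l : P' → Y} (hl : Rg k l) (i) (x : P') :
      x ∉ opSet ((t i).image hl.hom) ↔ l x ∈ Z i := by
    rw [opSet_image hl.pt_hom, mem_preimage, ← ht, notMem_compl_iff]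
  have m' (i γ) : IsMap (opP k {1} ((t i).image hl.hom)) (opP k {1} ((t i).image hl.hom))
      fun _ x => (ha'.rg γ).pm x :=
    ⟨fun _ _ _ _ _ => rfl, by simp, fun _ x _ h => by
      rwa [im, (ha'.rg γ).pm_pm hl hl (li γ), ← im]⟩
  have e' {O : Aic k} (x : Pt k P O) (y : Pt k P' O) : hμ.pm (hq.rg.pm (x.pair y)) = hl.pm y :=
    (hq.rg.pm_pm hμ (hl.comp Rg.id.snd) e _).trans (hl.pm_pair_snd _ x y)
  have ea (γ) {O : Aic k} (x : Pt k P O) (y : Pt k P' O) : (hq.act.rg γ).pm (x.pair y) =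
      Pt.pair ((ha.rg γ).pm x) ((ha'.rg γ).pm y) := (ha.rg γ).pm_prod (ha'.rg γ) _ x y
  have mq (i) : IsMap ((Fn.spec k (B k P)).top.prod (opP k {1} ((t i).image hl.hom)))
      (opP k {1} ((t i).image hμ.hom)) fun _ x => hq.rg.pm (Pt.pair x.1 x.2) :=
    ⟨fun _ _ g x _ => (hq.rg.comp_pm g _).trans (congrArg _ (Pt.comp_pair g _ _)), by simp,
      fun _ x _ h => by
        rw [im, e', ← im]
        exact h.resolve_left id⟩
  choose T hT' _ using fun i => exists_transfer' (F := F) (mq i) (fun γ => (m γ).prod (m' i γ))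
    (fun γ δ _ x => Prod.ext
      ((ha.rg δ).pm_pm (ha.rg γ) (ha.rg _) (fun x => (ha.mul γ δ x).symm) _).symm
      ((ha'.rg δ).pm_pm (ha'.rg γ) (ha'.rg _) (fun x => (ha'.mul γ δ x).symm) _).symm)
    (fun γ _ x _ => by
      rw [← ea, (hq.act.rg γ).pm_pm hq.rg hq.rg (hq.inv γ)])
    (fun _ x _ h => .inr (by rwa [im, e', ← im] at h))
    (fun O y _ => by
      obtain ⟨x, rfl⟩ := hq.surj O y
      exact ⟨(_, _), ⟨trivial, by simp⟩, congrArg _ (Pt.pair_eta x)⟩)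
    fun O x x' _ _ h => by
      obtain ⟨γ, h⟩ := hq.fib O _ _ h
      rw [ea] at h
      exact ⟨γ, Prod.ext (by simpa only [Pt.fst_pair] using congrArg Rg.id.fst.pm h)
        (by simpa only [Pt.snd_pair] using congrArg Rg.id.snd.pm h)⟩
  have (i : I) := (bij_ten (F := F) (Fn.spec k (B k P)).top (opP k {1} ((t i).image hl.hom))).isIso
  refine sf_of_transfer h1 h2 h3 (ha.rep m) (fun i => ha'.rep (m' i)) (.sm _)
    (fun _ => con_opP _ _) (fun i => (hT i).good (s := {1}) (t := (t i).image hμ.hom)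
      (Set.ext fun x => by rw [mem_sdiff, os]; simp [opSet]))
    (fun i => inv (isLift_ten F _ _).hom ≫ (mq i).hom F) (fun i => T i ≫ (isLift_ten F _ _).hom)
    (fun i => ?_) ι fun η h0 hη Θ H => cons η h0 hη Θ fun i R _ W hW =>
      (nz_prod ha' (m' i) (H i) hW).congr fun x => by simp only [mem_ofPred_eq, os]
  rw [Category.assoc, reassoc_of% hT', IsIso.inv_comp_eq, Preadditive.sum_comp,
    Preadditive.comp_sum]
  exact Finset.sum_congr rfl fun γ _ => ((m γ).ten_nat (m' i γ)).symm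

end

end Pool.Agent.Lib.MP_fc2ced_ag.E
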