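import Pool.Agent.Lib.MP_fc2ced_ag.R.On2

/-! Motives of pairs of open subsets and the maps between them. -/

open CategoryTheory CategoryTheory.Limits CategoryTheory.Pretriangulated Function Set

namespace Pool.Agent.Lib.MP_fc2ced_ag.E

open Var R Ob Pair

noncomputable section

variable {k : Type} [Field k] {F : Type} [Field F] {P Q R : Type} [Var k P] [Var k Q] [Var k R]

variable (k P) in
/-- Pairs of open subsets. -/
structure Pr where
  U : Set P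
  V : Set P
  hU : IsOp k U
  hV : IsOp k V

namespace Pr

variable (k P) in
/-- The whole variety. -/
@[reducible] def top : Pr k P := ⟨univ, ∅, .univ, .empty⟩

/-- Supports in the complement of `V`. -/
@[reducible] def sup {V : Set P} (hV : IsOp k V) : Pr k P := ⟨univ, V, .univ, hV⟩

/-- The product of two pairs. -/
@[reducible] def prod (X : Pr k P) (Y : Pr k Q) : Pr k (P × Q) :=
  ⟨{x | x.1 ∈ X.U ∧ x.2 ∈ Y.U}, {x | x.1 ∈ X.V ∨ x.2 ∈ Y.V},
    (X.hU.preimage Rg.id.fst).inter (Y.hU.preimage Rg.id.snd),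
    (X.hV.preimage Rg.id.fst).union (Y.hV.preimage Rg.id.snd)⟩

theorem isOp_ne (x₀ : P) : IsOp k {x | x ≠ x₀} := IsCl.eq (f := fun x => x) .id (.const x₀)

variable (k) in
/-- Supports in a point. -/
@[reducible] def pt (x₀ : P) : Pr k P := sup (isOp_ne x₀)

/-- The finite sets of functions `s`, `t` define the pair `X`. -/
structure Md (X : Pr k P) (s t : Finset (B k P)) : Prop where
  u : opSet s = X.U
  v : X.U ∩ opSet t = X.U ∩ X.V

theorem md (X : Pr k P) : X.Md X.hU.choose X.hV.choose :=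
  ⟨X.hU.choose_spec.symm, congrArg _ X.hV.choose_spec.symm⟩

variable (F) in
/-- The object attached to a pair. -/
def ob (X : Pr k P) : Ob k F := (opP k X.hU.choose X.hV.choose).ob F

/-- The motive of a pair. -/
abbrev mo (X : Pr k P) (Θ : Theory k F) : DM k := Θ.Φ.obj (X.ob F)

/-- Maps of pairs. -/
structure Mp (X : Pr k P) (Y : Pr k Q) (e : P → Q) : Prop where
  rg : RgOn k X.U e
  u : ∀ x ∈ X.U, e x ∈ Y.U
  v : ∀ x ∈ X.U, x ∈ X.V → e x ∈ Y.V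

variable {X : Pr k P} {Y : Pr k Q} {Z : Pr k R} {e e' : P → Q}

theorem Mp.refl (X : Pr k P) : Mp X X fun x => x :=
  ⟨Rg.id.rgOn _, fun _ h => h, fun _ _ h => h⟩

theorem Mp.incl {X X' : Pr k P} (u : X.U ⊆ X'.U) (v : ∀ x ∈ X.U, x ∈ X.V → x ∈ X'.V) :
    Mp X X' fun x => x := ⟨Rg.id.rgOn _, u, v⟩

theorem Mp.comp {d : Q → R} (h : Mp X Y e) (h' : Mp Y Z d) : Mp X Z fun x => d (e x) :=
  ⟨h'.rg.comp h.rg h.u, fun x hx => h'.u _ (h.u x hx),
    fun x hx hx' => h'.v _ (h.u x hx) (h.v x hx hx')⟩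

theorem Mp.prod (h : Mp X Y e) (Z : Pr k R) : Mp (X.prod Z) (Y.prod Z) fun x => (e x.1, x.2) :=
  ⟨fun _ _ _ hj hU => (h.rg.rg hj.fst fun r => (hU r).1).pair hj.snd,
    fun _ hx => ⟨h.u _ hx.1, hx.2⟩, fun _ hx hx' => hx'.imp (h.v _ hx.1) id⟩

end Pr

open Pr

theorem con_opP {B : Type} [CommRing B] [Algebra k B] [Algebra.Smooth k B] (s t : Finset B) :
    Con ((opP k s t).ob F) := by
  classical
  induction s using Finset.induction_on with
  | empty => exact .of_uzero (.dead (by simp))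
  | insert a s _ ih =>
    have T := Pair.ses (F := F) (P₁ := opP k s t) (P₂ := opP k (insert a s) t)
      (P₃ := opP k (insert a s) (t ∪ s))
      (isMap_id (fun _ _ ⟨f, h, h'⟩ => ⟨f, by simp [h], h'⟩) fun _ _ _ h => h)
      (isMap_id (fun _ _ h => h) fun _ _ _ h => (ex_union t s).2 (.inl h)) (fun _ _ _ h => h)
      (fun _ _ _ => ex_union t s) fun _ _ h _ => h
    refine .ses₂ T ih (Eqv.con (Eqv.of_live fun _ x => ?_)
      (con_union (t ∪ s) a (fun _ _ φ _ h => h.map φ) (opP k s (t ∪ s)).sD))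
    simp only [ex_union, Finset.mem_insert, exists_eq_or_imp]
    exact ⟨fun h => ⟨h.1.resolve_right fun h' => h.2 (.inr h'), h.2⟩, fun h => ⟨.inl h.1, h.2⟩⟩

theorem Pr.con (X : Pr k P) : Con (X.ob F) := con_opP _ _

/-- Scalars. -/
def Theory.sc (Θ : Theory k F) (M : Ob k F) (c : F) : Θ.Φ.obj M ⟶ Θ.Φ.obj M := Θ.Φ.map (c • 𝟙 M)

theorem Theory.sc_nat (Θ : Theory k F) {M N : Ob k F} (f : M ⟶ N) (c : F) :
    Θ.sc M c ≫ Θ.Φ.map f = Θ.Φ.map f ≫ Θ.sc N c := by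
  simp [Theory.sc, ← Functor.map_comp]

theorem Theory.sc_mul (Θ : Theory k F) (M : Ob k F) (c d : F) :
    Θ.sc M (c * d) = Θ.sc M c ≫ Θ.sc M d := by
  simp [Theory.sc, ← Functor.map_comp, smul_smul, mul_comm]

theorem Theory.sc_add (Θ : Theory k F) (M : Ob k F) (c d : F) :
    Θ.sc M (c + d) = Θ.sc M c + Θ.sc M d := by simp [Theory.sc, add_smul]

theorem Theory.sc_zero (Θ : Theory k F) (M : Ob k F) : Θ.sc M 0 = 0 := by simp [Theory.sc]

theorem Theory.sc_one (Θ : Theory k F) (M : Ob k F) : Θ.sc M 1 = 𝟙 _ := by simp [Theory.sc]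

theorem Theory.eq_zero_of_nsmul [CharZero F] (Θ : Theory k F) {M : Ob k F} {A : DM k}
    {f : Θ.Φ.obj M ⟶ A} {m : ℕ} (hm : m ≠ 0) (h : m • f = 0) : f = 0 := by
  have h1 : m • Θ.sc M (m : F)⁻¹ = 𝟙 _ := by
    rw [Theory.sc, ← Functor.map_nsmul, ← Nat.cast_smul_eq_nsmul F, smul_smul,
      mul_inv_cancel₀ (Nat.cast_ne_zero.2 hm), one_smul, Θ.Φ.map_id]
  rw [← Category.id_comp f, ← h1, Preadditive.nsmul_comp, ← Preadditive.comp_nsmul, h, comp_zero]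

namespace MT

theorem comp {X X' X'' : Fn k} {P : Pair X} {P' : Pair X'} {P'' : Pair X''}
    {e : ∀ ⦃O⦄, X.X O → X'.X O} {e' : ∀ ⦃O⦄, X'.X O → X''.X O} (h : IsMap P P' e)
    (h' : IsMap P' P'' e') : IsMap P P'' fun _ x => e' (e x) :=
  ⟨fun _ _ g x hx => by rw [h'.nat g _ (h.n x hx), h.nat g x hx], fun _ x hx => h'.n _ (h.n x hx),
    fun _ x hx hd => h'.d _ (h.n x hx) (h.d x hx hd)⟩

variable {B : Type} [CommRing B] [Algebra k B] [Algebra.Smooth k B] [DecidableEq B]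

open scoped Pointwise

theorem left (s t s' t' : Finset B) : IsMap (opP k (s * s') (t * t')) (opP k s t) fun _ x => x :=
  isMap_id (fun _ x h => ((ex_mul x _ _).1 h).1) fun _ x _ h => ((ex_mul x _ _).1 h).1

theorem right (s t s' t' : Finset B) :
    IsMap (opP k (s * s') (t * t')) (opP k s' t') fun _ x => x :=
  isMap_id (fun _ x h => ((ex_mul x _ _).1 h).2) fun _ x _ h => ((ex_mul x _ _).1 h).2

end MT

open scoped Pointwise

theorem Pr.Md.mul [DecidableEq (B k P)] {X : Pr k P} {s t s' t' : Finset (B k P)} (h : X.Md s t)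
    (h' : X.Md s' t') : X.Md (s * s') (t * t') :=
  ⟨by rw [opSet_mul, h.u, h'.u, inter_self], by
    rw [opSet_mul, inter_inter_distrib_left, h.v, h'.v, inter_self]⟩

theorem Pr.Md.isIn {X : Pr k P} {s t : Finset (B k P)} (h : X.Md s t) {O : Type} [CommRing O]
    [Algebra k O] {x : Pt k P O} (hx : ∃ b ∈ s, IsUnit (x b)) : x.In X.U :=
  h.u ▸ Pt.in_opSet hx

variable [IsAlgClosed k]

theorem uiso_op {B : Type} [CommRing B] [Algebra k B] [Algebra.Smooth k B] {s t s' t' : Finset B}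
    (h : IsMap (opP k s t) (opP k s' t') fun _ x => x)
    (e : ∀ x : B →ₐ[k] k, (∃ f ∈ s, x f ≠ 0) ∧ (¬ ∃ f ∈ t, x f ≠ 0) ↔
      (∃ f ∈ s', x f ≠ 0) ∧ ¬ ∃ f ∈ t', x f ≠ 0) : UIso (h.hom F) := by
  classical
  have h1 : IsMap (opP k s t) (opP k s t') fun _ x => x := isMap_id (fun _ _ h => h) h.d
  have h2 : IsMap (opP k s t') (opP k s' t') fun _ x => x := isMap_id h.n fun _ _ _ h => h
  have T1 := Pair.ses (F := F) (P₁ := opP k (s * t') t) (P₂ := opP k s t) (P₃ := opP k s t')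
    (isMap_id (fun _ x h => ((ex_mul x _ _).1 h).1) fun _ _ _ h => h) h1 (fun _ _ _ h => h)
    (fun _ x hx => ⟨fun h => .inr ((ex_mul x _ _).2 ⟨hx, h⟩),
      fun h' => h'.elim (h.d x hx) fun h => ((ex_mul x _ _).1 h).2⟩) fun _ _ h _ => h
  have T2 := Pair.ses (F := F) (P₂ := opP k s' t') (P₃ := opP k s' (t' ∪ s)) h2
    (isMap_id (fun _ _ h => h) fun _ _ _ h => (ex_union t' s).2 (.inl h)) (fun _ _ _ h => h)
    (fun _ _ _ => ex_union t' s) fun _ _ h _ => h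
  rw [← h1.hom_comp h2 h fun _ _ _ => rfl]
  refine (T1.uzero₁_iff.1 (uzero_op _ _ fun x => ?_)).comp
    (T2.uzero₃_iff.1 (uzero_op _ _ fun x => ?_))
  · have := (e x).1
    simp only [← isUnit_iff_ne_zero, ex_mul] at this ⊢
    exact fun h1 => by_contra fun h2 => (this ⟨h1.1, h2⟩).2 h1.2
  · rw [ex_union]
    exact fun h1 => or_iff_not_imp_left.2 fun h2 => ((e x).2 ⟨h1, h2⟩).1

variable {X : Pr k P} {Y : Pr k Q} {Z : Pr k R} {e e' : P → Q}

theorem Pr.Md.uiso {s t s' t' : Finset (B k P)} (h : X.Md s t) (h' : X.Md s' t')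
    (i : IsMap (opP k s t) (opP k s' t') fun _ x => x) : UIso (i.hom F) := by
  have H {s t : Finset (B k P)} (h : X.Md s t) (y : P) :
      y ∈ opSet s ∧ y ∉ opSet t ↔ y ∈ X.U ∧ y ∉ X.V := by
    rw [h.u]
    exact and_congr_right fun hy => not_congr
      ⟨fun k => (h.v.le ⟨hy, k⟩).2, fun k => (h.v.ge ⟨hy, k⟩).2⟩
  refine uiso_op i fun x => ?_
  obtain ⟨y, rfl⟩ := Var.pt.surjective x
  exact (H h y).trans (H h' y).symm

theorem Pr.exists_cmp (X : Pr k P) (Θ : Theory k F) :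
    ∃ c : ∀ s t, X.Md s t → (Θ.Φ.obj ((opP k s t).ob F) ≅ X.mo Θ),
      (c _ _ X.md).hom = 𝟙 _ ∧
      (∀ s t h (a : F), Θ.sc _ a ≫ (c s t h).hom = (c s t h).hom ≫ Θ.sc _ a) ∧
      ∀ s t h s' t' h' (i : IsMap (opP k s t) (opP k s' t') fun _ x => x),
        Θ.Φ.map (i.hom F) ≫ (c s' t' h').hom = (c s t h).hom := by
  classical
  have h1 := fun s t (h : X.Md s t) => (h.mul X.md).uiso (F := F) h (MT.left _ _ _ _) Θ
  have h2 := fun s t (h : X.Md s t) => (h.mul X.md).uiso (F := F) X.md (MT.right _ _ _ _) Θ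
  refine ⟨fun s t h => (@asIso _ _ _ _ _ (h1 s t h)).symm ≪≫ @asIso _ _ _ _ _ (h2 s t h),
    @IsIso.inv_hom_id _ _ _ _ _ (h1 _ _ X.md), fun s t h a => ?_, fun s t h s' t' h' i => ?_⟩
  · have := h1 s t h
    rw [← cancel_epi (Θ.Φ.map ((MT.left s t X.hU.choose X.hV.choose).hom F)), ← Category.assoc,
      ← Θ.sc_nat]
    simp only [Iso.trans_hom, Iso.symm_hom, asIso_inv, asIso_hom, Category.assoc,
      IsIso.hom_inv_id_assoc]
    exact Θ.sc_nat _ a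
  · have := h1 s t h
    have := h1 s' t' h'
    have j : IsMap (opP k (s * X.hU.choose) (t * X.hV.choose))
        (opP k (s' * X.hU.choose) (t' * X.hV.choose)) fun _ x => x :=
      isMap_id (fun _ x h => (ex_mul x _ _).2 (((ex_mul x _ _).1 h).imp_left (i.n x)))
        fun _ x h h' => (ex_mul x _ _).2
          (((ex_mul x _ _).1 h').imp_left (i.d x ((ex_mul x _ _).1 h).1))
    rw [← cancel_epi (Θ.Φ.map ((MT.left s t X.hU.choose X.hV.choose).hom F)),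
      ← Θ.Φ.map_comp_assoc, (MT.left _ _ _ _).hom_comp i (MT.comp j (MT.left _ _ _ _))
        fun _ _ _ => rfl, ← j.hom_comp (MT.left _ _ _ _) _ fun _ _ _ => rfl, Θ.Φ.map_comp]
    simp only [Iso.trans_hom, Iso.symm_hom, asIso_inv, asIso_hom, Category.assoc,
      IsIso.hom_inv_id_assoc]
    exact (Θ.Φ.map_comp _ _).symm.trans
      (congrArg Θ.Φ.map (j.hom_comp (MT.right _ _ _ _) _ fun _ _ _ => rfl))

/-- The comparison of two models of a pair. -/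
def Pr.Md.cmp {s t : Finset (B k P)} (h : X.Md s t) (Θ : Theory k F) :
    Θ.Φ.obj ((opP k s t).ob F) ≅ X.mo Θ := (X.exists_cmp Θ).choose s t h

theorem Pr.cmp_md (X : Pr k P) (Θ : Theory k F) : (X.md.cmp Θ).hom = 𝟙 _ :=
  (X.exists_cmp Θ).choose_spec.1

theorem Pr.Md.sc_cmp {s t : Finset (B k P)} (h : X.Md s t) (Θ : Theory k F) (a : F) :
    Θ.sc _ a ≫ (h.cmp Θ).hom = (h.cmp Θ).hom ≫ Θ.sc _ a := (X.exists_cmp Θ).choose_spec.2.1 s t h a

theorem Pr.Md.map_cmp {s t s' t' : Finset (B k P)} (h : X.Md s t) (h' : X.Md s' t')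
    (i : IsMap (opP k s t) (opP k s' t') fun _ x => x) (Θ : Theory k F) :
    Θ.Φ.map (i.hom F) ≫ (h'.cmp Θ).hom = (h.cmp Θ).hom :=
  (X.exists_cmp Θ).choose_spec.2.2 s t h s' t' h' i

theorem MT.exists_num {U : Set P} (h : RgOn k U e) {f : B k P} (hf : ∀ y, pt y f ≠ 0 → y ∈ U)
    (f' : B k Q) : ∃ H : B k P, (∀ y : P, pt y H ≠ 0 ↔ pt y f ≠ 0 ∧ pt (e y) f' ≠ 0) ∧
      ∀ (O : Aic k) (x : Pt k P O), IsUnit (x H) ↔ IsUnit (x f) ∧ IsUnit (h.pm x f') := by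
  obtain ⟨M, hM⟩ := RgOn.exists_pow (g := fun y => pt (e y) f') (rg_pt f)
    (((rg_pt f').rgOn univ).comp (h.mono hf) fun _ _ => trivial)
  have h1 := hM M le_rfl
  refine ⟨f * fn fun y => pt y f ^ M * pt (e y) f', fun y => ?_, fun O x => ?_⟩
  · rw [map_mul, pt_fn h1, mul_ne_zero_iff, mul_ne_zero_iff]
    exact and_congr_right fun hy => and_iff_right (pow_ne_zero _ hy)
  · rw [map_mul, IsUnit.mul_iff]
    refine and_congr_right fun hx => ?_
    rw [h.pm_fn (rg_pt f') h1 ((rg_pt f).pow M) (fun _ _ => rfl) ⟨f, hf, hx⟩,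
      fn_pow (rg_pt f), fn_pt, fn_pt, map_pow, IsUnit.mul_iff]
    exact and_iff_right (hx.pow _)

/-- Every model can be refined so that a given map is defined on points. -/
theorem Pr.Mp.exists_md (h : Mp X Y e) {s t : Finset (B k P)} (m : X.Md s t)
    {s' t' : Finset (B k Q)} (m' : Y.Md s' t') : ∃ s₁ t₁, X.Md s₁ t₁ ∧
      (IsMap (opP k s₁ t₁) (opP k s t) fun _ x => x) ∧
      IsMap (opP k s₁ t₁) (opP k s' t') fun _ x => h.rg.pm x := by
  classical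
  choose! H H1 H2 using fun f (hf : f ∈ s) f' =>
    MT.exists_num h.rg (f := f) (fun y hy => m.u.le ⟨f, hf, hy⟩) f'
  have k1 : ∀ (u : Finset (B k Q)) (y : P),
      y ∈ opSet (Finset.image₂ H s u) ↔ y ∈ X.U ∧ e y ∈ opSet u := fun u y => by
    rw [← m.u]
    constructor
    · rintro ⟨_, hb, hy⟩
      obtain ⟨f, hf, f', hf', rfl⟩ := Finset.mem_image₂.1 hb
      exact ⟨⟨f, hf, ((H1 f hf f' y).1 hy).1⟩, f', hf', ((H1 f hf f' y).1 hy).2⟩
    · rintro ⟨⟨f, hf, hy⟩, f', hf', hy'⟩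
      exact ⟨_, Finset.mem_image₂_of_mem hf hf', (H1 f hf f' y).2 ⟨hy, hy'⟩⟩
  have k2 : ∀ (u : Finset (B k Q)) (O : Aic k) (x : Pt k P O),
      (∃ b ∈ Finset.image₂ H s u, IsUnit (x b)) →
        (∃ b ∈ s, IsUnit (x b)) ∧ ∃ b ∈ u, IsUnit (h.rg.pm x b) := by
    rintro u O x ⟨_, hb, hx⟩
    obtain ⟨f, hf, f', hf', rfl⟩ := Finset.mem_image₂.1 hb
    exact ⟨⟨f, hf, ((H2 f hf f' O x).1 hx).1⟩, f', hf', ((H2 f hf f' O x).1 hx).2⟩
  refine ⟨Finset.image₂ H s s', t * Finset.image₂ H s t', ⟨Set.ext fun y => ?_, ?_⟩,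
    isMap_id (fun O x hx => (k2 _ O x hx).1) fun _ x _ hx => ((ex_mul x _ _).1 hx).1,
    fun O _ g x hx => h.rg.comp_pm g (m.isIn (k2 _ O x hx).1), fun O x hx => (k2 _ O x hx).2,
    fun O x _ hx => (k2 _ O x ((ex_mul x _ _).1 hx).2).2⟩
  · rw [k1, m'.u]
    exact and_iff_left_of_imp (h.u y)
  · rw [opSet_mul, ← inter_assoc, m.v]
    exact inter_eq_left.2 fun y hy => (k1 _ y).2
      ⟨hy.1, (m'.v.ge ⟨h.u y hy.1, h.v y hy.1 hy.2⟩).2⟩

theorem Pr.Mp.exists_mt (h : Mp X Y e) (Θ : Theory k F) : ∃ φ : X.mo Θ ⟶ Y.mo Θ,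
    ∀ s t (m : X.Md s t) s' t' (m' : Y.Md s' t')
      (i : IsMap (opP k s t) (opP k s' t') fun _ x => h.rg.pm x),
      Θ.Φ.map (i.hom F) ≫ (m'.cmp Θ).hom = (m.cmp Θ).hom ≫ φ := by
  classical
  obtain ⟨s₁, t₁, m₁, -, i₁⟩ := h.exists_md X.md Y.md
  refine ⟨(m₁.cmp Θ).inv ≫ Θ.Φ.map (i₁.hom F) ≫ (Y.md.cmp Θ).hom, fun s t m s' t' m' i => ?_⟩
  obtain ⟨s₂, t₂, m₂, j, i₂⟩ := h.exists_md (m.mul m₁) (m'.mul Y.md)
  have a := MT.comp j (MT.left _ _ _ _)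
  have a₁ := MT.comp j (MT.right _ _ _ _)
  have := m₂.uiso (F := F) m a Θ
  rw [← cancel_epi (Θ.Φ.map (a.hom F)), ← Θ.Φ.map_comp_assoc, ← Category.assoc _ (m.cmp Θ).hom,
    m₂.map_cmp m a, ← m₂.map_cmp m₁ a₁, Category.assoc, Iso.hom_inv_id_assoc,
    ← Θ.Φ.map_comp_assoc, a.hom_comp i (MT.comp i₂ (MT.left _ _ _ _)) fun _ _ _ => rfl,
    a₁.hom_comp i₁ (MT.comp i₂ (MT.right _ _ _ _)) fun _ _ _ => rfl,
    ← i₂.hom_comp (MT.left _ _ _ _) _ fun _ _ _ => rfl,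
    ← i₂.hom_comp (MT.right _ _ _ _) _ fun _ _ _ => rfl, Θ.Φ.map_comp, Θ.Φ.map_comp,
    Category.assoc, Category.assoc, (m'.mul Y.md).map_cmp m', (m'.mul Y.md).map_cmp Y.md]

/-- The map of motives attached to a map of pairs. -/
def Pr.Mp.mt (h : Mp X Y e) (Θ : Theory k F) : X.mo Θ ⟶ Y.mo Θ := (h.exists_mt Θ).choose

theorem Pr.Mp.mt_spec (h : Mp X Y e) (Θ : Theory k F) {s t : Finset (B k P)} (m : X.Md s t)
    {s' t' : Finset (B k Q)} (m' : Y.Md s' t') {c : ∀ ⦃O : Aic k⦄, Pt k P O → Pt k Q O}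
    (i : IsMap (opP k s t) (opP k s' t') c)
    (hc : ∀ ⦃O : Aic k⦄ (x : Pt k P O), x.In X.U → c x = h.rg.pm x) :
    Θ.Φ.map (i.hom F) ≫ (m'.cmp Θ).hom = (m.cmp Θ).hom ≫ h.mt Θ := by
  have i' : IsMap (opP k s t) (opP k s' t') fun _ x => h.rg.pm x :=
    ⟨fun _ _ g x hx => h.rg.comp_pm g (m.isIn hx), fun _ x hx => hc x (m.isIn hx) ▸ i.n x hx,
      fun _ x hx hd => hc x (m.isIn hx) ▸ i.d x hx hd⟩
  rw [show i.hom F = i'.hom F from Pair.hom_ext fun O x hx _ => by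
    rw [i.hom_cl hx, i'.hom_cl hx, hc x (m.isIn hx)]]
  exact (h.exists_mt Θ).choose_spec s t m s' t' m' i'

end

end Pool.Agent.Lib.MP_fc2ced_ag.E
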