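import Pool.Agent.Lib.MP_fc2ced_ag.R.Geo2
import Pool.Agent.Lib.MP_fc2ced_ag.R.MT

/-! The quotient of the group by the torus and its tangent bundle along the flag variety. -/

open CategoryTheory CategoryTheory.Limits Function Set Matrix

set_option linter.unusedSectionVars false

namespace Pool.Agent.Lib.MP_fc2ced_ag.R

open E E.Var E.Pr

noncomputable section

variable {k : Type} [Field k] [IsAlgClosed k] {G : Type} [Group G] {n r : ℕ} {S : Type}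
  (D : Red k G n r S)
  [Var k G] [Var k D.U] [GVar k G] [GVar k D.U] [Geo D] {P : Type} [Var k P]

/-- The quotient `X` of the group by the torus, the bundle `E` and the maps between them. -/
structure Flag where
  X : Type
  E : Type
  [vX : Var k X]
  [vE : Var k E]
  π : G → X
  πE : G × (Fin D.NN → k) → E
  quo : IsQuo k (fun t (g : G) => g * D.ι t) π
  quoE : IsQuo k (fun t (x : G × (Fin D.NN → k)) =>
    (x.1 * D.ι t, lin (fun i => (D.wt D.s₀ i)⁻¹) t x.2)) πE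
  p : E → X
  nz : Set E
  vb : VB k p (Fin D.NN) nz
  σ : vb.I → X → G
  p_π : ∀ x, p (πE x) = π x.1
  mem_nz : ∀ x, πE x ∈ nz ↔ x.2 ≠ 0
  rg_σ : ∀ b, RgOn k {x | vb.f b x ≠ 0} (σ b)
  r_eq : ∀ b x, vb.r b x = πE (σ b x.1, x.2)
  fib : ∀ b y, vb.f b (π y) ≠ 0 → ∃ c : Fin D.NN → kˣ, ∀ v i, vb.s b (πE (y, v)) i = c i * v i
  z : X → E
  rg_z : Rg k z
  z_π : ∀ g, z (π g) = πE (g, 0)
  κ : E → G
  rg_κ : Rg k κ
  κ_π : ∀ x, κ (πE x) = x.1 * D.ξ x.2 * x.1⁻¹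
  l : G × X → X
  rg_l : Rg k l
  l_π : ∀ g x, l (g, π x) = π (g * x)
  ρ : X → X
  rg_ρ : Rg k ρ
  ρ_π : ∀ x, ρ (π x) = π (x * D.n₁⁻¹)
  W : G → Set X
  op_W : ∀ m, IsOp k (W m)
  mem_W : ∀ m g, π g ∈ W m ↔ (m * D.n₁)⁻¹ * g ∉ D.Bor
  O : Set (X × X)
  op_O : IsOp k O
  mem_O : ∀ x y, (π x, π y) ∈ O ↔ D.δ (x⁻¹ * y) ≠ 0
  Δ : Set (X × X)
  op_Δ : IsOp k Δ
  mem_Δ : ∀ x y, (π x, π y) ∈ Δ ↔ D.n₁⁻¹ * (x⁻¹ * y) ∉ D.Bor
  c : X × X → E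
  rg_c : RgOn k O c
  c_π : ∀ x y, D.δ (x⁻¹ * y) ≠ 0 → c (π x, π y) = πE (x, D.bA (x⁻¹ * y))

attribute [instance] Flag.vX Flag.vE

theorem Flag.desc₂ {H Q X Z : Type} [Group H] [Var k H] [Var k Q] [Var k X] {a : H → Q → Q}
    {π : Q → X} (h : IsQuo k a π) (e : Q → Q → Z) (U : Q → Q → Prop)
    (he : ∀ g g' x y, U x y → e (a g x) (a g' y) = e x y) :
    ∃ e' : X × X → Z, ∀ x y, U x y → e' (π x, π y) = e x y := by
  refine ⟨fun x => e (surjInv h.sec.surj x.1) (surjInv h.sec.surj x.2), fun x y hy => ?_⟩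
  obtain ⟨g, hg⟩ := (h.eq x _).1 (surjInv_eq h.sec.surj (π x)).symm
  obtain ⟨g', hg'⟩ := (h.eq y _).1 (surjInv_eq h.sec.surj (π y)).symm
  exact (congrArg₂ e hg hg').symm.trans (he g g' x y hy)

theorem Flag.conj_lin (t : Fin r → kˣ) (a : Fin D.NN → k) :
    D.ι t * D.ξ (lin (fun i => (D.wt D.s₀ i)⁻¹) t a) * (D.ι t)⁻¹ = D.ξ a := by
  rw [D.conj_ξ]
  congr 2
  funext i
  simp [lin]

theorem Flag.δ_iff (t t' : Fin r → kˣ) (x y : G) :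
    D.δ ((x * D.ι t)⁻¹ * (y * D.ι t')) ≠ 0 ↔ D.δ (x⁻¹ * y) ≠ 0 := by
  have key : ∀ (s s' : Fin r → kˣ) (g : G), D.δ g ≠ 0 → D.δ (D.ι s * g * D.ι s') ≠ 0 :=
    fun s s' g h => (D.δ_ne_iff' _).2 (D.mul_mem_cell (D.cell_mul_mem D.n₁_mem (D.ι_mem_Bor s)
      ((D.δ_ne_iff' _).1 h)) (D.ι_mem_Bor s'))
  refine ⟨fun h => ?_, fun h => ?_⟩
  · simpa [mul_assoc] using key t t'⁻¹ _ h
  · simpa [mul_assoc] using key t⁻¹ t' _ h

theorem Flag.bor_iff (t t' : Fin r → kˣ) (x y : G) :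
    D.n₁⁻¹ * ((x * D.ι t)⁻¹ * (y * D.ι t')) ∈ D.Bor ↔ D.n₁⁻¹ * (x⁻¹ * y) ∈ D.Bor := by
  obtain ⟨s, hs⟩ := D.exists_cj' D.n₁_mem t⁻¹
  rw [show D.n₁⁻¹ * ((x * D.ι t)⁻¹ * (y * D.ι t')) = D.ι s * (D.n₁⁻¹ * (x⁻¹ * y)) * D.ι t' by
    rw [hs]; simp [mul_assoc], D.Bor.mul_mem_cancel_right (D.ι_mem_Bor t'),
    D.Bor.mul_mem_cancel_left (D.ι_mem_Bor s)]

theorem Flag.bA_mul (t t' : Fin r → kˣ) {x y : G} (h : D.δ (x⁻¹ * y) ≠ 0) :
    D.bA ((x * D.ι t)⁻¹ * (y * D.ι t')) =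
      lin (fun i => (D.wt D.s₀ i)⁻¹) t (D.bA (x⁻¹ * y)) := by
  obtain ⟨s, hs⟩ := D.exists_cj' D.n₁_mem t⁻¹
  have e := D.big_eq h
  generalize D.bA (x⁻¹ * y) = a at e
  rw [← Flag.conj_lin D t a] at e
  generalize D.bT (x⁻¹ * y) = τ at e
  generalize D.bU (x⁻¹ * y) = u at e
  rw [← D.bA_eq (lin (fun i => (D.wt D.s₀ i)⁻¹) t a) (b := D.ι s * D.ι τ * u * D.ι t')
    (mul_mem (mul_mem (mul_mem (D.ι_mem_Bor _) (D.ι_mem_Bor _)) (D.U_le_Bor u.2)) (D.ι_mem_Bor _)),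
    show (x * D.ι t)⁻¹ * (y * D.ι t') = (D.ι t)⁻¹ * (x⁻¹ * y) * D.ι t' by simp [mul_assoc], e, hs]
  simp [mul_assoc]

theorem exists_flag [Finite S] : Nonempty (Flag D) := by
  have hχ : ∀ i, Rg k ((D.wt D.s₀ i)⁻¹ : (Fin r → kˣ) →* kˣ) := fun i =>
    (D.rg_wt D.s₀ i Rg.id).ginv
  obtain ⟨X, _, π, hq⟩ := exists_quo D.triv_G
  obtain ⟨E, _, πE, hE⟩ := exists_quo (D.triv_G.prod (hAct_lin hχ))
  obtain ⟨p, nz, V, σ, h1, h2, h3, h4, h5⟩ := hq.exists_vb hχ hE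
  obtain ⟨z, hz⟩ := hq.exists_desc (fun g => πE (g, 0)) univ fun t g _ => by
    rw [← hE.inv t (g, 0)]
    congr 2
    funext i
    simp [lin]
  obtain ⟨κ, hκ⟩ := hE.exists_desc (fun x => x.1 * D.ξ x.2 * x.1⁻¹) univ fun t x _ => by
    rw [← Flag.conj_lin D t x.2]
    simp [mul_assoc]
  choose l hl using fun g => hq.exists_desc (fun x => π (g * x)) univ fun t x _ => by
    rw [← mul_assoc]; exact hq.inv t _
  obtain ⟨ρ, hρ⟩ := hq.exists_desc (fun x => π (x * D.n₁⁻¹)) univ fun t x _ => by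
    obtain ⟨s, hs⟩ := D.exists_cj D.n₁_mem t
    rw [← hq.inv s (x * D.n₁⁻¹), hs]
    simp [mul_assoc]
  choose W hW using fun m : G => hq.exists_set {g | (m * D.n₁)⁻¹ * g ∉ D.Bor} fun t g hg h =>
    hg (by rwa [← mul_assoc, D.Bor.mul_mem_cancel_right (D.ι_mem_Bor t)] at h)
  obtain ⟨O, hO⟩ := Flag.desc₂ hq (fun x y => D.δ (x⁻¹ * y) ≠ 0) (fun _ _ => True)
    fun t t' x y _ => propext (Flag.δ_iff D t t' x y)
  obtain ⟨Δ, hΔ⟩ := Flag.desc₂ hq (fun x y => D.n₁⁻¹ * (x⁻¹ * y) ∉ D.Bor) (fun _ _ => True)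
    fun t t' x y _ => propext (Flag.bor_iff D t t' x y).not
  obtain ⟨c, hc⟩ := Flag.desc₂ hq (fun x y => πE (x, D.bA (x⁻¹ * y)))
    (fun x y => D.δ (x⁻¹ * y) ≠ 0) fun t t' x y h => by
      rw [Flag.bA_mul D t t' h]; exact hE.inv t (x, _)
  have hqq := hq.sec.prod hq.sec
  exact ⟨{
    X := X, E := E, π := π, πE := πE, quo := hq, quoE := hE, p := p, nz := nz, vb := V, σ := σ
    p_π := h1, mem_nz := h2, rg_σ := h3, r_eq := h4, fib := h5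
    z := z
    rg_z := hq.sec.rg_of ((hE.rg.comp (by fun_prop)).congr fun g => hz g trivial)
    z_π := fun g => hz g trivial
    κ := κ
    rg_κ := hE.sec.rg_of (Rg.congr (by fun_prop) fun x => hκ x trivial)
    κ_π := fun x => hκ x trivial
    l := fun x => l x.1 x.2
    rg_l := (IsSec.id.prod hq.sec).rg_of
      ((hq.rg.comp (by fun_prop)).congr fun x : G × G => hl x.1 x.2 trivial)
    l_π := fun g x => hl g x trivial
    ρ := ρ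
    rg_ρ := hq.sec.rg_of ((hq.rg.comp (by fun_prop)).congr fun x => hρ x trivial)
    ρ_π := fun x => hρ x trivial
    W := W
    op_W := fun m => hq.sec.isOp (by
      rw [show π ⁻¹' W m = {g | (m * D.n₁)⁻¹ * g ∉ D.Bor} from Set.ext (hW m)]
      exact D.isOp_not_mem_Bor (by fun_prop))
    mem_W := hW
    O := {x | O x}
    op_O := hqq.isOp (by
      rw [show (fun x : G × G => (π x.1, π x.2)) ⁻¹' {x | O x} = {x | D.δ (x.1⁻¹ * x.2) ≠ 0} from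
        Set.ext fun x => (hO x.1 x.2 trivial).to_iff]
      exact .ne (by fun_prop))
    mem_O := fun x y => (hO x y trivial).to_iff
    Δ := {x | Δ x}
    op_Δ := hqq.isOp (by
      rw [show (fun x : G × G => (π x.1, π x.2)) ⁻¹' {x | Δ x} =
        {x | D.n₁⁻¹ * (x.1⁻¹ * x.2) ∉ D.Bor} from Set.ext fun x => (hΔ x.1 x.2 trivial).to_iff]
      exact D.isOp_not_mem_Bor (by fun_prop))
    mem_Δ := fun x y => (hΔ x y trivial).to_iff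
    c := c
    rg_c := hqq.rgOn (RgOn.congr (fun _ _ j hj hU => hE.rg.comp (hj.fst.pair
      (D.rgOn_bA.rg (j := fun x => (j x).1⁻¹ * (j x).2) (by fun_prop) fun x =>
        (hO _ _ trivial).mp (hU x)))) fun x hx => hc x.1 x.2 ((hO _ _ trivial).mp hx))
    c_π := hc }⟩

namespace Flag

variable {D} (𝔉 : Flag D)

theorem surj : Surjective 𝔉.π := 𝔉.quo.sec.surj

theorem surjE : Surjective 𝔉.πE := 𝔉.quoE.sec.surj

theorem mp_z : Mp (.top k 𝔉.X) (.sup 𝔉.vb.isOp) 𝔉.z :=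
  ⟨𝔉.rg_z.rgOn _, fun _ _ => trivial, fun _ _ h => h.elim⟩

theorem mp_W (m : G) : Mp (.top k 𝔉.X) (.sup (𝔉.op_W m)) fun x => x :=
  .incl (fun _ h => h) fun _ _ h => h.elim

/-- The charts at the fixed points. -/
def j (m : G) (a : Fin D.NN → k) : 𝔉.X := 𝔉.π (m * D.ξ a * D.n₁)

theorem rg_j (m : G) : Rg k (𝔉.j m) := 𝔉.quo.rg.comp (by fun_prop)

theorem mp_j (m : G) : Mp (.pt k (0 : Fin D.NN → k)) (.sup (𝔉.op_W m)) (𝔉.j m) := by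
  refine ⟨(𝔉.rg_j m).rgOn _, fun _ _ => trivial, fun a _ h => (𝔉.mem_W _ _).2 fun hb => h ?_⟩
  rw [← D.bA_eq a (one_mem _), ← D.bA_eq 0 hb, D.ξ_zero]
  simp [mul_assoc]

theorem mp_fib : Mp (.pt k (0 : Fin D.NN → k)) (.sup 𝔉.vb.isOp) fun a => 𝔉.πE (1, a) :=
  ⟨(𝔉.quoE.rg.comp (by fun_prop)).rgOn _, fun _ _ => trivial, fun _ _ h => (𝔉.mem_nz _).2 h⟩

end Flag

end

end Pool.Agent.Lib.MP_fc2ced_ag.R
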