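import Pool.Agent.Lib.MP_fc2ced_ag.R.Gr2

/-! The general linear group: simple roots and the normalizer of the torus. -/

open Function Matrix

namespace Pool.Agent.Lib.MP_fc2ced_ag.R.GLn

open E E.Var

noncomputable section

variable {k : Type} [Field k] {n : ℕ}

/-- The diagonal torus. -/
def tor : (Fin n → kˣ) →* GL (Fin n) k where
  toFun t := mon 1 t
  map_one' := mon_one
  map_mul' s t := by rw [mon_mul]; rfl

theorem ne_succ (s : Fin n) : s.castSucc ≠ s.succ := s.castSucc_lt_succ.ne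

namespace GLa

variable (k) in
/-- The matrix of two basis vectors. -/
def two (a b : Fin n) : Matrix (Fin n) (Fin 2) k := of fun i s => if i = ![a, b] s then 1 else 0

theorem two_mul {a b : Fin n} (h : a ≠ b) : (two k a b)ᵀ * two k a b = 1 := by
  ext s t
  simp only [two, mul_apply, transpose_apply, of_apply, ite_mul, one_mul, zero_mul,
    Finset.sum_ite_eq', Finset.mem_univ, if_true]
  fin_cases s <;> fin_cases t <;> simp [h, h.symm]

/-- A `2 × 2` block in the rows and columns `a`, `b`. -/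
def blk {a b : Fin n} (h : a ≠ b) : Matrix (Fin 2) (Fin 2) k →* Matrix (Fin n) (Fin n) k where
  toFun g := 1 + two k a b * (g - 1) * (two k a b)ᵀ
  map_one' := by simp
  map_mul' g g' := by
    have e : two k a b * (g - 1) * (two k a b)ᵀ * (two k a b * (g' - 1) * (two k a b)ᵀ) =
        two k a b * ((g - 1) * (g' - 1)) * (two k a b)ᵀ := by
      simp only [Matrix.mul_assoc]
      rw [← Matrix.mul_assoc (two k a b)ᵀ, two_mul h, Matrix.one_mul]
    have e' : g * g' - 1 = (g - 1) + (g' - 1) + (g - 1) * (g' - 1) := by noncomm_ring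
    rw [mul_add, add_mul, add_mul, e, e', Matrix.mul_add, Matrix.mul_add, Matrix.add_mul,
      Matrix.add_mul, one_mul, mul_one, one_mul]
    abel

theorem blk_apply {a b : Fin n} (h : a ≠ b) (g : Matrix (Fin 2) (Fin 2) k) (i j : Fin n) :
    blk h g i j = (if i = j then 1 else 0) +
      ((if i = a ∧ j = a then g 0 0 - 1 else 0) + (if i = a ∧ j = b then g 0 1 else 0) +
      (if i = b ∧ j = a then g 1 0 else 0) + (if i = b ∧ j = b then g 1 1 - 1 else 0)) := by
  change (1 + two k a b * (g - 1) * (two k a b)ᵀ : Matrix (Fin n) (Fin n) k) i j = _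
  rw [Matrix.add_apply, one_apply]
  congr 1
  simp only [mul_apply, Fin.sum_univ_two, two, transpose_apply, of_apply, cons_val_zero,
    cons_val_one, Matrix.sub_apply, one_apply]
  by_cases h1 : i = a <;> by_cases h2 : i = b <;> by_cases h3 : j = a <;> by_cases h4 : j = b <;>
    simp_all

theorem blk_mem {X ι : Type} {c : X → ι → k} {a b : Fin n} (h : a ≠ b)
    {g : X → Matrix (Fin 2) (Fin 2) k} (hg : ∀ s t, (fun x => g x s t) ∈ Pol c) (i j : Fin n) :
    (fun x => blk h (g x) i j) ∈ Pol c := by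
  have key (p : Prop) [Decidable p] {f : X → k} (hf : f ∈ Pol c) :
      (fun x => if p then f x else 0) ∈ Pol c := by
    split_ifs
    exacts [hf, zero_mem _]
  simp only [blk_apply]
  exact add_mem (key _ (one_mem _)) (add_mem (add_mem (add_mem (key _ (sub_mem (hg 0 0) (one_mem _)))
    (key _ (hg 0 1))) (key _ (hg 1 0))) (key _ (sub_mem (hg 1 1) (one_mem _))))

theorem covBy (s : Fin n) : s.castSucc ⋖ s.succ :=
  ⟨s.castSucc_lt_succ, fun c h1 h2 => by
    simp only [Fin.lt_def, Fin.val_castSucc, Fin.val_succ] at h1 h2; omega⟩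

theorem exists_of_covBy {a b : Fin (n + 1)} (h : a ⋖ b) : ∃ s : Fin n, a = s.castSucc ∧ b = s.succ := by
  have h3 : (a : ℕ) < b := h.lt
  have h2 : (b : ℕ) = a + 1 := by
    by_contra e
    exact h.2 (c := ⟨a + 1, by omega⟩) (by simp [Fin.lt_def]) (by simp only [Fin.lt_def]; omega)
  exact ⟨⟨a, by omega⟩, rfl, Fin.ext h2⟩

end GLa

theorem exists_blk (s : Fin n) : ∃ φ : SpecialLinearGroup (Fin 2) k →* GL (Fin (n + 1)) k,
    Reg (fun (g : SpecialLinearGroup (Fin 2) k) (j : Fin 2 × Fin 2) => g j.1 j.2)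
      (fun g => co (φ g)) ∧
    (∀ c, φ (xx c) = el (ne_succ s) c) ∧ (∀ c, φ (yy c) = el (ne_succ s).symm c) ∧
    (∀ a, φ (dd a) ∈ tor.range) ∧ ∃ d, φ ww = mon (Equiv.swap s.castSucc s.succ) d := by
  have h := ne_succ s
  refine ⟨(Units.map (GLa.blk h)).comp SpecialLinearGroup.toGL, ?_, fun c => ?_, fun c => ?_,
    fun a => ⟨fun j => if j = s.castSucc then a else if j = s.succ then a⁻¹ else 1, ?_⟩,
    fun j => if j = s.succ then -1 else 1, ?_⟩
  · have hm (i j : Fin 2) : (fun g : SpecialLinearGroup (Fin 2) k => g i j) ∈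
        Pol fun (g : SpecialLinearGroup (Fin 2) k) (j : Fin 2 × Fin 2) => g j.1 j.2 :=
      Algebra.subset_adjoin ⟨(i, j), rfl⟩
    rintro ⟨_ | _, i, j⟩
    · refine GLa.blk_mem h (g := fun g : SpecialLinearGroup (Fin 2) k => adjugate g.1)
        (fun s t => ?_) i j
      simp only [adjugate_fin_two]
      fin_cases s <;> fin_cases t
      exacts [hm 1 1, neg_mem (hm 0 1), neg_mem (hm 1 0), hm 0 0]
    · exact GLa.blk_mem h (g := fun g : SpecialLinearGroup (Fin 2) k => g.1) hm i j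
  · ext i j
    refine (GLa.blk_apply h (xx c).1 i j).trans ?_
    simp [el_apply, xx, eq_comm]
  · ext i j
    refine (GLa.blk_apply h (yy c).1 i j).trans ?_
    simp [el_apply, yy, eq_comm]
  · ext i j
    refine (mon_apply _ _ i j).trans (Eq.trans ?_ (GLa.blk_apply h (dd a).1 i j).symm)
    by_cases h1 : j = s.castSucc <;> by_cases h2 : j = s.succ <;> by_cases h3 : i = j <;>
      simp_all [dd]
  · ext i j
    refine (GLa.blk_apply h (ww (k := k)).1 i j).trans (Eq.trans ?_ (mon_apply _ _ i j).symm)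
    rw [Equiv.swap_apply_def]
    by_cases h1 : j = s.castSucc <;> by_cases h2 : j = s.succ <;> by_cases h3 : i = s.castSucc <;>
      by_cases h4 : i = s.succ <;> simp_all [ww, eq_comm]

theorem tor_reg : Reg cot fun t : Fin n → kˣ => co (tor t) := by
  have hm (b : Bool) (j : Fin n) : (fun t : Fin n → kˣ => cot t (b, j)) ∈ Pol (cot (k := k)) :=
    Algebra.subset_adjoin ⟨(b, j), rfl⟩
  rintro ⟨_ | _, i, j⟩
  · change (fun t : Fin n → kˣ => if j = i then (((t i)⁻¹ : kˣ) : k) else 0) ∈ _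
    split_ifs
    exacts [hm false i, zero_mem _]
  · change (fun t : Fin n → kˣ => if i = j then ((t j : kˣ) : k) else 0) ∈ _
    split_ifs
    exacts [hm true j, zero_mem _]

theorem tor_norm (t : Fin n → kˣ) {u : GL (Fin n) k} (hu : u ∈ Uni n k) :
    tor t * u * (tor t)⁻¹ ∈ Uni n k := by
  exact Conv.conj_mem 1 t hu

theorem tor_scale {a b : Fin n} (h : a ≠ b) (t : Fin n → kˣ) : ∃ e : kˣ, ∀ c : k,
    tor t * el h c * (tor t)⁻¹ = el h (e * c) ∧
      tor t * el h.symm c * (tor t)⁻¹ = el h.symm ((e⁻¹ : kˣ) * c) := by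
  refine ⟨t a * (t b)⁻¹, fun c => ⟨?_, ?_⟩⟩
  · refine (mul_inv_eq_iff_eq_mul.2 (mon_mul_el 1 t h c)).trans ?_
    congr 1
    push_cast
    ring
  · refine (mul_inv_eq_iff_eq_mul.2 (mon_mul_el 1 t h.symm c)).trans ?_
    congr 1
    rw [_root_.mul_inv_rev, inv_inv]
    push_cast
    ring

theorem mon_ne {a b : Fin n} (h : a ≠ b) (d t : Fin n → kˣ) {u : GL (Fin n) k} (hu : u ∈ Uni n k) :
    mon (Equiv.swap a b) d ≠ tor t * u := by
  intro e
  have h1 : mon 1 t⁻¹ * mon (Equiv.swap a b) d ∈ Uni n k := by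
    rw [e]
    change tor t⁻¹ * _ ∈ _
    rwa [map_inv, inv_mul_cancel_left]
  rw [mon_mul, Conv.mon_mem, one_mul, Equiv.swap_eq_one_iff] at h1
  exact h h1.1

theorem coord_mem (s : Fin n) (d : Fin (n + 1) → kˣ) {u : GL (Fin (n + 1)) k}
    (hu : u ∈ Uni (n + 1) k) : (mon (Equiv.swap s.castSucc s.succ) d)⁻¹ *
      (el (ne_succ s) (-u s.castSucc s.succ) * u) * mon (Equiv.swap s.castSucc s.succ) d ∈
        Uni (n + 1) k := by
  have h1 := tor_norm d⁻¹ (Conv.left_mem (GLa.covBy s) ⟨u, hu⟩)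
  have h2 : mon (Equiv.swap s.castSucc s.succ) d = Conv.sw s.castSucc s.succ * tor d := by
    change _ = mon _ 1 * mon 1 d
    rw [mon_mul]
    congr 1
    ext j
    simp
  rw [h2, _root_.mul_inv_rev, Conv.sw_inv]
  rw [map_inv, inv_inv, Conv.sw_inv] at h1
  simpa only [mul_assoc] using h1

theorem mem_closure_iff (d : Fin n → Fin (n + 1) → kˣ) (g : GL (Fin (n + 1)) k) :
    g ∈ Subgroup.closure (Set.range tor ∪
      Set.range fun s : Fin n => mon (Equiv.swap s.castSucc s.succ) (d s)) ↔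
      ∃ v t, g = mon v t := by
  refine ⟨fun h => ?_, ?_⟩
  · induction h using Subgroup.closure_induction with
    | mem g hg =>
      obtain ⟨t, rfl⟩ | ⟨s, rfl⟩ := hg
      exacts [⟨_, _, rfl⟩, ⟨_, _, rfl⟩]
    | one => exact ⟨_, _, mon_one.symm⟩
    | mul g g' _ _ h h' =>
      obtain ⟨v, t, rfl⟩ := h
      obtain ⟨v', t', rfl⟩ := h'
      exact ⟨_, _, mon_mul _ _ _ _⟩
    | inv g _ h =>
      obtain ⟨v, t, rfl⟩ := h
      exact ⟨_, _, mon_inv _ _⟩
  · rintro ⟨v, t, rfl⟩
    induction v using Conv.perm_induction generalizing t with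
    | h1 => exact Subgroup.subset_closure (.inl ⟨t, rfl⟩)
    | hs v a b hab _ ih =>
      obtain ⟨s, rfl, rfl⟩ := GLa.exists_of_covBy hab
      have h1 := mul_mem (Subgroup.subset_closure (.inr ⟨s, rfl⟩)) (ih fun j => (d s (v j))⁻¹ * t j)
      simpa only [mon_mul, mul_inv_cancel_left] using h1

theorem dich {a b : Fin n} (h : a ≠ b) (v : Equiv.Perm (Fin n)) (t : Fin n → kˣ) :
    (∀ c : k, (mon v t)⁻¹ * el h c * mon v t ∈ Uni n k) ∨
      ∀ c : k, (mon v t)⁻¹ * el h.symm c * mon v t ∈ Uni n k := by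
  have key {a b : Fin n} (h : a ≠ b) (hv : v⁻¹ a < v⁻¹ b) (c : k) :
      (mon v t)⁻¹ * el h c * mon v t ∈ Uni n k := by
    have := Conv.conj_el v⁻¹ (fun j => (t (v⁻¹ j))⁻¹) h hv c
    rwa [← mon_inv, inv_inv] at this
  exact (v⁻¹.injective.ne h).lt_or_gt.imp (key h) (key h.symm)

theorem gen {N : Subgroup (GL (Fin n) k)} (h : ∀ v t, mon v t ∈ N) : N ⊔ Uni n k = ⊤ := by
  have h1 {a b : Fin n} (hab : a ≠ b) (c : k) : el hab c ∈ N ⊔ Uni n k := by
    rcases hab.lt_or_gt with e | e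
    · exact Subgroup.mem_sup_right (el_mem_Uni e c)
    · have h2 := Subgroup.mem_sup_left (T := Uni n k) (h (Equiv.swap a b) 1)
      have h3 := Subgroup.mem_sup_right (S := N)
        (Conv.conj_el (Equiv.swap a b) 1 hab (by simpa using e) c)
      simpa only [mul_assoc, inv_mul_cancel_left, inv_mul_cancel, mul_one] using
        mul_mem (mul_mem (inv_mem h2) h3) h2
  rw [eq_top_iff]
  rintro g -
  obtain ⟨u, hu, e⟩ : ∃ u ∈ N ⊔ Uni n k, (u : Matrix (Fin n) (Fin n) k) = g := by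
    refine diagonal_transvection_induction_of_det_ne_zero
      (fun M => ∃ u ∈ N ⊔ Uni n k, (u : Matrix (Fin n) (Fin n) k) = M) _ g.det_ne_zero
      (fun D hD => ?_) (fun t => ⟨_, h1 t.hij t.c, rfl⟩) ?_
    · rw [det_diagonal, Finset.prod_ne_zero_iff] at hD
      refine ⟨_, Subgroup.mem_sup_left (h 1 fun j => .mk0 (D j) (hD j (Finset.mem_univ j))), ?_⟩
      ext i j
      rw [mon_apply, diagonal_apply]
      split_ifs with e e' e'
      exacts [by rw [e']; rfl, absurd e e', absurd e' e, rfl]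
    · rintro A B - - ⟨u, hu, rfl⟩ ⟨u', hu', rfl⟩
      exact ⟨_, mul_mem hu hu', rfl⟩
  rwa [← Units.ext e]

end

end Pool.Agent.Lib.MP_fc2ced_ag.R.GLn
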