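import Pool.Agent.Lib.MP_fc2ced_ag.R.PtA

/-! Points of principal open subsets. -/

open Function
open scoped TensorProduct Polynomial

namespace Pool.Agent.Lib.MP_fc2ced_ag.E

open Var R

noncomputable section

variable {k : Type} [Field k] [IsAlgClosed k] {P Q R : Type} [Var k P] [Var k Q] [Var k R]
  {O : Type} [CommRing O] [Algebra k O]

variable {P' : Type} [Var k P'] {val : P' → P} {f : P → k}

namespace PtL

/-- The ring of a principal open subset is the localization. -/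
theorem exists_iso (hv : IsLoc val f) :
    ∃ (φ : B k P' →ₐ[k] Localization.Away (fn f)) (ψ : Localization.Away (fn f) →ₐ[k] B k P'),
      ψ.comp φ = .id k _ ∧ φ.comp hv.rg_val.hom = IsScalarTower.toAlgHom k _ _ ∧
        ψ.comp (IsScalarTower.toAlgHom k _ _) = hv.rg_val.hom := by
  let := Var.loc (fn f)
  have h1 (x : P') : pt (val x) (fn f) ≠ 0 := by rw [pt_fn hv.rg]; exact hv.ne x
  choose e he using fun x : {x : P // pt x (fn f) ≠ 0} =>
    (hv.range x.1).2 (pt_fn hv.rg x.1 ▸ x.2)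
  have r1 := rg_loc_val (fn f)
  have r2 : Rg k e := hv.lift (r1.congr he)
  have r3 := rg_loc_mk (fn f) hv.rg_val h1
  have h2 : r1.hom = IsScalarTower.toAlgHom k _ (Localization.Away (fn f)) :=
    r1.hom_eq fun x => AlgHom.ext fun c =>
      (IsLocalization.Away.lift_eq (S := Localization.Away (fn f)) (fn f)
        (g := (pt x.1).toRingHom) x.2.isUnit c).symm
  refine ⟨r2.hom, r3.hom, ?_, ?_, ?_⟩
  · exact r3.pm_pm_id r2 (fun x => hv.inj (he _)) (.id k _)
  · rw [← h2]; exact r2.pm_pm hv.rg_val r1 he (.id k _)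
  · rw [← h2]; exact r3.pm_pm r1 hv.rg_val (fun _ => rfl) (.id k _)

theorem smooth_range {A : Type} [CommRing A] [Algebra k A] [Algebra.Smooth k A] (ψ : A →ₐ[k] A)
    (h : ∀ a, ψ (ψ a) = ψ a) : Algebra.Smooth k ψ.range where
  formallySmooth := .of_comp_surjective fun C _ _ I hI g => by
    obtain ⟨g', e⟩ := Algebra.FormallySmooth.comp_surjective k A I hI (g.comp ψ.rangeRestrict)
    refine ⟨g'.comp ψ.range.val, AlgHom.ext ?_⟩
    rintro ⟨_, a, rfl⟩
    exact (congr($e (ψ a))).trans (congrArg g (Subtype.ext (h a)))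
  finitePresentation := Algebra.FinitePresentation.of_finiteType.1
    (.of_surjective ψ.rangeRestrict ψ.rangeRestrict_surjective)

end PtL

theorem IsLoc.exists_pt (hv : IsLoc val f) (y : Pt k P O) (hy : IsUnit (y (fn f))) :
    ∃ x : Pt k P' O, hv.rg_val.pm x = y := by
  obtain ⟨φ, -, -, h, -⟩ := PtL.exists_iso hv
  refine ⟨(IsLocalization.Away.liftAlgHom (fn f) (f := y) hy).comp φ, ?_⟩
  rw [Rg.pm, AlgHom.comp_assoc, h]
  exact AlgHom.ext fun c => IsLocalization.Away.lift_eq (S := Localization.Away (fn f)) (fn f)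
    (g := y.toRingHom) hy c

theorem IsLoc.pm_inj (hv : IsLoc val f) :
    Injective (hv.rg_val.pm : Pt k P' O → Pt k P O) := by
  obtain ⟨φ, ψ, h1, -, h2⟩ := PtL.exists_iso hv
  intro x x' h
  rw [Rg.pm, Rg.pm, ← h2] at h
  have h3 : x.comp ψ = x'.comp ψ := AlgHom.coe_ringHom_injective
    (IsLocalization.ringHom_ext (Submonoid.powers (fn f)) (RingHom.ext fun c => congr($h c)))
  rw [← x.comp_id, ← x'.comp_id, ← h1, ← AlgHom.comp_assoc, ← AlgHom.comp_assoc, h3]

/-- Clearing denominators. -/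
theorem IsLoc.exists_mul_pow (hv : IsLoc val f) {g : P' → k} (hg : Rg k g) :
    ∃ (M : ℕ) (h : P → k), Rg k h ∧ (∀ x, h (val x) = f (val x) ^ M * g x) ∧
      ∀ y, f y = 0 → h y = 0 := by
  obtain ⟨φ, ψ, h1, -, h2⟩ := PtL.exists_iso hv
  obtain ⟨⟨a, _, N, rfl⟩, hs⟩ := IsLocalization.surj (S := Localization.Away (fn f))
    (Submonoid.powers (fn f)) (φ (fn g))
  refine ⟨N + 1, fun x => f x * pt x a, hv.rg.mul (rg_pt a), fun x => ?_, fun y hy => by simp [hy]⟩
  have h3 (t : B k P) : pt x (ψ (algebraMap _ _ t)) = pt (val x) t := by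
    rw [hv.rg_val.pt_hom, ← h2]; rfl
  have h4 : ψ (φ (fn g)) = fn g := congr($h1 (fn g))
  have h5 := congrArg (fun t => pt x (ψ t)) hs
  simp only [map_mul, h3, h4, map_pow, pt_fn hg, pt_fn hv.rg] at h5
  beta_reduce
  rw [← h5]; ring

/-- Finitely many functions of a family have the same common zeros. -/
theorem exists_finite_sub (s : Set (P → k)) (hs : ∀ f ∈ s, Rg k f) :
    ∃ t ⊆ s, t.Finite ∧ ∀ x, (∃ f ∈ s, f x ≠ 0) → ∃ f ∈ t, f x ≠ 0 := by
  have : IsNoetherianRing (B k P) := Algebra.FiniteType.isNoetherianRing k _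
  obtain ⟨u, hu, e⟩ := (Submodule.fg_span_iff_fg_span_finset_subset (R := B k P) (fn '' s)).1
    (IsNoetherian.noetherian _)
  obtain ⟨t, ht, hf, e'⟩ := Set.Finite.exists_subset_finite_image_eq
    (s := s) (u := (u : Set (B k P))) (f := fn) u.finite_toSet hu
  refine ⟨t, ht, hf, fun x ⟨g, hg, h0⟩ => ?_⟩
  by_contra! h
  have h1 : Submodule.span (B k P) (fn '' s) ≤ RingHom.ker (pt x) := by
    rw [e, ← e', Submodule.span_le]
    rintro _ ⟨g, hg, rfl⟩
    exact (pt_fn (hs g (ht hg)) x).trans (h g hg)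
  exact h0 ((pt_fn (hs g hg) x).symm.trans (h1 (Submodule.subset_span ⟨g, hg, rfl⟩)))

theorem IsOp.iUnion {ι : Type} {U : ι → Set P} (h : ∀ i, IsOp k (U i)) : IsOp k (⋃ i, U i) := by
  choose s hs using h
  obtain ⟨t, h1, h2, h3⟩ := exists_finite_sub (k := k)
    {g : P → k | ∃ i, ∃ b ∈ s i, g = fun x => pt x b} (by rintro _ ⟨i, b, -, rfl⟩; exact rg_pt b)
  have := h2.to_subtype
  have h4 := IsOp.exists (p := fun (g : t) x => g.1 x ≠ 0) fun g =>
    IsOp.ne (k := k) (by obtain ⟨i, b, -, e⟩ := h1 g.2; rw [e]; exact rg_pt b)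
  rwa [show ⋃ i, U i = {x | ∃ g : t, g.1 x ≠ 0} from Set.ext fun x => ⟨?_, ?_⟩]
  · intro hx
    obtain ⟨i, hi⟩ := Set.mem_iUnion.1 hx
    rw [hs] at hi
    obtain ⟨b, hb, h0⟩ := hi
    obtain ⟨g, hg, h0⟩ := h3 x ⟨_, ⟨i, b, hb, rfl⟩, h0⟩
    exact ⟨⟨g, hg⟩, h0⟩
  · rintro ⟨⟨g, hg⟩, h0⟩
    obtain ⟨i, b, hb, rfl⟩ := h1 hg
    exact Set.mem_iUnion.2 ⟨i, by rw [hs]; exact ⟨b, hb, h0⟩⟩

/-- The fixed points of a regular idempotent map form a variety. -/
theorem exists_var_fix {e : P → P} (he : Rg k e) (h : ∀ x, e (e x) = e x) :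
    ∃ _ : Var k {x // e x = x}, Rg k (Subtype.val : {x // e x = x} → P) ∧
      Rg k fun x => (⟨e x, h x⟩ : {x // e x = x}) := by
  have h1 (a : B k P) : he.hom (he.hom a) = he.hom a := congr($(he.pm_pm he he h (.id k _)) a)
  have h2 (x : {x // e x = x}) :
      ((pt x.1).comp he.hom.range.val).comp he.hom.rangeRestrict = pt x.1 :=
    ((congrArg pt x.2).symm.trans (he.pt_hom x.1)).symm
  have := PtL.smooth_range he.hom h1
  refine ⟨{
    B := he.hom.range
    pt := ⟨fun x => (pt x.1).comp he.hom.range.val,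
      fun φ => ⟨pt.symm (φ.comp he.hom.rangeRestrict), (pt (k := k)).injective ?_⟩,
      fun x => Subtype.ext (pt.symm_apply_eq.2 (h2 x)), fun φ => AlgHom.ext ?_⟩ },
    ⟨he.hom.rangeRestrict, fun x => (h2 x).symm⟩, ⟨he.hom.range.val, fun x => AlgHom.ext ?_⟩⟩
  · rw [he.pt_hom, Equiv.apply_symm_apply]
    exact AlgHom.ext fun a => congrArg φ (Subtype.ext (h1 a))
  · rintro ⟨_, a, rfl⟩
    simp only [Equiv.apply_symm_apply]
    exact congrArg φ (Subtype.ext (h1 a))
  · rintro ⟨_, a, rfl⟩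
    exact (congr($(he.pt_hom x) (he.hom a))).trans (congrArg (pt x) (h1 a))

end

end Pool.Agent.Lib.MP_fc2ced_ag.E
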