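import Pool.Agent.Lib.MP_fc2ced_ag.EMain
import Pool.Agent.Lib.MP_fc2ced_ag.R.PtL

/-! Maps that are regular on an open subset, open immersions and locally split maps. -/

open Function Set

namespace Pool.Agent.Lib.MP_fc2ced_ag.E

open Var R

noncomputable section

variable {k : Type} [Field k] {P Q R P' Q' : Type} [Var k P] [Var k Q] [Var k R] [Var k P']
  [Var k Q']

variable (k) in
/-- The map `e` is regular on `U`. -/
def RgOn (U : Set P) (e : P → Q) : Prop :=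
  ∀ (R : Type) [Var k R] (j : R → P), Rg k j → (∀ r, j r ∈ U) → Rg k fun r => e (j r)

variable {U U' W : Set P} {e e' : P → Q}

theorem Rg.rgOn (h : Rg k e) (U : Set P) : RgOn k U e := fun _ _ _ hj _ => h.comp hj

theorem RgOn.rg (h : RgOn k U e) {j : R → P} (hj : Rg k j) (hU : ∀ r, j r ∈ U) :
    Rg k fun r => e (j r) := h R j hj hU

theorem RgOn.rg_of_forall (h : RgOn k U e) (hU : ∀ x, x ∈ U) : Rg k e := h.rg .id hU

theorem RgOn.mono (h : RgOn k U e) (hU : U' ⊆ U) : RgOn k U' e :=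
  fun _ _ _ hj h' => h.rg hj fun r => hU (h' r)

theorem RgOn.comp {V : Set Q} {d : Q → R} (h' : RgOn k V d) (h : RgOn k U e)
    (hV : ∀ x ∈ U, e x ∈ V) : RgOn k U fun x => d (e x) :=
  fun _ _ _ hj hU => h'.rg (h.rg hj hU) fun r => hV _ (hU r)

theorem RgOn.congr (h : RgOn k U e) (he : ∀ x ∈ U, e' x = e x) : RgOn k U e' :=
  fun _ _ _ hj hU => (h.rg hj hU).congr fun r => he _ (hU r)

theorem RgOn.pair {d : P → R} (h : RgOn k U e) (h' : RgOn k U d) :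
    RgOn k U fun x => (e x, d x) := fun _ _ _ hj hU => (h.rg hj hU).pair (h'.rg hj hU)

theorem IsLoc.rgOn {val : P' → P} {f : P → k} (hv : IsLoc val f) (h : Rg k fun x => e (val x)) :
    RgOn k {x | f x ≠ 0} e := fun _ _ _ hj hU => by
  obtain ⟨j', h1, h2⟩ := hv.exists_lift hj hU
  exact (h.comp h1).congr fun r => by rw [h2]

theorem IsOp.exists_fn (h : IsOp k U) {x : P} (hx : x ∈ U) :
    ∃ f : P → k, Rg k f ∧ f x ≠ 0 ∧ ∀ y, f y ≠ 0 → y ∈ U := by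
  obtain ⟨s, rfl⟩ := h
  obtain ⟨b, hb, h⟩ := hx
  exact ⟨_, rg_pt b, h, fun y hy => ⟨b, hb, hy⟩⟩

open Classical in
/-- The unit given by a nonzero element. -/
def un (c : k) : kˣ := if h : c = 0 then 1 else Units.mk0 c h

theorem un_val {c : k} (h : c ≠ 0) : (un c : k) = c := by rw [un, dif_neg h]; rfl

theorem un_coe (c : kˣ) : un (c : k) = c := Units.ext (un_val c.ne_zero)

variable (k) in
/-- Open immersions. -/
structure OImm (j : P' → P) : Prop where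
  rg : Rg k j
  inj : Injective j
  op : IsOp k (range j)
  lift : ∀ {R : Type} [Var k R] {e : R → P'}, Rg k (fun x => j (e x)) → Rg k e

variable (k) in
/-- Maps with local sections. -/
structure IsSec (π : P → Q) : Prop where
  rg : Rg k π
  loc : ∀ x₀, ∃ f : Q → k, Rg k f ∧ f x₀ ≠ 0 ∧ ∃ σ : Q → P, RgOn k {x | f x ≠ 0} σ ∧
    ∀ x, f x ≠ 0 → π (σ x) = x

theorem IsLoc.oimm {val : P' → P} {f : P → k} (hv : IsLoc val f) : OImm k val :=
  ⟨hv.rg_val, hv.inj, by simpa only [← hv.range, setOf_mem_eq] using IsOp.ne hv.rg, hv.lift⟩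

theorem OImm.of_inv {j : P' → P} (h : Rg k j) (hU : IsOp k U) (h1 : ∀ x, j x ∈ U) {j' : P → P'}
    (h' : RgOn k U j') (h2 : ∀ x, j' (j x) = x) (h3 : ∀ y ∈ U, j (j' y) = y) : OImm k j :=
  ⟨h, LeftInverse.injective h2, by
    rwa [show range j = U from Set.ext fun y => ⟨by rintro ⟨x, rfl⟩; exact h1 x,
      fun hy => ⟨_, h3 y hy⟩⟩], fun he => (h'.rg he fun _ => h1 _).congr fun _ => (h2 _).symm⟩

theorem OImm.of_iso {j : P' → P} (h : Rg k j) {j' : P → P'} (h' : Rg k j')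
    (h2 : ∀ x, j' (j x) = x) (h3 : ∀ y, j (j' y) = y) : OImm k j :=
  .of_inv h .univ (fun _ => trivial) (h'.rgOn _) h2 fun y _ => h3 y

theorem OImm.exists_inv [Nonempty P'] {j : P' → P} (h : OImm k j) :
    ∃ j' : P → P', RgOn k (range j) j' ∧ ∀ x, j' (j x) = x :=
  ⟨invFun j, fun _ _ _ hi hU => h.lift (hi.congr fun r => invFun_eq (hU r)),
    leftInverse_invFun h.inj⟩

theorem OImm.prod {j : P' → P} (h : OImm k j) {i : Q' → Q} (h' : OImm k i) :
    OImm k fun x : P' × Q' => (j x.1, i x.2) where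
  rg := (h.rg.comp Rg.id.fst).pair (h'.rg.comp Rg.id.snd)
  inj _ _ e := Prod.ext (h.inj (congrArg Prod.fst e)) (h'.inj (congrArg Prod.snd e))
  op := by
    have := (h.op.preimage (Rg.id (P := P × Q)).fst).inter (h'.op.preimage Rg.id.snd)
    rwa [show range (fun x : P' × Q' => (j x.1, i x.2)) =
      (fun x => x.1) ⁻¹' range j ∩ (fun x => x.2) ⁻¹' range i from Set.ext fun y =>
      ⟨by rintro ⟨x, rfl⟩; exact ⟨⟨_, rfl⟩, ⟨_, rfl⟩⟩,
        fun ⟨⟨a, ha⟩, ⟨b, hb⟩⟩ => ⟨(a, b), Prod.ext ha hb⟩⟩]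
  lift he := (h.lift he.fst).pair (h'.lift he.snd)

theorem OImm.id : OImm k fun x : P => x := .of_iso .id .id (fun _ => rfl) fun _ => rfl

theorem IsSec.surj {π : P → Q} (h : IsSec k π) : Surjective π := fun x => by
  obtain ⟨f, -, h1, σ, -, h2⟩ := h.loc x
  exact ⟨_, h2 x h1⟩

theorem IsSec.id : IsSec k fun x : P => x :=
  ⟨.id, fun _ => ⟨fun _ => 1, .const _, one_ne_zero, fun x => x, Rg.id.rgOn _, fun _ _ => rfl⟩⟩

theorem IsSec.prod {π : P → Q} (h : IsSec k π) {π' : P' → Q'} (h' : IsSec k π') :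
    IsSec k fun x : P × P' => (π x.1, π' x.2) where
  rg := (h.rg.comp Rg.id.fst).pair (h'.rg.comp Rg.id.snd)
  loc x := by
    obtain ⟨f, h0, h1, σ, h2, h3⟩ := h.loc x.1
    obtain ⟨f', h0', h1', σ', h2', h3'⟩ := h'.loc x.2
    exact ⟨fun y => f y.1 * f' y.2, by fun_prop, mul_ne_zero h1 h1', fun y => (σ y.1, σ' y.2),
      fun _ _ _ hj hU => (h2.rg hj.fst fun r => left_ne_zero_of_mul (hU r)).pair
        (h2'.rg hj.snd fun r => right_ne_zero_of_mul (hU r)),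
      fun y hy => Prod.ext (h3 _ (left_ne_zero_of_mul hy)) (h3' _ (right_ne_zero_of_mul hy))⟩

variable [IsAlgClosed k]

theorem Rg.un {f : P → k} (hf : Rg k f) (h : ∀ x, f x ≠ 0) : Rg k fun x => un (f x) :=
  rg_units (hf.congr fun x => un_val (h x))

theorem isOp_of_cover (h : ∀ x ∈ U, ∃ W, IsOp k W ∧ x ∈ W ∧ W ⊆ U) : IsOp k U := by
  choose V h1 h2 h3 using h
  have := IsOp.iUnion (U := fun x : U => V x.1 x.2) fun x => h1 _ _
  rwa [show U = ⋃ x : U, V x.1 x.2 from Set.ext fun x => ⟨fun hx => mem_iUnion.2 ⟨⟨x, hx⟩, h2 _ _⟩,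
    fun hx => (mem_iUnion.1 hx).elim fun y hy => h3 _ _ hy⟩]

theorem exists_finite_cover {ι : Type} {W : ι → Set P} (h : ∀ i, IsOp k (W i)) :
    ∃ t : Finset ι, ∀ x, (∃ i, x ∈ W i) → ∃ i ∈ t, x ∈ W i := by
  classical
  choose s hs using h
  obtain ⟨t, h1, h2, h3⟩ := exists_finite_sub (k := k)
    {g : P → k | ∃ i, ∃ b ∈ s i, g = fun x => pt x b} (by rintro _ ⟨i, b, -, rfl⟩; exact rg_pt b)
  choose i b hb e using fun g : t => h1 g.2
  have := h2.fintype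
  refine ⟨Finset.univ.image i, fun x ⟨a, ha⟩ => ?_⟩
  rw [hs] at ha
  obtain ⟨c, hc, h0⟩ := ha
  obtain ⟨g, hg, h0⟩ := h3 x ⟨_, ⟨a, c, hc, rfl⟩, h0⟩
  refine ⟨i ⟨g, hg⟩, Finset.mem_image_of_mem _ (Finset.mem_univ _), ?_⟩
  rw [hs]
  exact ⟨_, hb ⟨g, hg⟩, fun h => h0 ((congrFun (e ⟨g, hg⟩) x).trans h)⟩

/-- Clearing denominators. -/
theorem RgOn.exists_pow {f g : P → k} (hf : Rg k f) (h : RgOn k {x | f x ≠ 0} g) :
    ∃ M₀, ∀ M, M₀ ≤ M → Rg k fun x => f x ^ M * g x := by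
  obtain ⟨_, hv⟩ := exists_loc hf
  obtain ⟨M, g', h1, h2, -⟩ := hv.exists_mul_pow (h.rg hv.rg_val hv.ne)
  refine ⟨M + 1, fun N hN => ?_⟩
  obtain ⟨N, rfl⟩ := Nat.exists_eq_add_of_le hN
  refine ((hf.pow (N + 1)).mul h1).congr fun x => ?_
  by_cases hx : f x = 0
  · simp [hx]
  · rw [show g' x = f x ^ M * g x from h2 ⟨x, hx⟩]
    ring

/-- Regularity is a local property. -/
theorem rg_of_cover (h : ∀ x, ∃ f : P → k, Rg k f ∧ f x ≠ 0 ∧ RgOn k {y | f y ≠ 0} e) :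
    Rg k e := by
  refine rg_of_forall fun b => ?_
  choose f h1 h2 h3 using h
  choose M hM using fun x => RgOn.exists_pow (h1 x) (g := fun y => pt (e y) b)
    (((rg_pt b).rgOn univ).comp (h3 x) fun _ _ => trivial)
  have h4 : Ideal.span (range fun x => fn (f x) ^ M x) = ⊤ := by
    by_contra hI
    obtain ⟨y, hy⟩ := exists_point (k := k) hI
    obtain ⟨y, rfl⟩ := pt.surjective y
    have := hy _ (Ideal.subset_span ⟨y, rfl⟩)
    rw [map_pow, pt_fn (h1 y)] at this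
    exact pow_ne_zero _ (h2 y) this
  have key : ∀ a ∈ Ideal.span (range fun x => fn (f x) ^ M x),
      Rg k fun y => pt y a * pt (e y) b := fun a ha => by
    induction ha using Submodule.span_induction with
    | mem _ h =>
      obtain ⟨x, rfl⟩ := h
      exact (hM x _ le_rfl).congr fun y => by rw [map_pow, pt_fn (h1 x)]
    | zero => exact (Rg.const 0).congr fun y => by simp
    | add a a' _ _ h h' => exact (h.add h').congr fun y => by rw [map_add, add_mul]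
    | smul a a' _ h =>
      exact ((rg_pt a).mul h).congr fun y => by rw [smul_eq_mul, map_mul, mul_assoc]
  exact (key 1 (h4 ▸ trivial)).congr fun y => by simp

theorem rgOn_of_cover (h : ∀ x ∈ U, ∃ W, IsOp k W ∧ x ∈ W ∧ RgOn k (U ∩ W) e) : RgOn k U e := by
  refine fun _ _ j hj hU => rg_of_cover fun r => ?_
  obtain ⟨V, h1, h2, h3⟩ := h _ (hU r)
  obtain ⟨f, f1, f2, f3⟩ := (h1.preimage hj).exists_fn h2
  exact ⟨f, f1, f2, h3.comp (hj.rgOn _) fun y hy => ⟨hU y, f3 y hy⟩⟩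

theorem RgOn.isOp (h : RgOn k U e) (hU : IsOp k U) {V : Set Q} (hV : IsOp k V) :
    IsOp k (U ∩ e ⁻¹' V) := by
  refine isOp_of_cover fun x hx => ?_
  obtain ⟨f, f1, f2, f3⟩ := hU.exists_fn hx.1
  obtain ⟨_, hv⟩ := exists_loc f1
  refine ⟨_, Bru.isOp_image hv (hV.preimage (h.rg hv.rg_val fun r => f3 _ r.2)),
    ⟨⟨x, f2⟩, hx.2, rfl⟩, ?_⟩
  rintro _ ⟨y, hy, rfl⟩
  exact ⟨f3 _ y.2, hy⟩

theorem RgOn.lc (h : RgOn k U e) (hU : IsOp k U) {V : Set Q} (hV : LC k V) :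
    LC k (U ∩ e ⁻¹' V) := by
  obtain ⟨s, t, rfl⟩ := hV
  have := (h.isOp hU ⟨s, rfl⟩).lc.inter (IsCl.compl (h.isOp hU ⟨t, rfl⟩)).lc
  rwa [show U ∩ e ⁻¹' (opSet s \ opSet t) = U ∩ e ⁻¹' opSet s ∩ (U ∩ e ⁻¹' opSet t)ᶜ from
    Set.ext fun x => ⟨fun h => ⟨⟨h.1, h.2.1⟩, fun h' => h.2.2 h'.2⟩,
      fun h => ⟨h.1.1, h.1.2, fun h' => h.2 ⟨h.1.1, h'⟩⟩⟩]

theorem OImm.isOp_image {j : P' → P} (h : OImm k j) {V : Set P'} (hV : IsOp k V) :
    IsOp k (j '' V) := by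
  cases isEmpty_or_nonempty P'
  · rw [Set.eq_empty_of_isEmpty V, image_empty]
    exact .empty
  · obtain ⟨j', h1, h2⟩ := h.exists_inv
    have := h1.isOp h.op hV
    rwa [show j '' V = range j ∩ j' ⁻¹' V from Set.ext fun x => ⟨?_, ?_⟩]
    · rintro ⟨y, hy, rfl⟩
      exact ⟨⟨y, rfl⟩, by rwa [mem_preimage, h2]⟩
    · rintro ⟨⟨y, rfl⟩, hy⟩
      exact ⟨y, by rwa [mem_preimage, h2] at hy, rfl⟩

theorem OImm.lc_image {j : P' → P} (h : OImm k j) {V : Set P'} (hV : LC k V) :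
    LC k (j '' V) := by
  obtain ⟨s, t, rfl⟩ := hV
  obtain ⟨s', hs⟩ := h.isOp_image ⟨s, rfl⟩
  obtain ⟨t', ht⟩ := h.isOp_image ⟨t, rfl⟩
  exact ⟨s', t', by rw [Set.image_sdiff h.inj, hs, ht]⟩

theorem OImm.comp {j : P' → P} (h : OImm k j) {i : R → P'} (h' : OImm k i) :
    OImm k fun x => j (i x) := by
  refine ⟨h.rg.comp h'.rg, h.inj.comp h'.inj, ?_, fun he => h'.lift (h.lift he)⟩
  have := h.isOp_image h'.op
  rwa [← range_comp] at this

theorem IsSec.rgOn {π : P → Q} (h : IsSec k π) {V : Set Q} {d : Q → R}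
    (hd : RgOn k (π ⁻¹' V) fun x => d (π x)) : RgOn k V d := by
  refine rgOn_of_cover fun x _ => ?_
  obtain ⟨f, h0, h1, σ, h2, h3⟩ := h.loc x
  exact ⟨_, .ne h0, h1, (hd.comp (h2.mono inter_subset_right) fun y hy => by
    rw [mem_preimage, h3 y hy.2]; exact hy.1).congr fun y hy => by rw [h3 y hy.2]⟩

theorem IsSec.rg_of {π : P → Q} (h : IsSec k π) {d : Q → R} (hd : Rg k fun x => d (π x)) :
    Rg k d := (h.rgOn (V := univ) (hd.rgOn _)).rg_of_forall fun _ => trivial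

theorem IsSec.isOp {π : P → Q} (h : IsSec k π) {V : Set Q} (hV : IsOp k (π ⁻¹' V)) :
    IsOp k V := by
  refine isOp_of_cover fun x hx => ?_
  obtain ⟨f, h0, h1, σ, h2, h3⟩ := h.loc x
  refine ⟨_, h2.isOp (.ne h0) hV, ⟨h1, ?_⟩, fun y hy => ?_⟩
  · rwa [mem_preimage, mem_preimage, h3 x h1]
  · have := hy.2
    rwa [mem_preimage, mem_preimage, h3 y hy.1] at this

theorem LC.sdiff {Z : Set P} (h : LC k Z) (hW : IsOp k W) : LC k (Z \ W) :=
  h.inter (IsCl.compl hW).lc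

/-- Stratifications with finitely many strata. -/
theorem strat {I : Type} [Finite I] (cl : P → I)
    (h : ∀ i, ∃ Ω : Set I, i ∈ Ω ∧ IsOp k (cl ⁻¹' Ω) ∧ IsOp k (cl ⁻¹' (Ω \ {i})))
    {p : Set P → Prop} (h0 : p ∅)
    (hs : ∀ Z W, LC k Z → IsOp k W → p (Z ∩ W) → p (Z \ W) → p Z)
    (hi : ∀ i, p (cl ⁻¹' {i})) : p univ := by
  have key : ∀ Ω : Set I, LC k (cl ⁻¹' Ω) → p (cl ⁻¹' Ω) := fun Ω => by
    induction Ω using WellFoundedLT.induction with
    | ind Ω ih =>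
      intro hΩ
      rcases Ω.eq_empty_or_nonempty with rfl | ⟨i, hi'⟩
      · exact h0
      obtain ⟨Ω', h1, h2, h3⟩ := h i
      have h4 := hΩ.inter h2.lc
      refine hs _ _ hΩ h2 (hs _ _ h4 h3 (ih (Ω ∩ Ω' ∩ (Ω' \ {i})) ?_ (h4.inter h3.lc)) ?_)
        (ih (Ω \ Ω') ?_ (hΩ.sdiff h2))
      · exact ⟨fun _ h => h.1.1, fun h => (h hi').2.2 rfl⟩
      · rw [show (cl ⁻¹' Ω ∩ cl ⁻¹' Ω') \ cl ⁻¹' (Ω' \ {i}) = cl ⁻¹' {i} from Set.ext fun x =>
          ⟨fun h => by_contra fun h' => h.2 ⟨h.1.2, h'⟩, fun (h : cl x = i) =>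
            ⟨⟨by rwa [mem_preimage, h], by rwa [mem_preimage, h]⟩, fun h' => h'.2 h⟩⟩]
        exact hi i
      · exact ⟨fun _ h => h.1, fun h => (h hi').2 h1⟩
  exact key univ IsOp.univ.lc

/-- Finite open covers. -/
theorem cover_induction {I : Type} {W : I → Set P} (h : ∀ i, IsOp k (W i))
    (hc : ∀ x, ∃ i, x ∈ W i) {p : Set P → Prop} (h0 : p ∅)
    (hs : ∀ Z W, LC k Z → IsOp k W → p (Z ∩ W) → p (Z \ W) → p Z)
    (hi : ∀ i Z, LC k Z → Z ⊆ W i → p Z) : p univ := by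
  classical
  obtain ⟨t, ht⟩ := exists_finite_cover h
  have key : ∀ (t : Finset I) (Z : Set P), LC k Z → (∀ x ∈ Z, ∃ i ∈ t, x ∈ W i) → p Z := fun t => by
    induction t using Finset.induction_on with
    | empty =>
      intro Z _ hZ
      rwa [show Z = ∅ from eq_empty_of_forall_notMem fun x hx => by simpa using hZ x hx]
    | insert i t _ ih =>
      refine fun Z h1 h2 => hs Z _ h1 (h i) (hi i _ (h1.inter (h i).lc) inter_subset_right)
        (ih _ (h1.sdiff (h i)) fun x hx => ?_)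
      obtain ⟨a, ha, e⟩ := h2 x hx.1
      rcases Finset.mem_insert.1 ha with rfl | ha
      exacts [absurd e hx.2, ⟨a, ha, e⟩]
  exact key t univ IsOp.univ.lc fun x _ => ht x (hc x)

end

end Pool.Agent.Lib.MP_fc2ced_ag.E
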