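import Pool.Agent.Lib.MP_fc2ced_ag.R.Gr2
import Pool.Agent.Lib.MP_fc2ced_ag.R.On

/-! The general linear group: the open cell. -/

open Function Matrix

namespace Pool.Agent.Lib.MP_fc2ced_ag.R.GLn

open E E.Var

noncomputable section

variable {k : Type} [Field k] [IsAlgClosed k] {n : ℕ}

theorem smooth_Pol : Algebra.Smooth k (Pol fun g : GL (Fin n) k => co g) := by
  obtain ⟨e⟩ := (gens_gl (k := k) n).nonempty_equiv
  exact .of_equiv e

theorem isDomain_Pol : IsDomain (Pol fun g : GL (Fin n) k => co g) := by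
  obtain ⟨e⟩ := (gens_gl (k := k) n).nonempty_equiv
  have := isDomain_aff (k := k) (Fin n × Fin n)
  have : IsDomain (B k (Matrix (Fin n) (Fin n) k)) :=
    isDomain_of_retract (e := fun (a : Matrix (Fin n) (Fin n) k) (i : Fin n × Fin n) => a i.1 i.2)
      (.pi fun i => Rg.id.entry i.1 i.2) (p := fun v => of fun i j => v (i, j))
      (rg_matrix fun i j => .apply (i, j)) fun _ => rfl
  have hv := isLoc_GL (k := k) (n := n)
  obtain ⟨φ, ψ, h, -⟩ := PtL.exists_iso hv
  have := IsLocalization.isDomain_localization (powers_le_nonZeroDivisors_of_noZeroDivisors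
    (fun e => hv.ne 1 ((pt_fn hv.rg _).symm.trans (by rw [e, map_zero])) : fn _ ≠ 0))
  have := Function.Injective.isDomain φ (LeftInverse.injective fun b => congr($h b))
  exact Function.Injective.isDomain e.symm e.symm.injective

namespace GLb

theorem blk_mul {S : Type} [Ring S] {p : S} (hp : p * p = p) (x y : S) :
    (p * x * p + (1 - p)) * (p * y * p + (1 - p)) = p * x * p * y * p + (1 - p) := by
  have h1 : ∀ z, p * (p * z) = p * z := fun z => by rw [← mul_assoc, hp]
  simp only [mul_add, add_mul, mul_sub, sub_mul, mul_assoc, hp, h1, one_mul, mul_one]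
  abel

theorem blk_inv {S : Type} [Ring S] {p h b : S} (hp : p * p = p)
    (h1 : (p * h * p + (1 - p)) * b = 1) (h2 : b * (p * h * p + (1 - p)) = 1) :
    p * (b * p) = b * p ∧ p * h * (b * p) = p := by
  have e1 : p * (p * h * p + (1 - p)) = p * h * p := by
    rw [mul_add, mul_sub, mul_one, hp, sub_self, add_zero, ← mul_assoc, ← mul_assoc, hp]
  have e2 : (p * h * p + (1 - p)) * p = p * h * p := by
    rw [add_mul, sub_mul, one_mul, hp, sub_self, add_zero, mul_assoc, hp]
  have e3 : b * p = p * b := by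
    rw [← mul_one (b * p), ← h1, ← mul_assoc, mul_assoc b, e1, ← e2, ← mul_assoc, h2, one_mul]
  exact ⟨by rw [e3, ← mul_assoc, hp], by rw [e3, ← mul_assoc, ← e1, mul_assoc, h1, mul_one]⟩

section
omit [IsAlgClosed k]

variable (k) in
/-- The projection to the first coordinates. -/
def pr (j : Fin n) : Matrix (Fin n) (Fin n) k := diagonal fun a => if a < j then 1 else 0

theorem pr_mul (j : Fin n) (h : Matrix (Fin n) (Fin n) k) (a b : Fin n) :
    (pr k j * h) a b = if a < j then h a b else 0 := by simp [pr]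

theorem mul_pr (j : Fin n) (h : Matrix (Fin n) (Fin n) k) (a b : Fin n) :
    (h * pr k j) a b = if b < j then h a b else 0 := by simp [pr]

theorem pr_pr (j : Fin n) : pr k j * pr k j = pr k j := by
  ext a b
  rw [pr_mul]
  split_ifs with h
  · rfl
  · simp [pr, diagonal_apply, h]

/-- The upper left block, completed by the identity. -/
def blk (j : Fin n) (h : Matrix (Fin n) (Fin n) k) : Matrix (Fin n) (Fin n) k :=
  pr k j * h * pr k j + (1 - pr k j)

theorem blk_apply (j : Fin n) (h : Matrix (Fin n) (Fin n) k) (a b : Fin n) :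
    blk j h a b = if a < j ∧ b < j then h a b else if a = b then 1 else 0 := by
  rw [blk, Matrix.add_apply, mul_pr, pr_mul, Matrix.sub_apply, pr, diagonal_apply, one_apply]
  by_cases e : a = b
  · subst e
    by_cases h : a < j <;> simp [h]
  · by_cases h : a < j <;> by_cases h' : b < j <;> simp [h, h', e]

theorem blk_low {l : Matrix (Fin n) (Fin n) k} (hl : ∀ a b, a < b → l a b = 0) (j : Fin n)
    (m : Matrix (Fin n) (Fin n) k) : blk j (l * m) = blk j l * blk j m := by
  have e : pr k j * l * pr k j = pr k j * l := by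
    ext a b
    rw [mul_pr, pr_mul]
    split_ifs with h h' h'
    exacts [rfl, rfl, (hl a b (h'.trans_le (not_lt.1 h))).symm, rfl]
  rw [blk, blk, blk, blk_mul (pr_pr j), e, ← mul_assoc]

theorem blk_up {u : Matrix (Fin n) (Fin n) k} (hu : ∀ a b, b < a → u a b = 0) (j : Fin n)
    (m : Matrix (Fin n) (Fin n) k) : blk j (m * u) = blk j m * blk j u := by
  have e : pr k j * (u * pr k j) = u * pr k j := by
    ext a b
    rw [pr_mul, mul_pr]
    split_ifs with h h' h'
    exacts [rfl, rfl, (hu a b (h'.trans_le (not_lt.1 h))).symm, rfl]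
  rw [blk, blk, blk, blk_mul (pr_pr j)]
  simp only [mul_assoc, e]

theorem det_up {u : Matrix (Fin n) (Fin n) k}
    (hu : ∀ a b, b ≤ a → u a b = if a = b then 1 else 0) : u.det = 1 := by
  rw [det_of_isUpperTriangular fun a b (h : b < a) => by rw [hu a b h.le, if_neg h.ne']]
  exact Finset.prod_eq_one fun a _ => (hu a a le_rfl).trans (if_pos rfl)

theorem det_blk_up {u : Matrix (Fin n) (Fin n) k}
    (hu : ∀ a b, b ≤ a → u a b = if a = b then 1 else 0) (j : Fin n) : (blk j u).det = 1 :=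
  det_up fun a b h => by rw [blk_apply, hu a b h, ite_self]

theorem det_blk_low {l : Matrix (Fin n) (Fin n) k}
    (hl : ∀ a b, a ≤ b → l a b = if a = b then 1 else 0) (j : Fin n) : (blk j l).det = 1 := by
  rw [← det_transpose]
  exact det_up fun a b h => by
    rw [transpose_apply, blk_apply, hl b a h, ite_self]
    simp only [eq_comm]

/-- The longest permutation matrix. -/
abbrev w₀ : GL (Fin n) k := mon Fin.revPerm 1

theorem w_w : (w₀ * w₀ : GL (Fin n) k) = 1 := by
  rw [mon_mul, ← mon_one]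
  congr 1
  · ext; simp
  · ext; simp

theorem conj_w (u : GL (Fin n) k) (a b : Fin n) :
    (w₀ * u * w₀ : GL (Fin n) k) a b = u a.rev b.rev := by
  have := Conv.conj_apply Fin.revPerm 1 u a.rev b.rev
  rw [inv_eq_of_mul_eq_one_right w_w] at this
  simpa using this

/-- The product of the leading principal minors. -/
def dl (g : GL (Fin n) k) : k := ∏ j, (blk j (w₀ * g : GL (Fin n) k).1).det

theorem mon_low (t : Fin n → kˣ) (a b : Fin n) (h : a < b) : (mon 1 t).1 a b = 0 := if_neg h.ne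

/-- The character given by the minors. -/
def ch : (Fin n → kˣ) →* k where
  toFun t := ∏ j, (blk j (mon 1 t).1).det
  map_one' := Finset.prod_eq_one fun j _ => det_blk_up (mon_one (R := k) ▸ (Uni n k).one_mem) j
  map_mul' t t' := by
    rw [← Finset.prod_mul_distrib]
    refine Finset.prod_congr rfl fun j _ => ?_
    rw [← det_mul, ← blk_low (mon_low t), ← Units.val_mul, mon_mul]
    rfl

theorem dl_cell (t : Fin n → kˣ) {u u' : GL (Fin n) k} (hu : u ∈ Uni n k) (hu' : u' ∈ Uni n k) :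
    dl (u * w₀ * mon 1 t * u') = ch t := by
  have hl : ∀ a b, a ≤ b → (w₀ * u * w₀ : GL (Fin n) k) a b = if a = b then 1 else 0 :=
    fun a b h => by
      rw [conj_w, hu _ _ (Fin.rev_le_rev.2 h)]
      simp only [Fin.rev_inj]
  refine Finset.prod_congr rfl fun j _ => ?_
  rw [show w₀ * (u * w₀ * mon 1 t * u') = w₀ * u * w₀ * (mon 1 t * u') by simp only [mul_assoc],
    Units.val_mul, Units.val_mul (mon 1 t),
    blk_low fun a b h => (hl a b h.le).trans (if_neg h.ne),
    blk_up fun a b h => (hu' a b h.le).trans (if_neg h.ne'), det_mul, det_mul, det_blk_low hl,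
    det_blk_up hu', one_mul, mul_one]

theorem uniq {t s : Fin n → kˣ} {u u' v v' : GL (Fin n) k} (hu : u ∈ Uni n k) (hu' : u' ∈ Uni n k)
    (hv : v ∈ Uni n k) (hv' : v' ∈ Uni n k)
    (h : u * w₀ * mon 1 t * u' = v * w₀ * mon 1 s * v') : u = v ∧ t = s := by
  have ha := mul_mem (inv_mem hv) hu
  have hb := mul_mem hv' (inv_mem hu')
  have e : w₀ * (v⁻¹ * u) * w₀ * mon 1 t = mon 1 s * (v' * u'⁻¹) := by
    calc _ = w₀ * v⁻¹ * (u * w₀ * mon 1 t * u') * u'⁻¹ := by group
      _ = w₀ * w₀ * mon 1 s * (v' * u'⁻¹) := by rw [h]; group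
      _ = _ := by rw [w_w, one_mul]
  have e' : ∀ a b, (v⁻¹ * u : GL (Fin n) k) (Fin.rev a) (Fin.rev b) * t b =
      s a * (v' * u'⁻¹ : GL (Fin n) k) a b := fun a b => by
    have := congr(($e).1 a b)
    rw [Units.val_mul, Units.val_mul (mon 1 s), mul_apply, mul_apply] at this
    simpa [mon_apply, conj_w, -Units.val_mul] using this
  refine ⟨(inv_mul_eq_one.1 (Units.ext (Matrix.ext fun a b => ?_))).symm,
    funext fun a => Units.ext ?_⟩
  · rcases le_or_gt b a with h1 | h1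
    · exact (ha a b h1).trans one_apply.symm
    · have h2 := Fin.rev_lt_rev.2 h1
      have := e' a.rev b.rev
      rw [hb _ _ h2.le, if_neg h2.ne', mul_zero, Fin.rev_rev, Fin.rev_rev] at this
      exact ((mul_eq_zero.1 this).resolve_right (Units.ne_zero _)).trans (one_apply_ne h1.ne).symm
  · simpa [ha _ _ le_rfl, hb _ _ le_rfl, -Units.val_mul] using e' a a

/-- The unitriangular matrix that makes `h` lower triangular. -/
def vv (h : Matrix (Fin n) (Fin n) k) : Matrix (Fin n) (Fin n) k :=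
  of fun a b => (1 - (blk b h)⁻¹ * pr k b * h) a b

theorem vv_spec {h : Matrix (Fin n) (Fin n) k} (hd : ∀ j, (blk j h).det ≠ 0) (a b : Fin n) :
    (b ≤ a → vv h a b = if a = b then 1 else 0) ∧ (a < b → (h * vv h) a b = 0) := by
  obtain ⟨h1, h2⟩ := blk_inv (pr_pr b) (mul_nonsing_inv _ (hd b).isUnit)
    (nonsing_inv_mul _ (hd b).isUnit)
  refine ⟨fun hab => ?_, fun hab => ?_⟩
  · rw [vv, of_apply, Matrix.sub_apply,
      ← show pr k b * _ = (blk b h)⁻¹ * pr k b from h1, mul_assoc, pr_mul,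
      if_neg hab.not_gt, sub_zero, one_apply]
  · have e : pr k b * (h * (1 - (blk b h)⁻¹ * pr k b * h)) = 0 := by
      rw [← mul_assoc, mul_sub, mul_one, ← mul_assoc,
        show pr k b * h * ((blk b h)⁻¹ * pr k b) = _ from h2, sub_self]
    have := congr($e a b)
    rwa [pr_mul, if_pos hab] at this

/-- The lower triangular part. -/
def lw (g : GL (Fin n) k) : Matrix (Fin n) (Fin n) k :=
  (w₀ * g : GL (Fin n) k).1 * vv (w₀ * g : GL (Fin n) k).1

theorem exists_dec (g : GL (Fin n) k) (hg : dl g ≠ 0) : ∃ (t : Fin n → kˣ) (u u' : GL (Fin n) k),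
    u ∈ Uni n k ∧ u' ∈ Uni n k ∧ g = u * w₀ * mon 1 t * u' ∧ (∀ a, (t a : k) = lw g a a) ∧
      ∀ a b, u a b = lw g a.rev b.rev * (lw g b.rev b.rev)⁻¹ := by
  have h := vv_spec fun j => Finset.prod_ne_zero_iff.1 hg j (Finset.mem_univ j)
  obtain ⟨v, hv⟩ : ∃ v : GL (Fin n) k, v.1 = vv (w₀ * g : GL (Fin n) k).1 :=
    ⟨GeneralLinearGroup.mk'' _ ((det_up fun a b => (h a b).1).symm ▸ isUnit_one), rfl⟩
  have e : (w₀ * g * v : GL (Fin n) k).1 = lw g := by rw [Units.val_mul, hv, lw]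
  have h0 : ∀ a, lw g a a ≠ 0 := fun a => by
    have := (w₀ * g * v).det_ne_zero
    rw [e, det_of_isLowerTriangular (lw g) fun a b (hab : a < b) => (h a b).2 hab] at this
    exact Finset.prod_ne_zero_iff.1 this a (Finset.mem_univ a)
  obtain ⟨t, ht⟩ : ∃ t : Fin n → kˣ, ∀ a, (t a : k) = lw g a a :=
    ⟨fun a => Units.mk0 _ (h0 a), fun _ => rfl⟩
  have hu : ∀ a b, (w₀ * (w₀ * g * v * (mon 1 t)⁻¹) * w₀ : GL (Fin n) k) a b =
      lw g a.rev b.rev * (lw g b.rev b.rev)⁻¹ := fun a b => by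
    rw [conj_w, mon_inv, Units.val_mul, e, mul_apply]
    simp [mon_apply, ht]
  refine ⟨t, _, v⁻¹, fun a b hab => ?_, inv_mem fun a b hab => hv ▸ (h a b).1 hab, ?_, ht, hu⟩
  · rw [hu]
    rcases hab.lt_or_eq with h1 | rfl
    · rw [if_neg h1.ne', show lw g a.rev b.rev = 0 from (h _ _).2 (Fin.rev_lt_rev.2 h1), zero_mul]
    · rw [if_pos rfl, mul_inv_cancel₀ (h0 _)]
  · calc g = w₀ * w₀ * g * v * (mon 1 t)⁻¹ * (w₀ * w₀) * mon 1 t * v⁻¹ := by rw [w_w]; group
      _ = _ := by simp only [mul_assoc]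

end

variable {Z : Type} [Var k Z]

omit [IsAlgClosed k] in
theorem rg_blk {a : Z → Matrix (Fin n) (Fin n) k} (h : Rg k a) (j : Fin n) :
    Rg k fun x => blk j (a x) := rg_matrix fun s t =>
  ((((Rg.const _).matrix_mul h).matrix_mul (.const _)).entry s t).add (.const _)

theorem rg_inv {a : Z → Matrix (Fin n) (Fin n) k} (h : Rg k a) (hd : ∀ x, (a x).det ≠ 0) :
    Rg k fun x => (a x)⁻¹ := rg_matrix fun s t =>
  ((h.det.inv hd).mul (h.adjugate.entry s t)).congr fun x => by simp [inv_def]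

theorem rg_dl : Rg k (dl : GL (Fin n) k → k) :=
  Rg.prod _ fun j => (rg_blk ((Rg.const _).gl_mul .id).gl_val j).det

theorem rg_lw {g : Z → GL (Fin n) k} (h : Rg k g) (hd : ∀ x, dl (g x) ≠ 0) :
    Rg k fun x => lw (g x) := by
  have h1 := ((Rg.const w₀).gl_mul h).gl_val
  exact h1.matrix_mul (rg_matrix fun s t => (Rg.const _).sub ((((rg_inv (rg_blk h1 t) fun x =>
    Finset.prod_ne_zero_iff.1 (hd x) t (Finset.mem_univ t)).matrix_mul (.const _)).matrix_mul
      h1).entry s t))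

end GLb

open GLb in
theorem exists_big : ∃ δ : GL (Fin n) k → k, δ ∈ Pol (fun g : GL (Fin n) k => co g) ∧
    (∃ χ : (Fin n → kˣ) →* kˣ, ∀ t, ∀ u ∈ Uni n k, ∀ u' ∈ Uni n k,
      δ (u * mon Fin.revPerm 1 * mon 1 t * u') = χ t) ∧
    (∀ g, δ g ≠ 0 → ∃ t, ∃ u ∈ Uni n k, ∃ u' ∈ Uni n k, g = u * mon Fin.revPerm 1 * mon 1 t * u') ∧
    ∃ (π : GL (Fin n) k → GL (Fin n) k) (τ : GL (Fin n) k → Fin n → kˣ) (M : ℕ),
      (∀ t, ∀ u ∈ Uni n k, ∀ u' ∈ Uni n k, π (u * mon Fin.revPerm 1 * mon 1 t * u') = u ∧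
        τ (u * mon Fin.revPerm 1 * mon 1 t * u') = t) ∧
      Reg (fun g : GL (Fin n) k => co g) (fun g i => δ g ^ M * co (π g) i) ∧
      Reg (fun g : GL (Fin n) k => co g) fun g j => δ g ^ M * τ g j := by
  have hd := exists_dec (k := k) (n := n)
  choose! τ π π' h1 h2 h3 h4 h5 using hd
  have hτ : ∀ j, RgOn k {g | dl g ≠ 0} fun g => (τ g j : k) := fun j _ _ _ hj hU =>
    ((rg_lw hj hU).entry j j).congr fun x => h4 _ (hU x) j
  have hπ : RgOn k {g | dl g ≠ 0} π := fun _ _ _ hj hU => rg_GL fun a b =>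
    (((rg_lw hj hU).entry _ _).mul (((rg_lw hj hU).entry _ _).inv fun x =>
      h4 _ (hU x) _ ▸ Units.ne_zero _)).congr fun x => h5 _ (hU x) a b
  choose M₁ e₁ using fun i => RgOn.exists_pow rg_dl (g := fun g => co (π g) i)
    fun _ _ _ hj hU => ((gens_gl n).rg i).comp (hπ.rg hj hU)
  choose M₂ e₂ using fun j => RgOn.exists_pow rg_dl (hτ j)
  obtain ⟨A, hA⟩ := (Set.finite_range M₁).bddAbove
  obtain ⟨A', hA'⟩ := (Set.finite_range M₂).bddAbove
  refine ⟨dl, (gens_gl n).mem _ rg_dl, ⟨ch.toHomUnits, fun t u hu u' hu' => dl_cell t hu hu'⟩,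
    fun g hg => ⟨_, _, h1 g hg, _, h2 g hg, h3 g hg⟩, π, τ, A + A', fun t u hu u' hu' => ?_,
    fun i => (gens_gl n).mem _ (e₁ i _ ((hA ⟨_, rfl⟩).trans (Nat.le_add_right _ _))),
    fun j => (gens_gl n).mem _ (e₂ j _ ((hA' ⟨_, rfl⟩).trans (Nat.le_add_left _ _)))⟩
  have hg : dl (u * w₀ * mon 1 t * u') ≠ 0 :=
    (dl_cell t hu hu').symm ▸ (ch.toHomUnits t).ne_zero
  exact uniq (h1 _ hg) (h2 _ hg) hu hu' (h3 _ hg).symm

end

end Pool.Agent.Lib.MP_fc2ced_ag.R.GLn
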