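import Pool.Agent.Lib.MP_fc2ced_ag.R.GLa
import Pool.Agent.Lib.MP_fc2ced_ag.R.GLb

/-! The general linear group with its split and unitary Frobenius maps is an example. -/

open Function Matrix

namespace Pool.Agent.Lib.MP_fc2ced_ag.R.GLn

open E E.Var

noncomputable section

theorem exists_red (k : Type) [Field k] [IsAlgClosed k] (n : ℕ) :
    ∃ D : Red k (GL (Fin (n + 1)) k) (n + 1) (n + 1) (Fin n), D.ρ = MonoidHom.id _ ∧
      D.U = Uni (n + 1) k ∧ (∀ g, g ∈ D.N ↔ ∃ v t, g = mon v t) ∧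
      ∀ (p e : ℕ) [ExpChar k p],
        Stein D (p ^ e) (Fr p e false) ∧ Stein D (p ^ (2 * e)) (Fr p e true) := by
  choose φ h1 h2 h3 h4 d h5 using fun s : Fin n => exists_blk (k := k) s
  obtain ⟨δ, e1, e2, e3, e4⟩ := exists_big (k := k) (n := n + 1)
  have hN (g : GL (Fin (n + 1)) k) : g ∈ Subgroup.closure (Set.range tor ∪
      Set.range fun s => φ s ww) ↔ ∃ v t, g = mon v t := by
    simp only [h5]; exact mem_closure_iff d g
  let D : Red k (GL (Fin (n + 1)) k) (n + 1) (n + 1) (Fin n) :=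
    { ρ := .id _
      inj := injective_id
      closed := fun g _ => ⟨g, rfl⟩
      smooth := smooth_Pol
      dom := isDomain_Pol
      ι := tor
      ι_reg := tor_reg
      U := Uni _ k
      norm := fun t _ => tor_norm t
      φ := φ
      φ_reg := h1
      x_mem := fun s c => h2 s c ▸ el_mem_Uni s.castSucc_lt_succ c
      d_mem := h4
      scale := fun s t => by simp only [h2, h3]; exact tor_scale _ t
      w_not := fun s t u hu => h5 s ▸ mon_ne (ne_succ s) _ t hu
      coord := fun s => ⟨fun g => g s.castSucc s.succ, Gr.mem_Pol _ (true, s.castSucc, s.succ),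
        fun u hu => by rw [h2, h5]; exact coord_mem s _ hu⟩
      N := _
      N_eq := rfl
      dich := fun s m hm => by
        obtain ⟨v, t, rfl⟩ := (hN m).1 hm
        simp only [h2, h3]
        exact dich _ v t
      gen := gen fun v t => (hN _).2 ⟨v, t, rfl⟩
      n₀ := mon Fin.revPerm 1
      n₀_mem := (hN _).2 ⟨_, _, rfl⟩
      δ := δ
      δ_reg := e1
      δ_cell := e2
      δ_ne := e3
      big := e4 }
  have H (p e : ℕ) [ExpChar k p] (tw : Bool) (q : ℕ)
      (h : ∃ m, 0 < m ∧ ∀ g i j, ((Fr p e tw)^[m] g : GL (Fin (n + 1)) k) i j = g i j ^ q) :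
      Stein D q (Fr p e tw) := by
    refine ⟨?_, fun u => Fr_mem_Uni, fun t => ⟨fun j => (if tw then (t j.rev)⁻¹ else t j) ^ p ^ e,
      ((Fr_mon 1 t).trans ?_).symm⟩, fun m hm => ?_, h⟩
    · exact fun i => (gens_gl _).mem _ (((gens_gl _).rg i).comp Rg.id.Fr)
    · cases tw
      · rfl
      · rw [if_pos rfl, mul_one, show (Fin.revPerm * Fin.revPerm : Equiv.Perm (Fin (n + 1))) = 1 from
          Equiv.ext Fin.rev_rev]
        rfl
    · obtain ⟨v, t, rfl⟩ := (hN m).1 hm
      exact (hN _).2 ⟨_, _, Fr_mon v t⟩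
  refine ⟨D, rfl, rfl, hN, fun p e _ => ⟨H p e _ _ ⟨1, one_pos, fun g i j => rfl⟩,
    H p e _ _ ⟨2, two_pos, fun g i j => ?_⟩⟩⟩
  rw [two_mul, pow_add]
  exact Lang.Fr_Fr g i j

end

end Pool.Agent.Lib.MP_fc2ced_ag.R.GLn
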