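import Pool.Agent.Lib.MP_fc2ced_ag.R.Gr2
import Pool.Agent.Lib.MP_fc2ced_ag.R.BN4

/-! The group and its unipotent radical as varieties. -/

open CategoryTheory CategoryTheory.Limits Function Set Matrix

set_option linter.unusedSectionVars false

namespace Pool.Agent.Lib.MP_fc2ced_ag.R

open E E.Var

noncomputable section

variable {k : Type} [Field k] [IsAlgClosed k] {G : Type} [Group G] {n r : ℕ} {S : Type}
  (D : Red k G n r S)

/-- The structures of varieties on the group and on the unipotent radical are the standard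
ones. -/
class Geo [Var k G] [Var k D.U] : Prop where
  gens : Gens k fun g => co (D.ρ g)
  dom : IsDomain (B k G)
  rg_ξ : Rg k D.ξ
  coord : ∃ η : G → Fin D.NN → k, Rg k η ∧ ∀ a, η (D.ξ a) = a
  rg_val : Rg k (Subtype.val : D.U → G)
  lift : ∀ {R : Type} [Var k R] {e : R → D.U}, Rg k (fun x => (e x : G)) → Rg k e

namespace Red

theorem exists_var_G : ∃ _ : Var k G, Gens k (fun g => co (D.ρ g)) ∧ IsDomain (B k G) := by
  let c (i : Bool × Fin n × Fin n) : Pol fun x => co (D.ρ x) := ⟨_, Gr.mem_Pol _ i⟩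
  let p (g : G) : (Pol fun x => co (D.ρ x)) →ₐ[k] k :=
    (Pi.evalAlgHom k (fun _ => k) g).comp (Subalgebra.val _)
  have h1 (φ : (Pol fun x => co (D.ρ x)) →ₐ[k] k) (f : MvPolynomial (Bool × Fin n × Fin n) k) :
      φ (MvPolynomial.aeval c f) = f.eval fun i => φ (c i) := by
    rw [← AlgHom.comp_apply, MvPolynomial.comp_aeval]
    rfl
  have h2 (b : Pol fun x => co (D.ρ x)) :
      ∃ f : MvPolynomial (Bool × Fin n × Fin n) k, MvPolynomial.aeval c f = b := by
    obtain ⟨f, hf⟩ := (Algebra.adjoin_range_eq_range_aeval k _).le b.2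
    exact ⟨f, Subtype.ext ((congr($(MvPolynomial.comp_aeval c (Subalgebra.val _)) f)).trans hf)⟩
  have h3 (b : Bool) :
      (Matrix.of fun i j => c (b, i, j)) * (Matrix.of fun i j => c (!b, i, j)) = 1 :=
    Matrix.ext fun i j => Subtype.ext (funext fun x => by
      have e := congr($((p x).mapMatrix.map_mul (Matrix.of fun i j => c (b, i, j))
        (Matrix.of fun i j => c (!b, i, j))) i j)
      have e' := congr($(((p x).mapMatrix (m := Fin n)).map_one) i j)
      refine e.trans (Eq.trans ?_ e'.symm)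
      cases b
      exacts [congr($((D.ρ x).inv_mul) i j), congr($((D.ρ x).mul_inv) i j)])
  have hp : Bijective p := by
    refine ⟨fun g g' e => D.inj (Units.ext (Matrix.ext fun i j => congr($e (c (true, i, j))))),
      fun φ => ?_⟩
    let g : GL (Fin n) k := ⟨φ.mapMatrix (Matrix.of fun i j => c (true, i, j)),
      φ.mapMatrix (Matrix.of fun i j => c (false, i, j)),
      (map_mul _ _ _).symm.trans ((congrArg _ (h3 true)).trans (map_one _)),
      (map_mul _ _ _).symm.trans ((congrArg _ (h3 false)).trans (map_one _))⟩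
    have hg : co g = fun i => φ (c i) := funext fun ⟨b, i, j⟩ => by cases b <;> rfl
    obtain ⟨x, hx⟩ := D.closed g fun f hf => by
      rw [hg, ← h1, show MvPolynomial.aeval c f = 0 from
        Subtype.ext (funext fun x => (h1 (p x) f).trans (hf x)), map_zero]
    refine ⟨x, AlgHom.ext fun b => ?_⟩
    obtain ⟨f, rfl⟩ := h2 b
    rw [h1, h1, ← hg, ← hx]
    rfl
  let V : Var k G :=
    { B := Pol fun x => co (D.ρ x), sm := D.smooth, pt := Equiv.ofBijective p hp }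
  refine ⟨V, ⟨fun i => rg_line_iff.2 ⟨c i, fun _ => rfl⟩, fun f hf => ?_⟩, D.dom⟩
  obtain ⟨b, hb⟩ := rg_line_iff.1 hf
  rw [show f = b.1 from funext hb]
  exact b.2

section
variable [Var k G] (hG : Gens k fun g => co (D.ρ g)) {P : Type} [Var k P]
include hG

theorem rg_ρ' : Rg k D.ρ := gens_gl n |>.rg_of hG.rg

theorem rg_of_ρ' {e : P → G} (h : Rg k fun x => D.ρ (e x)) : Rg k e :=
  hG.rg_of fun i => ((gens_gl n).rg i).comp h

theorem gvar' : GVar k G :=
  ⟨D.rg_of_ρ' hG (by have := D.rg_ρ' hG; simp only [map_mul]; fun_prop),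
    D.rg_of_ρ' hG (by have := D.rg_ρ' hG; simp only [map_inv]; fun_prop)⟩

theorem rg_φ' (s : S) : Rg k (D.φ s) :=
  hG.rg_of fun i => rg_of_mem_Pol gens_SL.rg (D.φ_reg s i)

theorem rg_cs' (s : S) : Rg k (D.cs s) := rg_of_mem_Pol hG.rg (D.cs_mem s)

theorem rg_ψ' {l : ℕ} (s : Fin l → S) : Rg k (D.ψ s) := by
  have := D.gvar' hG
  exact Rg.gprod (f := fun i (a : Fin l → k) => D.x (s i) (a i) * D.w (s i)) fun i =>
    ((D.rg_φ' hG (s i)).comp (Rg.apply i).xx).gmul (.const _)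

/-- The coordinates of `exists_ψ` are given by regular functions on the group. -/
theorem exists_rec' {l : ℕ} (s : Fin l → S) : ∃ (c : G → Fin l → k) (e : G → G),
    Rg k c ∧ Rg k e ∧ ∀ u ∈ D.U, e u ∈ D.U ∧ u * D.wd s = D.ψ s (c u) * e u := by
  have := D.gvar' hG
  induction l with
  | zero => exact ⟨fun _ => 0, fun u => u, .const _, .id, fun u hu =>
      ⟨hu, by rw [ψ_nil, wd_zero, mul_one, one_mul]⟩⟩
  | succ l ih =>
    obtain ⟨c, e, hc, he, h⟩ := ih fun i => s i.succ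
    have h1 : Rg k fun u => (D.w (s 0))⁻¹ * (D.x (s 0) (-D.cs (s 0) u) * u) * D.w (s 0) :=
      ((Rg.const _).gmul (((D.rg_φ' hG (s 0)).comp (D.rg_cs' hG (s 0)).neg.xx).gmul .id)).gmul
        (.const _)
    refine ⟨fun u => Fin.cons (D.cs (s 0) u) (c _), fun u => e _,
      .pi (Fin.cases (D.rg_cs' hG (s 0)) fun i => (Rg.apply i).comp (hc.comp h1)), he.comp h1,
      fun u hu => ⟨(h _ (D.left_mem (s 0) hu)).1, ?_⟩⟩
    simp only [ψ_succ, wd_succ, Fin.cons_zero, Fin.cons_succ]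
    rw [mul_assoc, mul_assoc, ← (h _ (D.left_mem (s 0) hu)).2, x_neg]
    group

end

theorem exists_geo : ∃ (_ : Var k G) (_ : Var k D.U) (_ : GVar k G) (_ : GVar k D.U), Geo D := by
  obtain ⟨V, hG, hd⟩ := D.exists_var_G
  have hV := D.gvar' hG
  obtain ⟨η, e, h1, -, h2⟩ := D.exists_rec' hG D.s₀
  have h3 (a : Fin D.NN → k) : η (D.ξ a) = a := by
    obtain ⟨k1, k2⟩ := h2 _ (D.ξ a).2
    refine D.ψ_unique D.s₀ (one_mem _) ?_ (D.mem_cell_one.2 (D.U_le_Bor k1)) (D.self_mem_cell 1) ?_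
    · rw [mul_one, D.len_one]
      exact D.len_n₁
    · rw [← k2, ξ_val, mul_one]
      exact inv_mul_cancel_right _ _
  let c := (Equiv.ofBijective _ D.ξ_bij).symm
  let V' := Var.copy k c
  have h4 (u : D.U) : c u = η u := by
    obtain ⟨a, rfl⟩ := D.ξ_bij.2 u
    exact ((Equiv.ofBijective _ D.ξ_bij).symm_apply_apply a).trans (h3 a).symm
  have h5 : Rg k (Subtype.val : D.U → G) :=
    (((D.rg_ψ' hG D.s₀).comp (rg_copy c).1).gmul (.const D.n₁⁻¹)).congr fun u =>
      congrArg Subtype.val (c.symm_apply_apply u).symm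
  have h6 : ∀ {R : Type} [Var k R] {e : R → D.U}, Rg k (fun x => (e x : G)) → Rg k e :=
    fun he => ((rg_copy c).2.comp (h1.comp he)).congr fun x => by
      rw [← h4, c.symm_apply_apply]
  exact ⟨V, V', hV, ⟨h6 ((h5.comp Rg.id.fst).gmul (h5.comp Rg.id.snd)), h6 h5.ginv⟩,
    hG, hd, (rg_copy c).2, ⟨η, h1, h3⟩, h5, h6⟩

variable [Var k G] [Var k D.U] [GVar k G] [GVar k D.U] [Geo D] {P : Type} [Var k P]

@[fun_prop] theorem rg_ι {t : P → Fin r → kˣ} (h : Rg k t) : Rg k fun x => D.ι (t x) :=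
  (Geo.gens.rg_of fun i => rg_of_mem_Pol (gens_torus r).rg (D.ι_reg i)).comp h

@[fun_prop] theorem rg_φ (s : S) {g : P → SpecialLinearGroup (Fin 2) k} (h : Rg k g) :
    Rg k fun x => D.φ s (g x) := (D.rg_φ' Geo.gens s).comp h

@[fun_prop] theorem rg_x (s : S) {c : P → k} (h : Rg k c) : Rg k fun x => D.x s (c x) :=
  D.rg_φ s h.xx

@[fun_prop] theorem rg_y (s : S) {c : P → k} (h : Rg k c) : Rg k fun x => D.y s (c x) :=
  D.rg_φ s h.yy

@[fun_prop] theorem rg_cs (s : S) {g : P → G} (h : Rg k g) : Rg k fun x => D.cs s (g x) :=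
  (D.rg_cs' Geo.gens s).comp h

@[fun_prop] theorem rg_δ {g : P → G} (h : Rg k g) : Rg k fun x => D.δ (g x) :=
  (rg_of_mem_Pol (Geo.gens (D := D)).rg D.δ_reg).comp h

@[fun_prop] theorem rg_ψ {l : ℕ} (s : Fin l → S) {a : P → Fin l → k} (h : Rg k a) :
    Rg k fun x => D.ψ s (a x) := (D.rg_ψ' Geo.gens s).comp h

@[fun_prop] theorem rg_ξ {a : P → Fin D.NN → k} (h : Rg k a) : Rg k fun x => D.ξ (a x) :=
  Geo.rg_ξ.comp h

@[fun_prop] theorem rg_val {u : P → D.U} (h : Rg k u) : Rg k fun x => (u x : G) :=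
  Geo.rg_val.comp h

@[fun_prop] theorem rg_mk {g : P → G} (h : Rg k g) (hg : ∀ x, g x ∈ D.U) :
    Rg k fun x => (⟨g x, hg x⟩ : D.U) := Geo.lift h

theorem exists_rec {l : ℕ} (s : Fin l → S) : ∃ (c : G → Fin l → k) (e : G → G),
    Rg k c ∧ Rg k e ∧ ∀ u ∈ D.U, e u ∈ D.U ∧ u * D.wd s = D.ψ s (c u) * e u :=
  D.exists_rec' Geo.gens s

theorem exists_coord : ∃ η : D.U → Fin D.NN → k, Rg k η ∧ (∀ a, η (D.ξ a) = a) ∧
    ∀ u, D.ξ (η u) = u := by
  obtain ⟨η, h1, h2⟩ := Geo.coord (D := D)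
  exact ⟨fun u => η u, h1.comp Geo.rg_val, h2, fun u => by
    obtain ⟨a, rfl⟩ := D.ξ_bij.2 u
    exact congrArg _ (h2 a)⟩

end Red

end

end Pool.Agent.Lib.MP_fc2ced_ag.R
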