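import Pool.Agent.Lib.MP_fc2ced_ag.R.Geo
import Pool.Agent.Lib.MP_fc2ced_ag.R.On
import Pool.Agent.Lib.MP_fc2ced_ag.R.Quo2

/-! The open cell, the torus and charts. -/

open CategoryTheory CategoryTheory.Limits Function Set Matrix

set_option linter.unusedSectionVars false

namespace Pool.Agent.Lib.MP_fc2ced_ag.R

open E E.Var

noncomputable section

variable {k : Type} [Field k] [IsAlgClosed k] {G : Type} [Group G] {n r : ℕ} {S : Type}
  (D : Red k G n r S)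
  [Var k G] [Var k D.U] [GVar k G] [GVar k D.U] [Geo D] {P : Type} [Var k P]

namespace Red

theorem exists_big : ∃ (a : G → Fin D.NN → k) (t : G → Fin r → kˣ) (u : G → D.U),
    RgOn k {g | D.δ g ≠ 0} a ∧ RgOn k {g | D.δ g ≠ 0} t ∧ RgOn k {g | D.δ g ≠ 0} u ∧
      ∀ g, D.δ g ≠ 0 → g = D.ξ (a g) * D.n₁ * D.ι (t g) * u g := by
  classical
  obtain ⟨π, τ, M, hb, h1, h2⟩ := D.big
  obtain ⟨t₀, h0⟩ := D.exists_n₀
  obtain ⟨η, hη, e⟩ := Geo.coord (D := D)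
  have dv {f : G → k} (h : (fun x => D.δ x ^ M * f x) ∈ Pol fun x => co (D.ρ x)) :
      RgOn k {g | D.δ g ≠ 0} f := fun _ _ j hj hU =>
    (((rg_of_mem_Pol (Geo.gens (D := D)).rg h).comp hj).mul (((D.rg_δ hj).pow M).inv
      fun x => pow_ne_zero _ (hU x))).congr fun x => by
        rw [mul_comm, inv_mul_cancel_left₀ (pow_ne_zero _ (hU x))]
  have ra : RgOn k {g | D.δ g ≠ 0} fun g => η (π g) := fun _ _ j hj hU =>
    hη.comp ((Geo.gens (D := D)).rg_of fun i => (dv (h1 i)).rg hj hU)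
  have rt : RgOn k {g | D.δ g ≠ 0} fun g => t₀ * τ g := fun _ _ j hj hU =>
    (Rg.const t₀).gmul (.pi fun i => rg_units ((dv (h2 i)).rg hj hU))
  have hm (g : G) (h : D.δ g ≠ 0) :
      ((D.ξ (η (π g)) : G) * D.n₁ * D.ι (t₀ * τ g))⁻¹ * g ∈ D.U := by
    obtain ⟨t, u, hu, u', hu', rfl⟩ := D.δ_ne g h
    obtain ⟨a, ha⟩ := D.ξ_bij.2 ⟨u, hu⟩
    obtain rfl : (D.ξ a : G) = u := congrArg Subtype.val ha
    rw [(hb t _ hu u' hu').1, (hb t _ hu u' hu').2, e, map_mul,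
      ← mul_assoc _ (D.ι t₀), mul_assoc (D.ξ a : G) D.n₁, ← h0, inv_mul_cancel_left]
    exact hu'
  refine ⟨_, _, fun g => if h : D.δ g ≠ 0 then ⟨_, hm g h⟩ else 1, ra, rt,
    fun _ _ j hj hU => Geo.lift ?_, fun g h => ?_⟩
  · have h3 := ra.rg hj hU
    have h4 := rt.rg hj hU
    exact ((((D.rg_val (D.rg_ξ h3)).gmul (.const D.n₁)).gmul (D.rg_ι h4)).ginv.gmul hj).congr
      fun x => by simp only [dif_pos (show D.δ (j x) ≠ 0 from hU x)]
  · simp only [dif_pos h, mul_inv_cancel_left]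

/-- The first coordinate on the open cell. -/
def bA : G → Fin D.NN → k := D.exists_big.choose

/-- The second coordinate on the open cell. -/
def bT : G → Fin r → kˣ := D.exists_big.choose_spec.choose

/-- The third coordinate on the open cell. -/
def bU : G → D.U := D.exists_big.choose_spec.choose_spec.choose

theorem rgOn_bA : RgOn k {g | D.δ g ≠ 0} D.bA := D.exists_big.choose_spec.choose_spec.choose_spec.1

theorem rgOn_bT : RgOn k {g | D.δ g ≠ 0} D.bT :=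
  D.exists_big.choose_spec.choose_spec.choose_spec.2.1

theorem rgOn_bU : RgOn k {g | D.δ g ≠ 0} D.bU :=
  D.exists_big.choose_spec.choose_spec.choose_spec.2.2.1

theorem big_eq {g : G} (h : D.δ g ≠ 0) : g = D.ξ (D.bA g) * D.n₁ * D.ι (D.bT g) * D.bU g :=
  D.exists_big.choose_spec.choose_spec.choose_spec.2.2.2 g h

theorem δ_big (a : Fin D.NN → k) {b : G} (hb : b ∈ D.Bor) : D.δ (D.ξ a * D.n₁ * b) ≠ 0 :=
  (D.δ_ne_iff' _).2 ⟨_, (D.ξ a).2, b, hb, rfl⟩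

theorem big_coord (a : Fin D.NN → k) (t : Fin r → kˣ) (u : D.U) :
    D.bA (D.ξ a * D.n₁ * D.ι t * u) = a ∧ D.bT (D.ξ a * D.n₁ * D.ι t * u) = t ∧
      D.bU (D.ξ a * D.n₁ * D.ι t * u) = u := by
  have h := D.big_eq (g := D.ξ a * D.n₁ * D.ι t * u)
    (by rw [mul_assoc]; exact D.δ_big a ⟨t, u, u.2, rfl⟩)
  obtain ⟨h1, h2, h3⟩ := D.big_unique (D.ξ a).2 (D.ξ _).2 u.2 (D.bU _).2 h
  exact ⟨(D.ξ_bij.1 (Subtype.ext h1)).symm, h2.symm, (Subtype.ext h3).symm⟩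

theorem bA_eq (a : Fin D.NN → k) {b : G} (hb : b ∈ D.Bor) : D.bA (D.ξ a * D.n₁ * b) = a := by
  obtain ⟨t, u, hu, rfl⟩ := hb
  rw [← mul_assoc]
  exact (D.big_coord a t ⟨u, hu⟩).1

theorem rg_of_ι {t : P → Fin r → kˣ} (h : Rg k fun x => D.ι (t x)) : Rg k t := by
  refine (D.rgOn_bT.rg (j := fun x => D.ξ 0 * D.n₁ * D.ι (t x) * (1 : D.U))
    (((Rg.const _).gmul h).gmul (.const _)) fun x => ?_).congr
    fun x => (D.big_coord 0 (t x) 1).2.1.symm
  rw [mul_assoc]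
  exact D.δ_big 0 ⟨t x, _, (1 : D.U).2, rfl⟩

@[fun_prop] theorem rg_cj (m : D.N) {t : P → Fin r → kˣ} (h : Rg k t) :
    Rg k fun x => D.cj m (t x) := D.rg_of_ι (by simp only [ι_cj]; fun_prop)

@[fun_prop] theorem rg_cv (s : S) {a : P → kˣ} (h : Rg k a) : Rg k fun x => D.cv s (a x) :=
  D.rg_of_ι (by simp only [ι_cv]; fun_prop)

@[fun_prop] theorem rg_al (s : S) {t : P → Fin r → kˣ} (h : Rg k t) :
    Rg k fun x => D.al s (t x) := by
  refine rg_units ((D.rg_cs s (((D.rg_ι h).gmul (.const (D.x s 1))).gmul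
    (D.rg_ι h).ginv)).congr fun x => ?_)
  rw [conj_x, mul_one]
  refine (D.cs_eq (D.xmem s _) ?_).symm
  rw [x_neg, inv_mul_cancel, mul_one, inv_mul_cancel]
  exact one_mem _

@[fun_prop] theorem rg_wt {l : ℕ} (s : Fin l → S) (i : Fin l) {t : P → Fin r → kˣ} (h : Rg k t) :
    Rg k fun x => D.wt s i (t x) := D.rg_al _ (D.rg_cj _ h)

theorem gens_U : Gens k fun u : D.U => co (D.ρ u) := by
  obtain ⟨η, hη, e⟩ := Geo.coord (D := D)
  refine (Geo.gens (D := D)).comp Geo.rg_val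
    (surj_hom_of_retract Geo.rg_val (D.rg_ξ hη) fun u => ?_)
  obtain ⟨a, rfl⟩ := D.ξ_bij.2 u
  rw [e]

theorem gens_T : Gens k fun t => co (D.ρ (D.ι t)) := by
  obtain ⟨π, τ, M, hb, -, h2⟩ := D.big
  obtain ⟨χ, hχ⟩ := D.δ_cell
  have key {f : G → k} (hf : Rg k f) : (fun t => f (D.ι t)) ∈ Pol fun t => co (D.ρ (D.ι t)) :=
    comp_mem_Pol (c := fun t => co (D.ρ (D.ι t))) (c' := fun g => co (D.ρ g))
      (e := fun t => D.ι t) (fun i => Gr.mem_Pol _ i) ((Geo.gens (D := D)).mem f hf)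
  have h3 (j : Fin r) : Rg k fun g : G =>
      D.δ (D.n₀ * g) ^ M * τ (D.n₀ * g) j * D.δ (D.n₀ * g⁻¹) ^ M :=
    (Rg.comp (f := fun g => D.δ g ^ M * τ g j) (rg_of_mem_Pol (Geo.gens (D := D)).rg (h2 j))
      ((Rg.const _).gmul .id)).mul ((D.rg_δ ((Rg.const _).gmul Rg.id.ginv)).pow M)
  have h4 (t : Fin r → kˣ) : D.δ (D.n₀ * D.ι t) = χ t := by
    simpa using hχ t 1 (one_mem _) 1 (one_mem _)
  have h5 (t : Fin r → kˣ) (j : Fin r) : D.δ (D.n₀ * D.ι t) ^ M * τ (D.n₀ * D.ι t) j *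
      D.δ (D.n₀ * (D.ι t)⁻¹) ^ M = t j := by
    have h6 : τ (D.n₀ * D.ι t) = t := by simpa using (hb t 1 (one_mem _) 1 (one_mem _)).2
    rw [← map_inv, h4, h4, h6, mul_right_comm, ← mul_pow, ← Units.val_mul, ← map_mul,
      mul_inv_cancel, map_one, Units.val_one, one_pow, one_mul]
  refine (gens_torus r).of_le (fun i => ((Geo.gens (D := D)).rg i).comp (D.rg_ι .id)) ?_
  rintro ⟨_ | _, j⟩
  · have := key ((h3 j).comp (GVar.inv (k := k) (H := G)))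
    change (fun t : Fin r → kˣ => ((t⁻¹ j : kˣ) : k)) ∈ _
    rw [← funext fun t => h5 t⁻¹ j]
    simpa only [map_inv D.ι] using this
  · change (fun t : Fin r → kˣ => ((t j : kˣ) : k)) ∈ _
    rw [← funext fun t => h5 t j]
    exact key (h3 j)

theorem dom_U : IsDomain (B k D.U) := by
  obtain ⟨η, h1, -, h2⟩ := D.exists_coord
  have := isDomain_aff (k := k) (Fin D.NN)
  exact isDomain_of_retract h1 Geo.rg_ξ h2

theorem isLoc_big : IsLoc (fun x : D.U × (Fin r → kˣ) × D.U =>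
    (x.1 : G) * D.n₁ * D.ι x.2.1 * x.2.2) D.δ := by
  refine ⟨D.rg_δ .id, by fun_prop, fun x y h => ?_, fun g => ⟨?_, fun h => ?_⟩,
    fun {R} _ e he => ?_⟩
  · obtain ⟨h1, h2, h3⟩ := D.big_unique x.1.2 y.1.2 x.2.2.2 y.2.2.2 h
    exact Prod.ext (Subtype.ext h1) (Prod.ext h2 (Subtype.ext h3))
  · rintro ⟨x, rfl⟩
    exact (D.δ_ne_iff' _).2 ⟨_, x.1.2, _, ⟨x.2.1, _, x.2.2.2, rfl⟩, mul_assoc _ _ _⟩
  · exact ⟨(D.ξ (D.bA g), D.bT g, D.bU g), (D.big_eq h).symm⟩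
  · have hU (x : R) : ((e x).1 : G) * D.n₁ * D.ι (e x).2.1 * (e x).2.2 ∈ {g | D.δ g ≠ 0} :=
      (D.δ_ne_iff' _).2 ⟨_, (e x).1.2, _, ⟨(e x).2.1, _, (e x).2.2.2, rfl⟩, mul_assoc _ _ _⟩
    refine ((D.rg_ξ (D.rgOn_bA.rg he hU)).pair
      ((D.rgOn_bT.rg he hU).pair (D.rgOn_bU.rg he hU))).congr fun x => ?_
    obtain ⟨a, ha⟩ := D.ξ_bij.2 (e x).1
    obtain ⟨h1, h2, h3⟩ := D.big_coord a (e x).2.1 (e x).2.2
    rw [← ha, h1, h2, h3, ha]

theorem triv_G : Triv k fun t (g : G) => g * D.ι t := by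
  obtain ⟨χ, hχ⟩ := D.δ_cell
  have aux {e : G → (Fin r → kˣ) → G} (h0 : ∀ g t, e (e g t) t⁻¹ = g)
      (h1 : ∀ g t, D.δ g ≠ 0 → D.δ (e g t) = D.δ g * χ t) (g : G) (t : Fin r → kˣ) :
      D.δ (e g t) = D.δ g * χ t := by
    by_cases h : D.δ g = 0
    · rw [h, zero_mul]
      by_contra h2
      have h3 := h1 _ t⁻¹ h2
      rw [h0, h] at h3
      exact mul_ne_zero h2 (Units.ne_zero _) h3.symm
    · exact h1 g t h
  have l1 := aux (e := fun g t => g * D.ι t) (fun g t => by simp) fun g t h => by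
    obtain ⟨s, u, hu, u', hu', rfl⟩ := D.δ_ne g h
    rw [hχ s u hu u' hu', ← Units.val_mul, ← map_mul, ← hχ _ u hu _ (D.norm' t hu'), map_mul]
    congr 1
    group
  have l2 := aux (e := fun g t => D.n₀ * D.ι t * D.n₀⁻¹ * g) (fun g t => by simp [mul_assoc])
    fun g t h => by
      obtain ⟨s, u, hu, u', hu', rfl⟩ := D.δ_ne g h
      obtain ⟨t', ht⟩ := D.exists_cj D.n₀_mem t
      rw [hχ s u hu u' hu', ← Units.val_mul, ← map_mul, mul_comm s,
        ← hχ _ _ (D.norm t' u hu) _ hu', map_mul, ht]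
      congr 1
      group
  refine ⟨⟨by fun_prop, fun x => by simp, fun h h' x => by rw [mul_comm h, map_mul, mul_assoc]⟩,
    fun y₀ => ⟨fun x => D.δ (D.n₀ * y₀⁻¹ * x) * D.δ (D.n₀ * x⁻¹ * y₀), by fun_prop,
      fun h y => ?_, ?_, fun x => D.bT (D.n₀ * y₀⁻¹ * x), fun _ _ j hj hU => ?_, fun h y hy => ?_⟩⟩
  · beta_reduce
    rw [← mul_assoc, l1, show D.n₀ * (y * D.ι h)⁻¹ * y₀ =
      D.n₀ * D.ι h⁻¹ * D.n₀⁻¹ * (D.n₀ * y⁻¹ * y₀) by rw [map_inv]; group, l2, mul_mul_mul_comm,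
      ← Units.val_mul, ← map_mul, mul_inv_cancel, map_one, Units.val_one, mul_one]
  · have := (D.δ_ne_iff _).2 (D.self_mem_cell D.n₀)
    simpa using this
  · exact D.rgOn_bT.rg ((Rg.const _).gmul hj) fun x => left_ne_zero_of_mul (hU x)
  · have h1 := D.big_eq (left_ne_zero_of_mul hy)
    beta_reduce
    rw [← mul_assoc]
    generalize D.n₀ * y₀⁻¹ * y = g at h1
    rw [← (D.big_coord (D.bA g) (h * D.bT g) ⟨_, D.norm' h (D.bU g).2⟩).2.1]
    congr 1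
    conv_lhs => rw [h1]
    rw [mul_comm h, map_mul]
    group

theorem isOp_not_mem_Bor [Finite S] {g : P → G} (h : Rg k g) : IsOp k {x | g x ∉ D.Bor} := by
  obtain ⟨M, h1, h2⟩ := D.exists_not_mem_Bor
  have := h1.to_subtype
  have h3 := IsOp.exists (p := fun (m : M) x => D.δ (m * g x) ≠ 0) fun m =>
    IsOp.ne (D.rg_δ ((Rg.const _).gmul h))
  simpa only [h2, Subtype.exists, exists_prop] using h3

theorem exists_path : ∃ Q : Subgroup G, (∀ s g, D.φ s g ∈ Q) ∧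
    ∀ g ∈ Q, ∃ γ : k → G, Rg k γ ∧ γ 0 = 1 ∧ γ 1 = g := by
  let Q : Subgroup G :=
    { carrier := {g | ∃ γ : k → G, Rg k γ ∧ γ 0 = 1 ∧ γ 1 = g}
      one_mem' := ⟨fun _ => 1, .const _, rfl, rfl⟩
      mul_mem' := fun ⟨a, h1, h2, h3⟩ ⟨b, g1, g2, g3⟩ =>
        ⟨fun c => a c * b c, h1.gmul g1, by simp only [h2, g2, mul_one], by simp only [h3, g3]⟩
      inv_mem' := fun ⟨a, h1, h2, h3⟩ =>
        ⟨fun c => (a c)⁻¹, h1.ginv, by simp only [h2, inv_one], by simp only [h3]⟩ }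
  refine ⟨Q, fun s g => ?_, fun _ h => h⟩
  induction g using sl_ind with
  | hx a => exact ⟨fun c => D.x s (c * a), by fun_prop, by simp only [zero_mul, x_zero],
      by simp only [one_mul]; rfl⟩
  | hy a => exact ⟨fun c => (D.w s)⁻¹ * D.x s (-(c * a)) * D.w s, by fun_prop,
      by simp [x_zero], by simp only [w_conj_x, neg_neg, one_mul]; rfl⟩
  | hm g g' h h' => rw [map_mul]; exact mul_mem h h'

/-- Deformation of the group law to addition. -/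
theorem exists_nu : ∃ g : k × (Fin D.NN → k) × (Fin D.NN → k) → Fin D.NN → k, Rg k g ∧
    (∀ c a b, D.ξ (c • g (c, a, b)) = (D.ξ (c • a))⁻¹ * D.ξ (c • b)) ∧
      ∀ a b, g (0, a, b) = b - a := by
  obtain ⟨η, h1, h2, h3⟩ := D.exists_coord
  have h0 : η 1 = 0 := by rw [← D.ξ_zero, h2]
  choose g l r1 r2 r3 using fun i : Fin D.NN => exists_lin (J := Fin D.NN ⊕ Fin D.NN)
    (f := fun v => η ((D.ξ fun j => v (.inl j))⁻¹ * D.ξ fun j => v (.inr j)) i)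
    ((Rg.apply i).comp (h1.comp ((D.rg_ξ (.pi fun j => .apply _)).ginv.gmul
      (D.rg_ξ (.pi fun j => .apply _))))) (by simp [h0])
  have r4 (c : k) (a b : Fin D.NN → k) (i : Fin D.NN) :
      η ((D.ξ (c • a))⁻¹ * D.ξ (c • b)) i = c * g i (c, Sum.elim a b) := r2 i c (Sum.elim a b)
  have r5 (a b : Fin D.NN → k) (i : Fin D.NN) (z : k)
      (h : ∀ c : k, η ((D.ξ (c • a))⁻¹ * D.ξ (c • b)) i = c * z) :
      ∑ j, l i (.inl j) * a j + ∑ j, l i (.inr j) * b j = z := by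
    have := eq_of_ne_zero (f := fun c => g i (c, Sum.elim a b))
      ((r1 i).comp (Rg.id.pair (.const _))) fun c hc =>
        mul_left_cancel₀ hc ((r4 c a b i).symm.trans (h c))
    rwa [r3, Fintype.sum_sum_type] at this
  refine ⟨fun x i => g i (x.1, Sum.elim x.2.1 x.2.2), .pi fun i => (r1 i).comp
    (Rg.id.fst.pair (.pi fun j => ?_)), fun c a b => ?_, fun a b => funext fun i => ?_⟩
  · cases j with
    | inl j => exact (Rg.apply j).comp Rg.id.snd.fst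
    | inr j => exact (Rg.apply j).comp Rg.id.snd.snd
  · rw [← h3 (_ * _)]
    exact congrArg _ (funext fun i => (r4 c a b i).symm)
  · have e1 (b : Fin D.NN → k) := r5 0 b i (b i) fun c => by simp [ξ_zero, h2]
    have e2 := r5 a a i 0 fun c => by simp [h0]
    have e3 := e1 a
    have e4 := e1 b
    simp only [Pi.zero_apply, mul_zero, Finset.sum_const_zero, zero_add] at e3 e4
    beta_reduce
    rw [r3, Fintype.sum_sum_type, Pi.sub_apply]
    simp only [Sum.elim_inl, Sum.elim_inr]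
    linear_combination e2 - e3 + e4

end Red

end

end Pool.Agent.Lib.MP_fc2ced_ag.R
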