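import Pool.Agent.Lib.MP_fc2ced_ag.R.Tor

/-! The Lang map of a connected algebraic group with a Steinberg endomorphism. -/

open Function Matrix

namespace Pool.Agent.Lib.MP_fc2ced_ag.E

open Var R

noncomputable section

variable {k : Type} [Field k] {H : Type} [Group H] [Var k H] {n : ℕ}

variable (k) in
/-- A power of `F` is a Frobenius map up to an inner automorphism of the general linear group. -/
structure Frob (e : H →* GL (Fin n) k) (F : H →* H) (q : ℕ) : Prop where
  dom : IsDomain (B k H)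
  gens : Gens k fun h => co (e h)
  rg : Rg k F
  char : ∃ p s : ℕ, p.Prime ∧ (p : k) = 0 ∧ 0 < s ∧ q = p ^ s
  pow : ∃ (m : ℕ) (c : GL (Fin n) k), 0 < m ∧
    ∀ h i j, (c⁻¹ * e (F^[m] h) * c : GL (Fin n) k) i j = e h i j ^ q

/-- The fixed points. -/
abbrev fixG (F : H →* H) : Subgroup H := F.eqLocus (MonoidHom.id H)

variable [IsAlgClosed k] [GVar k H] {e : H →* GL (Fin n) k} {F : H →* H} {q : ℕ}

theorem Frob.rg_lang (h : Frob k e F q) : Rg k fun g : H => g⁻¹ * F g := Rg.id.ginv.gmul h.rg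

omit [GVar k H] in
theorem Frob.rg_e (h : Frob k e F q) : Rg k fun g : H => e g :=
  rg_GL fun i j => h.gens.rg (true, i, j)

omit [IsAlgClosed k] [GVar k H] in
theorem Frob.one_lt (h : Frob k e F q) : 1 < q := by
  obtain ⟨p, s, hp, -, hs, rfl⟩ := h.char
  exact Nat.one_lt_pow hs.ne' hp.one_lt

omit [IsAlgClosed k] [GVar k H] in
theorem Frob.rg_iter (h : Frob k e F q) (m : ℕ) : Rg k fun g : H => F^[m] g := by
  induction m with
  | zero => exact .id
  | succ m ih => exact ih.comp h.rg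

/-- The norm map. -/
theorem Frob.exists_nm (h : Frob k e F q) (m : ℕ) :
    ∃ N : H → H, Rg k N ∧ ∀ g, F^[m] g = g * N (g⁻¹ * F g) := by
  induction m with
  | zero => exact ⟨fun _ => 1, .const 1, fun g => by simp⟩
  | succ m ih =>
    obtain ⟨N, h1, h2⟩ := ih
    refine ⟨fun y => y * F (N y), Rg.id.gmul (h.rg.comp h1), fun g => ?_⟩
    simp only [iterate_succ_apply', h2, map_mul, mul_assoc, mul_inv_cancel_left]

omit [GVar k H] in
theorem Frob.integral_of (h : Frob k e F q) {L : H → H} (hL : Rg k L)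
    (hx : ∀ i, hL.hom.toRingHom.IsIntegralElem (fn fun g => co (e g) i)) :
    hL.hom.toRingHom.IsIntegral := fun b => by
  let T : Subalgebra k (B k H) :=
    { carrier := {a | hL.hom.toRingHom.IsIntegralElem a}
      mul_mem' := fun ha hb => ha.mul _ hb
      add_mem' := fun ha hb => ha.add _ hb
      algebraMap_mem' := fun c => by
        rw [← hL.hom.commutes c]
        exact hL.hom.toRingHom.isIntegralElem_map }
  exact (h.gens.adjoin.ge.trans (Algebra.adjoin_le (S := T) (Set.range_subset_iff.2 hx)))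
    Algebra.mem_top

omit [Group H] [GVar k H] in
theorem Lang.integral_entry [IsDomain (B k H)] (hq : 1 < q) {L : H → H} (hL : Rg k L)
    {u a b : H → GL (Fin n) k} (hu : Rg k u) (ha : Rg k a) (hb : Rg k b)
    (h : ∀ g i j, u g i j ^ q = (a (L g) * u g * b (L g) : GL (Fin n) k) i j) (i j : Fin n) :
    hL.hom.toRingHom.IsIntegralElem (fn fun g => u g i j) := by
  refine Lang.integral_of_pow hL.hom.toRingHom (fun c : Fin n × Fin n => fn fun g => u g c.1 c.2) hq
    (fun c d => fn fun y => a y c.1 d.1 * b y d.2 c.2) (fun c => B_ext fun g => ?_) (i, j)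
  have e1 : ∀ d : Fin n × Fin n, pt g (hL.hom.toRingHom (fn fun y => a y c.1 d.1 * b y d.2 c.2)) =
      a (L g) c.1 d.1 * b (L g) d.2 c.2 := fun d =>
    (congr($(hL.pt_hom g) _)).symm.trans (pt_fn ((ha.gl_entry _ _).mul (hb.gl_entry _ _)) _)
  simp only [map_pow, map_sum, map_mul, e1]
  simp only [pt_fn (hu.gl_entry _ _), h, Units.val_mul, mul_apply,
    Finset.sum_mul, Fintype.sum_prod_type_right]
  exact Finset.sum_congr rfl fun _ _ => Finset.sum_congr rfl fun _ _ => by ring

theorem Frob.integral_lang (h : Frob k e F q) : h.rg_lang.hom.toRingHom.IsIntegral := by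
  have := h.dom
  obtain ⟨m, c, -, hc⟩ := h.pow
  obtain ⟨N, h1, h2⟩ := h.exists_nm m
  have h3 : Rg k fun y => e (N y) := h.rg_e.comp h1
  refine h.integral_of _ ?_
  rintro ⟨_ | _, i, j⟩
  · refine Lang.integral_entry h.one_lt h.rg_lang h.rg_e.gl_inv
      ((Rg.const c⁻¹).gl_mul h3.gl_inv) (Rg.const c) (fun g i j => ?_) i j
    rw [← map_inv, ← hc, iterate_map_inv, h2, _root_.mul_inv_rev, map_mul, map_inv, mul_assoc c⁻¹,
      mul_assoc c⁻¹, mul_assoc c⁻¹]
  · refine Lang.integral_entry h.one_lt h.rg_lang h.rg_e (Rg.const c⁻¹)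
      (h3.gl_mul (Rg.const c)) (fun g i j => ?_) i j
    rw [← hc, h2, map_mul, mul_assoc c⁻¹, mul_assoc c⁻¹, mul_assoc]

theorem Frob.finite (h : Frob k e F q) : Finite (fixG F) :=
  ((finite_of_integral h.rg_lang h.integral_lang 1).subset fun g (hg : F g = g) => by
    rw [Set.mem_ofPred_eq, hg, inv_mul_cancel] : (fixG F : Set H).Finite)

theorem Frob.tors (h : Frob k e F q) :
    Tors k (fun (γ : fixG F) (g : H) => γ * g) fun g => g⁻¹ * F g := by
  have := h.dom
  have := h.finite
  refine Tors.of_points ⟨fun γ => (Rg.const _).gmul .id, fun x => one_mul x,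
    fun γ δ x => mul_assoc _ _ _⟩ h.rg_lang (fun γ x => ?_)
    (surj_of_integral h.rg_lang h.integral_lang) fun x x' e1 => ⟨⟨x' * x⁻¹, ?_⟩, by simp⟩
  · rw [map_mul, show F γ = γ from γ.2, _root_.mul_inv_rev, mul_assoc, inv_mul_cancel_left]
  · change F (x' * x⁻¹) = x' * x⁻¹
    rw [map_mul, map_inv, ← mul_inv_cancel_left x' (F x'), ← e1]
    group

omit [GVar k H] in
theorem Frob.inj_e (h : Frob k e F q) : Injective e := fun x x' e1 =>
  (pt (k := k)).injective (AlgHom.ext_of_adjoin_eq_top h.gens.adjoin (Set.forall_mem_range.2 fun i => by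
    rw [pt_fn (h.gens.rg i), pt_fn (h.gens.rg i), e1]))

omit [GVar k H] in
theorem Frob.inj (h : Frob k e F q) : Injective F := fun x x' e1 => by
  obtain ⟨m, c, hm, hc⟩ := h.pow
  obtain ⟨p, s, hp, h0, -, rfl⟩ := h.char
  obtain ⟨m, rfl⟩ := Nat.exists_eq_succ_of_ne_zero hm.ne'
  have := Fact.mk hp
  have := (CharP.charP_iff_prime_eq_zero (R := k) hp).2 h0
  refine h.inj_e (Units.ext (Matrix.ext fun i j => iterateFrobenius_inj k p s ?_))
  rw [iterateFrobenius_def, iterateFrobenius_def, ← hc, ← hc, iterate_succ_apply,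
    iterate_succ_apply, e1]

theorem Frob.tors_self (h : Frob k e F q) : Tors k (fun (_ : Unit) (g : H) => g) F := by
  have := h.dom
  obtain ⟨m, c, hm, hc⟩ := h.pow
  obtain ⟨m, rfl⟩ := Nat.exists_eq_succ_of_ne_zero hm.ne'
  have key : ∀ {s : H → H}, Rg k s → (∀ g, s (F g) = F (s g)) → ∀ i j,
      h.rg.hom.toRingHom.IsIntegralElem (fn fun g => e (s g) i j) := fun {s} hs e1 i j => by
    have h1 : Rg k fun y => (c⁻¹ * e (F^[m] (s y)) * c : GL (Fin n) k) i j :=
      (((Rg.const c⁻¹).gl_mul (h.rg_e.comp ((h.rg_iter m).comp hs))).gl_mul (.const c)).gl_entry i j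
    let := h.rg.hom.toRingHom.toAlgebra
    refine IsIntegral.of_pow (zero_lt_one.trans h.one_lt) ?_
    rw [← fn_pow ((h.rg_e.comp hs).gl_entry i j),
      show (fun g => e (s g) i j ^ q) = fun g => (c⁻¹ * e (F^[m] (s (F g))) * c : GL (Fin n) k) i j
        from funext fun g => by rw [← hc, e1, iterate_succ_apply], ← h.rg.hom_fn h1]
    exact h.rg.hom.toRingHom.isIntegralElem_map
  refine Tors.of_points .triv h.rg (fun _ _ => rfl)
    (surj_of_integral h.rg (h.integral_of _ ?_)) fun x x' e1 => ⟨(), (h.inj e1).symm⟩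
  rintro ⟨_ | _, i, j⟩
  · have h1 := key Rg.id.ginv (fun g => (map_inv F g).symm) i j
    simp only [map_inv] at h1
    exact h1
  · exact key .id (fun _ => rfl) i j

end

end Pool.Agent.Lib.MP_fc2ced_ag.E
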