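import Pool.Agent.Lib.MP_fc2ced_ag.R.Geo2
import Pool.Agent.Lib.MP_fc2ced_ag.R.Lang

/-! Charts around the cells, and the Steinberg endomorphism. -/

open CategoryTheory CategoryTheory.Limits Function Set Matrix

set_option linter.unusedSectionVars false

namespace Pool.Agent.Lib.MP_fc2ced_ag.R

open E E.Var

noncomputable section

variable {k : Type} [Field k] [IsAlgClosed k] {G : Type} [Group G] {n r : ℕ} {S : Type}
  (D : Red k G n r S)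
  [Var k G] [Var k D.U] [GVar k G] [GVar k D.U] [Geo D] {P : Type} [Var k P]

namespace Geo3

omit [Var k G] [Var k D.U] [GVar k G] [GVar k D.U] [Geo D] in
theorem ψ_mem (v : D.W) (b : Fin (D.lw v) → k) {g : G} (hg : g ∈ D.Bor) :
    D.ψ (D.sw v) b * g ∈ D.cell (D.ν v) := by
  have h := D.ψ_mul_mem (D.sw v) (m := 1) (one_mem _)
    (by rw [mul_one, D.len_one]; exact D.len_ν v) b (D.mem_cell_one.2 hg)
  rwa [mul_one] at h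

omit [Var k G] [Var k D.U] [GVar k G] [GVar k D.U] [Geo D] in
theorem tu_mem (t : Fin r → kˣ) (u : D.U) : D.ι t * u ∈ D.Bor := ⟨t, u, u.2, rfl⟩

/-- Saturation of an open subset. -/
theorem isOp_sat {O : Set G} (h : IsOp k O) : IsOp k (D.cl ⁻¹' (D.cl '' O)) := by
  refine isOp_of_cover fun g hg => ?_
  obtain ⟨g₀, h0, e⟩ := hg
  obtain ⟨u, hu, b, hb, e1⟩ := D.mem_cell_iff.2 (rfl : D.cl g = D.cl g)
  obtain ⟨u₀, hu₀, b₀, hb₀, e0⟩ := D.mem_cell_iff.2 e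
  refine ⟨(fun x => u₀ * u⁻¹ * x * (b⁻¹ * b₀)) ⁻¹' O, h.preimage (by fun_prop), ?_,
    fun x hx => ⟨_, hx, ?_⟩⟩
  · have : u₀ * u⁻¹ * g * (b⁻¹ * b₀) = g₀ := by
      generalize D.ν (D.cl g) = m at e0 e1
      rw [e0, e1]
      group
    rwa [mem_preimage, this]
  · exact D.mem_cell_iff.1 (D.mul_mem_cell (D.cell_mul_mem (D.ν_mem _)
      (D.U_le_Bor (mul_mem hu₀ (inv_mem hu))) (D.mem_cell_iff.2 rfl)) (mul_mem (inv_mem hb) hb₀))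

omit [IsAlgClosed k] [Var k G] [Var k D.U] [GVar k G] [GVar k D.U] [Geo D] in
theorem exists_hom {Φ : (Fin r → kˣ) →* G} (h : ∀ t, ∃ t', D.ι t' = Φ t) :
    ∃ F' : (Fin r → kˣ) →* (Fin r → kˣ), ∀ t, D.ι (F' t) = Φ t := by
  choose f hf using h
  exact ⟨MonoidHom.mk' f fun a b => D.ι_inj (by rw [map_mul, hf, hf, hf, map_mul]), hf⟩

end Geo3

namespace Red

theorem exists_chart (v : D.W) : ∃ (l : ℕ) (s : Fin l → S),
    IsLoc (fun x : (Fin l → k) × (Fin (D.lw v) → k) × (Fin r → kˣ) × D.U =>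
      (D.wd s)⁻¹ * D.ψ s x.1 * D.ψ (D.sw v) x.2.1 * D.ι x.2.2.1 * x.2.2.2)
      (fun g => D.δ (D.wd s * g)) ∧
    ∀ x : (Fin l → k) × (Fin (D.lw v) → k) × (Fin r → kˣ) × D.U,
      (D.wd s)⁻¹ * D.ψ s x.1 * D.ψ (D.sw v) x.2.1 * D.ι x.2.2.1 * x.2.2.2 ∈ D.cell (D.ν v) ↔
        x.1 = 0 := by
  obtain ⟨l, s, hl, t₀, h₀⟩ := D.exists_compl v
  obtain ⟨t₁, h₁⟩ := D.exists_n₀
  obtain ⟨c, e, hc, he, hce⟩ := D.exists_rec s
  obtain ⟨c', e', hc', he', hce'⟩ := D.exists_rec (D.sw v)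
  have hl' : D.len (D.wd s * D.ν v) = l + D.len (D.ν v) := by rw [hl, D.len_ν]
  have m1 : ∀ x : (Fin l → k) × (Fin (D.lw v) → k) × (Fin r → kˣ) × D.U,
      D.ψ (D.sw v) x.2.1 * (D.ι x.2.2.1 * x.2.2.2) ∈ D.cell (D.ν v) := fun x =>
    Geo3.ψ_mem D v _ (Geo3.tu_mem D _ _)
  obtain ⟨Φ, hΦ⟩ : ∃ Φ : (Fin l → k) × (Fin (D.lw v) → k) × (Fin r → kˣ) × D.U → G, Φ = fun x =>
    (D.wd s)⁻¹ * D.ψ s x.1 * D.ψ (D.sw v) x.2.1 * D.ι x.2.2.1 * x.2.2.2 := ⟨_, rfl⟩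
  have e1 : ∀ x, D.wd s * Φ x = D.ψ s x.1 * (D.ψ (D.sw v) x.2.1 * (D.ι x.2.2.1 * x.2.2.2)) :=
    fun x => by rw [hΦ]; group
  have inj : Injective Φ := by
    rintro ⟨a, b, t, u⟩ ⟨a', b', t', u'⟩ h
    have h1 := congrArg (D.wd s * ·) h
    simp only [e1] at h1
    obtain rfl := D.ψ_unique s (D.ν_mem v) hl' (m1 (a, b, t, u)) (m1 (a', b', t', u')) h1
    have h2 := mul_left_cancel h1
    obtain rfl := D.ψ_unique (D.sw v) (m := 1) (one_mem _)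
      (by rw [mul_one, D.len_one]; exact D.len_ν v) (D.mem_cell_one.2 (Geo3.tu_mem D t u))
      (D.mem_cell_one.2 (Geo3.tu_mem D t' u')) h2
    have h3 := mul_left_cancel h2
    have h4 : D.ι (t'⁻¹ * t) = u' * (u : G)⁻¹ := by
      rw [map_mul, map_inv, inv_mul_eq_iff_eq_mul, ← mul_assoc, ← h3, mul_inv_cancel_right]
    obtain rfl := inv_mul_eq_one.1 (D.eq_one_of_ι_mem (h4 ▸ mul_mem u'.2 (inv_mem u.2)))
    obtain rfl := Subtype.ext (mul_left_cancel h3)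
    rfl
  have hδ : ∀ x, D.δ (D.wd s * Φ x) ≠ 0 := fun x => by
    rw [D.δ_ne_iff, ← D.cell_mul_ι _ t₀, ← h₀, e1]
    exact D.ψ_mul_mem s (D.ν_mem v) hl' _ (m1 x)
  have mU : ∀ (a : Fin D.NN → k) (t : Fin r → kˣ) (u : D.U),
      (D.ι t)⁻¹ * e' (e (D.ξ a)) * D.ι t * u ∈ D.U := fun a t u =>
    mul_mem (D.norm' t (hce' _ (hce _ (D.ξ a).2).1).1) u.2
  obtain ⟨Θ, hΘ⟩ : ∃ Θ : (Fin D.NN → k) × (Fin r → kˣ) × D.U →
      (Fin l → k) × (Fin (D.lw v) → k) × (Fin r → kˣ) × D.U, Θ = fun y =>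
    (c (D.ξ y.1), c' (e (D.ξ y.1)), (t₁ * t₀)⁻¹ * y.2.1, ⟨_, mU y.1 ((t₁ * t₀)⁻¹ * y.2.1) y.2.2⟩) :=
    ⟨_, rfl⟩
  have rΘ : Rg k Θ := by
    have r1 : Rg k fun y : (Fin D.NN → k) × (Fin r → kˣ) × D.U => (D.ξ y.1 : G) := by fun_prop
    have r2 : Rg k fun y : (Fin D.NN → k) × (Fin r → kˣ) × D.U => (t₁ * t₀)⁻¹ * y.2.1 :=
      (Rg.const _).gmul Rg.id.snd.fst
    rw [hΘ]
    exact (hc.comp r1).pair ((hc'.comp (he.comp r1)).pair (r2.pair (D.rg_mk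
      ((((D.rg_ι r2).ginv.gmul (he'.comp (he.comp r1))).gmul (D.rg_ι r2)).gmul
        (D.rg_val Rg.id.snd.snd)) _)))
  have e2 : ∀ y, D.wd s * Φ (Θ y) = D.ξ y.1 * D.n₁ * D.ι y.2.1 * y.2.2 := fun y => by
    have a1 := (hce _ (D.ξ y.1).2).2
    have a2 := (hce' _ (hce _ (D.ξ y.1).2).1).2
    have a3 : D.n₁ = D.wd s * D.wd (D.sw v) * D.ι (t₁ * t₀)⁻¹ := by
      change _ = D.wd s * D.ν v * _
      rw [h₀, h₁, map_inv, map_mul]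
      group
    rw [e1, hΘ, a3, ← mul_assoc (D.ξ y.1 : G), ← mul_assoc (D.ξ y.1 : G), a1,
      mul_assoc _ (e _), a2]
    simp only [map_mul]
    group
  have rΨ : RgOn k {g | D.δ (D.wd s * g) ≠ 0} fun g =>
      Θ (D.bA (D.wd s * g), D.bT (D.wd s * g), D.bU (D.wd s * g)) := fun R _ j hj hU => by
    have r1 : Rg k fun x => D.wd s * j x := (Rg.const _).gmul hj
    exact rΘ.comp ((D.rgOn_bA.rg r1 hU).pair ((D.rgOn_bT.rg r1 hU).pair (D.rgOn_bU.rg r1 hU)))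
  have e3 : ∀ g, D.δ (D.wd s * g) ≠ 0 →
      Φ (Θ (D.bA (D.wd s * g), D.bT (D.wd s * g), D.bU (D.wd s * g))) = g := fun g hg =>
    mul_left_cancel (a := D.wd s) ((e2 _).trans (D.big_eq hg).symm)
  refine ⟨l, s, ?_, fun x => ?_⟩
  · rw [← hΦ]
    refine ⟨by fun_prop, by rw [hΦ]; fun_prop, inj, fun g => ⟨?_, fun hg => ⟨_, e3 g hg⟩⟩,
      fun he => (rΨ.rg he fun x => hδ _).congr fun x => inj (e3 _ (hδ _)).symm⟩
    rintro ⟨x, rfl⟩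
    exact hδ x
  · change (fun x : (Fin l → k) × (Fin (D.lw v) → k) × (Fin r → kˣ) × D.U =>
      (D.wd s)⁻¹ * D.ψ s x.1 * D.ψ (D.sw v) x.2.1 * D.ι x.2.2.1 * x.2.2.2) x ∈ _ ↔ _
    rw [← hΦ]
    have e4 := e1 x
    rw [← D.ψ_zero] at e4
    refine ⟨fun h => (D.ψ_unique s (D.ν_mem v) hl' h (m1 x) e4).symm, fun h => ?_⟩
    rw [h] at e4
    rw [mul_left_cancel e4]
    exact m1 x

theorem ψ_sw_mem (v : D.W) (a : Fin (D.lw v) → k) : D.ψ (D.sw v) a * (D.ν v)⁻¹ ∈ D.U := by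
  have h := D.conj_ψ_mem (D.sw v) (m := 1) (one_mem _)
    (by rw [one_mul, D.len_one, zero_add]; exact D.len_ν v) a
  rwa [one_mul, inv_one, mul_one] at h

theorem exists_cell_coord (v : D.W) : ∃ (f : G → k) (u u' : G → D.U) (t : G → Fin r → kˣ),
    Rg k f ∧ RgOn k {g | f g ≠ 0} u ∧ RgOn k {g | f g ≠ 0} u' ∧ RgOn k {g | f g ≠ 0} t ∧
      ∀ g ∈ D.cell (D.ν v), f g ≠ 0 ∧ g = u g * D.ι (t g) * D.ν v * u' g := by
  obtain ⟨l, s, hv, hc⟩ := D.exists_chart v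
  have : Nonempty ((Fin l → k) × (Fin (D.lw v) → k) × (Fin r → kˣ) × D.U) := ⟨(0, 0, 1, 1)⟩
  obtain ⟨Ψ, h1, h2⟩ := hv.oimm.exists_inv
  have h3 := h1.mono (U' := {g | D.δ (D.wd s * g) ≠ 0}) fun g hg => (hv.range g).2 hg
  refine ⟨_, fun g => ⟨_, D.ψ_sw_mem v (Ψ g).2.1⟩, fun g => (Ψ g).2.2.2,
    fun g => D.cj ⟨_, D.ν_mem v⟩ (Ψ g).2.2.1, hv.rg, fun R _ j hj hU => ?_,
    fun R _ j hj hU => (h3.rg hj hU).snd.snd.snd,
    fun R _ j hj hU => D.rg_cj _ (h3.rg hj hU).snd.snd.fst, fun g hg => ?_⟩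
  · exact D.rg_mk ((D.rg_ψ _ (h3.rg hj hU).snd.fst).gmul (.const _)) _
  obtain ⟨u, hu, t, u', hu', e⟩ : ∃ u ∈ D.U, ∃ t, ∃ u' ∈ D.U, g = u * D.ν v * (D.ι t * u') := by
    obtain ⟨u, hu, b, ⟨t, u', hu', rfl⟩, e⟩ := hg
    exact ⟨u, hu, t, u', hu', e⟩
  obtain ⟨a, u₁, hu₁, e1⟩ := D.exists_ψ (D.sw v) hu
  have e2 : g = (D.wd s)⁻¹ * D.ψ s 0 * D.ψ (D.sw v) a * D.ι t *
      ((⟨_, mul_mem (D.norm' t hu₁) hu'⟩ : D.U) : G) := by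
    rw [e, ν, e1, ψ_zero]
    group
  refine ⟨(hv.range g).1 ⟨(0, a, t, _), e2.symm⟩, ?_⟩
  have e3 := h2 (0, a, t, ⟨_, mul_mem (D.norm' t hu₁) hu'⟩)
  simp only [← e2] at e3
  simp only [e3, ι_cj]
  rw [e, ν, e1]
  group

theorem strat_cl (v : D.W) : ∃ Ω : Set D.W, v ∈ Ω ∧ IsOp k (D.cl ⁻¹' Ω) ∧
    IsOp k (D.cl ⁻¹' (Ω \ {v})) := by
  obtain ⟨l, s, hv, hc⟩ := D.exists_chart v
  have h1 : IsOp k {x : (Fin l → k) × (Fin (D.lw v) → k) × (Fin r → kˣ) × D.U | x.1 = 0}ᶜ :=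
    IsCl.eq Rg.id.fst (.const 0)
  have h2 := Geo3.isOp_sat D (hv.oimm.isOp_image h1)
  refine ⟨_, ?_, Geo3.isOp_sat D hv.oimm.op, ?_⟩
  · exact ⟨_, ⟨(0, 0, 1, 1), rfl⟩, D.mem_cell_iff.1 ((hc _).2 rfl)⟩
  convert h2 using 2
  ext w
  constructor
  · rintro ⟨⟨_, ⟨x, rfl⟩, rfl⟩, hw⟩
    exact ⟨_, ⟨x, fun h => hw (D.mem_cell_iff.1 ((hc x).2 h)), rfl⟩, rfl⟩
  · rintro ⟨_, ⟨x, hx, rfl⟩, rfl⟩
    exact ⟨⟨_, ⟨x, rfl⟩, rfl⟩, fun h => hx ((hc x).1 (D.mem_cell_iff.2 h))⟩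

theorem lc_cell (v : D.W) : LC k (D.cl ⁻¹' {v}) := by
  obtain ⟨Ω, hv, h1, h2⟩ := D.strat_cl v
  convert h1.lc.sdiff h2 using 1
  rw [← preimage_sdiff, Set.sdiff_sdiff_cancel_left (singleton_subset_iff.2 hv)]

variable {D} {q : ℕ} {F : G →* G}

theorem _root_.Pool.Agent.Lib.MP_fc2ced_ag.R.Stein.rg (h : Stein D q F) : Rg k F :=
  Geo.gens.rg_of fun i => rg_of_mem_Pol (Geo.gens (D := D)).rg (h.reg i)

/-- The restriction to the unipotent radical. -/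
def _root_.Pool.Agent.Lib.MP_fc2ced_ag.R.Stein.onU (h : Stein D q F) : D.U →* D.U :=
  (F.comp D.U.subtype).codRestrict _ fun u => h.map_U u u.2

omit [Var k G] [Var k D.U] [GVar k G] [GVar k D.U] [Geo D] in
theorem _root_.Pool.Agent.Lib.MP_fc2ced_ag.R.Stein.exists_onT (h : Stein D q F) :
    ∃ F' : (Fin r → kˣ) →* (Fin r → kˣ), ∀ t, D.ι (F' t) = F (D.ι t) := by
  exact Geo3.exists_hom D (Φ := F.comp D.ι) h.map_T

variable (hq : ∃ p s : ℕ, p.Prime ∧ (p : k) = 0 ∧ 0 < s ∧ q = p ^ s)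
include hq

theorem _root_.Pool.Agent.Lib.MP_fc2ced_ag.R.Stein.frob (h : Stein D q F) : Frob k D.ρ F q := by
  obtain ⟨m, hm, e⟩ := h.pow
  exact ⟨Geo.dom D, Geo.gens, h.rg, hq, m, 1, hm, fun g i j => by
    rw [inv_one, one_mul, mul_one, e]⟩

theorem _root_.Pool.Agent.Lib.MP_fc2ced_ag.R.Stein.frob_U (h : Stein D q F) :
    Frob k (D.ρ.comp D.U.subtype) h.onU q := by
  obtain ⟨m, hm, e⟩ := h.pow
  have e1 : ∀ (j : ℕ) (u : D.U), ((h.onU^[j] u : D.U) : G) = F^[j] u := fun j => by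
    induction j with
    | zero => exact fun _ => rfl
    | succ j ih => exact fun u => ih (h.onU u)
  exact ⟨D.dom_U, D.gens_U, Geo.lift (h.rg.comp Geo.rg_val), hq, m, 1, hm, fun u i j => by
    rw [inv_one, one_mul, mul_one]
    exact (congrArg (fun g => D.ρ g i j) (e1 m u)).trans (e u i j)⟩

theorem _root_.Pool.Agent.Lib.MP_fc2ced_ag.R.Stein.frob_T (h : Stein D q F) {m : G}
    (hm : m ∈ D.N) : ∃ F' : (Fin r → kˣ) →* (Fin r → kˣ),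
      (∀ t, D.ι (F' t) = m * F (D.ι t) * m⁻¹) ∧ Frob k (D.ρ.comp D.ι) F' q := by
  obtain ⟨F₀, h₀⟩ := h.exists_onT
  obtain ⟨j, hj, e⟩ := h.pow
  have e0 : ∀ t, D.ι ((D.cj ⟨m, hm⟩).comp F₀ t) = m * F (D.ι t) * m⁻¹ := fun t => by
    rw [MonoidHom.comp_apply, ι_cj, h₀]
  refine ⟨_, e0, ?_⟩
  generalize (D.cj ⟨m, hm⟩).comp F₀ = F' at e0
  have e1 : ∀ i : ℕ, ∃ c : G, ∀ t, D.ι (F'^[i] t) = c * F^[i] (D.ι t) * c⁻¹ := fun i => by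
    induction i with
    | zero => exact ⟨1, fun t => by simp⟩
    | succ i ih =>
      obtain ⟨c, hc⟩ := ih
      refine ⟨m * F c, fun t => ?_⟩
      rw [iterate_succ_apply', iterate_succ_apply', e0, hc, map_mul, map_mul, map_inv]
      group
  obtain ⟨c, hc⟩ := e1 j
  refine ⟨isDomain_torus _, D.gens_T, D.rg_of_ι ?_, hq, j, D.ρ c, hj, fun t a b => ?_⟩
  · simp only [e0]
    exact ((Rg.const _).gmul (h.rg.comp (D.rg_ι .id))).gmul (.const _)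
  · rw [MonoidHom.comp_apply, MonoidHom.comp_apply, ← e, hc, ← map_inv, ← map_mul, ← map_mul]
    group

end Red

end

end Pool.Agent.Lib.MP_fc2ced_ag.R
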