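import Pool.Agent.Lib.MP_fc2ced_ag.R.PtP
import Pool.Agent.Lib.MP_fc2ced_ag.R.PtL

/-! Algebraic groups, generators of coordinate rings, irreducibility. -/

open Function Matrix

namespace Pool.Agent.Lib.MP_fc2ced_ag.E

open Var R

noncomputable section

variable {k : Type} [Field k] {P Q R : Type} [Var k P] [Var k Q] [Var k R]

variable (k) in
/-- Algebraic groups. -/
class GVar (H : Type) [Group H] [Var k H] : Prop where
  mul : Rg k fun x : H × H => x.1 * x.2
  inv : Rg k fun x : H => x⁻¹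

section
variable {H : Type} [Group H] [Var k H] [GVar k H] {f g : P → H}

@[fun_prop] theorem Rg.gmul (hf : Rg k f) (hg : Rg k g) : Rg k fun x => f x * g x :=
  GVar.mul.comp (hf.pair hg)

@[fun_prop] theorem Rg.ginv (hf : Rg k f) : Rg k fun x => (f x)⁻¹ := GVar.inv.comp hf

theorem Rg.gpow (hf : Rg k f) (m : ℕ) : Rg k fun x => f x ^ m := by
  induction m with
  | zero => simpa using Rg.const 1
  | succ m ih => simpa only [pow_succ] using ih.gmul hf

theorem Rg.gprod {m : ℕ} {f : Fin m → P → H} (hf : ∀ i, Rg k (f i)) :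
    Rg k fun x => (List.ofFn fun i => f i x).prod := by
  induction m with
  | zero => exact .const 1
  | succ m ih => simpa only [List.ofFn_succ, List.prod_cons] using (hf 0).gmul (ih fun i => hf _)

instance GVar.pi (ι : Type) [Finite ι] : GVar k (ι → H) where
  mul := .pi fun i => ((Rg.apply i).comp Rg.id.fst).gmul ((Rg.apply i).comp Rg.id.snd)
  inv := .pi fun i => (Rg.apply i).ginv

instance GVar.prod {H' : Type} [Group H'] [Var k H'] [GVar k H'] : GVar k (H × H') where
  mul := (Rg.id.fst.fst.gmul Rg.id.snd.fst).pair (Rg.id.fst.snd.gmul Rg.id.snd.snd)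
  inv := Rg.id.fst.ginv.pair Rg.id.snd.ginv

end

variable (k) in
/-- The functions `c` generate the coordinate ring. -/
structure Gens {ι : Type} (c : P → ι → k) : Prop where
  rg : ∀ i, Rg k fun x => c x i
  mem : ∀ f : P → k, Rg k f → f ∈ Pol c

variable {ι ι' : Type} {c : P → ι → k} {c' : Q → ι' → k}

/-- The function attached to an element of the coordinate ring. -/
def Gr.ev : B k P →ₐ[k] (P → k) := AlgHom.pi fun x => pt x

theorem Gr.ev_fn {f : P → k} (hf : Rg k f) : Gr.ev (fn f) = f := funext (pt_fn hf)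

theorem Gr.map_adjoin (hc : ∀ i, Rg k fun x => c x i) :
    (Algebra.adjoin k (Set.range fun i => fn (k := k) fun x => c x i)).map Gr.ev = Pol c := by
  rw [AlgHom.map_adjoin, ← Set.range_comp]
  exact congrArg (fun t => Algebra.adjoin k (Set.range t)) (funext fun i => Gr.ev_fn (hc i))

theorem Gr.mem_Pol {X : Type} (c : X → ι → k) (i : ι) : (fun x => c x i) ∈ Pol c :=
  Algebra.subset_adjoin ⟨i, rfl⟩

theorem rg_of_mem_Pol (hc : ∀ i, Rg k fun x => c x i) {f : P → k} (hf : f ∈ Pol c) : Rg k f := by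
  rw [← Gr.map_adjoin hc] at hf
  obtain ⟨b, -, rfl⟩ := hf
  exact rg_pt b

theorem comp_mem_Pol {X Y : Type} {c : X → ι → k} {c' : Y → ι' → k} {e : X → Y}
    (h : Reg c fun x => c' (e x)) {f : Y → k} (hf : f ∈ Pol c') : (fun x => f (e x)) ∈ Pol c := by
  exact Algebra.adjoin_le (S := (Pol c).comap
    (AlgHom.pi fun x => Pi.evalAlgHom k (fun _ => k) (e x)))
    (Set.range_subset_iff.2 fun i => h i) hf

variable [IsAlgClosed k]

instance GVar.units : GVar k kˣ := ⟨Rg.id.fst.units_mul Rg.id.snd, Rg.id.units_inv⟩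

instance GVar.gl (n : ℕ) : GVar k (GL (Fin n) k) := ⟨Rg.id.fst.gl_mul Rg.id.snd, Rg.id.gl_inv⟩

theorem Gens.rg_of (hc : Gens k c') {e : P → Q} (h : ∀ i, Rg k fun x => c' (e x) i) : Rg k e :=
  rg_of_forall fun b => rg_of_mem_Pol h (comp_mem_Pol (e := e) (c := fun x => c' (e x))
    (fun i => Algebra.subset_adjoin ⟨i, rfl⟩) (hc.mem _ (rg_pt b)))

theorem Gens.adjoin (hc : Gens k c) :
    Algebra.adjoin k (Set.range fun i => fn (k := k) fun x => c x i) = ⊤ := by
  refine eq_top_iff.2 fun b _ => ?_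
  have h := hc.mem _ (rg_pt b)
  rw [← Gr.map_adjoin hc.rg] at h
  obtain ⟨b', h1, h2⟩ := h
  rwa [← B_ext (congrFun h2)]

omit [IsAlgClosed k] in
theorem Gens.of_adjoin (hc : ∀ i, Rg k fun x => c x i)
    (h : Algebra.adjoin k (Set.range fun i => fn (k := k) fun x => c x i) = ⊤) : Gens k c := by
  refine ⟨hc, fun f hf => ?_⟩
  rw [← Gr.map_adjoin hc, h]
  exact ⟨fn f, trivial, Gr.ev_fn hf⟩

theorem Gens.nonempty_equiv (hc : Gens k c) : Nonempty (B k P ≃ₐ[k] Pol c) := by
  refine ⟨(AlgEquiv.ofInjective Gr.ev fun b b' h => B_ext (congrFun h)).trans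
    (Subalgebra.equivOfEq _ _ ?_)⟩
  rw [← Gr.map_adjoin hc.rg, hc.adjoin, Algebra.map_top]

omit [IsAlgClosed k] in
theorem Gens.prod (hc : Gens k c) (hc' : Gens k c') :
    Gens k fun (x : P × Q) (i : ι ⊕ ι') => Sum.elim (c x.1) (c' x.2) i := by
  refine ⟨fun i => ?_, fun f hf => ?_⟩
  · cases i with
    | inl i => exact (hc.rg i).comp Rg.id.fst
    | inr i => exact (hc'.rg i).comp Rg.id.snd
  · rw [← Gr.ev_fn hf]
    induction (fn f : B k (P × Q)) using TensorProduct.induction_on with
    | zero => exact (map_zero (Gr.ev (k := k) (P := P × Q))).symm ▸ zero_mem _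
    | tmul a b =>
      have h := Gr.mem_Pol fun (x : P × Q) (i : ι ⊕ ι') => Sum.elim (c x.1) (c' x.2) i
      exact mul_mem (comp_mem_Pol (e := Prod.fst) (fun i => h (.inl i)) (hc.mem _ (rg_pt a)))
        (comp_mem_Pol (e := Prod.snd) (fun i => h (.inr i)) (hc'.mem _ (rg_pt b)))
    | add a b ha hb => exact (map_add (Gr.ev (k := k) (P := P × Q)) a b).symm ▸ add_mem ha hb

theorem Gens.pi (hc : Gens k c) (J : Type) [Finite J] :
    Gens k fun (x : J → P) (i : J × ι) => c (x i.1) i.2 := by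
  refine ⟨fun i => (hc.rg i.2).comp (.apply i.1), fun f hf => ?_⟩
  obtain ⟨z, hz⟩ := Pt.exists_pi fun j : J => (Rg.apply (k := k) (P := P) j).hom.codRestrict
    ((Pol fun (x : J → P) (i : J × ι) => c (x i.1) i.2).comap Gr.ev) fun b => by
      have := comp_mem_Pol (c := fun (x : J → P) (i : J × ι) => c (x i.1) i.2) (e := fun x => x j)
        (fun i => Gr.mem_Pol _ (j, i)) (hc.mem _ (rg_pt b))
      simp only [(Rg.apply (k := k) (P := P) j).pt_hom] at this
      exact this
  have e : (Subalgebra.val _).comp z = .id k _ := Pt.ext_pi fun j => by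
    rw [← Rg.comp_pm, hz]
    rfl
  rw [← Gr.ev_fn hf, show fn f = _ from congr($e (fn f)).symm]
  exact (z (fn f)).2

omit [IsAlgClosed k] in
/-- Closed subvarieties. -/
theorem Gens.comp (hc : Gens k c') {e : P → Q} (he : Rg k e) (hs : Surjective he.hom) :
    Gens k fun x => c' (e x) := by
  refine ⟨fun i => (hc.rg i).comp he, fun f hf => ?_⟩
  obtain ⟨b, hb⟩ := hs (fn f)
  have := comp_mem_Pol (e := e) (Gr.mem_Pol fun x => c' (e x)) (hc.mem _ (rg_pt b))
  simp only [he.pt_hom, AlgHom.comp_apply, hb, pt_fn hf] at this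
  exact this

omit [IsAlgClosed k] in
theorem Gens.of_le (hc : Gens k c) {d : P → ι' → k} (hd : ∀ i, Rg k fun x => d x i)
    (h : Reg d c) : Gens k d := by
  exact ⟨hd, fun f hf => comp_mem_Pol (e := id) h (hc.mem f hf)⟩

theorem surj_hom_of_retract {e : P → Q} (he : Rg k e) {p : Q → P} (hp : Rg k p)
    (h : ∀ x, p (e x) = x) : Surjective he.hom := by
  exact fun b => ⟨hp.hom b, congr($(he.pm_pm_id hp h (.id k _)) b)⟩

theorem gens_line : Gens k fun (x : k) (_ : Unit) => x := by
  refine .of_adjoin (fun _ => .id) ?_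
  rw [Set.range_const, fn_id]
  exact Polynomial.adjoin_X

theorem gens_aff (J : Type) [Finite J] : Gens k fun (x : J → k) (j : J) => x j := by
  exact (gens_line.pi J).of_le (fun j => .apply j) fun i => Gr.mem_Pol _ i.1

/-- Principal open subsets. -/
theorem Gens.loc (hc : Gens k c') {val : P → Q} {f : Q → k} (hv : IsLoc val f)
    (hd : ∀ i, Rg k fun x => c x i) (h : Reg c fun x => c' (val x))
    (hf : (fun x => (f (val x))⁻¹) ∈ Pol c) : Gens k c := by
  refine ⟨hd, fun g hg => ?_⟩
  obtain ⟨M, u, h1, h2, -⟩ := hv.exists_mul_pow hg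
  have := mul_mem (pow_mem hf M) (comp_mem_Pol h (hc.mem u h1))
  rwa [show g = _ from funext fun x => ?_]
  rw [Pi.mul_apply, Pi.pow_apply, h2, inv_pow, inv_mul_cancel_left₀ (pow_ne_zero _ (hv.ne x))]

theorem gens_matrix (m n : Type) [Finite m] [Finite n] :
    Gens k fun (a : Matrix m n k) (i : m × n) => a i.1 i.2 :=
  ((gens_aff n).pi m).comp (rg_copy (Matrix.of (m := m) (n := n)).symm).1
    (surj_hom_of_retract _ (rg_copy (Matrix.of (m := m) (n := n)).symm).2 fun _ => rfl)

theorem gens_units : Gens k fun (x : kˣ) (b : Bool) => ((cond b x x⁻¹ : kˣ) : k) := by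
  refine gens_line.loc isLoc_units (fun b => ?_) (fun _ => Gr.mem_Pol _ true) ?_
  · cases b
    exacts [Rg.id.units_inv.val, Rg.id.val]
  · simp only [← Units.val_inv_eq_inv_val]
    exact Gr.mem_Pol (fun (x : kˣ) (b : Bool) => ((cond b x x⁻¹ : kˣ) : k)) false

theorem gens_torus (r : ℕ) : Gens k (cot : (Fin r → kˣ) → _) := by
  exact (gens_units.pi (Fin r)).of_le (fun i => (gens_units.rg i.1).comp (.apply i.2))
    fun i => Gr.mem_Pol cot (i.2, i.1)

theorem gens_gl (n : ℕ) : Gens k (co : GL (Fin n) k → _) := by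
  refine (gens_matrix _ _).loc isLoc_GL (fun ⟨b, i, j⟩ => ?_) (fun i => Gr.mem_Pol co (true, i)) ?_
  · cases b
    exacts [Rg.id.gl_inv.gl_entry i j, Rg.id.gl_entry i j]
  · have := comp_mem_Pol (c := co) (e := fun g : GL (Fin n) k => (g⁻¹).1)
      (fun i => Gr.mem_Pol co (false, i)) ((gens_matrix _ _).mem _ (Rg.id (k := k)).det)
    simpa only [GeneralLinearGroup.coe_inv, det_nonsing_inv, Ring.inverse_eq_inv'] using this

theorem isDomain_aff (J : Type) [Finite J] : IsDomain (B k (J → k)) := by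
  obtain ⟨z, hz⟩ := Pt.exists_aff (k := k) (MvPolynomial.X : J → MvPolynomial J k)
  have e : (MvPolynomial.aeval fun j => fn fun v : J → k => v j).comp z = .id k _ :=
    Pt.ext_aff fun j => by simp [hz]
  exact Function.Injective.isDomain z (LeftInverse.injective
    (g := MvPolynomial.aeval fun j => fn fun v : J → k => v j) (DFunLike.congr_fun e))

theorem isDomain_torus (J : Type) [Finite J] : IsDomain (B k (J → kˣ)) := by
  have := Fintype.ofFinite J
  have := isDomain_aff (k := k) J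
  have hv := isLoc_torus (k := k) J
  obtain ⟨φ, ψ, h, -⟩ := PtL.exists_iso hv
  have := IsLocalization.isDomain_localization (powers_le_nonZeroDivisors_of_noZeroDivisors
    (fun e => hv.ne 1 ((pt_fn hv.rg _).symm.trans (by rw [e, map_zero])) : fn _ ≠ 0))
  exact Function.Injective.isDomain φ (LeftInverse.injective fun b => congr($h b))

theorem isDomain_of_retract [IsDomain (B k Q)] {e : P → Q} (he : Rg k e) {p : Q → P}
    (hp : Rg k p) (h : ∀ x, p (e x) = x) : IsDomain (B k P) := by
  exact Function.Injective.isDomain hp.hom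
    (LeftInverse.injective fun b => congr($(he.pm_pm_id hp h (.id k _)) b))

end

end Pool.Agent.Lib.MP_fc2ced_ag.E
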