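import Pool.Agent.Lib.MP_fc2ced_ag.R.Gr

/-! Characters of tori, linear parts, and the group `SL_2`. -/

open Function Matrix

namespace Pool.Agent.Lib.MP_fc2ced_ag.E

open Var R

noncomputable section

variable {k : Type} [Field k] [IsAlgClosed k] {P : Type} [Var k P]

/-- The regular functions on a torus are the linear combinations of characters. -/
theorem mem_span_char {J : Type} [Fintype J] {f : (J → kˣ) → k} (hf : Rg k f) :
    f ∈ Submodule.span k (Set.range fun (a : J → ℤ) (t : J → kˣ) => ((∏ j, t j ^ a j : kˣ) : k)) := by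
  classical
  have h := (gens_units.pi J).mem f hf
  rw [Pol, ← Subalgebra.mem_toSubmodule, Algebra.adjoin_eq_span] at h
  refine Submodule.span_mono (fun g hg => ?_) h
  induction hg using Submonoid.closure_induction with
  | mem g hg =>
    obtain ⟨⟨j, b⟩, rfl⟩ := hg
    refine ⟨Pi.single j (cond b 1 (-1)), funext fun t => congrArg Units.val ?_⟩
    rw [Finset.prod_eq_single j (fun i _ h => by simp [h]) (by simp)]
    cases b <;> simp
  | one => exact ⟨0, funext fun t => by simp⟩
  | mul g g' _ _ h h' =>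
    obtain ⟨a, rfl⟩ := h
    obtain ⟨a', rfl⟩ := h'
    exact ⟨a + a', funext fun t => by
      simp only [Pi.add_apply, _root_.zpow_add, Finset.prod_mul_distrib, Units.val_mul,
        Pi.mul_apply]⟩

theorem isChar_of_hom {J : Type} [Fintype J] (χ : (J → kˣ) →* kˣ) (h : Rg k χ) : IsChar χ := by
  let c (a : J → ℤ) : (J → kˣ) →* k := (Units.coeHom k).comp
    { toFun t := ∏ j, t j ^ a j
      map_one' := by simp
      map_mul' t t' := by simp only [Pi.mul_apply, mul_zpow, Finset.prod_mul_distrib] }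
  by_contra h0
  refine (linearIndependent_monoidHom (J → kˣ) k).notMem_span_image (s := Set.range c)
    (x := (Units.coeHom k).comp χ) ?_ ?_
  · rintro ⟨a, ha⟩
    exact h0 ⟨1, a, fun t => by rw [one_mul]; exact Units.ext congr($ha t).symm⟩
  · rw [← Set.range_comp]
    exact mem_span_char h.val

/-- A function on the line that is constant away from the origin is constant. -/
theorem eq_of_ne_zero {f : k → k} (hf : Rg k f) {a : k} (h : ∀ x, x ≠ 0 → f x = a) : f 0 = a := by
  obtain ⟨b, hb⟩ := rg_line_iff.1 hf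
  have h1 (x : k) : f x = Polynomial.eval x b :=
    (hb x).trans congr($(Polynomial.coe_aeval_eq_eval x) b)
  have h2 : b = Polynomial.C a := Polynomial.eq_of_infinite_eval_eq _ _
    ((Set.finite_singleton (0 : k)).infinite_compl.mono fun x hx => by
      rw [Set.mem_ofPred_eq, ← h1, Polynomial.eval_C]; exact h x hx)
  rw [h1, h2, Polynomial.eval_C]

/-- Deformation of a function to its linear part. -/
theorem exists_lin {J : Type} [Fintype J] {f : (J → k) → k} (hf : Rg k f) (h0 : f 0 = 0) :
    ∃ (g : k × (J → k) → k) (l : J → k), Rg k g ∧ (∀ c a, f (c • a) = c * g (c, a)) ∧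
      ∀ a, g (0, a) = ∑ j, l j * a j := by
  classical
  suffices ∀ f ∈ Pol fun (x : J → k) (j : J) => x j, ∃ (g : k × (J → k) → k) (l : J → k),
      Rg k g ∧ (∀ c a, f (c • a) = f 0 + c * g (c, a)) ∧ ∀ a, g (0, a) = ∑ j, l j * a j by
    simpa only [h0, zero_add] using this f ((gens_aff J).mem f hf)
  intro f hf
  induction hf using Algebra.adjoin_induction with
  | mem f hf =>
    obtain ⟨j, rfl⟩ := hf
    exact ⟨fun x => x.2 j, Pi.single j 1, (Rg.apply j).comp Rg.id.snd, fun c a => by simp,
      fun a => by simp [Pi.single_apply]⟩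
  | algebraMap r => exact ⟨fun _ => 0, 0, .const _, fun c a => by simp, fun a => by simp⟩
  | add f f' _ _ h h' =>
    obtain ⟨g, l, h1, h2, h3⟩ := h
    obtain ⟨g', l', h1', h2', h3'⟩ := h'
    exact ⟨fun x => g x + g' x, l + l', h1.add h1', fun c a => by
      simp only [Pi.add_apply, h2, h2']; ring, fun a => by
      simp only [Pi.add_apply, h3, h3', add_mul, Finset.sum_add_distrib]⟩
  | mul f f' _ _ h h' =>
    obtain ⟨g, l, h1, h2, h3⟩ := h
    obtain ⟨g', l', h1', h2', h3'⟩ := h'
    exact ⟨fun x => f 0 * g' x + f' 0 * g x + x.1 * (g x * g' x), fun j => f 0 * l' j + f' 0 * l j,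
      (((Rg.const _).mul h1').add ((Rg.const _).mul h1)).add (Rg.id.fst.mul (h1.mul h1')),
      fun c a => by simp only [Pi.mul_apply, h2, h2']; ring, fun a => by
      simp only [zero_mul, add_zero]
      simp only [h3, h3', add_mul, Finset.sum_add_distrib, Finset.mul_sum, mul_assoc]⟩

theorem exists_var_SL : ∃ _ : Var k (SpecialLinearGroup (Fin 2) k),
    Gens k fun (g : SpecialLinearGroup (Fin 2) k) (j : Fin 2 × Fin 2) => g j.1 j.2 := by
  let D (a : kˣ) : GL (Fin 2) k := .mkOfDetNeZero !![1, 0; 0, (a : k)] (by simp [det_fin_two])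
  have hD (a : kˣ) : GeneralLinearGroup.det (D a) = a := Units.ext (by simp [D, det_fin_two])
  have D1 : D 1 = 1 := Units.ext (by simp [D, one_fin_two])
  let e (g : GL (Fin 2) k) := g * D (GeneralLinearGroup.det g)⁻¹
  have h1 (g : GL (Fin 2) k) : GeneralLinearGroup.det (e g) = 1 := by
    rw [map_mul, hD, mul_inv_cancel]
  have h2 (g : GL (Fin 2) k) (h : GeneralLinearGroup.det g = 1) : e g = g := by
    simp only [e, h, inv_one, D1, mul_one]
  have h3 : Rg k fun g : GL (Fin 2) k => (((GeneralLinearGroup.det g)⁻¹ : kˣ) : k) :=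
    (rg_units (u := fun g : GL (Fin 2) k => GeneralLinearGroup.det g) Rg.id.gl_val.det).units_inv.val
  have he : Rg k e := Rg.id.gl_mul (rg_GL fun i j => by
    fin_cases i <;> fin_cases j
    exacts [.const 1, .const 0, .const 0, h3])
  obtain ⟨V, r1, r2⟩ := exists_var_fix he fun g => h2 _ (h1 g)
  let c : SpecialLinearGroup (Fin 2) k ≃ {g // e g = g} :=
    ⟨fun g => ⟨SpecialLinearGroup.toGL g, h2 _ (Units.ext g.2)⟩,
      fun g => ⟨g.1.1, congrArg Units.val ((congrArg GeneralLinearGroup.det g.2).symm.trans (h1 _))⟩,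
      fun _ => rfl, fun g => Subtype.ext (Units.ext rfl)⟩
  let := Var.copy k c
  have r3 : Rg k fun g => (c g).1 := r1.comp (rg_copy c).1
  have hc := (gens_gl 2).comp r3 (surj_hom_of_retract r3 ((rg_copy c).2.comp r2) fun g =>
    c.symm_apply_eq.2 (Subtype.ext (c g).2))
  refine ⟨this, hc.of_le (fun j => hc.rg (true, j)) ?_⟩
  have hm (i j : Fin 2) : (fun g : SpecialLinearGroup (Fin 2) k => g i j) ∈
      Pol fun (g : SpecialLinearGroup (Fin 2) k) (j : Fin 2 × Fin 2) => g j.1 j.2 :=
    Algebra.subset_adjoin ⟨(i, j), rfl⟩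
  rintro ⟨_ | _, i, j⟩
  · change (fun g : SpecialLinearGroup (Fin 2) k => adjugate g.1 i j) ∈ _
    simp only [adjugate_fin_two]
    fin_cases i <;> fin_cases j
    exacts [hm 1 1, neg_mem (hm 0 1), neg_mem (hm 1 0), hm 0 0]
  · exact hm i j

instance Var.sl : Var k (SpecialLinearGroup (Fin 2) k) := exists_var_SL.choose

theorem gens_SL : Gens k fun (g : SpecialLinearGroup (Fin 2) k) (j : Fin 2 × Fin 2) => g j.1 j.2 :=
  exists_var_SL.choose_spec

theorem Rg.sl_entry {g : P → SpecialLinearGroup (Fin 2) k} (h : Rg k g) (i j : Fin 2) :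
    Rg k fun x => g x i j := (gens_SL.rg (i, j)).comp h

theorem rg_SL {g : P → SpecialLinearGroup (Fin 2) k} (h : ∀ i j, Rg k fun x => g x i j) :
    Rg k g := gens_SL.rg_of fun j => h j.1 j.2

instance GVar.sl : GVar k (SpecialLinearGroup (Fin 2) k) := by
  refine ⟨rg_SL fun i j => (Rg.sum Finset.univ fun t =>
    (Rg.id.fst.sl_entry i t).mul (Rg.id.snd.sl_entry t j)).congr fun _ => Matrix.mul_apply,
    rg_SL fun i j => ((rg_matrix fun s t => Rg.id.sl_entry s t).adjugate.entry i j).congr
      fun _ => rfl⟩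

@[fun_prop] theorem Rg.xx {f : P → k} (h : Rg k f) : Rg k fun x => xx (f x) := by
  refine rg_SL fun i j => ?_
  fin_cases i <;> fin_cases j
  exacts [.const 1, h, .const 0, .const 1]

@[fun_prop] theorem Rg.yy {f : P → k} (h : Rg k f) : Rg k fun x => yy (f x) := by
  refine rg_SL fun i j => ?_
  fin_cases i <;> fin_cases j
  exacts [.const 1, .const 0, h, .const 1]

@[fun_prop] theorem Rg.dd {f : P → kˣ} (h : Rg k f) : Rg k fun x => dd (f x) := by
  refine rg_SL fun i j => ?_
  fin_cases i <;> fin_cases j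
  exacts [h.val, .const 0, .const 0, h.units_inv.val]

end

end Pool.Agent.Lib.MP_fc2ced_ag.E
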