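import Pool.Agent.Lib.MP_fc2ced_ag.R.Lang

/-! The Lang map is etale. -/

open Function Matrix

namespace Pool.Agent.Lib.MP_fc2ced_ag.E

open Var R

namespace LangE

/-- A twisted equation has exactly one solution in a fibre that an iterate contracts. -/
theorem exists_unique_fix {G G' : Type} [Group G] [Group G'] (π : G →* G') (Φ : G →* G) (m : ℕ)
    (hm : ∀ x x', π x = π x' → Φ^[m] x = Φ^[m] x') (hΦ : ∀ x x', π x = π x' → π (Φ x) = π (Φ x'))
    (y g₁ : G) (h : π (g₁⁻¹ * Φ g₁) = π y) : ∃! g, π g = π g₁ ∧ g⁻¹ * Φ g = y := by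
  let T : G → G := fun g => Φ g * y⁻¹
  have h1 : ∀ g, π g = π g₁ → π (T g) = π g₁ := fun g hg => by
    simp only [T, map_mul, map_inv]
    rw [hΦ g g₁ hg, ← h, map_mul, map_inv]
    group
  have h2 : ∀ j g, π g = π g₁ → π (T^[j] g) = π g₁ := fun j => by
    induction j with
    | zero => exact fun g hg => hg
    | succ j ih => exact fun g hg => ih _ (h1 g hg)
  have h3 : ∀ j, ∃ c, ∀ g, T^[j] g = Φ^[j] g * c := fun j => by
    induction j with
    | zero => exact ⟨1, fun g => (mul_one g).symm⟩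
    | succ j ih =>
      obtain ⟨c, hc⟩ := ih
      refine ⟨Φ c * y⁻¹, fun g => ?_⟩
      rw [iterate_succ_apply', iterate_succ_apply', hc]
      simp only [T, map_mul, mul_assoc]
  have h4 : ∀ g, π g = π g₁ → T^[m] g = T^[m] g₁ := fun g hg => by
    obtain ⟨c, hc⟩ := h3 m
    rw [hc, hc, hm g g₁ hg]
  have h5 : ∀ g, g⁻¹ * Φ g = y ↔ T g = g := fun g => by
    simp only [T]
    rw [inv_mul_eq_iff_eq_mul, mul_inv_eq_iff_eq_mul]
  refine ⟨T^[m] g₁, ⟨h2 m g₁ rfl, (h5 _).2 ?_⟩, fun g hg => ?_⟩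
  · rw [← iterate_succ_apply' T, iterate_succ_apply]
    exact h4 _ (h1 g₁ rfl)
  · rw [← h4 g hg.1]
    exact (iterate_fixed ((h5 g).1 hg.2) m).symm

noncomputable section

variable (k : Type) [Field k] (H : Type) [Group H] [Var k H] (O : Type) [CommRing O] [Algebra k O]

/-- The points of an algebraic group with values in an algebra. -/
def GP : Type := Pt k H O

variable {k H O} [IsAlgClosed k] [GVar k H] {P : Type} [Var k P] {O' : Type} [CommRing O']
  [Algebra k O']

/-- The product of two points. -/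
def pmul (x y : Pt k H O) : Pt k H O := (GVar.mul (k := k)).pm (x.pair y)

/-- The inverse of a point. -/
def pinv (x : Pt k H O) : Pt k H O := (GVar.inv (k := k)).pm x

theorem pm_mul {f g : P → H} (hf : Rg k f) (hg : Rg k g) (h : Rg k fun x => f x * g x)
    (w : Pt k P O) : h.pm w = pmul (hf.pm w) (hg.pm w) := by
  rw [pmul, ← Rg.pm_pair hf hg (hf.pair hg), (hf.pair hg).pm_pm _ h fun _ => rfl]

theorem pm_inv {f : P → H} (hf : Rg k f) (h : Rg k fun x => (f x)⁻¹) (w : Pt k P O) :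
    h.pm w = pinv (hf.pm w) := (hf.pm_pm _ h (fun _ => rfl) w).symm

theorem pmul_assoc (x y z : Pt k H O) : pmul (pmul x y) z = pmul x (pmul y z) := by
  have h1 : Rg k fun t : H × H × H => t.1 := Rg.id.fst
  have h2 : Rg k fun t : H × H × H => t.2.1 := Rg.id.snd.fst
  have h3 : Rg k fun t : H × H × H => t.2.2 := Rg.id.snd.snd
  have e1 : h1.pm (x.pair (y.pair z)) = x := Pt.fst_pair _ _
  have e2 : h2.pm (x.pair (y.pair z)) = y :=
    (Rg.id.fst.pm_pair_snd h2 x (y.pair z)).trans (Pt.fst_pair _ _)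
  have e3 : h3.pm (x.pair (y.pair z)) = z :=
    (Rg.id.snd.pm_pair_snd h3 x (y.pair z)).trans (Pt.snd_pair _ _)
  have e4 := ((h1.gmul h2).gmul h3).pm_congr (h1.gmul (h2.gmul h3)) (fun _ => mul_assoc _ _ _)
    (x.pair (y.pair z))
  rwa [pm_mul (h1.gmul h2) h3, pm_mul h1 h2, pm_mul h1 (h2.gmul h3), pm_mul h2 h3, e1, e2,
    e3] at e4

theorem one_pmul (x : Pt k H O) : pmul (Pt.const 1) x = x := by
  have h1 : Rg k fun _ : H => (1 : H) := .const _
  have e := (h1.gmul Rg.id).pm_id (fun _ => one_mul _) x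
  rwa [pm_mul h1 Rg.id, h1.pm_const, Rg.id.pm_id fun _ => rfl] at e

theorem pinv_pmul (x : Pt k H O) : pmul (pinv x) x = Pt.const 1 := by
  have h1 : Rg k fun _ : H => (1 : H) := .const _
  have h2 : Rg k fun x : H => x := .id
  have e := (h2.ginv.gmul h2).pm_congr h1 (fun _ => inv_mul_cancel _) x
  rwa [pm_mul h2.ginv h2, pm_inv h2, h1.pm_const, h2.pm_id fun _ => rfl] at e

instance : Mul (GP k H O) := ⟨pmul⟩

instance : One (GP k H O) := ⟨Pt.const 1⟩

instance : Inv (GP k H O) := ⟨pinv⟩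

instance : Group (GP k H O) := .ofLeftAxioms pmul_assoc one_pmul pinv_pmul

/-- The action of a regular endomorphism on points. -/
def endo {F : H →* H} (hF : Rg k F) : GP k H O →* GP k H O :=
  MonoidHom.mk' (fun x => hF.pm x) fun x y => by
    have h1 : Rg k fun t : H × H => F t.1 := hF.comp Rg.id.fst
    have h2 : Rg k fun t : H × H => F t.2 := hF.comp Rg.id.snd
    have e := (GVar.mul (k := k) (H := H)).pm_pm hF (h1.gmul h2) (fun t => map_mul F _ _)
      (Pt.pair x y)
    rw [pm_mul h1 h2, hF.pm_pair_fst, hF.pm_pair_snd] at e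
    exact e

/-- The action of a homomorphism of algebras on points. -/
def base (g : O →ₐ[k] O') : GP k H O →* GP k H O' :=
  MonoidHom.mk' (fun x => g.comp x) fun x y =>
    ((GVar.mul (k := k) (H := H)).comp_pm g (Pt.pair x y)).trans
      (congrArg (GVar.mul (k := k) (H := H)).pm (Pt.comp_pair g x y))

omit [IsAlgClosed k] [GVar k H] [Group H] in
theorem rg_iterate {F : H → H} (hF : Rg k F) (m : ℕ) : Rg k F^[m] := by
  induction m with
  | zero => exact .id
  | succ m ih => exact ih.comp hF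

theorem endo_iterate {F : H →* H} (hF : Rg k F) (m : ℕ) (x : GP k H O) :
    (endo hF)^[m] x = (rg_iterate hF m).pm x := by
  induction m generalizing x with
  | zero => exact (Rg.id.pm_id (fun _ => rfl) x).symm
  | succ m ih =>
    rw [iterate_succ_apply, ih]
    exact hF.pm_pm _ _ (fun _ => rfl) x

theorem lang_pm {F : H →* H} (hF : Rg k F) (h : Rg k fun g : H => g⁻¹ * F g) (x : GP k H O) :
    h.pm x = x⁻¹ * endo hF x := by
  have h2 : Rg k fun x : H => x := .id
  have e := pm_mul h2.ginv hF h x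
  rw [pm_inv h2, h2.pm_id fun _ => rfl] at e
  exact e

omit [GVar k H] [Group H] in
/-- Combinations of `q`-th powers do not see a square zero ideal. -/
theorem eq_of_pow {q : ℕ} (hq : ∃ p s : ℕ, p.Prime ∧ (p : k) = 0 ∧ 0 < s ∧ q = p ^ s)
    (J : Ideal O) (hJ : J ^ 2 = ⊥) {x x' : Pt k H O}
    (hx : ∀ b, Ideal.Quotient.mk J (x b) = Ideal.Quotient.mk J (x' b)) {α : Type} [Fintype α]
    (c : α → k) {g : α → H → k} (hg : ∀ a, Rg k (g a)) {f : H → k}
    (hf : ∀ h, f h = ∑ a, c a * g a h ^ q) : x (fn f) = x' (fn f) := by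
  obtain ⟨p, s, hp, h0, hs, rfl⟩ := hq
  obtain ⟨s, rfl⟩ := Nat.exists_eq_add_one_of_ne_zero hs.ne'
  have h1 : (p : O) = 0 := by rw [← map_natCast (algebraMap k O), h0, map_zero]
  have h2 : fn f = ∑ a, algebraMap k _ (c a) * fn (g a) ^ p ^ (s + 1) := fn_eq fun h => by
    simp only [hf, map_sum, map_mul, map_pow, pt_fn (hg _), AlgHom.commutes,
      Algebra.algebraMap_self_apply]
  simp only [h2, map_sum, map_mul, map_pow, AlgHom.commutes]
  refine Finset.sum_congr rfl fun a _ => ?_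
  rw [pow_succ', pow_mul, pow_mul, pow_eq_of_mk J hJ hp h1 (hx _)]

end

end LangE

variable {k : Type} [Field k] {H : Type} [Group H] [Var k H] {n : ℕ} [IsAlgClosed k] [GVar k H]
  {e : H →* GL (Fin n) k} {F : H →* H} {q : ℕ}

omit [GVar k H] in
theorem LangE.exists_iterate (h : Frob k e F q) : ∃ m : ℕ, ∀ (O : Type) [CommRing O] [Algebra k O]
    (J : Ideal O), J ^ 2 = ⊥ → ∀ x x' : Pt k H O,
      (∀ b, Ideal.Quotient.mk J (x b) = Ideal.Quotient.mk J (x' b)) →
      (LangE.rg_iterate h.rg m).pm x = (LangE.rg_iterate h.rg m).pm x' := by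
  obtain ⟨m, c, -, hc⟩ := h.pow
  refine ⟨m, fun O _ _ J hJ x x' hx => ?_⟩
  have h1 : ∀ g a b, e (F^[m] g) a b = ∑ u : Fin n × Fin n,
      (c a u.1 * (c⁻¹ : GL (Fin n) k) u.2 b) * e g u.1 u.2 ^ q := by
    intro g a b
    have h2 : e (F^[m] g) = c * (c⁻¹ * e (F^[m] g) * c) * c⁻¹ := by group
    rw [h2, Units.val_mul, Units.val_mul c, mul_apply, Fintype.sum_prod_type, Finset.sum_comm]
    refine Finset.sum_congr rfl fun v _ => ?_
    rw [mul_apply, Finset.sum_mul]
    refine Finset.sum_congr rfl fun u _ => ?_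
    rw [hc]
    ring
  refine AlgHom.ext_of_adjoin_eq_top h.gens.adjoin ?_
  rintro _ ⟨⟨t, a, b⟩, rfl⟩
  rw [Rg.pm_fn _ (h.gens.rg _), Rg.pm_fn _ (h.gens.rg _)]
  refine LangE.eq_of_pow h.char J hJ hx
    (fun u : Fin n × Fin n => c a u.1 * (c⁻¹ : GL (Fin n) k) u.2 b)
    (fun u => h.gens.rg (t, u.1, u.2)) fun g => ?_
  cases t with
  | true => exact h1 g a b
  | false =>
    have h3 := h1 g⁻¹ a b
    rw [iterate_map_inv, map_inv, map_inv] at h3
    exact h3

theorem Frob.et (h : Frob k e F q) : Et k fun g : H => g⁻¹ * F g := by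
  refine ⟨h.rg_lang, (etale_iff_lifts _).2 ⟨fun O _ J hJ g φ hφ => ?_, ?_⟩⟩
  · let _ : Algebra k O := (g.comp (algebraMap k (B k H))).toAlgebra
    let y : Pt k H O := { g with commutes' := fun _ => rfl }
    let φ' : Pt k H (O ⧸ J) := { φ with
      commutes' := fun c => (congrArg φ (h.rg_lang.hom.commutes c).symm).trans
        (RingHom.congr_fun hφ (algebraMap k _ c)) }
    obtain ⟨g₁, hg₁⟩ := Algebra.FormallySmooth.comp_surjective k (B k H) J hJ φ'
    obtain ⟨m, hm⟩ := LangE.exists_iterate h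
    have h1 : LangE.base (Ideal.Quotient.mkₐ k J) (g₁ : LangE.GP k H O) = φ' := hg₁
    obtain ⟨ψ, ⟨hψ1, hψ2⟩, hu⟩ := LangE.exists_unique_fix
      (LangE.base (H := H) (Ideal.Quotient.mkₐ k J)) (LangE.endo h.rg) m
      (fun x x' hx => by
        rw [LangE.endo_iterate, LangE.endo_iterate]
        exact hm O J hJ x x' fun b => AlgHom.congr_fun hx b)
      (fun x x' hx => congrArg h.rg.pm hx) y g₁ (by
        rw [← LangE.lang_pm h.rg h.rg_lang]
        exact (congrArg h.rg_lang.pm hg₁).trans (AlgHom.ext fun b => RingHom.congr_fun hφ b))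
    rw [← LangE.lang_pm h.rg h.rg_lang] at hψ2
    refine ⟨AlgHom.toRingHom ψ, ⟨RingHom.ext fun b => AlgHom.congr_fun (hψ1.trans h1) b,
      RingHom.ext fun b => AlgHom.congr_fun hψ2 b⟩, fun ψ' hψ' => ?_⟩
    let ψ'' : Pt k H O := { ψ' with
      commutes' := fun c => (congrArg ψ' (h.rg_lang.hom.commutes c).symm).trans
        (RingHom.congr_fun hψ'.2 (algebraMap k _ c)) }
    have h2 := hu ψ'' ⟨(AlgHom.ext fun b => RingHom.congr_fun hψ'.1 b).trans h1.symm, by
      rw [← LangE.lang_pm h.rg h.rg_lang]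
      exact AlgHom.ext fun b => RingHom.congr_fun hψ'.2 b⟩
    exact RingHom.ext fun b => AlgHom.congr_fun h2 b
  · refine RingHom.FinitePresentation.of_comp_finiteType (algebraMap k (B k H)) ?_ ?_
    · rw [show h.rg_lang.hom.toRingHom.comp (algebraMap k (B k H)) = algebraMap k (B k H) from
        h.rg_lang.hom.comp_algebraMap, RingHom.finitePresentation_algebraMap]
      infer_instance
    · rw [RingHom.finiteType_algebraMap]
      infer_instance

end Pool.Agent.Lib.MP_fc2ced_ag.E
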