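import Pool.Agent.Lib.MP_fc2ced_ag.R.Flag
import Pool.Agent.Lib.MP_fc2ced_ag.R.MTd

/-! Local computations at the fixed points. -/

open CategoryTheory CategoryTheory.Limits Function Set Matrix

set_option linter.unusedSectionVars false

namespace Pool.Agent.Lib.MP_fc2ced_ag.R

open E E.Var E.Pr

noncomputable section

variable {k : Type} [Field k] [IsAlgClosed k] {G : Type} [Group G] {n r : ℕ} {S : Type}
  (D : Red k G n r S)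
  [Var k G] [Var k D.U] [GVar k G] [GVar k D.U] [Geo D] {P : Type} [Var k P]
  {F : Type} [Field F] [CharZero F] [Finite S] (Θ : Theory k F)

namespace Lef1

theorem rg_smul {ι : Type} [Finite ι] {c : P → k} {a : P → ι → k} (hc : Rg k c) (ha : Rg k a) :
    Rg k fun x => c x • a x := Rg.pi fun i => hc.mul ((Rg.apply i).comp ha)

theorem eq_zero {a : Fin D.NN → k} {b : G} (hb : b ∈ D.Bor)
    (h : D.n₁⁻¹ * (D.ξ a * D.n₁ * b) ∈ D.Bor) : a = 0 := by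
  have h1 := D.bA_eq 0 h
  rwa [D.ξ_zero, OneMemClass.coe_one, one_mul, mul_inv_cancel_left, D.bA_eq a hb] at h1

theorem δ_mul {g : G} (h : D.δ g ≠ 0) (t : Fin r → kˣ) : D.δ (g * D.ι t) ≠ 0 :=
  (D.δ_ne_iff' _).2 (D.mul_mem_cell ((D.δ_ne_iff' _).1 h) (D.ι_mem_Bor t))

/-- The unipotent part of an element of the open cell. -/
def bV (g : G) : G := D.ι (D.bT g) * D.bU g * (D.ι (D.bT g))⁻¹

theorem bV_mem (g : G) : bV D g ∈ D.U := D.norm _ _ (D.bU g).2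

theorem bV_eq {g : G} (h : D.δ g ≠ 0) : D.ξ (D.bA g) * D.n₁ * bV D g * D.ι (D.bT g) = g := by
  rw [bV]
  conv_rhs => rw [D.big_eq h]
  group

theorem mul_ι {g : G} (h : D.δ g ≠ 0) (t : Fin r → kˣ) :
    D.bA (g * D.ι t) = D.bA g ∧ bV D (g * D.ι t) = bV D g := by
  have e : g * D.ι t = D.ξ (D.bA g) * D.n₁ * D.ι (D.bT g * t) *
      (⟨_, D.norm' t (D.bU g).2⟩ : D.U) := by
    conv_lhs => rw [D.big_eq h]
    rw [map_mul]
    group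
  obtain ⟨h1, h2, h3⟩ := D.big_coord (D.bA g) (D.bT g * t) ⟨_, D.norm' t (D.bU g).2⟩
  rw [← e] at h1 h2 h3
  refine ⟨h1, ?_⟩
  rw [bV, bV, h2, h3, map_mul]
  group

theorem rgOn_bV : RgOn k {g | D.δ g ≠ 0} (bV D) := fun _ _ _ hj hU => by
  have h1 := D.rgOn_bT.rg hj hU
  have h2 := D.rgOn_bU.rg hj hU
  exact ((D.rg_ι h1).gmul (D.rg_val h2)).gmul (D.rg_ι h1).ginv

end Lef1

open Lef1

namespace Flag

variable {D} (𝔉 : Flag D)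

instance isIso_j (m : G) : IsIso ((𝔉.mp_j m).mt Θ) := by
  obtain ⟨η, η1, η2⟩ := Geo.coord (D := D)
  have hΩ : IsOp k ((fun x => (𝔉.π m, x)) ⁻¹' 𝔉.O) := 𝔉.op_O.preimage ((Rg.const _).pair .id)
  have mΩ : ∀ g, 𝔉.π g ∈ (fun x => (𝔉.π m, x)) ⁻¹' 𝔉.O ↔ D.δ (m⁻¹ * g) ≠ 0 := 𝔉.mem_O m
  generalize (fun x => (𝔉.π m, x)) ⁻¹' 𝔉.O = Ω at hΩ mΩ
  obtain ⟨d, hd⟩ := 𝔉.quo.exists_desc (fun g => (D.bA (m⁻¹ * g), η (bV D (m⁻¹ * g))))
    {g | D.δ (m⁻¹ * g) ≠ 0} fun t g hg => by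
      obtain ⟨h1, h2⟩ := mul_ι D hg t
      simp only [← mul_assoc, h1, h2]
  have rm : Rg k fun g : G => m⁻¹ * g := (Rg.const _).gmul .id
  have rd : RgOn k Ω d := 𝔉.quo.sec.rgOn
    (((D.rgOn_bA.comp (rm.rgOn _) fun g hg => (mΩ g).1 hg).pair
      ((η1.rgOn univ).comp ((rgOn_bV D).comp (rm.rgOn _) fun g hg => (mΩ g).1 hg)
        fun _ _ => trivial)).congr fun g hg => hd g ((mΩ g).1 hg))
  have hb : ∀ (a : Fin D.NN → k) (b : G), b ∈ D.Bor → D.δ (m⁻¹ * (m * D.ξ a * D.n₁ * b)) ≠ 0 :=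
    fun a b hb => by simpa only [mul_assoc, inv_mul_cancel_left] using D.δ_big a hb
  have hW : ∀ (a : Fin D.NN → k) (b : G), b ∈ D.Bor →
      (𝔉.π (m * D.ξ a * D.n₁ * b) ∈ 𝔉.W m ↔ a ≠ 0) := fun a b hb => by
    rw [𝔉.mem_W, show (m * D.n₁)⁻¹ * (m * D.ξ a * D.n₁ * b) = D.n₁⁻¹ * (D.ξ a * D.n₁ * b) by group]
    refine not_congr ⟨eq_zero D hb, ?_⟩
    rintro rfl
    rwa [D.ξ_zero, OneMemClass.coe_one, one_mul, inv_mul_cancel_left]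
  have hx : ∀ x ∈ Ω, 𝔉.π (m * D.ξ (d x).1 * D.n₁ * D.ξ (d x).2) = x := fun x hx => by
    obtain ⟨g, rfl⟩ := 𝔉.surj x
    have h1 := (mΩ g).1 hx
    obtain ⟨a, ha⟩ := D.ξ_bij.2 ⟨_, bV_mem D (m⁻¹ * g)⟩
    have h2 : bV D (m⁻¹ * g) = D.ξ a := (congrArg Subtype.val ha).symm
    have h3 := bV_eq D h1
    rw [hd g h1]
    refine (𝔉.quo.eq _ _).2 ⟨D.bT (m⁻¹ * g), ?_⟩
    simp only [h2, η2] at h3 ⊢
    rw [eq_inv_mul_iff_mul_eq] at h3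
    simpa only [mul_assoc] using h3
  let Y : Pr k 𝔉.X := ⟨Ω, 𝔉.W m, hΩ, 𝔉.op_W m⟩
  have i : Mp Y (.sup (𝔉.op_W m)) fun x => x := .incl (fun _ _ => trivial) fun _ _ h => h
  have : IsIso (i.mt Θ) := i.isIso_incl Θ fun x => ⟨fun h => ⟨trivial, h.2⟩, fun h => ⟨by
    obtain ⟨g, rfl⟩ := 𝔉.surj x
    have h1 := hb 0 _ (not_not.1 (mt (𝔉.mem_W m g).2 h.2))
    rw [D.ξ_zero, OneMemClass.coe_one, mul_one, mul_inv_cancel_left] at h1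
    exact (mΩ g).2 h1, h.2⟩⟩
  have j : Mp (.pt k (0 : Fin D.NN → k)) Y (𝔉.j m) :=
    ⟨(𝔉.rg_j m).rgOn _, fun a _ => (mΩ _).2 (by simpa only [mul_one] using hb a 1 (one_mem _)),
      (𝔉.mp_j m).v⟩
  have q : Mp Y (.pt k (0 : Fin D.NN → k)) fun x => (d x).1 :=
    ⟨fun _ _ _ hj hU => (rd.rg hj hU).fst, fun _ _ => trivial, fun x h1 h2 =>
      (hW _ _ (D.U_le_Bor (D.ξ (d x).2).2)).1 (by rwa [hx x h1])⟩
  have H : Mp (Y.prod (.top k k)) Y fun x =>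
      𝔉.π (m * D.ξ (d x.1).1 * D.n₁ * D.ξ (x.2 • (d x.1).2)) :=
    ⟨fun _ _ _ hj hU => by
      have h1 := rd.rg hj.fst fun y => (hU y).1
      exact 𝔉.quo.rg.comp ((((Rg.const _).gmul (D.rg_val (D.rg_ξ h1.fst))).gmul
        (Rg.const _)).gmul (D.rg_val (D.rg_ξ (rg_smul hj.snd h1.snd)))),
    fun x _ => (mΩ _).2 (hb _ _ (D.U_le_Bor (D.ξ _).2)), fun x h1 h2 =>
      (hW _ _ (D.U_le_Bor (D.ξ _).2)).2 (q.v _ h1.1 (h2.resolve_right id))⟩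
  have : IsIso (j.mt Θ) := ⟨q.mt Θ, by
    rw [j.mt_comp Θ q (Mp.refl _) fun a _ => by
      have h1 := hb a 1 (one_mem _)
      rw [mul_one] at h1
      have h2 := D.bA_eq a (one_mem _)
      rw [Flag.j, hd _ h1]
      simpa only [mul_assoc, inv_mul_cancel_left, mul_one] using h2]
    exact (Mp.refl _).mt_id Θ fun _ _ => rfl, by
    rw [q.mt_comp Θ j (q.comp j) fun _ _ => rfl, H.mt_htpy Θ (q.comp j) (Mp.refl _)
      (fun x _ => by simp [Flag.j, D.ξ_zero]) fun x h => by simpa only [one_smul] using hx x h]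
    exact (Mp.refl _).mt_id Θ fun _ _ => rfl⟩
  rw [← j.mt_comp Θ i (𝔉.mp_j m) fun _ _ => rfl]
  infer_instance

theorem mt_W {m : G} {γ : k → G} (hγ : Rg k γ) (h0 : γ 0 = 1) (h1 : γ 1 = m) :
    (𝔉.mp_W m).mt Θ ≫ inv ((𝔉.mp_j m).mt Θ) = (𝔉.mp_W 1).mt Θ ≫ inv ((𝔉.mp_j 1).mt Θ) := by
  have τ : Mp (.sup (𝔉.op_W 1)) (.sup (𝔉.op_W m)) fun x => 𝔉.l (m, x) :=
    ⟨(𝔉.rg_l.comp ((Rg.const _).pair .id)).rgOn _, fun _ _ => trivial, fun x _ h => by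
      obtain ⟨g, rfl⟩ := 𝔉.surj x
      have h2 := (𝔉.mem_W 1 g).1 h
      rw [𝔉.l_π]
      refine (𝔉.mem_W m _).2 ?_
      rwa [show (m * D.n₁)⁻¹ * (m * g) = (1 * D.n₁)⁻¹ * g by group]⟩
  have H : Mp ((Pr.top k 𝔉.X).prod (.top k k)) (.sup (𝔉.op_W m)) fun x => 𝔉.l (γ x.2, x.1) :=
    ⟨(𝔉.rg_l.comp ((hγ.comp Rg.id.snd).pair Rg.id.fst)).rgOn _, fun _ _ => trivial,
      fun _ _ h => h.elim False.elim False.elim⟩
  have e1 : (𝔉.mp_W m).mt Θ = (𝔉.mp_W 1).mt Θ ≫ τ.mt Θ := by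
    rw [(𝔉.mp_W 1).mt_comp Θ τ ((𝔉.mp_W 1).comp τ) fun _ _ => rfl]
    refine H.mt_htpy Θ _ _ (fun x _ => ?_) fun x _ => by rw [h1]
    obtain ⟨g, rfl⟩ := 𝔉.surj x
    rw [h0, 𝔉.l_π, one_mul]
  have e2 : (𝔉.mp_j 1).mt Θ ≫ τ.mt Θ = (𝔉.mp_j m).mt Θ :=
    (𝔉.mp_j 1).mt_comp Θ τ _ fun a _ => by
      rw [Flag.j, Flag.j, 𝔉.l_π, one_mul, mul_assoc]
  rw [e1, Category.assoc]
  congr 1
  rw [IsIso.comp_inv_eq, ← e2, IsIso.inv_hom_id_assoc]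

/-- The local index of a nondegenerate fixed point is one. -/
theorem mt_local {m : G} {γ : k → G} (hγ : Rg k γ) (h0 : γ 0 = 1) (h1 : γ 1 = m)
    {t : Fin r → kˣ} (ht : ∀ i, D.wt D.s₀ i t ≠ 1) {e : (Fin D.NN → k) → 𝔉.E}
    (he : Mp (.pt k (0 : Fin D.NN → k)) (.sup 𝔉.vb.isOp) e)
    (h : ∀ a, e a = 𝔉.πE (m * D.ξ a, D.bA ((D.ξ a : G)⁻¹ * D.ι t * D.ξ a * D.n₁))) :
    he.mt Θ = 𝔉.mp_fib.mt Θ := by
  obtain ⟨g, g1, g2, g3⟩ := D.exists_nu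
  have hc : ∀ i, (D.wt D.s₀ i t : k) - 1 ≠ 0 := fun i e =>
    ht i (Units.ext (sub_eq_zero.1 e))
  have hz : ∀ a : Fin D.NN → k, (fun i => D.wt D.s₀ i t * a i) = a → a = 0 := fun a e =>
    funext fun i => by
      have h2 : ((D.wt D.s₀ i t : k) - 1) * a i = 0 := by
        rw [sub_mul, one_mul, congrFun e i, sub_self]
      exact (mul_eq_zero.1 h2).resolve_left (hc i)
  have rD : Rg k fun (a : Fin D.NN → k) i => (D.wt D.s₀ i t : k) * a i :=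
    Rg.pi fun i => (Rg.const _).mul (Rg.apply i)
  have H : Mp ((Pr.pt k (0 : Fin D.NN → k)).prod (.top k k)) (.sup 𝔉.vb.isOp) fun x =>
      𝔉.πE (γ x.2 * D.ξ (x.2 • x.1), g (x.2, x.1, fun i => D.wt D.s₀ i t * x.1 i)) :=
    ⟨(𝔉.quoE.rg.comp (((hγ.comp Rg.id.snd).gmul (D.rg_val (D.rg_ξ
        (rg_smul Rg.id.snd Rg.id.fst)))).pair (g1.comp (Rg.id.snd.pair
          (Rg.id.fst.pair (rD.comp Rg.id.fst)))))).rgOn _,
      fun _ _ => trivial, fun x _ hx => (𝔉.mem_nz _).2 fun e => hx.resolve_right id (hz _ (by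
        obtain ⟨a, c⟩ := x
        by_cases h2 : c = 0
        · subst h2
          exact sub_eq_zero.1 ((g3 _ _).symm.trans e)
        · have h3 := g2 c a fun i => D.wt D.s₀ i t * a i
          rw [show g (c, a, fun i => D.wt D.s₀ i t * a i) = 0 from e, smul_zero, D.ξ_zero,
            eq_inv_mul_iff_mul_eq, mul_one] at h3
          exact (smul_right_injective _ h2 (D.ξ_bij.1 h3)).symm))⟩
  have q : Mp (.pt k (0 : Fin D.NN → k)) (.pt k (0 : Fin D.NN → k))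
      fun v i => (Units.mk0 _ (hc i) : kˣ) * v i :=
    ⟨(Rg.pi fun i => (Rg.const _).mul (Rg.apply i)).rgOn _, fun _ _ => trivial,
      fun a _ ha e => ha (funext fun i => (mul_eq_zero.1 (congrFun e i)).resolve_left (hc i))⟩
  rw [← H.mt_htpy Θ (q.comp 𝔉.mp_fib) he (fun a _ => ?_) fun a _ => ?_,
    ← q.mt_comp Θ 𝔉.mp_fib (q.comp 𝔉.mp_fib) fun _ _ => rfl, mt_diag Θ _ q, Category.id_comp]
  · simp only [h0, g3, zero_smul, D.ξ_zero, OneMemClass.coe_one, mul_one]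
    congr 2
    funext i
    simp [sub_mul]
  · obtain ⟨t', ht'⟩ := D.exists_cj' D.n₁_mem t
    have h2 := congrArg Subtype.val (g2 1 a fun i => D.wt D.s₀ i t * a i)
    simp only [one_smul, Subgroup.coe_mul, Subgroup.coe_inv, ← D.conj_ξ] at h2
    have h3 := D.bA_eq (g (1, a, fun i => D.wt D.s₀ i t * a i)) (D.ι_mem_Bor t')
    rw [h2, ht', show (D.ξ a : G)⁻¹ * (D.ι t * D.ξ a * (D.ι t)⁻¹) * D.n₁ *
      (D.n₁⁻¹ * D.ι t * D.n₁) = (D.ξ a : G)⁻¹ * D.ι t * D.ξ a * D.n₁ by group] at h3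
    simp only [h, h1, one_smul, h3]

end Flag

end

end Pool.Agent.Lib.MP_fc2ced_ag.R
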