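import Pool.Agent.Lib.MP_fc2ced_ag.R.MT

/-! Functoriality, excision and localization for motives of pairs. -/

open CategoryTheory CategoryTheory.Limits CategoryTheory.Pretriangulated Function Set

namespace Pool.Agent.Lib.MP_fc2ced_ag.E

open Var R Ob Pair Pr

noncomputable section

variable {k : Type} [Field k] [IsAlgClosed k] {F : Type} [Field F] {P Q R : Type} [Var k P]
  [Var k Q] [Var k R] {X : Pr k P} {Y : Pr k Q} {Z : Pr k R} {e e' : P → Q} (Θ : Theory k F)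

omit [IsAlgClosed k] in
theorem Pair.IsMap.mtb_comp {X X' X'' : Fn k} {P : Pair X} {P' : Pair X'} {P'' : Pair X''}
    {e : ∀ ⦃O⦄, X.X O → X'.X O} {e' : ∀ ⦃O⦄, X'.X O → X''.X O} (h : IsMap P P' e)
    (h' : IsMap P' P'' e') {e'' : ∀ ⦃O⦄, X.X O → X''.X O}
    (he : ∀ ⦃O⦄ (x : X.X O), P.N x → e' (e x) = e'' x) : IsMap P P'' e'' :=
  ⟨fun _ _ g x hx => by
      rw [← he x hx, h'.nat g _ (h.n x hx), h.nat g x hx, he _ (P.sN g x hx)],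
    fun _ x hx => he x hx ▸ h'.n _ (h.n x hx),
    fun _ x hx hd => he x hx ▸ h'.d _ (h.n x hx) (h.d x hx hd)⟩

omit [IsAlgClosed k] in
theorem Pr.Md.mtb_in {s t : Finset (B k P)} (m : X.Md s t) {O : Aic k} {x : Pt k P O}
    (hx : (opP k s t).N x) : x.In X.U := m.u ▸ Pt.in_opSet hx

omit [IsAlgClosed k] in
theorem Pr.Md.mtb_mem {s t : Finset (B k P)} (m : X.Md s t) {y : P} (hy : y ∈ X.U) :
    y ∈ opSet t ↔ y ∈ X.V :=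
  ⟨fun h => ((Set.ext_iff.1 m.v y).1 ⟨hy, h⟩).2, fun h => ((Set.ext_iff.1 m.v y).2 ⟨hy, h⟩).2⟩

omit [IsAlgClosed k] in
theorem Pr.Md.mtb_live {s t : Finset (B k P)} (m : X.Md s t) (y : P) :
    y ∈ opSet s ∧ y ∉ opSet t ↔ y ∈ X.U ∧ y ∉ X.V := by
  rw [m.u]
  exact and_congr_right fun hy => not_congr (m.mtb_mem hy)

theorem Pr.Mp.mt_comp {d : Q → R} {c : P → R} (h : Mp X Y e) (h' : Mp Y Z d) (h'' : Mp X Z c)
    (he : ∀ x ∈ X.U, d (e x) = c x) : h.mt Θ ≫ h'.mt Θ = h''.mt Θ := by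
  obtain ⟨s₁, t₁, m₁, -, j₁⟩ := h'.exists_md Y.md Z.md
  obtain ⟨s₂, t₂, m₂, -, j₂⟩ := h.exists_md X.md m₁
  have hc : ∀ ⦃O : Aic k⦄ (x : Pt k P O), (opP k s₂ t₂).N x →
      h'.rg.pm (h.rg.pm x) = h''.rg.pm x := fun _ x hx =>
    h.rg.pm_comp h'.rg h''.rg (fun y hy _ _ => he y hy) (m₂.mtb_in hx) (m₁.mtb_in (j₂.n x hx))
      (m₂.mtb_in hx)
  have j := j₂.mtb_comp j₁ hc
  rw [← cancel_epi (m₂.cmp Θ).hom, ← h''.mt_spec Θ m₂ Z.md j fun _ _ _ => rfl,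
    ← reassoc_of% (h.mt_spec Θ m₂ m₁ j₂ fun _ _ _ => rfl),
    ← h'.mt_spec Θ m₁ Z.md j₁ fun _ _ _ => rfl, ← Θ.Φ.map_comp_assoc, j₂.hom_comp j₁ j hc]

theorem Pr.Mp.mt_id {e : P → P} (h : Mp X X e) (he : ∀ x ∈ X.U, e x = x) : h.mt Θ = 𝟙 _ := by
  rw [← cancel_epi (X.md.cmp Θ).hom,
    ← h.mt_spec Θ X.md X.md (isMap_refl _) fun _ _ hx => (h.rg.pm_id he hx).symm, hom_refl,
    Θ.Φ.map_id, Category.id_comp, Category.comp_id]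

theorem Pr.Mp.mt_congr (h : Mp X Y e) (h' : Mp X Y e') (he : ∀ x ∈ X.U, e x = e' x) :
    h.mt Θ = h'.mt Θ := by
  rw [← h.mt_comp Θ (Mp.refl Y) h' he, (Mp.refl Y).mt_id Θ fun _ _ => rfl, Category.comp_id]

theorem Pr.Mp.sc_mt (h : Mp X Y e) (a : F) : Θ.sc _ a ≫ h.mt Θ = h.mt Θ ≫ Θ.sc _ a := by
  obtain ⟨s₁, t₁, m₁, -, j⟩ := h.exists_md X.md Y.md
  have e := h.mt_spec Θ m₁ Y.md j fun _ _ _ => rfl
  rw [← cancel_epi (m₁.cmp Θ).hom, ← reassoc_of% (m₁.sc_cmp Θ a), ← e, ← reassoc_of% e,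
    ← Y.md.sc_cmp Θ a, reassoc_of% (Θ.sc_nat (j.hom F) a)]

/-- Excision. -/
theorem Pr.Mp.isIso_incl {X X' : Pr k P} (h : Mp X X' fun x => x)
    (e : ∀ x, x ∈ X.U ∧ x ∉ X.V ↔ x ∈ X'.U ∧ x ∉ X'.V) : IsIso (h.mt Θ) := by
  obtain ⟨s₁, t₁, m₁, -, j⟩ := h.exists_md X.md X'.md
  have j' : IsMap (opP k s₁ t₁) _ fun _ x => x :=
    j.mtb_comp (isMap_refl _) fun _ x hx => h.rg.pm_id (fun _ _ => rfl) (m₁.mtb_in hx)
  have u : UIso (j'.hom F) := uiso_op j' fun x => by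
    obtain ⟨y, rfl⟩ := (Var.pt (k := k) (P := P)).surjective x
    exact ((m₁.mtb_live y).trans (e y)).trans (X'.md.mtb_live y).symm
  have := u Θ
  have e' := h.mt_spec Θ m₁ X'.md j' fun _ _ hx => (h.rg.pm_id (fun _ _ => rfl) hx).symm
  have : IsIso ((m₁.cmp Θ).hom ≫ h.mt Θ) := e' ▸ inferInstance
  exact IsIso.of_isIso_comp_left (m₁.cmp Θ).hom _

theorem Pr.isZero (h : X.U ⊆ X.V) : IsZero (X.mo Θ) :=
  uzero_op _ _ (fun x hx => by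
    obtain ⟨y, rfl⟩ := (Var.pt (k := k) (P := P)).surjective x
    have hy : y ∈ X.U := X.md.u ▸ hx
    exact (X.md.mtb_mem hy).2 (h hy)) Θ

open scoped Pointwise in
theorem Pr.exists_tri {X₁ X₂ X₃ : Pr k P} (h₁ : Mp X₁ X₂ fun x => x) (h₂ : Mp X₂ X₃ fun x => x)
    (e₁ : ∀ x ∈ X₁.U, x ∈ X₂.V → x ∈ X₁.V) (e₂ : X₃.U ⊆ X₂.U)
    (e₃ : ∀ x ∈ X₂.U, x ∈ X₃.V ↔ x ∈ X₂.V ∨ x ∈ X₁.U) :
    ∃ δ, Triangle.mk (h₁.mt Θ) (h₂.mt Θ) δ ∈ distTriang (DM k) := by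
  classical
  obtain ⟨u, hu⟩ := X₁.hU
  obtain ⟨s, t, m₂⟩ : ∃ s t, X₂.Md s t := ⟨_, _, X₂.md⟩
  have m₁ : X₁.Md (s * u) t :=
    ⟨by rw [opSet_mul, m₂.u, ← hu]; exact inter_eq_right.2 fun x hx => h₁.u x hx,
      Set.ext fun x => and_congr_right fun hx =>
        (m₂.mtb_mem (h₁.u x hx)).trans ⟨e₁ x hx, h₁.v x hx⟩⟩
  have m₃ : X₃.Md s (t ∪ u) :=
    ⟨m₂.u.trans (Subset.antisymm (fun x hx => h₂.u x hx) e₂),
      Set.ext fun x => and_congr_right fun hx => by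
        rw [opSet_union, ← hu, e₃ x (e₂ hx), mem_union, m₂.mtb_mem (e₂ hx)]⟩
  have i₁ : IsMap (opP k (s * u) t) (opP k s t) fun _ x => x :=
    isMap_id (fun _ x h => ((ex_mul x s u).1 h).1) fun _ _ _ h => h
  have i₂ : IsMap (opP k s t) (opP k s (t ∪ u)) fun _ x => x :=
    isMap_id (fun _ _ h => h) fun _ _ _ h => (ex_union t u).2 (.inl h)
  have T : Ses (i₁.hom F) (i₂.hom F) := Pair.ses i₁ i₂ (fun _ _ _ h => h)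
    (fun _ x h => (ex_union t u).trans (or_congr_right ((ex_mul x s u).trans
      (and_iff_right h)).symm)) fun _ _ h _ => h
  refine ⟨(m₃.cmp Θ).inv ≫ Θ.δ T ≫ (m₁.cmp Θ).hom⟦(1 : ℤ)⟧', isomorphic_distinguished _ (Θ.dist T) _
    (Triangle.isoMk _ _ (m₁.cmp Θ) (m₂.cmp Θ) (m₃.cmp Θ) ?_ ?_ ?_).symm⟩
  · exact h₁.mt_spec Θ m₁ m₂ i₁ fun _ _ hx => (h₁.rg.pm_id (fun _ _ => rfl) hx).symm
  · exact h₂.mt_spec Θ m₂ m₃ i₂ fun _ _ hx => (h₂.rg.pm_id (fun _ _ => rfl) hx).symm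
  · exact ((m₃.cmp Θ).hom_inv_id_assoc _).symm

end

end Pool.Agent.Lib.MP_fc2ced_ag.E
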