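import Pool.Agent.Lib.MP_fc2ced_ag.R.Gr

/-! Finite covers, etale maps and fibre products. -/

open Function
open scoped TensorProduct

set_option linter.unusedSectionVars false

namespace Pool.Agent.Lib.MP_fc2ced_ag.E

open Var R

noncomputable section

variable {k : Type} [Field k] {P Q R P' Q' Y : Type} [Var k P] [Var k Q] [Var k R] [Var k P']
  [Var k Q'] [Var k Y] {Γ : Type} [Group Γ]

variable (k) in
/-- Actions of an abstract group by regular maps. -/
structure IsAct (a : Γ → P → P) : Prop where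
  rg : ∀ γ, Rg k (a γ)
  one : ∀ x, a 1 x = x
  mul : ∀ γ δ x, a (γ * δ) x = a γ (a δ x)

variable (k) in
/-- The map `q` is the quotient by the action `a` on points with values in absolutely integrally
closed domains. -/
structure Tors (a : Γ → P → P) (q : P → Q) : Prop where
  act : IsAct k a
  rg : Rg k q
  inv : ∀ γ x, q (a γ x) = q x
  surj : ∀ (O : Aic k) (y : Pt k Q O), ∃ x, rg.pm x = y
  fib : ∀ (O : Aic k) (x x' : Pt k P O), rg.pm x = rg.pm x' → ∃ γ, x' = (act.rg γ).pm x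

variable (k) in
/-- Etale maps. -/
def Et (e : P → Q) : Prop := ∃ h : Rg k e, h.hom.toRingHom.Etale

variable (k) in
/-- The map `val` identifies `P'` with the closed subscheme where `e` and `e'` agree. -/
structure IsEq (val : P' → P) (e e' : P → Y) : Prop where
  rg : Rg k val
  rg₁ : Rg k e
  rg₂ : Rg k e'
  eq : ∀ x, e (val x) = e' (val x)
  surj : Surjective rg.hom
  pts : ∀ (O : Type) [CommRing O] [Algebra k O] (z : Pt k P O), rg₁.pm z = rg₂.pm z →
    ∃ w, rg.pm w = z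

theorem IsAct.triv : IsAct k fun (_ : Unit) (x : P) => x :=
  ⟨fun _ => .id, fun _ => rfl, fun _ _ _ => rfl⟩

variable [IsAlgClosed k] {a : Γ → P → P} {q : P → Q}

theorem IsEq.pm_inj {val : P' → P} {e e' : P → Y} (h : IsEq k val e e') {O : Type} [CommRing O]
    [Algebra k O] : Injective (h.rg.pm : Pt k P' O → Pt k P O) := by
  intro x x' hx
  refine AlgHom.ext fun b => ?_
  obtain ⟨b, rfl⟩ := h.surj b
  exact congr($hx b)

theorem IsEq.inj {val : P' → P} {e e' : P → Y} (h : IsEq k val e e') : Injective val := by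
  intro x x' hx
  refine (pt (k := k)).injective (h.pm_inj ?_)
  rw [h.rg.pm_pt, h.rg.pm_pt, hx]

theorem IsEq.lift {val : P' → P} {e e' : P → Y} (h : IsEq k val e e') {j : R → P'}
    (hj : Rg k fun x => val (j x)) : Rg k j := by
  obtain ⟨w, hw⟩ := h.pts (B k R) (hj.pm (.id k _))
    (hj.pm_comm h.rg₁ hj h.rg₂ (fun x => h.eq (j x)) _)
  refine ⟨w, fun x => h.pm_inj ?_⟩
  rw [h.rg.pm_pt, ← h.rg.comp_pm, hw, hj.comp_pm]
  exact (hj.pm_pt x).symm

omit [IsAlgClosed k] in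
theorem Tor.exists_push {A S T : Type} [CommRing A] [CommRing S] [CommRing T] [Algebra k A]
    [Algebra k S] [Algebra k T] [Algebra.Smooth k S] (φ : A →ₐ[k] S) (ψ : A →ₐ[k] T)
    (h : ψ.toRingHom.Etale) : ∃ (C : Type) (_ : CommRing C) (_ : Algebra k C)
      (_ : Algebra.Smooth k C) (i : S →ₐ[k] C) (j : T →ₐ[k] C), j.comp ψ = i.comp φ ∧
      Surjective (Algebra.TensorProduct.productMap j i) ∧
      ∀ (O : Type) [CommRing O] [Algebra k O] (x : T →ₐ[k] O) (y : S →ₐ[k] O),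
        x.comp ψ = y.comp φ → ∃ w : C →ₐ[k] O, w.comp j = x ∧ w.comp i = y := by
  let := φ.toRingHom.toAlgebra
  let := ψ.toRingHom.toAlgebra
  have : IsScalarTower k A S := .of_algebraMap_eq fun c => (φ.commutes c).symm
  have : IsScalarTower k A T := .of_algebraMap_eq fun c => (ψ.commutes c).symm
  have : Algebra.Etale A T := h
  have : Algebra.Smooth k (S ⊗[A] T) := .comp k S _
  refine ⟨S ⊗[A] T, inferInstance, inferInstance, this, Algebra.TensorProduct.includeLeft,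
    (Algebra.TensorProduct.includeRight : T →ₐ[A] S ⊗[A] T).restrictScalars k, ?_, ?_, ?_⟩
  · ext a
    exact (Algebra.TensorProduct.includeRight : T →ₐ[A] S ⊗[A] T).commutes a
  · intro z
    induction z using TensorProduct.induction_on with
    | zero => exact ⟨0, map_zero _⟩
    | tmul s t => exact ⟨t ⊗ₜ s, by simp⟩
    | add _ _ h1 h2 =>
      obtain ⟨u, rfl⟩ := h1
      obtain ⟨v, rfl⟩ := h2
      exact ⟨u + v, map_add _ _ _⟩
  · intro O _ _ x y hxy
    let := (y.comp φ).toRingHom.toAlgebra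
    have : IsScalarTower k A O := .of_algebraMap_eq fun c => ((y.comp φ).commutes c).symm
    let x' : T →ₐ[A] O := ⟨x.toRingHom, fun a => congr($hxy a)⟩
    let y' : S →ₐ[A] O := ⟨y.toRingHom, fun a => rfl⟩
    refine ⟨(Algebra.TensorProduct.productMap y' x').restrictScalars k, ?_, ?_⟩
    · ext t; simp [x']
    · ext t; simp [y']

/-- Fibre products along etale maps. -/
theorem exists_var_fib {e : P → Y} (he : Et k e) {y : R → Y} (hy : Rg k y) :
    ∃ _ : Var k {x : P × R // e x.1 = y x.2},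
      IsEq k (Subtype.val : {x : P × R // e x.1 = y x.2} → P × R) (fun x => e x.1)
        fun x => y x.2 := by
  obtain ⟨he, het⟩ := he
  obtain ⟨C, _, _, _, i, j, h1, h2, h3⟩ := Tor.exists_push hy.hom he.hom het
  let F : (C →ₐ[k] k) → {x : P × R // e x.1 = y x.2} := fun w =>
    ⟨(pt.symm (w.comp j), pt.symm (w.comp i)), (pt (k := k)).injective (by
      simp only [he.pt_hom, hy.pt_hom, Equiv.apply_symm_apply, AlgHom.comp_assoc, h1])⟩
  have hF (w) : pt (F w).1 = w.comp (Algebra.TensorProduct.productMap j i) := by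
    change Algebra.TensorProduct.productMap (pt (pt.symm (w.comp j))) (pt (pt.symm (w.comp i))) = _
    simp only [Equiv.apply_symm_apply]
    exact Algebra.TensorProduct.ext (by ext; simp) (by ext; simp)
  have hb : Bijective F := ⟨fun w w' h => AlgHom.ext fun c => by
    obtain ⟨c, rfl⟩ := h2 c
    exact congr($((hF w).symm.trans ((congrArg (fun x => pt x.1) h).trans (hF w'))) c),
    fun x => by
      obtain ⟨w, hw, hw'⟩ := h3 k (pt x.1.1) (pt x.1.2) (by rw [← he.pt_hom, ← hy.pt_hom, x.2])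
      exact ⟨w, Subtype.ext (by simp [F, hw, hw'])⟩⟩
  let V : Var k {x : P × R // e x.1 = y x.2} := { B := C, pt := (Equiv.ofBijective F hb).symm }
  have hv (x : {x : P × R // e x.1 = y x.2}) :
      pt x.1 = (pt x).comp (Algebra.TensorProduct.productMap j i) := by
    obtain ⟨w, rfl⟩ := hb.2 x
    exact (hF w).trans (congrArg (fun u : C →ₐ[k] k => u.comp _)
      ((Equiv.ofBijective F hb).symm_apply_apply w).symm)
  have hr : Rg k (Subtype.val : {x : P × R // e x.1 = y x.2} → P × R) := ⟨_, hv⟩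
  refine ⟨V, hr, he.comp Rg.id.fst, hy.comp Rg.id.snd, fun x => x.2, (hr.hom_eq hv).symm ▸ h2,
    fun O _ _ z hz => ?_⟩
  rw [← Pt.pair_eta z, he.pm_pair_fst, hy.pm_pair_snd] at hz
  obtain ⟨w, hw, hw'⟩ := h3 O _ _ hz
  refine ⟨w, ?_⟩
  rw [← Pt.pair_eta z, ← hw, ← hw', Rg.pm, hr.hom_eq hv]
  exact Algebra.TensorProduct.ext (by ext; simp [Pt.pair]) (by ext; simp [Pt.pair])

theorem Tors.of_points [Finite Γ] (ha : IsAct k a) (hq : Rg k q) (inv : ∀ γ x, q (a γ x) = q x)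
    (surj : ∀ (O : Aic k) (y : Pt k Q O), ∃ x, hq.pm x = y)
    (fib : ∀ x x', q x = q x' → ∃ γ, x' = a γ x) : Tors k a q := by
  refine ⟨ha, hq, inv, surj, fun O x x' hx => ?_⟩
  by_contra hn
  have hn' (γ) : ∃ b, x' b ≠ (ha.rg γ).pm x b := by
    by_contra h
    exact hn ⟨γ, AlgHom.ext fun b => by simpa using not_exists.1 h b⟩
  choose b hb using hn'
  have := Fintype.ofFinite Γ
  have f1 : Rg k fun u : P × P => u.1 := Rg.id.fst
  have f2 : Rg k fun u : P × P => u.2 := Rg.id.snd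
  let I : Ideal (B k (P × P)) :=
    Ideal.span (Set.range fun c => f1.hom (hq.hom c) - f2.hom (hq.hom c))
  have z1 (c) : x.pair x' (f1.hom c) = x c := congr($(Pt.fst_pair x x') c)
  have z2 (c) : x.pair x' (f2.hom c) = x' c := congr($(Pt.snd_pair x x') c)
  have hI : ∀ c ∈ I, x.pair x' c = 0 := fun c hc => by
    refine (Ideal.span_le (I := RingHom.ker (x.pair x'))).2 ?_ hc
    rintro _ ⟨c, rfl⟩
    rw [SetLike.mem_coe, RingHom.mem_ker, map_sub, z1, z2, sub_eq_zero]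
    exact congr($hx c)
  have key := eq_of_points (k := k) (Ideal.Quotient.liftₐ I (x.pair x') hI)
    (b := Ideal.Quotient.mkₐ k I (∏ γ, (f2.hom (b γ) - f1.hom ((ha.rg γ).hom (b γ))))) (b' := 0)
    fun w => by
      obtain ⟨u, hu⟩ := pt.surjective (w.comp (Ideal.Quotient.mkₐ k I))
      have u1 (c) : pt u (f1.hom c) = pt u.1 c := congr($(f1.pt_hom u) c).symm
      have u2 (c) : pt u (f2.hom c) = pt u.2 c := congr($(f2.pt_hom u) c).symm
      obtain ⟨γ, hγ⟩ := fib u.1 u.2 ((pt (k := k)).injective (AlgHom.ext fun c => by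
        rw [hq.pt_hom, hq.pt_hom, AlgHom.comp_apply, AlgHom.comp_apply, ← u1, ← u2, ← sub_eq_zero,
          ← map_sub, hu, AlgHom.comp_apply, Ideal.Quotient.mkₐ_eq_mk,
          (Ideal.Quotient.eq_zero_iff_mem (I := I)).2 (Ideal.subset_span (Set.mem_range_self c)),
          map_zero]))
      rw [map_zero, ← AlgHom.comp_apply, ← hu, map_prod]
      refine Finset.prod_eq_zero (Finset.mem_univ γ) ?_
      rw [map_sub, u1, u2, hγ, (ha.rg γ).pt_hom, AlgHom.comp_apply, sub_self]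
  rw [map_zero, Ideal.Quotient.mkₐ_eq_mk, Ideal.Quotient.liftₐ_apply, Ideal.Quotient.lift_mk,
    RingHom.coe_coe, map_prod] at key
  obtain ⟨γ, -, h⟩ := Finset.prod_eq_zero_iff.1 key
  rw [map_sub, z1, z2, sub_eq_zero] at h
  exact hb γ h

theorem surj_of_integral [IsDomain (B k P)] {q : P → P} (hq : Rg k q)
    (h : hq.hom.toRingHom.IsIntegral) (O : Aic k) (y : Pt k P O) : ∃ x, hq.pm x = y := by
  have : IsNoetherianRing (B k P) := Algebra.FiniteType.isNoetherianRing k _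
  obtain ⟨ψ, hψ⟩ := Lang.lift_point O.root _ h (Lang.injective_of_integral _ h) y.toRingHom
  have h1 (c) : ψ (hq.hom c) = y c := congr($hψ c)
  exact ⟨⟨ψ, fun c => by
    rw [← hq.hom.commutes c]; exact (h1 _).trans (y.commutes c)⟩, AlgHom.ext h1⟩

theorem finite_of_integral (hq : Rg k q) (h : hq.hom.toRingHom.IsIntegral) (y : Q) :
    {x | q x = y}.Finite := by
  obtain ⟨s, hs⟩ := Algebra.FiniteType.out (R := k) (A := B k P)
  choose p hp hp' using h
  refine Set.Finite.of_injOn (f := fun (x : P) (b : s) => pt (k := k) x b.1)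
    (t := Set.univ.pi fun b : s => {c | ((p b.1).map (pt (k := k) y).toRingHom).IsRoot c}) ?_ ?_
    (Set.Finite.pi fun b => Polynomial.finite_setOfPred_isRoot ((hp b.1).map _).ne_zero)
  · rintro x rfl b -
    have := congrArg (pt (k := k) x).toRingHom (hp' b.1)
    rw [map_zero, Polynomial.hom_eval₂] at this
    rw [Set.mem_ofPred_eq, Polynomial.IsRoot, Polynomial.eval_map, hq.pt_hom]
    exact this
  · intro x _ x' _ hx
    exact (pt (k := k)).injective
      (AlgHom.ext_of_adjoin_eq_top hs fun b hb => congrFun hx ⟨b, hb⟩)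

theorem Tors.surjective (h : Tors k a q) : Surjective q := by
  intro y
  obtain ⟨x, hx⟩ := h.surj (Aic.ofField k k) (pt y)
  obtain ⟨x, rfl⟩ := pt.surjective x
  exact ⟨x, (pt (k := k)).injective ((h.rg.pm_pt x).symm.trans hx)⟩

theorem Tors.prod (h : Tors k a q) :
    Tors k (fun γ (x : P × R) => (a γ x.1, x.2)) fun x => (q x.1, x.2) := by
  have h1 (γ) := h.act.rg γ
  have h2 := h.rg
  have e0 (O : Aic k) (x : Pt k R O) : (Rg.id (k := k)).pm x = x := Rg.id.pm_id (fun _ => rfl) x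
  refine ⟨⟨fun γ => ((h1 γ).comp Rg.id.fst).pair Rg.id.snd, fun x => by rw [h.act.one],
    fun γ δ x => by rw [h.act.mul]⟩, (h2.comp Rg.id.fst).pair Rg.id.snd,
    fun γ x => by rw [h.inv], fun O y => ?_, fun O x x' hx => ?_⟩
  · obtain ⟨x, hx⟩ := h.surj O (Rg.id.fst.pm y)
    exact ⟨x.pair (Rg.id.snd.pm y), by rw [h2.pm_prod .id, hx, e0, Pt.pair_eta]⟩
  · rw [← Pt.pair_eta x, ← Pt.pair_eta x', h2.pm_prod .id, h2.pm_prod .id, e0, e0] at hx
    have e1 := congrArg (Rg.id (k := k)).fst.pm hx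
    have e2 := congrArg (Rg.id (k := k)).snd.pm hx
    rw [Pt.fst_pair, Pt.fst_pair] at e1
    rw [Pt.snd_pair, Pt.snd_pair] at e2
    obtain ⟨γ, hγ⟩ := h.fib O _ _ e1
    refine ⟨γ, ?_⟩
    rw [← Pt.pair_eta x, (h1 γ).pm_prod .id, e0, ← hγ, e2, Pt.pair_eta]

/-- Transport along isomorphisms. -/
theorem Tors.conj (h : Tors k a q) {a' : Γ → P' → P'} {q' : P' → Q'} {i : P' → P} {i' : P → P'}
    {j : Q → Q'} {j' : Q' → Q} (hi : Rg k i) (hi' : Rg k i') (hj : Rg k j) (hj' : Rg k j')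
    (i1 : ∀ x, i' (i x) = x) (i2 : ∀ x, i (i' x) = x) (j1 : ∀ x, j' (j x) = x)
    (j2 : ∀ x, j (j' x) = x) (ea : ∀ γ x, i (a' γ x) = a γ (i x)) (eq : ∀ x, q' x = j (q (i x))) :
    Tors k a' q' := by
  have e1 (γ x) : a' γ x = i' (a γ (i x)) := by rw [← ea, i1]
  have r1 (γ) : Rg k (a' γ) := (hi'.comp ((h.act.rg γ).comp hi)).congr (e1 γ)
  have r2 : Rg k q' := (hj.comp (h.rg.comp hi)).congr eq
  have e2 (O : Aic k) (x : Pt k P' O) : h.rg.pm (hi.pm x) = hj'.pm (r2.pm x) :=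
    hi.pm_comm h.rg r2 hj' (fun x => by rw [eq, j1]) x
  refine ⟨⟨r1, fun x => by rw [e1, h.act.one, i1], fun γ δ x => by rw [e1, h.act.mul, e1 γ, ea]⟩,
    r2, fun γ x => by rw [eq, ea, h.inv, eq], fun O y => ?_, fun O x x' hx => ?_⟩
  · obtain ⟨x, hx⟩ := h.surj O (hj'.pm y)
    refine ⟨hi'.pm x, ?_⟩
    rw [hi'.pm_comm r2 h.rg hj (fun x => by rw [eq, i2]), hx, hj'.pm_pm_id hj j2]
  · obtain ⟨γ, hγ⟩ := h.fib O (hi.pm x) (hi.pm x') (by rw [e2, e2, hx])
    refine ⟨γ, ?_⟩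
    rw [← hi.pm_pm_id hi' i1 x', hγ, ← (r1 γ).pm_comm hi hi (h.act.rg γ) (ea γ),
      hi.pm_pm_id hi' i1]

/-- Base change. -/
theorem Tors.fibre (h : Tors k a q) {y : R → Q} {val : P' → P × R}
    (hv : IsEq k val (fun x => q x.1) fun x => y x.2) {a' : Γ → P' → P'}
    (ea : ∀ γ x, val (a' γ x) = (a γ (val x).1, (val x).2)) :
    Tors k a' fun x => (val x).2 := by
  have hy : Rg k y := by
    rcases isEmpty_or_nonempty R with hR | ⟨⟨r⟩⟩
    · exact rg_of_forall fun b => (Rg.const 0).congr fun x => hR.elim x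
    · obtain ⟨p, -⟩ := h.surjective (y r)
      exact hv.rg₂.comp (g := fun x => (p, x)) ((Rg.const p).pair .id)
  have v1 := hv.rg.fst
  have v2 := hv.rg.snd
  have r1 (γ) : Rg k (a' γ) := hv.lift ((((h.act.rg γ).comp v1).pair v2).congr (ea γ))
  have p1 (O : Aic k) (w : Pt k P' O) : (Rg.id (k := k)).fst.pm (hv.rg.pm w) = v1.pm w :=
    hv.rg.pm_pm _ v1 (fun _ => rfl) w
  have p2 (O : Aic k) (w : Pt k P' O) : (Rg.id (k := k)).snd.pm (hv.rg.pm w) = v2.pm w :=
    hv.rg.pm_pm _ v2 (fun _ => rfl) w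
  refine ⟨⟨r1, fun x => hv.inj (by rw [ea, h.act.one]),
    fun γ δ x => hv.inj (by rw [ea, ea, ea, h.act.mul])⟩, v2, fun γ x => by rw [ea],
    fun O r => ?_, fun O w w' hw => ?_⟩
  · obtain ⟨x, hx⟩ := h.surj O (hy.pm r)
    obtain ⟨w, hw⟩ := hv.pts O (x.pair r) (by rw [h.rg.pm_pair_fst, hy.pm_pair_snd, hx])
    exact ⟨w, by rw [← p2, hw, Pt.snd_pair]⟩
  · obtain ⟨γ, hγ⟩ := h.fib O (v1.pm w) (v1.pm w') (by
      rw [v1.pm_comm h.rg v2 hy hv.eq, v1.pm_comm h.rg v2 hy hv.eq, hw])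
    refine ⟨γ, hv.pm_inj (Pt.ext_prod ?_ ?_)⟩
    · rw [p1, p1, hγ]
      exact v1.pm_comm (h.act.rg γ) (r1 γ) v1 (fun x => by rw [ea]) w
    · rw [p2, p2, ← hw]
      exact ((r1 γ).pm_pm v2 v2 (fun x => by rw [ea]) w).symm

end

end Pool.Agent.Lib.MP_fc2ced_ag.E
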