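import Pool.Agent.Lib.MP_fc2ced_ag.EPure
import Pool.Agent.Lib.MP_fc2ced_ag.ETrans
import Pool.Agent.Lib.MP_fc2ced_ag.R.Alg

/-! Schur-finiteness descends along a conservative family of objects. -/

open CategoryTheory CategoryTheory.Limits

namespace Pool.Agent.Lib.MP_fc2ced_ag.E

open Ob Pair

variable {k : Type} [Field k] {F : Type} [Field F] [CharZero F]

namespace Trick

variable {M M' N N' W W' : Ob k F}

omit [CharZero F]

theorem uzero_of_eqv (e : Eqv M N) (h : UZero N) : UZero M :=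
  e.elim fun _ hf => hf.uiso.uzero_iff.2 h

theorem uzero_retract (h : UZero N) {s : M ⟶ N} {p : N ⟶ M} (e : s ≫ p = 𝟙 M) : UZero M :=
  UZero.iff_null.2 (e ▸ (h.null_right s).comp p)

theorem null_of_eqv {f : M ⟶ M'} (e : Eqv W' W) (h : Null (tenMap f (𝟙 W))) :
    Null (tenMap f (𝟙 W')) := by
  obtain ⟨u, hu⟩ := e
  refine .of_comp_uiso ((Bij.of_isIso (𝟙 M')).ten hu).uiso ?_
  rw [← tenMap_eq, tenMap_eq']
  exact h.precomp _

theorem null_ten {f : M ⟶ M'} (h : Null (tenMap f (𝟙 W))) (c : Con N) :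
    Null (tenMap f (𝟙 (W.ten N))) :=
  .of_comp_uiso (bij_assoc _ _ _).uiso (by
    rw [← tenMap_id, assoc_nat]
    exact (h.ten c).precomp _)

theorem ten_sum {ι : Type} [Fintype ι] (c : ι → F) (f : ι → (M ⟶ M')) (g : N ⟶ N') :
    tenMap (∑ i, c i • f i) g = ∑ i, c i • tenMap (f i) g := by
  simp only [← tenL_apply, map_sum, map_smul, LinearMap.sum_apply, LinearMap.smul_apply]

theorem sum_ten {ι : Type} [Fintype ι] (c : ι → F) (f : ι → (M ⟶ M')) (g : N ⟶ N') :
    tenMap g (∑ i, c i • f i) = ∑ i, c i • tenMap g (f i) := by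
  simp only [← tenL_apply, map_sum, map_smul]

theorem exists_act {ι α : Type} [Fintype ι] [Fintype α] [DecidableEq α] {φ : ι → Equiv.Perm α}
    (hφ : Function.Injective φ) {r : ι → F} (hr : r ≠ 0) :
    ∃ r' : Equiv.Perm α → F, r' ≠ 0 ∧ ∀ M : Ob k F, act M r' = ∑ s, r s • reidx M (φ s) := by
  refine ⟨Function.extend φ r 0, fun h => hr (funext fun s => ?_), fun M => ?_⟩
  · simpa [hφ.extend_apply] using congrFun h (φ s)
  · refine (Fintype.sum_of_injective φ hφ _ _ (fun σ hσ => ?_) fun s => ?_).symm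
    · rw [Function.extend_apply' _ _ _ hσ]; simp
    · rw [hφ.extend_apply]

theorem null_emb {α β γ ι : Type} [Finite α] [Finite β] [Finite γ] [Fintype ι] (cM : Con M)
    (e : β ⊕ α ≃ γ) (π : Equiv.Perm β) {c : ι → F} {s : ι → Equiv.Perm α} {f : ι → (N ⟶ N')}
    (h : Null (∑ i, c i • tenMap (reidx M (s i)) (f i))) :
    Null (∑ i, c i • tenMap (reidx M (e.permCongr (π.sumCongr (s i)))) (f i)) := by
  refine .of_uiso_comp ((bij_assoc _ _ _).comp
    ((bij_sumHom e).ten (Bij.of_isIso (𝟙 N)))).uiso ?_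
  have h1 := (h.ten₂ (reidx M π) (cM.pow β)).comp
    (assoc _ _ _ ≫ tenMap (sumHom M e) (𝟙 N'))
  rw [sum_ten, Preadditive.sum_comp] at h1
  rw [Preadditive.comp_sum]
  convert h1 using 2 with i
  rw [Linear.comp_smul, Linear.smul_comp, ← Category.assoc (tenMap _ _), assoc_nat, Category.assoc,
    Category.assoc, ← tenMap_comp, ← tenMap_comp, sumHom_reidx, Category.id_comp,
    Category.comp_id]

/-- One block of a product and the other blocks. -/
def blk {J : Type} [DecidableEq J] (α : Type) (j : J) : ({i // i ≠ j} × α) ⊕ α ≃ J × α where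
  toFun := Sum.elim (fun x => (x.1.1, x.2)) fun a => (j, a)
  invFun x := if h : x.1 = j then .inr x.2 else .inl (⟨x.1, h⟩, x.2)
  left_inv := by
    rintro (⟨⟨i, h⟩, a⟩ | a)
    · exact dif_neg h
    · exact dif_pos rfl
  right_inv := by
    rintro ⟨i, a⟩
    by_cases h : i = j <;> simp [h]

theorem blk_perm {J α : Type} [DecidableEq J] (j : J) (σ : J → Equiv.Perm α) (s : Equiv.Perm α) :
    (blk α j).permCongr ((Equiv.prodCongrRight fun i : {i // i ≠ j} => σ i).sumCongr s) =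
      Equiv.prodCongrRight (Function.update σ j s) := by
  refine Equiv.ext fun x => ?_
  obtain ⟨⟨⟨i, h⟩, a⟩ | a, rfl⟩ := (blk α j).surjective x
  · rw [Equiv.permCongr_apply, Equiv.symm_apply_apply]
    change (i, σ i a) = (i, Function.update σ j s i a)
    rw [Function.update_of_ne h]
  · rw [Equiv.permCongr_apply, Equiv.symm_apply_apply]
    change (j, s a) = (j, Function.update σ j s j a)
    rw [Function.update_self]

theorem exists_idem [CharZero F] {α : Type} [Fintype α] [DecidableEq α] {r : Equiv.Perm α → F}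
    (hr : r ≠ 0) : ∃ e a : Equiv.Perm α → F, e ≠ 0 ∧ act M e = act M r ≫ act M a ∧
      act M e ≫ act M e = act M e := by
  have : NeZero ((Nat.card (Equiv.Perm α) : ℕ) : F) := ⟨by
    have := Nat.card_pos (α := Equiv.Perm α)
    exact_mod_cast this.ne'⟩
  let x : MonoidAlgebra F (Equiv.Perm α) := .ofCoeff (Finsupp.equivFunOnFinite.symm r)
  obtain ⟨e, he, hI⟩ := IsSemisimpleRing.ideal_eq_span_idempotent (Ideal.span {x})
  obtain ⟨a, ha⟩ := Ideal.mem_span_singleton'.1 (hI ▸ Ideal.subset_span rfl : e ∈ Ideal.span {x})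
  obtain ⟨b, hb⟩ := Ideal.mem_span_singleton'.1 (hI ▸ Ideal.subset_span rfl : x ∈ Ideal.span {e})
  refine ⟨e.coeff, a.coeff, fun h0 => hr ?_, ?_, by rw [← SFA.act_mul, he.eq]⟩
  · have h1 : e = 0 := MonoidAlgebra.coeff_eq_zero.1 (DFunLike.coe_injective h0)
    rw [h1, mul_zero] at hb
    exact (congrArg (fun y : MonoidAlgebra F (Equiv.Perm α) => (y.coeff : _ → F)) hb).symm
  · rw [← ha, SFA.act_mul]
    rfl

theorem uzero_pow {B : Ob k F} (cB : Con B) (cW : Con W)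
    (cons : ∀ A' : Ob k F, Con A' → UZero (A'.ten B) → UZero (A'.ten W)) (α : Type) [Finite α] :
    ∀ N : Ob k F, Con N → UZero (N.ten (B.pow α)) → UZero (N.ten (W.pow α)) := by
  refine Finite.induction_empty_option (P := fun α => ∀ [Finite α] (N : Ob k F), Con N →
    UZero (N.ten (B.pow α)) → UZero (N.ten (W.pow α)))
    (fun e ih _ N c h => ?_) (fun N c h => ?_) (fun {α} _ ih _ N c h => ?_) α
  · have := Finite.of_equiv _ e.symm
    exact uzero_of_eqv ((Eqv.refl N).ten (.reidx _ e.symm))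
      (ih N c (uzero_of_eqv ((Eqv.refl N).ten (.reidx _ e)) h))
  · exact uzero_of_eqv ((Eqv.refl N).ten ((Eqv.empty _ _).trans (Eqv.empty _ _).symm)) h
  · have h1 := ih _ (c.ten cB) (uzero_of_eqv ((Eqv.assoc _ _ _).symm.trans ((Eqv.refl N).ten
      ((Eqv.swap _ _).trans (Eqv.option _ _).symm))) h)
    have h2 := cons _ (c.ten (cW.pow α)) (uzero_of_eqv
      ((Eqv.assoc _ _ _).symm.trans (((Eqv.refl N).ten (.swap _ _)).trans (.assoc _ _ _))) h1)
    exact uzero_of_eqv (((Eqv.refl N).ten (.option _ _)).trans (.assoc _ _ _)) h2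

theorem exists_pow_pow (W : Ob k F) (ι α : Type) [Finite ι] [Finite α] :
    ∃ (ι' : Type) (_ : Finite ι'), Eqv ((W.pow ι).pow α) (W.pow ι') :=
  pow_induction (P := fun T => ∃ (ι' : Type) (_ : Finite ι'), Eqv T (W.pow ι'))
    (fun _ _ e ⟨ι', h, e'⟩ => ⟨ι', h, e.trans e'⟩) ⟨Empty, inferInstance, (Eqv.empty _ _).symm⟩
    (fun _ ⟨ι', _, e'⟩ => ⟨ι' ⊕ ι, inferInstance,
      (e'.ten (.refl _)).trans ⟨_, bij_sumHom (Equiv.refl _)⟩⟩) α

theorem good_emb (gW : Good W) {α β : Type} [Finite α] [Finite β] (j : β ↪ α)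
    (h : Good (M.ten (W.pow β))) : Good (M.ten (W.pow α)) := by
  classical
  let e : β ⊕ {a // a ∉ Set.range j} ≃ α :=
    ((Equiv.ofInjective j j.injective).sumCongr (.refl _)).trans (Equiv.sumCompl _)
  exact .of_eqv (((Eqv.refl M).ten (Eqv.symm ⟨_, bij_sumHom e⟩)).trans (.assoc _ _ _))
    (h.ten (gW.pow _))

theorem exists_image {Γ : Type} [Group Γ] [Fintype Γ] (ρ : Γ →* End M) {ε : MonoidAlgebra F Γ}
    {φ : Γ → F} (h2 : ε * ε = ε) (h3 : ∀ γ, ε * MonoidAlgebra.single γ 1 * ε = φ γ • ε) :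
    ∃ (P : Ob k F) (s : P ⟶ M) (p : M ⟶ P), s ≫ p = 𝟙 P ∧
      p ≫ s = MonoidAlgebra.lift F (End M) Γ ρ ε ∧ ∀ γ, s ≫ ρ γ ≫ p = φ γ • 𝟙 P := by
  let R := MonoidAlgebra.lift F (End M) Γ ρ
  obtain ⟨P, s, p, hsp, hps⟩ := exists_split_idem (R ε) (by rw [← End.mul_def, ← map_mul, h2])
  refine ⟨P, s, p, hsp, hps, fun γ => ?_⟩
  have := congr(s ≫ R $(h3 γ) ≫ p)
  rw [map_mul, map_mul, map_smul, MonoidAlgebra.lift_single, one_smul, End.mul_def, End.mul_def,
    ← hps] at this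
  have e : s ≫ (φ γ • (p ≫ s : M ⟶ M)) ≫ p = φ γ • 𝟙 _ := by
    simp [hsp]
  simpa [reassoc_of% hsp, hsp] using this.trans e

end Trick

open Trick

/-- A relation on the powers of `A ⊗ B` gives a relation on powers of `A` alone. -/
theorem exists_null_ten {A B : Ob k F} (cA : Con A) (cB : Con B) (h : SF (A.ten B)) :
    ∃ (d e : ℕ) (r : Equiv.Perm (Fin d) → F), 0 < d ∧ r ≠ 0 ∧
      Null (tenMap (act A r) (𝟙 (B.pow (Fin e)))) := by
  classical
  obtain ⟨d, r, hd, hr, h⟩ := h.exists_pos (cA.ten cB)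
  have h1 : Null (∑ σ, r σ • tenMap (reidx A σ) (reidx B σ)) :=
    .of_comp_uiso bij_tenPow.uiso (by rw [SF.tenPow_act]; exact h.precomp _)
  let I : Submodule F (Equiv.Perm (Fin d) × Equiv.Perm (Fin d) → F) := (nullSub _ _).comap
    (Fintype.linearCombination F fun p => tenMap (reidx A p.1) (reidx B p.2))
  have hI (z) : z ∈ I ↔ Null (∑ p, z p • tenMap (reidx A p.1) (reidx B p.2)) := Iff.rfl
  obtain ⟨J, _, _, y, hy, H⟩ := alg_split I (fun z hz g g' => by
    have := (((hI z).1 hz).comp (tenMap (𝟙 _) (reidx B g⁻¹))).precomp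
      (tenMap (𝟙 _) (reidx B g'⁻¹))
    rw [Preadditive.sum_comp, Preadditive.comp_sum] at this
    rw [hI]
    convert this using 1
    refine Fintype.sum_equiv ((Equiv.refl _).prodCongr
      ((Equiv.mulLeft g).trans (Equiv.mulRight g'))) _ _ fun p => ?_
    change _ = _ ≫ (z (p.1, g * p.2 * g') • tenMap (reidx A p.1) (reidx B (g * p.2 * g'))) ≫ _
    rw [Linear.smul_comp, Linear.comp_smul, ← tenMap_comp, ← tenMap_comp, ← reidx_mul,
      ← reidx_mul]
    simp [mul_assoc]) hr (by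
    rw [hI, Fintype.sum_prod_type]
    simpa using h1)
  let q := Fintype.equivFin (J × Fin d)
  let φ : (J → Equiv.Perm (Fin d)) → Equiv.Perm (Fin (Fintype.card (J × Fin d))) :=
    fun σ => q.permCongr (Equiv.prodCongrRight σ)
  have hφ : Function.Injective φ := fun σ τ e => funext fun j => Equiv.ext fun a =>
    congrArg Prod.snd (DFunLike.congr_fun (q.permCongr.injective e) (j, a))
  obtain ⟨r', h2, h3⟩ := exists_act (k := k) hφ hy
  have : Nonempty (Fin d) := ⟨⟨0, hd⟩⟩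
  refine ⟨_, d, r', Fintype.card_pos, h2, ?_⟩
  let I' : Submodule F ((J → Equiv.Perm (Fin d)) × Equiv.Perm (Fin d) → F) := (nullSub _ _).comap
    (Fintype.linearCombination F fun p => tenMap (reidx A (φ p.1)) (reidx B p.2))
  have hI' (z) : z ∈ I' ↔ Null (∑ p, z p • tenMap (reidx A (φ p.1)) (reidx B p.2)) := Iff.rfl
  have h4 := (hI' _).1 (H I' fun z hz j σ => by
    have h5 := null_emb cA ((blk (Fin d) j).trans q)
      (Equiv.prodCongrRight fun i : {i // i ≠ j} => σ i) ((hI z).1 hz)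
    have h6 : Function.Injective fun p : Equiv.Perm (Fin d) × Equiv.Perm (Fin d) =>
        (Function.update σ j p.1, p.2) := fun p p' e => by
      have e1 := congrFun (congrArg Prod.fst e) j
      simp only [Function.update_self] at e1
      exact Prod.ext e1 (Prod.ext_iff.1 e).2
    rw [hI', ← Fintype.sum_of_injective _ h6 _ _ (fun p hp => ?_) fun p => ?_]
    · exact h5
    · rw [if_neg, zero_smul]
      refine fun h7 => hp ⟨(p.1 j, p.2), Prod.ext ?_ rfl⟩
      exact Function.update_eq_iff.2 ⟨rfl, fun i hi => (h7 i hi).symm⟩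
    · rw [if_pos fun i hi => Function.update_of_ne hi _ _]
      simp only [φ, ← blk_perm, Function.update_self]
      rfl)
  rw [h3, ten_sum]
  rw [Fintype.sum_prod_type] at h4
  simpa using h4

omit [CharZero F] in
theorem SF.twist {A W : Ob k F} (cA : Con A) (cW : Con W) (hW : Sg W) {d : ℕ} (hd : 0 < d)
    {r : Equiv.Perm (Fin d) → F} (hr : r ≠ 0) (h : Null (tenMap (act A r) (𝟙 W))) :
    SF (A.ten W) := by
  obtain ⟨n, rfl⟩ := Nat.exists_eq_succ_of_ne_zero hd.ne'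
  have h1 : Null (tenMap (act A r) (𝟙 (W.pow (Fin (n + 1))))) :=
    null_of_eqv ((Eqv.reidx W (finSuccEquiv n)).trans ((Eqv.option _ _).trans (.swap _ _)))
      (null_ten h (cW.pow _))
  choose c hc h' using hW (Fin (n + 1))
  refine ⟨n + 1, fun σ => r σ / c σ, fun h0 => hr (funext fun σ =>
    (div_eq_zero_iff.1 (congrFun h0 σ)).resolve_right (hc σ)),
    .of_uiso_comp bij_tenPow.uiso ?_⟩
  rw [← SF.tenPow_act]
  refine Null.comp ?_ _
  have h2 := Null.sum (s := Finset.univ) fun σ _ =>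
    ((h' σ).ten₂ (reidx A σ) (cA.pow _)).smul (r σ / c σ)
  convert h2.add h1 using 1
  rw [act, ten_sum, ← Finset.sum_add_distrib]
  refine Finset.sum_congr rfl fun σ _ => ?_
  simp only [← tenL_apply, map_sub, map_smul, smul_sub, smul_smul, div_mul_cancel₀ _ (hc σ),
    sub_add_cancel]

theorem sf_of_conserv₁ {A B W : Ob k F} (cA : Con A) (cB : Con B) (cW : Con W) (hW : Sg W)
    (h : SF (A.ten B)) (cons : ∀ A' : Ob k F, Con A' → UZero (A'.ten B) → UZero (A'.ten W)) :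
    ∃ e : ℕ, SF (A.ten (W.pow (Fin e))) := by
  obtain ⟨d, n, r, hd, hr, h1⟩ := exists_null_ten cA cB h
  obtain ⟨e, a, he, h2, h3⟩ := exists_idem (M := A) hr
  obtain ⟨P, s, p, hsp, hps⟩ := exists_split_idem _ h3
  have h4 : UZero (P.ten (B.pow (Fin n))) := UZero.iff_null.2 (by
    have := (h1.comp (tenMap (act A a ≫ p) (𝟙 _))).precomp (tenMap s (𝟙 _))
    rwa [← tenMap_comp, ← tenMap_comp, ← reassoc_of% h2, ← hps, Category.assoc, hsp,
      Category.comp_id, hsp, Category.comp_id, Category.comp_id, tenMap_id] at this)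
  have h5 := uzero_pow cB cW cons (Fin n) P
    ((cA.pow _).retract (hsp ▸ .id : UIso (s ≫ p))) h4
  refine ⟨n, .twist cA (cW.pow _) (hW.pow cW _) hd he ?_⟩
  rw [← hps, ← Category.comp_id (𝟙 _), tenMap_comp]
  exact (h5.null_right _).comp _

theorem sf_of_conserv {I : Type} [Fintype I] {A W : Ob k F} {B : I → Ob k F} (cA : Con A)
    (cB : ∀ i, Con (B i)) (cW : Con W) (hW : Sg W) (h : ∀ i, SF (A.ten (B i)))
    (cons : ∀ A' : Ob k F, Con A' → (∀ i, UZero (A'.ten (B i))) → UZero (A'.ten W)) :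
    ∃ e : ℕ, SF (A.ten (W.pow (Fin e))) := by
  classical
  have H (S : Finset I) : ∃ N : Ob k F, Con N ∧ SF (A.ten N) ∧
      ∀ i ∈ S, ∃ (s : B i ⟶ N) (p : N ⟶ B i), s ≫ p = 𝟙 _ := by
    induction S using Finset.induction_on with
    | empty => exact ⟨_, .of_uzero uzero_cP, .of_uzero (uzero_cP.ten_left cA), by simp⟩
    | insert j S _ ih =>
      obtain ⟨N, h1, h2, h3⟩ := ih
      refine ⟨_, (cB j).prod h1, .ses₂ ((ses_prod _ _).ten_left A) (cA.ten (cB j)) (cA.ten h1)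
        (h j) h2, fun i hi => ?_⟩
      rcases Finset.mem_insert.1 hi with rfl | hi
      · exact ⟨inl _ _, fst _ _, rfl⟩
      · obtain ⟨s, p, e⟩ := h3 i hi
        exact ⟨s ≫ inr _ _, snd _ _ ≫ p, e⟩
  obtain ⟨N, h1, h2, h3⟩ := H Finset.univ
  refine sf_of_conserv₁ cA h1 cW hW h2 fun A' c h0 => cons A' c fun i => ?_
  obtain ⟨s, p, e⟩ := h3 i (Finset.mem_univ _)
  exact uzero_retract h0 (s := tenMap (𝟙 _) s) (p := tenMap (𝟙 _) p)
    (by rw [← tenMap_comp, e, Category.comp_id, tenMap_id])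

omit [CharZero F] in
theorem exists_transfer' {X X' : Fn k} {P : Pair X} {P' : Pair X'} {Γ : Type} [Group Γ]
    [Fintype Γ] {q : ∀ ⦃O⦄, X.X O → X'.X O} (hq : IsMap P P' q) {a : Γ → ∀ ⦃O⦄, X.X O → X.X O}
    (ha : ∀ γ, IsMap P P (a γ)) (mul : ∀ γ δ ⦃O⦄ (x : X.X O), a (γ * δ) x = a γ (a δ x))
    (inv : ∀ γ ⦃O⦄ (x : X.X O), P.N x → q (a γ x) = q x)
    (dead : ∀ ⦃O⦄ (x : X.X O), P.N x → P'.D (q x) → P.D x)
    (surj : ∀ ⦃O⦄ (y : X'.X O), P'.N y → ∃ x, P.N x ∧ q x = y)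
    (fib : ∀ ⦃O⦄ (x x' : X.X O), P.N x → P.N x' → q x = q x' → ∃ γ, x' = a γ x) :
    ∃ t : P'.ob F ⟶ P.ob F, hq.hom F ≫ t = ∑ γ, (ha γ).hom F ∧
      t ≫ hq.hom F = (Fintype.card Γ : F) • 𝟙 _ := by
  classical
  choose s hs hq' using surj
  let c ⦃O⦄ (y : X'.X O) : (P.ob F).V O := if h : P'.N y then ∑ γ, P.cl F (a γ (s y h)) else 0
  have key ⦃O⦄ (x : X.X O) (hx : P.N x) : c (q x) = ∑ γ, P.cl F (a γ x) := by
    obtain ⟨δ, h⟩ := fib x _ hx (hs _ (hq.n x hx)) (hq' _ (hq.n x hx)).symm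
    simp only [c, dif_pos (hq.n x hx)]
    rw [h, ← Equiv.sum_comp (Equiv.mulRight δ) fun γ => P.cl F (a γ x)]
    simp [mul]
  have H : IsLift P' (P.ob F) c :=
    ⟨fun _ y hy h => by
      rw [← hq' y hy] at h ⊢
      rw [key _ (hs y hy)]
      exact Finset.sum_eq_zero fun γ _ =>
        P.cl_dead ((ha γ).d _ (hs y hy) (dead _ (hs y hy) h)), fun _ _ g y hy => by
      rw [← hq' y hy, hq.nat g _ (hs y hy), key _ (hs y hy), key _ (P.sN g _ (hs y hy)), map_sum]
      exact Finset.sum_congr rfl fun γ _ => by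
        rw [map_cl g ((ha γ).n _ (hs y hy)), (ha γ).nat g _ (hs y hy)]⟩
  refine ⟨H.hom, Pair.hom_ext fun O x hx _ => ?_, Pair.hom_ext fun O y hy _ => ?_⟩
  · rw [Ob.comp_apply, hq.hom_cl hx, H.hom_cl (hq.n x hx), key x hx, sum_app,
      LinearMap.sum_apply]
    exact Finset.sum_congr rfl fun γ _ => ((ha γ).hom_cl hx).symm
  · rw [Ob.comp_apply, H.hom_cl hy, ← hq' y hy, key _ (hs y hy), map_sum,
      Finset.sum_congr rfl fun γ _ => by
        rw [hq.hom_cl ((ha γ).n _ (hs y hy)), inv γ _ (hs y hy)],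
      Finset.sum_const, Finset.card_univ, ← Nat.cast_smul_eq_nsmul F]
    rfl

theorem sf_of_transfer {Γ J I : Type} [Group Γ] [Fintype Γ] [Fintype J] [Fintype I]
    {ε : J → MonoidAlgebra F Γ} {φ : J → Γ → F} (h1 : ∑ j, ε j = 1) (h2 : ∀ j, ε j * ε j = ε j)
    (h3 : ∀ j γ, ε j * MonoidAlgebra.single γ 1 * ε j = φ j γ • ε j) {M : Ob k F}
    {M' K : I → Ob k F} (ρ : Γ →* End M) (ρ' : ∀ i, Γ →* End (M' i)) (cM : Con M)
    (cM' : ∀ i, Con (M' i)) (gK : ∀ i, Good (K i)) (Q : ∀ i, M.ten (M' i) ⟶ K i)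
    (t : ∀ i, K i ⟶ M.ten (M' i)) (h : ∀ i, Q i ≫ t i = ∑ γ, tenMap (ρ γ) (ρ' i γ))
    (ι : Type) [Finite ι]
    (cons : ∀ η : MonoidAlgebra F Γ, η ≠ 0 → η * η = η → ∀ Θ : Theory k F,
      (∀ (i : I) (N : Ob k F) (hN : Con N),
        (Θ.ten N hN).Φ.map (∑ γ, η.coeff γ • (ρ' i γ : M' i ⟶ M' i)) = 0) →
      IsZero (Θ.Φ.obj (((gP k).ob F).pow ι))) :
    ∃ (ι' : Type) (_ : Finite ι'), SF (M.ten (((gP k).ob F).pow ι')) := by
  choose P s p hsp hps H using fun j => exists_image ρ (h2 j) (h3 j)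
  have cP (j : J) : Con (P j) := cM.retract (hsp j ▸ .id : UIso (s j ≫ p j))
  have key (j : J) : ∃ (ι' : Type) (_ : Finite ι'), Good ((P j).ten (((gP k).ob F).pow ι')) := by
    by_cases h0 : ε j = 0
    · refine ⟨Empty, inferInstance, .of_uzero (.ten (UZero.iff_null.2 ?_) (con_gP.pow _))⟩
      rw [← hsp, ← Category.comp_id (p j), ← hsp, ← Category.assoc (p j), hps, h0, map_zero]
      exact (Null.zero.comp _).precomp _
    obtain ⟨η, e0, e2, e3, e4⟩ := exists_dual h0 (h2 j) (h3 j)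
    choose B s' p' hsp' hps' H' using fun i => exists_image (ρ' i) e2 e3
    have cB (i : I) : Con (B i) := (cM' i).retract (hsp' i ▸ .id : UIso (s' i ≫ p' i))
    obtain ⟨n, hn⟩ := sf_of_conserv (cP j) cB (con_gP.pow ι) (Sg.pow con_gP sg_gP ι)
      (fun i => Good.sf ((gK i).retract (s := tenMap (s j) (s' i) ≫ Q i)
        (p := t i ≫ tenMap (p j) (p' i)) (by
          have e : (tenMap (s j) (s' i) ≫ Q i) ≫ t i ≫ tenMap (p j) (p' i) =
              (∑ γ, φ j γ * φ j γ⁻¹) • 𝟙 _ := by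
            rw [Category.assoc, reassoc_of% h i, Preadditive.sum_comp, Preadditive.comp_sum,
              Finset.sum_smul]
            refine Finset.sum_congr rfl fun γ _ => ?_
            rw [← tenMap_comp, ← tenMap_comp, H, H']
            simp only [← tenL_apply, map_smul, LinearMap.smul_apply, smul_smul]
            simp [mul_comm]
          rw [e]
          exact UIso.id.smul e4)))
      fun A' c h0 => uzero_of_eqv (.swap _ _) fun Θ => cons η e0 e2 (Θ.ten A' c) fun i N hN => by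
        have e : (∑ γ, η.coeff γ • (ρ' i γ : M' i ⟶ M' i)) = p' i ≫ s' i := by
          rw [hps', MonoidAlgebra.lift_apply, Finsupp.sum_fintype _ _ fun _ => by simp]
        have z : UZero (((B i).ten N).ten A') :=
          uzero_of_eqv ((Eqv.swap _ _).trans (.assoc _ _ _)) ((h0 i).ten hN)
        have z' : IsZero (((Θ.ten A' c).ten N hN).Φ.obj (B i)) := z Θ
        rw [e, Functor.map_comp, z'.eq_of_src (((Θ.ten A' c).ten N hN).Φ.map (s' i)) 0, comp_zero]
    obtain ⟨ι', f, e⟩ := exists_pow_pow ((gP k).ob F) ι (Fin n)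
    exact ⟨ι', f, .of_eqv ((Eqv.refl _).ten e.symm) ⟨(cP j).ten ((con_gP.pow _).pow _), hn⟩⟩
  choose ι' f g using key
  refine ⟨Σ j, ι' j, inferInstance, Good.sf (.of_sum
    (fun j => good_emb .gP (Function.Embedding.sigmaMk j) (g j))
    (fun j => tenMap (p j) (𝟙 _)) (fun j => tenMap (s j) (𝟙 _)) ?_)⟩
  have : ∑ j, tenMap (p j) (𝟙 (((gP k).ob F).pow (Σ j, ι' j))) ≫ tenMap (s j) (𝟙 _) = 𝟙 _ := by
    simp only [← tenMap_comp, hps, Category.comp_id]
    simp only [← tenL_apply, ← LinearMap.sum_apply, ← map_sum, h1, map_one]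
    exact tenMap_id
  exact this ▸ .id

end Pool.Agent.Lib.MP_fc2ced_ag.E
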