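import Pool.Agent.Lib.MP_fc2ced_ag.R.MTb
import Pool.Agent.Lib.MP_fc2ced_ag.R.Tor
import Pool.Agent.Lib.MP_fc2ced_ag.R.Trick

/-! Products, homotopies and finite covers for motives of pairs. -/

open CategoryTheory CategoryTheory.Limits CategoryTheory.Pretriangulated Function Set

namespace Pool.Agent.Lib.MP_fc2ced_ag.E

open Var R Ob Pair Pr
open scoped Pointwise

noncomputable section

variable {k : Type} [Field k] [IsAlgClosed k] {F : Type} [Field F] {P Q R : Type} [Var k P]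
  [Var k Q] [Var k R] {X : Pr k P} {Y : Pr k Q} {Z : Pr k R} {e e' : P → Q} (Θ : Theory k F)

namespace MTc

omit [IsAlgClosed k] in
theorem isMap_congr {X X' : Fn k} {P : Pair X} {P' : Pair X'} {c c' : ∀ ⦃O⦄, X.X O → X'.X O}
    (h : IsMap P P' c) (he : ∀ ⦃O⦄ (x : X.X O), P.N x → c' x = c x) : IsMap P P' c' :=
  ⟨fun _ _ g x hx => by rw [he x hx, he _ (P.sN g x hx), h.nat g x hx],
    fun _ x hx => he x hx ▸ h.n x hx, fun _ x hx hd => he x hx ▸ h.d x hx hd⟩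

omit [IsAlgClosed k] in
theorem hom_congr {X X' : Fn k} {P : Pair X} {P' : Pair X'} {c c' : ∀ ⦃O⦄, X.X O → X'.X O}
    (h : IsMap P P' c) (h' : IsMap P P' c') (he : ∀ ⦃O⦄ (x : X.X O), P.N x → c' x = c x) :
    h'.hom F = h.hom F :=
  Pair.hom_ext fun O x hx _ => by rw [h.hom_cl hx, h'.hom_cl hx, he x hx]

open Classical in
/-- The functions that define a product of open sets. -/
def ps (s : Finset (B k P)) (s' : Finset (B k Q)) : Finset (B k (P × Q)) :=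
  s.image (Rg.id (k := k) (P := P × Q)).fst.hom * s'.image (Rg.id (k := k) (P := P × Q)).snd.hom

open Classical in
/-- The functions that define the union of two inverse images. -/
def pu (s : Finset (B k P)) (s' : Finset (B k Q)) : Finset (B k (P × Q)) :=
  s.image (Rg.id (k := k) (P := P × Q)).fst.hom ∪ s'.image (Rg.id (k := k) (P := P × Q)).snd.hom

variable {O : Type} [CommRing O] [Algebra k O] {s t s₁ t₁ : Finset (B k P)}
  {s' t' : Finset (B k Q)} {s₂ t₂ : Finset (B k R)} {e₀ : P → R}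

omit [IsAlgClosed k] in
theorem ps_iff (x : Pt k (P × Q) O) : (∃ f ∈ ps s s', IsUnit (x f)) ↔
    (∃ f ∈ s, IsUnit ((Rg.id (k := k)).fst.pm x f)) ∧
      ∃ f ∈ s', IsUnit ((Rg.id (k := k)).snd.pm x f) := by
  classical
  rw [ps, ex_mul]
  simp [Rg.pm]

omit [IsAlgClosed k] in
theorem pu_iff (x : Pt k (P × Q) O) : (∃ f ∈ pu s s', IsUnit (x f)) ↔
    (∃ f ∈ s, IsUnit ((Rg.id (k := k)).fst.pm x f)) ∨
      ∃ f ∈ s', IsUnit ((Rg.id (k := k)).snd.pm x f) := by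
  classical
  rw [pu, ex_union]
  simp [Rg.pm]

omit [IsAlgClosed k] in
theorem md_prod (m : X.Md s t) (m' : Y.Md s' t') : (X.prod Y).Md (ps s s') (pu t t') := by
  classical
  constructor
  · rw [ps, opSet_mul, opSet_image (Rg.pt_hom _), opSet_image (Rg.pt_hom _), m.u, m'.u]
    rfl
  · rw [pu, opSet_union, opSet_image (Rg.pt_hom _), opSet_image (Rg.pt_hom _)]
    ext x
    have h1 := Set.ext_iff.1 m.v x.1
    have h2 := Set.ext_iff.1 m'.v x.2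
    simp only [mem_inter_iff, mem_union, mem_preimage, mem_ofPred_eq] at h1 h2 ⊢
    tauto

omit [IsAlgClosed k] in
theorem isMap_prod (s t : Finset (B k P)) (s' t' : Finset (B k Q)) :
    IsMap (opP k (ps s s') (pu t t')) ((opP k s t).prod (opP k s' t'))
      fun _ x => ((Rg.id (k := k)).fst.pm x, (Rg.id (k := k)).snd.pm x) :=
  ⟨fun _ _ _ _ _ => rfl, fun _ x h => (ps_iff x).1 h, fun _ x _ h => (pu_iff x).1 h⟩

variable (F) in
/-- The comparison of the model of a product with a tensor product. -/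
def bt (s t : Finset (B k P)) (s' t' : Finset (B k Q)) :
    (opP k (ps s s') (pu t t')).ob F ⟶ ((opP k s t).ob F).ten ((opP k s' t').ob F) :=
  (isMap_prod s t s' t').hom F ≫ (isLift_ten F _ _).hom

theorem bij_bt (s t : Finset (B k P)) (s' t' : Finset (B k Q)) : Bij (bt F s t s' t') :=
  ((isMap_prod s t s' t').bij (fun _ x _ h => (pu_iff x).2 h)
    (fun _ _ _ _ _ _ _ h => Pt.ext_prod congr(($h).1) congr(($h).2)) fun _ y hy _ =>
      ⟨Pt.pair y.1 y.2, (ps_iff _).2 (by rwa [Pt.fst_pair, Pt.snd_pair]),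
        Prod.ext (Pt.fst_pair _ _) (Pt.snd_pair _ _)⟩).comp (bij_ten _ _)

omit [IsAlgClosed k] in
theorem bt_cl {O : Aic k} {x : Pt k (P × Q) O} (hx : (opP k (ps s s') (pu t t')).N x) :
    (bt F s t s' t').1 O ((opP k (ps s s') (pu t t')).cl F x) =
      (opP k s t).cl F ((Rg.id (k := k)).fst.pm x) ⊗ₜ
        (opP k s' t').cl F ((Rg.id (k := k)).snd.pm x) := by
  rw [bt, Ob.comp_apply, IsMap.hom_cl _ hx, IsLift.hom_cl _ ((isMap_prod s t s' t').n x hx)]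

theorem isMap_pair {c : ∀ ⦃O : Aic k⦄, Pt k P O → Pt k R O}
    (i : IsMap (opP k s t) (opP k s₂ t₂) c) (s' t' : Finset (B k Q)) :
    IsMap (opP k (ps s s') (pu t t')) (opP k (ps s₂ s') (pu t₂ t'))
      fun _ x => Pt.pair (c ((Rg.id (k := k)).fst.pm x)) ((Rg.id (k := k)).snd.pm x) :=
  ⟨fun _ _ g x hx => (Pt.comp_pair g _ _).trans
      (congrArg₂ Pt.pair (i.nat g _ ((ps_iff x).1 hx).1) rfl),
    fun _ x hx => (ps_iff _).2 (by
      rw [Pt.fst_pair, Pt.snd_pair]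
      exact ((ps_iff x).1 hx).imp_left (i.n _)),
    fun _ x hx hd => (pu_iff _).2 (by
      rw [Pt.fst_pair, Pt.snd_pair]
      exact ((pu_iff x).1 hd).imp_left (i.d _ ((ps_iff x).1 hx).1))⟩

theorem pair_bt {c : ∀ ⦃O : Aic k⦄, Pt k P O → Pt k R O}
    (i : IsMap (opP k s t) (opP k s₂ t₂) c) (s' t' : Finset (B k Q)) :
    (isMap_pair i s' t').hom F ≫ bt F s₂ t₂ s' t' = bt F s t s' t' ≫ tenMap (i.hom F) (𝟙 _) :=
  Pair.hom_ext fun O x hx _ => by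
    rw [Ob.comp_apply, Ob.comp_apply, IsMap.hom_cl _ hx, bt_cl ((isMap_pair i s' t').n x hx),
      bt_cl hx, Pt.fst_pair, Pt.snd_pair, tenMap_app, TensorProduct.map_tmul,
      i.hom_cl ((ps_iff x).1 hx).1]
    rfl

/-- The comparison with the twisted theory. -/
def bi (s t : Finset (B k P)) (Y : Pr k Q) :
    Θ.Φ.obj ((opP k (ps s Y.hU.choose) (pu t Y.hV.choose)).ob F) ⟶
      (Θ.ten (Y.ob F) Y.con).Φ.obj ((opP k s t).ob F) := Θ.Φ.map (bt F s t _ _)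

instance (s t : Finset (B k P)) (Y : Pr k Q) : IsIso (bi Θ s t Y) := (bij_bt s t _ _).uiso Θ

theorem pair_bi {c : ∀ ⦃O : Aic k⦄, Pt k P O → Pt k R O}
    (i : IsMap (opP k s t) (opP k s₂ t₂) c) (Y : Pr k Q) :
    Θ.Φ.map ((isMap_pair i _ _).hom F) ≫ bi Θ s₂ t₂ Y =
      bi Θ s t Y ≫ (Θ.ten (Y.ob F) Y.con).Φ.map (i.hom F) :=
  (Θ.Φ.map_comp _ _).symm.trans ((congrArg _ (pair_bt i _ _)).trans (Θ.Φ.map_comp _ _))

omit [IsAlgClosed k] in
theorem sc_bi (s t : Finset (B k P)) (Y : Pr k Q) (a : F) :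
    Θ.sc _ a ≫ bi Θ s t Y = bi Θ s t Y ≫ (Θ.ten (Y.ob F) Y.con).sc _ a := by
  refine (Θ.sc_nat _ a).trans (congrArg (bi Θ s t Y ≫ Θ.Φ.map ·) ?_)
  change _ = tenL (a • 𝟙 _) (𝟙 _)
  rw [map_smul, LinearMap.smul_apply, tenL_apply, tenMap_id]
  rfl

/-- The isomorphism for products. -/
def ci (X : Pr k P) (Y : Pr k Q) : (X.prod Y).mo Θ ≅ X.mo (Θ.ten (Y.ob F) Y.con) :=
  ((md_prod X.md Y.md).cmp Θ).symm ≪≫ asIso (bi Θ _ _ Y) ≪≫ X.md.cmp _

theorem cmp_ci (m : X.Md s t)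
    (i : IsMap (opP k s t) (opP k X.hU.choose X.hV.choose) fun _ x => x) (Y : Pr k Q) :
    ((md_prod m Y.md).cmp Θ).hom ≫ (ci Θ X Y).hom = bi Θ s t Y ≫ (m.cmp _).hom := by
  have e : ∀ ⦃O : Aic k⦄ (x : Pt k (P × Q) O),
      (opP k (ps s Y.hU.choose) (pu t Y.hV.choose)).N x →
      x = Pt.pair ((Rg.id (k := k)).fst.pm x) ((Rg.id (k := k)).snd.pm x) :=
    fun _ x _ => (Pt.pair_eta x).symm
  rw [← (md_prod m Y.md).map_cmp (md_prod X.md Y.md) (isMap_congr (isMap_pair i _ _) e),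
    hom_congr (isMap_pair i _ _) _ e, ← m.map_cmp X.md i, ← reassoc_of% pair_bi Θ i Y]
  simp [ci]

theorem pm_prod (h : Mp X Z e₀) (Y : Pr k Q) {O : Aic k} {x : Pt k (P × Q) O}
    (hx : x.In (X.prod Y).U) (h1 : ((Rg.id (k := k)).fst.pm x).In X.U) :
    (h.prod Y).rg.pm x =
      Pt.pair (h.rg.pm ((Rg.id (k := k)).fst.pm x)) ((Rg.id (k := k)).snd.pm x) := by
  have g0 : RgOn k (X.prod Y).U fun x : P × Q => x.1 := Rg.id.fst.rgOn _
  have g1 : RgOn k (X.prod Y).U fun x : P × Q => e₀ x.1 := h.rg.comp g0 fun _ h => h.1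
  have g2 : RgOn k (X.prod Y).U fun x : P × Q => x.2 := Rg.id.snd.rgOn _
  have e0 := g0.pm_eq Rg.id.fst (fun _ _ => rfl) hx
  rw [← e0] at h1 ⊢
  rw [g0.pm_comp h.rg g1 (fun _ _ _ _ => rfl) hx h1 hx,
    ← g2.pm_eq Rg.id.snd (fun _ _ => rfl) hx]
  exact g1.pm_pair g2 hx

theorem isIso_fst (h : Mp (X.prod (.top k k)) X fun x => x.1) : IsIso (h.mt Θ) := by
  obtain ⟨g, hg⟩ := bij_line (F := F) (P := opP k {1} ∅) (P' := (Fn.line k).top) (by simp)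
    (by simp)
  have m : (Pr.top k k).Md {1} ∅ := ⟨by ext; simp [opSet], by ext; simp [opSet]⟩
  have i : IsMap (opP k (ps X.hU.choose {1}) (pu X.hV.choose (∅ : Finset (B k k))))
      (opP k X.hU.choose X.hV.choose) fun _ x => (Rg.id (k := k)).fst.pm x :=
    ⟨fun _ _ _ _ _ => rfl, fun _ x h => ((ps_iff x).1 h).1,
      fun _ x _ h => ((pu_iff x).1 h).resolve_right (by simp)⟩
  have e : i.hom F = (bt F _ _ _ _ ≫ tenMap (𝟙 _) (g.hom F ≫ aug F _)) ≫ rid _ :=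
    Pair.hom_ext fun O x hx _ => by
      rw [Ob.comp_apply, Ob.comp_apply, i.hom_cl hx, bt_cl hx, tenMap_app,
        TensorProduct.map_tmul, Ob.comp_apply]
      erw [g.hom_cl ((ps_iff x).1 hx).2]
      rw [aug_cl]
      simp [rid]
  have u : UIso (i.hom F) := e ▸ ((bij_bt _ _ _ _).uiso.comp
    ((hg.uiso.comp uiso_aug).ten_left (con_opP _ _))).comp (bij_rid _).uiso
  have := u Θ
  exact IsIso.of_isIso_fac_left (h.mt_spec Θ (md_prod X.md m) X.md i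
    fun _ x hx => (h.rg.pm_eq Rg.id.fst (fun _ _ => rfl) hx).symm).symm

end MTc

open MTc

theorem Pr.exists_prodIso (Y : Pr k Q) : ∃ c : ∀ (P : Type) [Var k P] (X : Pr k P),
    (X.prod Y).mo Θ ≅ X.mo (Θ.ten (Y.ob F) Y.con),
    (∀ (P : Type) [Var k P] (X : Pr k P) (a : F),
      Θ.sc _ a ≫ (c P X).hom = (c P X).hom ≫ (Θ.ten (Y.ob F) Y.con).sc _ a) ∧
    ∀ (P P' : Type) [Var k P] [Var k P'] (X : Pr k P) (X' : Pr k P') (e : P → P') (h : Mp X X' e),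
      (h.prod Y).mt Θ ≫ (c P' X').hom = (c P X).hom ≫ h.mt _ := by
  refine ⟨fun P _ X => ci Θ X Y, fun P _ X a => ?_, fun P P' _ _ X X' e h => ?_⟩
  · rw [← cancel_epi ((md_prod X.md Y.md).cmp Θ).hom, ← reassoc_of% (md_prod X.md Y.md).sc_cmp,
      reassoc_of% cmp_ci Θ X.md (isMap_refl _) Y, cmp_ci Θ X.md (isMap_refl _) Y,
      reassoc_of% sc_bi, X.md.sc_cmp]
  · obtain ⟨s, t, m, i, j⟩ := h.exists_md X.md X'.md
    have e : ∀ ⦃O : Aic k⦄ (x : Pt k (P × Q) O),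
        (opP k (ps s Y.hU.choose) (pu t Y.hV.choose)).N x → (h.prod Y).rg.pm x =
        Pt.pair (h.rg.pm ((Rg.id (k := k)).fst.pm x)) ((Rg.id (k := k)).snd.pm x) :=
      fun _ x hx => pm_prod h Y ((md_prod m Y.md).u ▸ Pt.in_opSet hx)
        (m.u ▸ Pt.in_opSet ((ps_iff x).1 hx).1)
    rw [← cancel_epi ((md_prod m Y.md).cmp Θ).hom,
      ← reassoc_of% (h.prod Y).mt_spec Θ (md_prod m Y.md) (md_prod X'.md Y.md)
        (isMap_congr (isMap_pair j _ _) e) fun _ _ _ => rfl,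
      hom_congr (isMap_pair j _ _) _ e, cmp_ci Θ X'.md (isMap_refl _) Y,
      reassoc_of% cmp_ci Θ m i Y, reassoc_of% pair_bi Θ j Y,
      h.mt_spec _ m X'.md j fun _ _ _ => rfl]

/-- The motive of a product. -/
def Pr.prodIso (X : Pr k P) (Y : Pr k Q) : (X.prod Y).mo Θ ≅ X.mo (Θ.ten (Y.ob F) Y.con) :=
  (Y.exists_prodIso Θ).choose P X

theorem Pr.sc_prodIso (X : Pr k P) (Y : Pr k Q) (a : F) :
    Θ.sc _ a ≫ (X.prodIso Θ Y).hom = (X.prodIso Θ Y).hom ≫ (Θ.ten (Y.ob F) Y.con).sc _ a :=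
  (Y.exists_prodIso Θ).choose_spec.1 P X a

theorem Pr.Mp.mt_prodIso (h : Mp X Y e) (Z : Pr k R) :
    (h.prod Z).mt Θ ≫ (Y.prodIso Θ Z).hom = (X.prodIso Θ Z).hom ≫ h.mt _ :=
  (Z.exists_prodIso Θ).choose_spec.2 P Q X Y e h

/-- Homotopy invariance. -/
theorem Pr.Mp.mt_htpy {H : P × k → Q} (hH : Mp (X.prod (.top k k)) Y H) (h : Mp X Y e)
    (h' : Mp X Y e') (h0 : ∀ x ∈ X.U, H (x, 0) = e x) (h1 : ∀ x ∈ X.U, H (x, 1) = e' x) :
    h.mt Θ = h'.mt Θ := by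
  have σ (a : k) : Mp X (X.prod (.top k k)) fun x => (x, a) :=
    ⟨(Rg.id.pair (.const a)).rgOn _, fun _ hx => ⟨hx, trivial⟩, fun _ _ hx => .inl hx⟩
  have π : Mp (X.prod (.top k k)) X fun x => x.1 :=
    ⟨Rg.id.fst.rgOn _, fun _ hx => hx.1, fun _ _ hx => hx.resolve_right id⟩
  have := isIso_fst Θ π
  rw [← (σ 0).mt_comp Θ hH h h0, ← (σ 1).mt_comp Θ hH h' h1]
  congr 1
  rw [← cancel_mono (π.mt Θ), (σ 0).mt_comp Θ π (.refl X) fun _ _ => rfl,
    (σ 1).mt_comp Θ π (.refl X) fun _ _ => rfl]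

theorem Pr.Mp.epi_of_tors [CharZero F] {Γ : Type} [Group Γ] [Finite Γ] {a : Γ → P → P}
    (hq : Tors k a e) (h : Mp X Y e) (hU : ∀ x, e x ∈ Y.U → x ∈ X.U)
    (hV : ∀ x, x ∈ X.V ↔ e x ∈ Y.V) : Epi (h.mt Θ) := by
  classical
  have := Fintype.ofFinite Γ
  have m : X.Md (Y.hU.choose.image hq.rg.hom) (Y.hV.choose.image hq.rg.hom) := by
    constructor
    · rw [opSet_image hq.rg.pt_hom, Y.md.u]
      exact Set.ext fun x => ⟨hU x, h.u x⟩
    · rw [opSet_image hq.rg.pt_hom]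
      refine Set.ext fun x => and_congr_right fun hx => ?_
      exact (and_congr_right_iff.1 (Set.ext_iff.1 Y.md.v (e x)) (h.u x hx)).trans (hV x).symm
  have im (s : Finset (B k Q)) {O : Aic k} (x : Pt k P O) :
      (∃ f ∈ s.image hq.rg.hom, IsUnit (x f)) ↔ ∃ f ∈ s, IsUnit (hq.rg.pm x f) := by
    simp [Rg.pm]
  have iv (γ : Γ) {O : Aic k} (x : Pt k P O) : hq.rg.pm ((hq.act.rg γ).pm x) = hq.rg.pm x :=
    (hq.act.rg γ).pm_pm hq.rg hq.rg (hq.inv γ) x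
  have q : IsMap (opP k (Y.hU.choose.image hq.rg.hom) (Y.hV.choose.image hq.rg.hom))
      (opP k Y.hU.choose Y.hV.choose) fun _ x => hq.rg.pm x :=
    ⟨fun _ _ _ _ _ => rfl, fun _ x h => (im _ x).1 h, fun _ x _ h => (im _ x).1 h⟩
  obtain ⟨t, -, ht⟩ := exists_transfer' (F := F) q (a := fun γ _ x => (hq.act.rg γ).pm x)
    (fun γ => ⟨fun _ _ _ _ _ => rfl, fun _ x h => (im _ _).2 (iv γ x ▸ (im _ x).1 h),
      fun _ x _ h => (im _ _).2 (iv γ x ▸ (im _ x).1 h)⟩)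
    (fun γ δ _ x => ((hq.act.rg δ).pm_pm (hq.act.rg γ) _ (fun y => (hq.act.mul γ δ y).symm) x).symm)
    (fun γ _ x _ => iv γ x) (fun _ x _ h => (im _ x).2 h)
    (fun O y hy => by
      obtain ⟨x, rfl⟩ := hq.surj O y
      exact ⟨x, (im _ x).2 hy, rfl⟩)
    fun O x x' _ _ h => hq.fib O x x' h
  have u := (UIso.id.smul (Nat.cast_ne_zero.2 (Fintype.card_ne_zero (α := Γ))) :
    UIso ((Fintype.card Γ : F) • 𝟙 ((opP k Y.hU.choose Y.hV.choose).ob F))) Θ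
  rw [← ht, Functor.map_comp] at u
  have : Epi (Θ.Φ.map (q.hom F)) := epi_of_epi (Θ.Φ.map t) _
  exact epi_of_epi_fac (h.mt_spec Θ m Y.md q
    fun _ x hx => (h.rg.pm_eq hq.rg (fun _ _ => rfl) hx).symm).symm

end

end Pool.Agent.Lib.MP_fc2ced_ag.E
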