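import Pool.Agent.Lib.MP_fc2ced_ag.R.Cons
import Pool.Agent.Lib.MP_fc2ced_ag.R.ConvK
import Pool.Agent.Lib.MP_fc2ced_ag.R.Fin

/-! The motives of Deligne-Lusztig varieties are Schur-finite. -/

open CategoryTheory CategoryTheory.Limits Function Set Matrix

set_option linter.unusedSectionVars false

namespace Pool.Agent.Lib.MP_fc2ced_ag.R

open E E.Var E.Pr

noncomputable section

variable {k : Type} [Field k] [IsAlgClosed k] {G : Type} [Group G] {n r : ℕ} {S : Type}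
  {D : Red k G n r S} [Finite S] {q : ℕ} {φ : G →* G}

theorem of_equiv {A A' : Type} [CommRing A] [Algebra k A] [CommRing A'] [Algebra k A']
    [Algebra.FiniteType k A] [Algebra.FiniteType k A'] (e : A ≃ₐ[k] A') (F : Type) [Field F] :
    Eqv ((Fn.spec k A').top.ob F) ((Fn.spec k A).top.ob F) :=
  have h : Pair.IsMap (Fn.spec k A').top (Fn.spec k A).top fun _ x => AlgHom.comp x e :=
    ⟨fun _ _ _ _ _ => rfl, fun _ _ h => h, fun _ _ _ h => h⟩
  ⟨_, h.bij (fun _ _ _ h => h) (fun _ x x' _ _ _ _ h => AlgHom.ext fun b => by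
    obtain ⟨b, rfl⟩ := e.surjective b
    exact congr($h b)) fun _ y _ _ => ⟨AlgHom.comp y e.symm, trivial, AlgHom.ext fun b =>
      congrArg y (e.symm_apply_apply b)⟩⟩

theorem main (hφ : Stein D q φ) (hq : ∃ p s : ℕ, p.Prime ∧ (p : k) = 0 ∧ 0 < s ∧ q = p ^ s)
    {m : ℕ} (w : Fin (m + 1) → D.N) :
    Algebra.Smooth k (DLPol D φ w) ∧ SchurFinite k (DLPol D φ w) := by
  obtain ⟨_, _, _, _, _⟩ := D.exists_geo
  have hr := hφ.rg
  have fr := hφ.frob hq
  have := fr.finite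
  have := Fintype.ofFinite (fixG φ)
  have hy : Rg k fun u : Fin (m + 1) → D.U => E.wd (fun i => (w i : G)) fun i => (u i : G) :=
    Rg.gprod fun i => by fun_prop
  obtain ⟨V, hv⟩ := exists_var_fib fr.et hy
  let _ : Var k (DL D φ w) := V
  replace hv : IsEq k (fun x : DL D φ w => x.1) (fun x => x.1⁻¹ * φ x.1)
    fun x => E.wd (fun i => (w i : G)) fun i => (x.2 i : G) := hv
  have h1 : Rg k fun x : DL D φ w => x.1.1 := hv.rg.fst
  have h2 : Rg k fun x : DL D φ w => x.1.2 := hv.rg.snd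
  obtain ⟨e⟩ : Nonempty (B k (DL D φ w) ≃ₐ[k] DLPol D φ w) := by
    refine ((((Geo.gens (D := D)).prod (D.gens_U.pi (Fin (m + 1)))).comp hv.rg hv.surj).of_le ?_
      ?_).nonempty_equiv
    · rintro ⟨_ | l, i⟩
      · exact ((Geo.gens (D := D)).rg i).comp h1
      · exact (D.gens_U.rg i).comp ((Rg.apply l).comp h2)
    · rintro (i | ⟨l, i⟩)
      · exact Gr.mem_Pol _ (none, i)
      · exact Gr.mem_Pol _ (some l, i)
  have sm : Algebra.Smooth k (DLPol D φ w) := .of_equiv e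
  refine ⟨sm, ?_⟩
  obtain ⟨F, _, _, _, J, _, ε, χ, e1, e2, e3⟩ := exists_rank_one' (fixG φ)
  obtain ⟨ι, _, cons⟩ := conserv (F := F) hφ hq
  let a (γ : fixG φ) (x : DL D φ w) : DL D φ w :=
    ⟨(γ * x.1.1, x.1.2), (Red.lang_mul γ _).trans x.2⟩
  have T : Tors k a fun x => x.1.2 := fr.tors.fibre (val := fun x : DL D φ w => x.1)
    (y := fun u : Fin (m + 1) → D.U => E.wd (fun i => (w i : G)) fun i => (u i : G)) hv
    fun _ _ => rfl
  have T' : Tors k (fun γ (x : DL D φ w × G × D.U) => (a γ x.1, Red.lm φ D.U γ x.2))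
      fun x => (x.1.1.2, x.1.1.1⁻¹ * x.2.1, x.2.2) :=
    (T.prod (R := G × D.U)).conj (i := fun x => (x.1, x.1.1.1⁻¹ * x.2.1, x.2.2))
      (i' := fun x => (x.1, x.1.1.1 * x.2.1, x.2.2))
      (Rg.id.fst.pair (((h1.comp Rg.id.fst).ginv.gmul Rg.id.snd.fst).pair Rg.id.snd.snd))
      (Rg.id.fst.pair (((h1.comp Rg.id.fst).gmul Rg.id.snd.fst).pair Rg.id.snd.snd)) Rg.id Rg.id
      (by simp) (by simp) (fun _ => rfl) (fun _ => rfl) (by simp [a, mul_assoc]) fun _ => rfl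
  obtain ⟨ι', _, h⟩ := sf_of_tors e1 e2 e3 T.act (Red.isAct_lm D.U) T'
    (l := fun x => (x.1⁻¹ * φ x.1, x.2)) (by fun_prop) (fun γ x => by rw [Red.lang_mul])
    (μ := fun x => (x.2.1⁻¹ * E.wd (fun i => (w i : G)) (fun i => (x.1 i : G)) * φ x.2.1, x.2.2))
    (((Rg.id.snd.fst.ginv.gmul (hy.comp Rg.id.fst)).gmul (hr.comp Rg.id.snd.fst)).pair
      Rg.id.snd.snd) (fun x => Prod.ext (by
      have : E.wd (fun i => (w i : G)) (fun i => (x.1.1.2 i : G)) = _ := x.1.2.symm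
      simp [this, mul_assoc]) rfl)
    (Z := fun v => {y : G × D.U | y.1 = D.ν v * y.2}) (fun v => IsCl.eq (by fun_prop) (by fun_prop))
    (fun v => D.tate_K hφ w (D.ν_mem v)) ι fun η h0 hη Θ H => cons η h0 hη Θ fun v R _ W hW =>
      .of_iso (e := fun x : (G × D.U) × R => (x.1.1, x.2, x.1.2))
        (d := fun x => ((x.1, x.2.2), x.2.1))
        ⟨fun _ => by fun_prop, fun _ => by simp [Red.lm], fun _ _ _ => by simp [Red.lm, mul_assoc]⟩
        (Red.isAct_lm _) (by fun_prop) (by fun_prop) (fun _ => rfl) (fun _ => rfl)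
        (fun _ _ => rfl) (H v R W hW) fun _ => and_comm
  obtain ⟨g, hg⟩ := (of_equiv e F).ten (.refl (((gP k).ob F).pow ι'))
  exact schurFinite_of_sf F _ ι' ((SF.uiso_iff hg.uiso ((Con.sm _).ten (con_gP.pow _))).2 h)

end

end Pool.Agent.Lib.MP_fc2ced_ag.R
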