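import Pool.Agent.Lib.MP_fc2ced_ag.R.MTd

/-! Vanishing of isotypic parts of motives with supports. -/

open CategoryTheory CategoryTheory.Limits CategoryTheory.Pretriangulated Function Set

namespace Pool.Agent.Lib.MP_fc2ced_ag.E

open Var R Ob Pair Pr

set_option linter.unusedSectionVars false

noncomputable section

variable {k : Type} [Field k] [IsAlgClosed k] {F : Type} [Field F] {P Q R : Type} [Var k P]
  [Var k Q] [Var k R] {X : Pr k P} {Y : Pr k Q} {Z : Pr k R} {e e' : P → Q} (Θ : Theory k F)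

variable {Γ : Type} [Group Γ] [Fintype Γ] (η : MonoidAlgebra F Γ)

/-- The action of an element of the group algebra. -/
def Pr.op (X : Pr k P) {a : Γ → P → P} (ha : ∀ γ, Mp X X (a γ)) : X.mo Θ ⟶ X.mo Θ :=
  ∑ γ, Θ.sc _ (η.coeff γ) ≫ (ha γ).mt Θ

/-- The element `η` kills the motive with supports in `Z`. -/
def Nz (a : Γ → P → P) (Z : Set P) : Prop :=
  ∀ (X : Pr k P) (ha : ∀ γ, Mp X X (a γ)), (∀ x, x ∈ Z ↔ x ∈ X.U ∧ x ∉ X.V) → X.op Θ η ha = 0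

/-- Stable subsets. -/
def Stb (a : Γ → P → P) (Z : Set P) : Prop := ∀ γ x, a γ x ∈ Z ↔ x ∈ Z

variable {Θ η} {a : Γ → P → P} {a' : Γ → Q → Q} {W Z : Set P}

theorem Pr.Mp.op_nat (h : Mp X Y e) (ha : ∀ γ, Mp X X (a γ)) (ha' : ∀ γ, Mp Y Y (a' γ))
    (he : ∀ γ, ∀ x ∈ X.U, e (a γ x) = a' γ (e x)) :
    X.op Θ η ha ≫ h.mt Θ = h.mt Θ ≫ Y.op Θ η ha' := by
  simp only [Pr.op, Preadditive.sum_comp, Preadditive.comp_sum, Category.assoc]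
  refine Finset.sum_congr rfl fun γ _ => ?_
  rw [(ha γ).mt_comp Θ h (h.comp (ha' γ)) (he γ), ← reassoc_of% h.sc_mt Θ,
    h.mt_comp Θ (ha' γ) (h.comp (ha' γ)) fun _ _ => rfl]

omit [IsAlgClosed k] in
theorem Theory.sc_sum (Θ : Theory k F) (M : Ob k F) {I : Type} (s : Finset I) (c : I → F) :
    Θ.sc M (∑ i ∈ s, c i) = ∑ i ∈ s, Θ.sc M (c i) := by
  simp only [Theory.sc, Finset.sum_smul, Functor.map_sum]

theorem Pr.op_idem (hη : η * η = η) (h : IsAct k a) (ha : ∀ γ, Mp X X (a γ)) :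
    X.op Θ η ha ≫ X.op Θ η ha = X.op Θ η ha := by
  have e (σ : Γ) : η.coeff σ = ∑ γ, η.coeff γ * η.coeff (σ * γ⁻¹) := by
    conv_lhs => rw [← hη]
    rw [MonoidAlgebra.coeff_mul_apply_right, Finsupp.sum_fintype _ _ fun _ => mul_zero _]
    exact Finset.sum_congr rfl fun _ _ => mul_comm _ _
  have e' : X.op Θ η ha = ∑ γ, ∑ σ, Θ.sc _ (η.coeff γ * η.coeff (σ * γ⁻¹)) ≫ (ha σ).mt Θ := by
    rw [Finset.sum_comm]
    refine Finset.sum_congr rfl fun σ _ => ?_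
    rw [← Preadditive.sum_comp, ← Theory.sc_sum, ← e]
  conv_rhs => rw [e']
  simp only [Pr.op, Preadditive.sum_comp, Preadditive.comp_sum, Category.assoc]
  rw [Finset.sum_comm]
  refine Finset.sum_congr rfl fun γ _ => ?_
  refine Fintype.sum_equiv (Equiv.mulRight γ) _ _ fun δ => ?_
  rw [Equiv.coe_mulRight, mul_inv_cancel_right, Θ.sc_mul, Category.assoc,
    ← reassoc_of% (ha γ).sc_mt Θ,
    (ha γ).mt_comp Θ (ha δ) (ha (δ * γ)) fun x _ => (h.mul δ γ x).symm]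

theorem IsAct.exists_pr (h : IsAct k a) (hZ : LC k Z) (sZ : Stb a Z) :
    ∃ X : Pr k P, Stb a X.U ∧ Stb a X.V ∧ ∀ x, x ∈ Z ↔ x ∈ X.U ∧ x ∉ X.V := by
  obtain ⟨s, t, rfl⟩ := hZ
  refine ⟨⟨{x | ∀ γ, a γ x ∈ opSet s}, {x | ∃ γ, a γ x ∈ opSet t},
    IsOp.forall fun γ => IsOp.preimage ⟨s, rfl⟩ (h.rg γ),
    IsOp.exists fun γ => IsOp.preimage ⟨t, rfl⟩ (h.rg γ)⟩, fun γ x => ⟨fun k δ => ?_, fun k δ => ?_⟩,
    fun γ x => ⟨fun ⟨δ, k⟩ => ⟨δ * γ, ?_⟩, fun ⟨δ, k⟩ => ⟨δ * γ⁻¹, ?_⟩⟩,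
    fun x => ⟨fun k => ⟨fun γ => ((sZ γ x).2 k).1, fun ⟨γ, k'⟩ => ((sZ γ x).2 k).2 k'⟩,
      fun k => ⟨h.one x ▸ k.1 1, fun k' => k.2 ⟨1, (h.one x).symm ▸ k'⟩⟩⟩⟩
  · have := k (δ * γ⁻¹)
    rwa [← h.mul, inv_mul_cancel_right] at this
  · rw [← h.mul]
    exact k _
  · rwa [h.mul]
  · rwa [← h.mul, inv_mul_cancel_right]

theorem nz_of_op (h : IsAct k a) (ha : ∀ γ, Mp X X (a γ))
    (hZ : ∀ x, x ∈ Z ↔ x ∈ X.U ∧ x ∉ X.V) (h0 : X.op Θ η ha = 0) : Nz Θ η a Z := by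
  intro X' ha' hZ'
  let X₀ : Pr k P := ⟨X.U ∩ X'.U, X.V ∩ X'.V, X.hU.inter X'.hU, X.hV.inter X'.hV⟩
  have h₀ (γ : Γ) : Mp X₀ X₀ (a γ) := ⟨(h.rg γ).rgOn _,
    fun x hx => ⟨(ha γ).u x hx.1, (ha' γ).u x hx.2⟩,
    fun x hx hx' => ⟨(ha γ).v x hx.1 hx'.1, (ha' γ).v x hx.2 hx'.2⟩⟩
  have i : Mp X₀ X fun x => x := .incl inter_subset_left fun _ _ h => h.1
  have i' : Mp X₀ X' fun x => x := .incl inter_subset_right fun _ _ h => h.2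
  have := i.isIso_incl Θ fun x =>
    ⟨fun k => ⟨k.1.1, fun k' => ((hZ x).1 ((hZ' x).2 ⟨k.1.2, fun k'' => k.2 ⟨k', k''⟩⟩)).2 k'⟩,
      fun k => ⟨⟨k.1, ((hZ' x).1 ((hZ x).2 k)).1⟩, fun k' => k.2 k'.1⟩⟩
  have := i'.isIso_incl Θ fun x =>
    ⟨fun k => ⟨k.1.2, fun k' => ((hZ' x).1 ((hZ x).2 ⟨k.1.1, fun k'' => k.2 ⟨k'', k'⟩⟩)).2 k'⟩,
      fun k => ⟨⟨((hZ x).1 ((hZ' x).2 k)).1, k.1⟩, fun k' => k.2 k'.2⟩⟩
  have z : X₀.op Θ η h₀ = 0 := by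
    rw [← cancel_mono (i.mt Θ), i.op_nat h₀ ha fun _ _ _ => rfl, h0, comp_zero, zero_comp]
  rw [← cancel_epi (i'.mt Θ), ← i'.op_nat h₀ ha' fun _ _ _ => rfl, z, comp_zero, zero_comp]

theorem Nz.congr (h : Nz Θ η a Z) (e : ∀ x, x ∈ W ↔ x ∈ Z) : Nz Θ η a W :=
  (Set.ext e : W = Z) ▸ h

theorem nz_empty : Nz Θ η a ∅ :=
  fun _ _ hZ => (Pr.isZero Θ fun x hx => by_contra fun k => (hZ x).2 ⟨hx, k⟩).eq_of_src _ _

omit [IsAlgClosed k] [Fintype Γ] in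
theorem IsAct.mp (h : IsAct k a) (hU : Stb a X.U) (hV : Stb a X.V) (γ : Γ) : Mp X X (a γ) :=
  ⟨(h.rg γ).rgOn _, fun x hx => (hU γ x).2 hx, fun x _ hx => (hV γ x).2 hx⟩

theorem Nz.split (hη : η * η = η) (h : IsAct k a) (hZ : LC k Z) (sZ : Stb a Z) (hW : IsOp k W)
    (sW : Stb a W) (h1 : Nz Θ η a (Z ∩ W)) (h2 : Nz Θ η a (Z \ W)) : Nz Θ η a Z := by
  obtain ⟨X, sU, sV, hX⟩ := h.exists_pr hZ sZ
  let X₁ : Pr k P := ⟨X.U ∩ W, X.V, X.hU.inter hW, X.hV⟩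
  let X₃ : Pr k P := ⟨X.U, X.V ∪ W, X.hU, X.hV.union hW⟩
  have ha := h.mp sU sV
  have ha₁ := h.mp (X := X₁) (fun γ x => and_congr (sU γ x) (sW γ x)) sV
  have ha₃ := h.mp (X := X₃) sU fun γ x => or_congr (sV γ x) (sW γ x)
  have i : Mp X₁ X fun x => x := .incl inter_subset_left fun _ _ h => h
  have p : Mp X X₃ fun x => x := .incl Subset.rfl fun _ _ h => .inl h
  have z₁ := h1 X₁ ha₁ fun x => ⟨fun k => ⟨⟨((hX x).1 k.1).1, k.2⟩, ((hX x).1 k.1).2⟩,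
    fun k => ⟨(hX x).2 ⟨k.1.1, k.2⟩, k.1.2⟩⟩
  have z₃ := h2 X₃ ha₃ fun x => ⟨fun k => ⟨((hX x).1 k.1).1, fun k' => k'.elim ((hX x).1 k.1).2 k.2⟩,
    fun k => ⟨(hX x).2 ⟨k.1, fun k' => k.2 (.inl k')⟩, fun k' => k.2 (.inr k')⟩⟩
  obtain ⟨δ, T⟩ := Pr.exists_tri Θ i p (fun _ _ h => h) Subset.rfl fun x hx =>
    or_congr_right ⟨fun k => ⟨hx, k⟩, fun k => k.2⟩
  have z : X.op Θ η ha ≫ p.mt Θ = 0 := by
    rw [p.op_nat ha ha₃ fun _ _ _ => rfl, z₃, comp_zero]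
  obtain ⟨φ, hφ⟩ : ∃ φ : X.mo Θ ⟶ X₁.mo Θ, X.op Θ η ha = φ ≫ i.mt Θ :=
    Triangle.coyoneda_exact₂ _ T _ z
  refine nz_of_op h ha hX ?_
  rw [← Pr.op_idem hη h ha]
  nth_rw 1 [hφ]
  rw [Category.assoc, ← i.op_nat ha₁ ha fun _ _ _ => rfl, z₁, zero_comp, comp_zero]

theorem Nz.of_epi {Z : Set Q} (h : IsAct k a) (he : Rg k e)
    (ea : ∀ γ x, e (a γ x) = a' γ (e x)) (h1 : Nz Θ η a (e ⁻¹' Z))
    (hE : ∀ (Y : Pr k Q) (m : Mp ⟨e ⁻¹' Y.U, e ⁻¹' Y.V, Y.hU.preimage he, Y.hV.preimage he⟩ Y e),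
      (∀ x, x ∈ Z ↔ x ∈ Y.U ∧ x ∉ Y.V) → Epi (m.mt Θ)) : Nz Θ η a' Z := by
  intro Y ha' hY
  let X : Pr k P := ⟨e ⁻¹' Y.U, e ⁻¹' Y.V, Y.hU.preimage he, Y.hV.preimage he⟩
  have ha (γ : Γ) : Mp X X (a γ) := ⟨(h.rg γ).rgOn _,
    fun x hx => show e (a γ x) ∈ Y.U from ea γ x ▸ (ha' γ).u _ hx,
    fun x hx hx' => show e (a γ x) ∈ Y.V from ea γ x ▸ (ha' γ).v _ hx hx'⟩
  have m : Mp X Y e := ⟨he.rgOn _, fun _ h => h, fun _ _ h => h⟩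
  have := hE Y m hY
  rw [← cancel_epi (m.mt Θ), ← m.op_nat ha ha' fun γ x _ => ea γ x, h1 X ha fun x => hY (e x),
    comp_zero, zero_comp]

set_option linter.unusedVariables false in
theorem Nz.of_oimm {Z : Set Q} (h : IsAct k a) (h' : IsAct k a') (he : OImm k e)
    (ea : ∀ γ x, e (a γ x) = a' γ (e x)) (hZ : Z ⊆ range e) (h1 : Nz Θ η a (e ⁻¹' Z)) :
    Nz Θ η a' Z :=
  .of_epi h he.rg ea h1 fun _ m hY =>
    have := m.isIso_of_oimm Θ he (fun _ => Iff.rfl) fun y hy hy' => hZ ((hY y).2 ⟨hy, hy'⟩)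
    inferInstance

theorem Nz.of_iso {Z : Set Q} (h : IsAct k a) (h' : IsAct k a') (he : Rg k e) {d : Q → P}
    (hd : Rg k d) (h1 : ∀ x, d (e x) = x) (h2 : ∀ y, e (d y) = y)
    (ea : ∀ γ x, e (a γ x) = a' γ (e x)) (h0 : Nz Θ η a W) (hZ : ∀ x, x ∈ W ↔ e x ∈ Z) :
    Nz Θ η a' Z :=
  .of_oimm h h' (.of_iso he hd h1 h2) ea (fun y _ => ⟨_, h2 y⟩) (h0.congr fun x => (hZ x).symm)

set_option linter.unusedVariables false in
theorem Nz.of_tors [CharZero F] {Z : Set Q} (h : IsAct k a) (h' : IsAct k a') {Δ : Type} [Group Δ]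
    [Finite Δ] {b : Δ → P → P} (he : Tors k b e) (ea : ∀ γ x, e (a γ x) = a' γ (e x))
    (h1 : Nz Θ η a (e ⁻¹' Z)) : Nz Θ η a' Z :=
  .of_epi h he.rg ea h1 fun _ m _ => m.epi_of_tors Θ he (fun _ h => h) fun _ => Iff.rfl

/-- Vanishing for a strict model implies vanishing for products. -/
theorem nz_prod (h : IsAct k a) {t : Finset (B k P)}
    (ha : ∀ γ, IsMap (opP k {1} t) (opP k {1} t) fun _ x => (h.rg γ).pm x)
    (h0 : ∀ (N : Ob k F) (hN : Con N),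
      (Θ.ten N hN).Φ.map (∑ γ, η.coeff γ • (ha γ).hom F) = 0) {W : Set R} (hW : LC k W) :
    Nz Θ η (fun γ (x : P × R) => (a γ x.1, x.2)) {x | x.1 ∉ opSet t ∧ x.2 ∈ W} := by
  obtain ⟨s', t', rfl⟩ := hW
  let X : Pr k P := ⟨univ, opSet t, .univ, ⟨t, rfl⟩⟩
  let Y : Pr k R := ⟨opSet s', opSet t', ⟨s', rfl⟩, ⟨t', rfl⟩⟩
  have m : X.Md {1} t := ⟨eq_univ_of_forall fun x => ⟨1, by simp, by simp⟩, rfl⟩
  have hX (γ : Γ) : Mp X X (a γ) := ⟨(h.rg γ).rgOn _, fun _ _ => trivial, fun x _ hx => by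
    obtain ⟨f, hf, hx⟩ := hx
    obtain ⟨g, hg, k'⟩ := (ha γ).d (O := Aic.ofField k k) (pt x) ⟨1, by simp, by simp⟩
      ⟨f, hf, (isUnit_iff_ne_zero (G₀ := k)).2 hx⟩
    refine ⟨g, hg, (isUnit_iff_ne_zero (G₀ := k)).1 ?_⟩
    rwa [← (h.rg γ).pm_pt]⟩
  have z (Θ' : Theory k F) (h0 : Θ'.Φ.map (∑ γ, η.coeff γ • (ha γ).hom F) = 0) :
      X.op Θ' η hX = 0 := by
    rw [← cancel_epi (m.cmp Θ').hom, comp_zero, ← zero_comp (f := (m.cmp Θ').hom), ← h0,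
      Functor.map_sum, Pr.op, Preadditive.sum_comp, Preadditive.comp_sum]
    refine Finset.sum_congr rfl fun γ _ => ?_
    rw [← reassoc_of% m.sc_cmp Θ', ← (hX γ).mt_spec Θ' m m (ha γ)
      fun _ x hx => ((hX γ).rg.pm_eq (h.rg γ) (fun _ _ => rfl) hx).symm, Theory.sc,
      ← Θ'.Φ.map_comp_assoc, Linear.smul_comp, Category.id_comp]
  refine nz_of_op (X := X.prod Y) ⟨fun γ => ((h.rg γ).comp Rg.id.fst).pair Rg.id.snd,
    fun x => by rw [h.one], fun γ δ x => by rw [h.mul]⟩ (fun γ => (hX γ).prod Y)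
    (fun x => ⟨fun k => ⟨⟨trivial, k.2.1⟩, fun k' => k'.elim k.1 k.2.2⟩,
      fun k => ⟨fun k' => k.2 (.inl k'), k.1.2, fun k' => k.2 (.inr k')⟩⟩) ?_
  rw [← cancel_mono (X.prodIso Θ Y).hom, zero_comp, ← comp_zero (f := (X.prodIso Θ Y).hom),
    ← z _ (h0 _ Y.con), Pr.op, Pr.op, Preadditive.sum_comp, Preadditive.comp_sum]
  refine Finset.sum_congr rfl fun γ _ => ?_
  rw [Category.assoc, (hX γ).mt_prodIso Θ Y, reassoc_of% X.sc_prodIso Θ Y]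

/-- Extraction of the component of one point of a free orbit. -/
theorem mt_eq_zero_of_nz (hη : η ≠ 0) (h : IsAct k a) (x₀ : P) (free : ∀ γ, a γ x₀ = x₀ → γ = 1)
    {z : Q → R} {nz : Set R} (hnz : IsOp k nz) (hz : Mp (.top k Q) (.sup hnz) z) {Z : Set (P × R)}
    (hZ : IsCl k Z) (sZ : Stb (fun γ (x : P × R) => (a γ x.1, x.2)) Z)
    (h1 : ∀ x y, (x, z y) ∈ Z → ∃ γ, x = a γ x₀) (h2 : ∀ γ, ∀ e ∉ nz, (a γ x₀, e) ∈ Z)
    (h0 : Nz Θ η (fun γ (x : P × R) => (a γ x.1, x.2)) Z) :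
    hz.mt (Θ.ten ((Pr.pt k x₀).ob F) (Pr.con _)) = 0 := by
  obtain ⟨γ, hγ⟩ : ∃ γ, η.coeff γ ≠ 0 := by
    by_contra k
    exact hη (MonoidAlgebra.coeff_eq_zero.1 (Finsupp.ext fun γ => not_not.1 fun k' => k ⟨γ, k'⟩))
  have rz : Rg k z := hz.rg.rg_of_forall fun _ => trivial
  have o₁ : IsOp k {x : P | ∀ δ : Γ, δ ≠ 1 → x ≠ a δ x₀} := IsOp.forall fun δ => by
    by_cases e : δ = 1
    · simpa [e] using IsOp.univ
    · simpa [e] using isOp_ne (k := k) (a δ x₀)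
  let C : Pr k P := ⟨_, _, o₁, isOp_ne x₀⟩
  let A : Pr k (Q × P) := (Pr.top k Q).prod C
  let T : Pr k (R × P) := (Pr.sup hnz).prod (Pr.pt k x₀)
  let S : Pr k (P × R) := Pr.sup hZ
  have hS (δ : Γ) : Mp S S fun x => (a δ x.1, x.2) :=
    ⟨(((h.rg δ).comp Rg.id.fst).pair Rg.id.snd).rgOn _, fun _ _ => trivial,
      fun x _ hx k => hx ((sZ δ x).1 k)⟩
  have back {δ : Γ} {x y : P} (e : a δ⁻¹ x = y) : x = a δ y := by
    rw [← e, ← h.mul, mul_inv_cancel, h.one]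
  have f : Mp A S fun x => (a γ⁻¹ x.2, z x.1) :=
    ⟨(((h.rg _).comp Rg.id.snd).pair (rz.comp Rg.id.fst)).rgOn _, fun _ _ => trivial,
      fun x hx hx' k => by
        obtain ⟨δ, e⟩ := h1 _ _ k
        have e' := back e
        rw [← h.mul] at e'
        by_cases k' : γ * δ = 1
        · rw [k', h.one] at e'
          exact hx'.elim id fun k'' => k'' e'
        · exact hx.2 _ k' e'⟩
  have g : Mp S T fun x => (x.2, x.1) :=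
    ⟨(Rg.id.snd.pair Rg.id.fst).rgOn _, fun _ _ => ⟨trivial, trivial⟩, fun x _ hx =>
      by_contra fun k => hx (by
        have k := not_or.1 k
        have := h2 1 x.2 k.1
        rwa [h.one, ← (not_not.1 k.2 : x.1 = x₀)] at this)⟩
  have i : Mp A ((Pr.top k Q).prod (Pr.pt k x₀)) fun x => x :=
    .incl (fun _ _ => ⟨trivial, trivial⟩) fun _ _ h => h
  have := i.isIso_incl Θ fun x => ⟨fun k => ⟨⟨trivial, trivial⟩, k.2⟩, fun k => ⟨⟨trivial,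
    fun δ hδ e => hδ (free δ (e.symm.trans (not_not.1 fun k' => k.2 (.inr k'))))⟩, k.2⟩⟩
  have z0 : f.mt Θ ≫ S.op Θ η hS ≫ g.mt Θ = 0 := by
    rw [h0 S hS fun x => ⟨fun k => ⟨trivial, fun k' => k' k⟩, fun k => not_not.1 k.2⟩, zero_comp,
      comp_zero]
  have t (δ : Γ) : f.mt Θ ≫ (Θ.sc _ (η.coeff δ) ≫ (hS δ).mt Θ) ≫ g.mt Θ =
      Θ.sc _ (η.coeff δ) ≫ ((f.comp (hS δ)).comp g).mt Θ := by
    rw [Category.assoc, ← reassoc_of% f.sc_mt Θ,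
      reassoc_of% f.mt_comp Θ (hS δ) (f.comp (hS δ)) fun _ _ => rfl,
      (f.comp (hS δ)).mt_comp Θ g _ fun _ _ => rfl]
  rw [Pr.op, Preadditive.sum_comp, Preadditive.comp_sum, Finset.sum_congr rfl fun δ _ => t δ,
    Finset.sum_eq_single γ (fun δ _ e => by
      rw [((f.comp (hS δ)).comp g).mt_eq_zero Θ fun x hx => Or.inr fun k => ?_, comp_zero]
      have k' : a (γ * δ⁻¹)⁻¹ x.2 = x₀ := by rwa [mul_inv_rev, inv_inv, h.mul]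
      exact hx.2 _ (fun k'' => e (mul_inv_eq_one.1 k'').symm) (back k'))
      fun k => (k (Finset.mem_univ _)).elim,
    ← i.mt_comp Θ (hz.prod (Pr.pt k x₀)) ((f.comp (hS γ)).comp g)
      fun x _ => Prod.ext rfl (back rfl)] at z0
  have z1 : (hz.prod (Pr.pt k x₀)).mt Θ = 0 := by
    rw [← cancel_epi (i.mt Θ), comp_zero, ← Category.id_comp (i.mt Θ ≫ _), ← Θ.sc_one,
      ← inv_mul_cancel₀ hγ, Θ.sc_mul, Category.assoc, z0, comp_zero]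
  rw [← cancel_epi ((Pr.top k Q).prodIso Θ (Pr.pt k x₀)).hom, ← hz.mt_prodIso Θ, z1, zero_comp,
    comp_zero]

end

end Pool.Agent.Lib.MP_fc2ced_ag.E
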