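import Pool.Agent.Lib.MP_fc2ced_ag.R.On

/-! The action on points of a map that is regular on an open subset. -/

open Function Set

namespace Pool.Agent.Lib.MP_fc2ced_ag.E

open Var R

noncomputable section

variable {k : Type} [Field k] [IsAlgClosed k] {P Q R : Type} [Var k P] [Var k Q] [Var k R]
  {O O' : Type} [CommRing O] [Algebra k O] [CommRing O'] [Algebra k O'] {U : Set P} {e e' : P → Q}

/-- The point `x` lies in a principal open subset contained in `U`. -/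
def Pt.In (x : Pt k P O) (U : Set P) : Prop :=
  ∃ b : B k P, (∀ y, pt y b ≠ 0 → y ∈ U) ∧ IsUnit (x b)

omit [IsAlgClosed k] in
theorem Pt.In.comp {x : Pt k P O} (h : x.In U) (g : O →ₐ[k] O') : Pt.In (g.comp x) U :=
  h.imp fun _ h => ⟨h.1, h.2.map g⟩

omit [IsAlgClosed k] in
theorem Pt.In.mono {x : Pt k P O} (h : x.In U) {U' : Set P} (hU : U ⊆ U') : x.In U' :=
  h.imp fun _ h => ⟨fun y hy => hU (h.1 y hy), h.2⟩

omit [IsAlgClosed k] in
theorem Pt.In.inter {x : Pt k P O} (h : x.In U) {U' : Set P} (h' : x.In U') : x.In (U ∩ U') := by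
  obtain ⟨b, h1, h2⟩ := h
  obtain ⟨b', h1', h2'⟩ := h'
  refine ⟨b * b', fun y hy => ?_, by rw [map_mul]; exact h2.mul h2'⟩
  rw [map_mul] at hy
  exact ⟨h1 y (left_ne_zero_of_mul hy), h1' y (right_ne_zero_of_mul hy)⟩

omit [IsAlgClosed k] in
theorem Pt.in_of_fn {x : Pt k P O} {f : P → k} (hf : Rg k f) (h : IsUnit (x (fn f)))
    (hU : ∀ y, f y ≠ 0 → y ∈ U) : x.In U :=
  ⟨_, fun y hy => hU y (pt_fn hf y ▸ hy), h⟩

omit [IsAlgClosed k] in
theorem Pt.in_opSet {x : Pt k P O} {s : Finset (B k P)} (h : ∃ b ∈ s, IsUnit (x b)) :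
    x.In (opSet s) := h.elim fun b h => ⟨b, fun _ hy => ⟨b, h.1, hy⟩, h.2⟩

omit [IsAlgClosed k] in
theorem Pt.in_univ (x : Pt k P O) : x.In univ := ⟨1, fun _ _ => trivial, by simp⟩

theorem Pt.In.exists_lift {x : Pt k P O} (h : x.In U) : ∃ (R : Type) (_ : Var k R) (j : R → P)
    (hj : Rg k j) (y : Pt k R O), (∀ r, j r ∈ U) ∧ hj.pm y = x := by
  obtain ⟨b, h1, h2⟩ := h
  obtain ⟨V, hv⟩ := exists_loc (rg_pt (k := k) b)
  obtain ⟨y, hy⟩ := hv.exists_pt x (by rwa [fn_pt])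
  exact ⟨_, V, Subtype.val, hv.rg_val, y, fun r => h1 _ r.2, hy⟩

theorem Pt.In.isUnit {x : Pt k P O} (h : x.In U) {f : P → k} (hf : Rg k f)
    (hU : ∀ y ∈ U, f y ≠ 0) : IsUnit (x (fn f)) := by
  obtain ⟨R, _, j, hj, y, h1, rfl⟩ := h.exists_lift
  rw [hj.pm_fn hf]
  exact (isUnit_fn (hf.comp hj) fun r => hU _ (h1 r)).map y

omit [IsAlgClosed k] in
theorem Pt.In.of_pm {j : R → P} (hj : Rg k j) {y : Pt k R O} (h : (hj.pm y).In U) :
    y.In (j ⁻¹' U) := by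
  obtain ⟨b, h1, h2⟩ := h
  exact ⟨hj.hom b, fun r hr => h1 _ (by rw [hj.pt_hom]; exact hr), h2⟩

theorem Pt.nonempty [Nontrivial O] (x : Pt k P O) : Nonempty P := by
  have := x.toRingHom.domain_nontrivial
  obtain ⟨φ, -⟩ := exists_point (k := k) (B := B k P) bot_ne_top
  exact ⟨pt.symm φ⟩

theorem RgOn.exists_pm (h : RgOn k U e) {x : Pt k P O} (hx : x.In U) : ∃ z : Pt k Q O,
    ∀ (R : Type) [Var k R] (j : R → P) (hj : Rg k j) (hU : ∀ r, j r ∈ U) (y : Pt k R O),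
      hj.pm y = x → (h.rg hj hU).pm y = z := by
  obtain ⟨b, h1, h2⟩ := hx
  obtain ⟨V, hv⟩ := exists_loc (rg_pt (k := k) b)
  obtain ⟨y₀, hy₀⟩ := hv.exists_pt x (by rwa [fn_pt])
  refine ⟨(h.rg hv.rg_val fun r => h1 _ r.2).pm y₀, fun R _ j hj hU y hy => ?_⟩
  obtain ⟨V', hw⟩ := exists_loc ((rg_pt (k := k) b).comp hj)
  obtain ⟨y', rfl⟩ := hw.exists_pt y (by rwa [← hj.pm_apply, hy])
  obtain ⟨j', hj', e'⟩ := hv.exists_lift (hj.comp hw.rg_val) fun r => r.2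
  rw [← hv.pm_inj ((hj'.pm_comm hv.rg_val hw.rg_val hj e' y').trans (hy.trans hy₀.symm))]
  exact hw.rg_val.pm_comm _ hj' _ (fun r => congrArg e (e' r).symm) y'

variable [Nontrivial O] [Nontrivial O']

open Classical in
/-- The action on points. -/
def RgOn.pm (h : RgOn k U e) (x : Pt k P O) : Pt k Q O :=
  if hx : x.In U then (h.exists_pm hx).choose else Pt.const (e x.nonempty.some)

theorem RgOn.pm_pm (h : RgOn k U e) {j : R → P} (hj : Rg k j) (hU : ∀ r, j r ∈ U) (y : Pt k R O)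
    (hy : (hj.pm y).In U) : h.pm (hj.pm y) = (h.rg hj hU).pm y := by
  rw [RgOn.pm, dif_pos hy]
  exact ((h.exists_pm hy).choose_spec R j hj hU y rfl).symm

theorem RgOn.comp_pm (h : RgOn k U e) (g : O →ₐ[k] O') {x : Pt k P O} (hx : x.In U) :
    g.comp (h.pm x) = h.pm (g.comp x) := by
  obtain ⟨R, _, j, hj, y, hU, rfl⟩ := hx.exists_lift
  rw [h.pm_pm hj hU y hx, hj.comp_pm, h.pm_pm hj hU (g.comp y) (hx.comp g), Rg.comp_pm]

theorem RgOn.pm_eq (h : RgOn k U e) (h' : Rg k e') (he : ∀ y ∈ U, e y = e' y) {x : Pt k P O}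
    (hx : x.In U) : h.pm x = h'.pm x := by
  obtain ⟨R, _, j, hj, y, hU, rfl⟩ := hx.exists_lift
  rw [h.pm_pm hj hU y hx]
  exact (hj.pm_pm h' _ (fun r => (he _ (hU r)).symm) y).symm

theorem RgOn.pm_id {e : P → P} (h : RgOn k U e) (he : ∀ y ∈ U, e y = y) {x : Pt k P O}
    (hx : x.In U) : h.pm x = x :=
  (h.pm_eq .id he hx).trans (Rg.id.pm_id (fun _ => rfl) x)

theorem RgOn.pm_congr {U' : Set P} (h : RgOn k U e) (h' : RgOn k U' e')
    (he : ∀ y ∈ U, y ∈ U' → e y = e' y) {x : Pt k P O} (hx : x.In U) (hx' : x.In U') :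
    h.pm x = h'.pm x := by
  obtain ⟨R, _, j, hj, y, hU, rfl⟩ := (hx.inter hx').exists_lift
  rw [h.pm_pm hj (fun r => (hU r).1) y hx, h'.pm_pm hj (fun r => (hU r).2) y hx']
  exact Rg.pm_congr _ _ (fun r => he _ (hU r).1 (hU r).2) y

theorem RgOn.in_of_pm (h : RgOn k U e) {x : Pt k P O} (hx : x.In U) {V : Set Q}
    (hV : (h.pm x).In V) : x.In (U ∩ e ⁻¹' V) := by
  obtain ⟨b, h1, h2⟩ := id hx
  obtain ⟨c, h3, h4⟩ := hV
  obtain ⟨W, hv⟩ := exists_loc (rg_pt (k := k) b)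
  obtain ⟨y, rfl⟩ := hv.exists_pt x (by rwa [fn_pt])
  have h5 := h.rg hv.rg_val fun r => h1 _ r.2
  have h6 := hv.rg.comp hv.rg_val
  rw [h.pm_pm hv.rg_val (fun r => h1 _ r.2) y hx, h5.pm_apply] at h4
  obtain ⟨M, φ, hφ, e1, e2⟩ := hv.exists_mul_pow ((rg_pt c).comp h5)
  refine Pt.in_of_fn hφ ?_ fun p hp => ?_
  · rw [hv.rg_val.pm_fn hφ, funext e1, fn_mul (h6.pow M) ((rg_pt c).comp h5), map_mul]
    exact ((isUnit_fn (h6.pow M) fun r => pow_ne_zero M r.2).map y).mul h4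
  · have h7 := mt (e2 p) hp
    exact ⟨h1 p h7, h3 _ (right_ne_zero_of_mul ((e1 ⟨p, h7⟩).symm.trans_ne hp))⟩

theorem RgOn.pm_comp {V : Set Q} {d : Q → R} {c : P → R} {U' : Set P} (h : RgOn k U e)
    (h' : RgOn k V d) (h'' : RgOn k U' c) (he : ∀ y ∈ U, y ∈ U' → e y ∈ V → d (e y) = c y)
    {x : Pt k P O} (hx : x.In U) (hx' : (h.pm x).In V) (hx'' : x.In U') :
    h'.pm (h.pm x) = h''.pm x := by
  obtain ⟨R, _, j, hj, y, hU, rfl⟩ := ((h.in_of_pm hx hx').inter hx'').exists_lift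
  rw [h.pm_pm hj (fun r => (hU r).1.1) y hx] at hx' ⊢
  rw [h'.pm_pm _ (fun r => (hU r).1.2) y hx', h''.pm_pm hj (fun r => (hU r).2) y hx'']
  exact Rg.pm_congr _ _ (fun r => he _ (hU r).1.1 (hU r).2 (hU r).1.2) y

theorem RgOn.pm_fn (h : RgOn k U e) {g : Q → k} {φ ψ : P → k} (hg : Rg k g) (hφ : Rg k φ)
    (hψ : Rg k ψ) (he : ∀ y ∈ U, φ y = ψ y * g (e y)) {x : Pt k P O} (hx : x.In U) :
    x (fn φ) = x (fn ψ) * h.pm x (fn g) := by
  obtain ⟨R, _, j, hj, y, hU, rfl⟩ := hx.exists_lift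
  rw [h.pm_pm hj hU y hx, hj.pm_fn hφ, hj.pm_fn hψ, Rg.pm_fn _ hg, ← map_mul,
    ← fn_mul (hψ.comp hj) (hg.comp (h.rg hj hU)), funext fun r => he _ (hU r)]

theorem RgOn.pm_pair {d : P → R} (h : RgOn k U e) (h' : RgOn k U d) {x : Pt k P O}
    (hx : x.In U) : (h.pair h').pm x = (h.pm x).pair (h'.pm x) := by
  obtain ⟨R', _, j, hj, y, hU, rfl⟩ := hx.exists_lift
  rw [RgOn.pm_pm _ hj hU y hx, h.pm_pm hj hU y hx, h'.pm_pm hj hU y hx]
  exact Rg.pm_pair _ _ _ y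

end

end Pool.Agent.Lib.MP_fc2ced_ag.E
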