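import Pool.Agent.Lib.MP_fc2ced_ag.EPure

/-! The universal Thom class: the roots of a binary form. -/

open CategoryTheory
open PiTensorProduct renaming tprod → tp
open scoped TensorProduct

namespace Pool.Agent.Lib.MP_fc2ced_ag.E

open Ob Pair

variable {k : Type} [Field k] {F : Type} [Field F]

/-- A Thom class for the tautological quotient line bundle on a projective space. -/
structure Thom (I : Type) (i₀ : I) (R : Ob k F) (κ : (tP k).ob F ⟶ R)
    (Φ : ∀ ⦃O : Aic k⦄, (I → O) → O → R.V O) : Prop where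
  uiso : UIso κ
  nat : ∀ ⦃O O' : Aic k⦄ (g : O →ₐ[k] O') (v : I → O) (s : O), (∃ i, IsUnit (v i)) →
    R.map g (Φ v s) = Φ (fun i => g (v i)) (g s)
  smul : ∀ ⦃O : Aic k⦄ (v : I → O) (s c : O), (∃ i, IsUnit (v i)) → IsUnit c →
    Φ (fun i => c * v i) (c * s) = Φ v s
  dead : ∀ ⦃O : Aic k⦄ (v : I → O) (s : O), (∃ i, IsUnit (v i)) → IsUnit s → Φ v s = 0
  base : ∀ ⦃O : Aic k⦄ (v : I → O) (s : O), v i₀ = 1 → (∀ i, i ≠ i₀ → v i = 0) →
    Φ v s = κ.1 O ((tP k).cl F s)

namespace Phi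

open Polynomial

noncomputable section

section Alg

variable {O O' : Type} [CommRing O] [CommRing O']

/-- A linear form. -/
def lin (l : O × O) : O[X] := C l.1 + C l.2 * X

/-- Factorizations into linear forms. -/
def Fac (n : ℕ) (f : O[X]) (L : Multiset (O × O)) : Prop :=
  L.card = n ∧ ∃ u, IsUnit u ∧ f = C u * (L.map lin).prod

theorem eval_lin (l : O × O) (x : O) : (lin l).eval x = l.1 + x * l.2 := by
  rw [lin, eval_add, eval_C, eval_mul, eval_C, eval_X, mul_comm]

theorem Fac.unit {n : ℕ} {f : O[X]} {L : Multiset (O × O)} (h : Fac n f L) {γ : O}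
    (hf : IsUnit (f.eval γ)) {l : O × O} (hl : l ∈ L) : IsUnit (l.1 + γ * l.2) := by
  obtain ⟨-, u, -, rfl⟩ := h
  rw [← eval_lin]
  exact isUnit_of_dvd_unit (eval_dvd ((Multiset.dvd_prod (Multiset.mem_map_of_mem lin hl)).mul_left
    _)) hf

theorem Fac.dead {n : ℕ} {f : O[X]} {L : Multiset (O × O)} (h : Fac n f L)
    (hf : IsUnit (f.coeff n)) {l : O × O} (hl : l ∈ L) : IsUnit l.2 := by
  obtain ⟨rfl, u, -, rfl⟩ := h
  have := coeff_multiset_prod_of_natDegree_le (L.map lin) 1 fun p hp => by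
    obtain ⟨l, -, rfl⟩ := Multiset.mem_map.1 hp
    unfold lin
    compute_degree
  rw [Multiset.card_map, mul_one] at this
  rw [coeff_C_mul, this] at hf
  refine isUnit_of_dvd_unit (Dvd.dvd.mul_left (Multiset.dvd_prod ?_) _) hf
  exact Multiset.mem_map.2 ⟨lin l, Multiset.mem_map_of_mem lin hl, by simp [lin]⟩

theorem Fac.map {n : ℕ} {f : O[X]} {L : Multiset (O × O)} (h : Fac n f L) (g : O →+* O') :
    Fac n (f.map g) (L.map fun l => (g l.1, g l.2)) := by
  obtain ⟨h, u, hu, rfl⟩ := h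
  refine ⟨by simpa using h, g u, hu.map g, ?_⟩
  simp [Polynomial.map_multiset_prod, Function.comp_def, lin]

theorem Fac.smul {n : ℕ} {f : O[X]} {L : Multiset (O × O)} (h : Fac n f L) {c : O}
    (hc : IsUnit c) : Fac n (C c * f) L := by
  obtain ⟨h, u, hu, rfl⟩ := h
  exact ⟨h, c * u, hc.mul hu, by rw [C_mul, mul_assoc]⟩

/-- The coordinate in a chart. -/
def co (γ : O) (l : O × O) : O := l.2 * Ring.inverse (l.1 + γ * l.2)

theorem co_mul {γ : O} {l : O × O} (h : IsUnit (l.1 + γ * l.2)) :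
    co γ l * (l.1 + γ * l.2) = l.2 := Ring.inverse_mul_cancel_right _ _ h

theorem Fac.key {n : ℕ} {f : O[X]} {L : Multiset (O × O)} (h : Fac n f L) {γ : O}
    (hf : IsUnit (f.eval γ)) {y y' : O} (hy : y * y' = 1) : f.eval (γ - y') * y ^ n =
      f.eval γ * (((L.map (co γ)).map fun a => X - C a).prod).eval y := by
  have hu := fun l (hl : l ∈ L) => co_mul (h.unit hf hl)
  obtain ⟨rfl, u, -, rfl⟩ := h
  simp only [eval_mul, eval_C, eval_multiset_prod, Multiset.map_map, Function.comp_def, eval_lin,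
    eval_sub, eval_X]
  rw [← Multiset.prod_replicate, ← Multiset.map_const', mul_assoc, mul_assoc,
    ← Multiset.prod_map_mul, ← Multiset.prod_map_mul]
  congr 2
  exact Multiset.map_congr rfl fun l hl => by linear_combination hu l hl - l.2 * hy

/-- Pairs up to units. -/
def st (O : Type) [CommRing O] : Setoid (O × O) where
  r l l' := ∃ u, IsUnit u ∧ l'.1 = u * l.1 ∧ l'.2 = u * l.2
  iseqv := ⟨fun _ => ⟨1, isUnit_one, by simp, by simp⟩, fun ⟨u, hu, h1, h2⟩ => by
    obtain ⟨v, hv⟩ := hu.exists_left_inv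
    exact ⟨v, IsUnit.of_mul_eq_one u hv, by rw [h1, ← mul_assoc, hv, one_mul],
      by rw [h2, ← mul_assoc, hv, one_mul]⟩, fun ⟨u, hu, h1, h2⟩ ⟨v, hv, h3, h4⟩ =>
    ⟨v * u, hv.mul hu, by rw [h3, h1, mul_assoc], by rw [h4, h2, mul_assoc]⟩⟩

/-- A chart. -/
def ch (γ τ : O) : Quotient (st O) := Quotient.mk _ (1 - γ * τ, τ)

theorem ch_co {γ : O} {l : O × O} (h : IsUnit (l.1 + γ * l.2)) :
    ch γ (co γ l) = Quotient.mk _ l :=
  Quotient.sound ⟨_, h, by linear_combination γ * co_mul h, by linear_combination -co_mul h⟩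

theorem ch_inj {γ τ τ' : O} (h : ch γ τ = ch γ τ') : τ = τ' := by
  obtain ⟨u, -, h1, h2⟩ := Quotient.exact h
  have h3 : u = 1 := by linear_combination -h1 - γ * h2
  simpa [h3] using h2.symm

end Alg

variable {O O' : Aic k}

theorem eq_of_units [Infinite k] {p q : O[X]}
    (h : ∀ y y' : O, y * y' = 1 → p.eval y = q.eval y) : p = q := by
  refine eq_of_infinite_eval_eq p q (((Set.finite_singleton (0 : k)).infinite_compl.image
    (algebraMap k O).injective.injOn).mono ?_)
  rintro _ ⟨a, ha, rfl⟩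
  exact h _ (algebraMap k O a⁻¹) (by rw [← map_mul, mul_inv_cancel₀ ha, map_one])

theorem exists_roots (n : ℕ) : ∀ p : O[X], p.Monic → p.natDegree = n →
    ∃ T : Multiset O, T.card = n ∧ p = (T.map fun a => X - C a).prod := by
  induction n with
  | zero => exact fun p hp hn => ⟨0, rfl, by simpa using hp.natDegree_eq_zero.1 hn⟩
  | succ n ih =>
    intro p hp hn
    obtain ⟨a, ha⟩ := O.root p hp (natDegree_pos_iff_degree_pos.1 (by omega))
    obtain ⟨q, rfl⟩ := dvd_iff_isRoot.2 ha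
    have hq : q.Monic := (monic_X_sub_C a).of_mul_monic_left hp
    rw [(monic_X_sub_C a).natDegree_mul hq, natDegree_X_sub_C] at hn
    obtain ⟨T, h1, rfl⟩ := ih q hq (by omega)
    exact ⟨a ::ₘ T, by simp [h1], by simp⟩

theorem exists_fac [Infinite k] {n : ℕ} {f : O[X]} (hn : f.natDegree ≤ n) {γ : O}
    (hf : IsUnit (f.eval γ)) : ∃ L, Fac n f L := by
  obtain ⟨w, hw⟩ := hf.exists_left_inv
  have hq : (f.comp (C γ - X)).natDegree ≤ n := natDegree_comp_le.trans (by
    have : (C γ - X).natDegree ≤ 1 := by compute_degree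
    simpa using Nat.mul_le_mul hn this)
  have h1 : (C w * reflect n (f.comp (C γ - X))).natDegree ≤ n :=
    (natDegree_C_mul_le _ _).trans (natDegree_reflect_le.trans (max_le le_rfl hq))
  have h2 : (C w * reflect n (f.comp (C γ - X))).coeff n = 1 := by
    rw [coeff_C_mul, coeff_reflect, revAt_le le_rfl, Nat.sub_self, coeff_zero_eq_eval_zero,
      eval_comp]
    simpa using hw
  obtain ⟨T, hT, e⟩ := exists_roots n _ (monic_of_natDegree_le_of_coeff_eq_one n h1 h2)
    (natDegree_eq_of_le_of_coeff_ne_zero h1 (h2 ▸ one_ne_zero))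
  refine ⟨T.map fun τ => (1 - γ * τ, τ), by simpa using hT, f.eval γ, hf, ?_⟩
  have h3 : f.comp (C γ - X) = (C (f.eval γ) *
      ((T.map fun τ => (1 - γ * τ, τ)).map lin).prod).comp (C γ - X) := eq_of_units fun y y' hy => by
    let _ : Invertible y := ⟨y', by rw [mul_comm, hy], hy⟩
    have h4 : (reflect n (f.comp (C γ - X))).eval y' * y ^ n = (f.comp (C γ - X)).eval y :=
      eval₂_reflect_mul_pow (RingHom.id O) y n _ hq
    have h5 := congrArg (eval y') e
    rw [eval_mul, eval_C] at h5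
    have h6 : (T.map fun a => X - C a).prod.eval y' * y ^ n =
        ((T.map fun τ => (1 - γ * τ, τ)).map lin).prod.eval (γ - y) := by
      simp only [eval_multiset_prod, Multiset.map_map, Function.comp_def, eval_lin, eval_sub,
        eval_X, eval_C]
      rw [← hT, ← Multiset.prod_replicate, ← Multiset.map_const', ← Multiset.prod_map_mul]
      exact congrArg _ (Multiset.map_congr rfl fun l _ => by linear_combination hy)
    rw [← h4, eval_comp, eval_mul, eval_C, eval_sub, eval_C, eval_X, ← h6, ← h5]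
    linear_combination (-(reflect n (f.comp (C γ - X))).eval y' * y ^ n) * hw
  have h4 := congrArg (fun p => p.comp (C γ - X)) h3
  simpa only [comp_assoc, sub_comp, C_comp, X_comp, sub_sub_cancel, comp_X] using h4

theorem Fac.uniq [Infinite k] {n : ℕ} {f : O[X]} {L L' : Multiset (O × O)} (h : Fac n f L)
    (h' : Fac n f L') {γ : O} (hf : IsUnit (f.eval γ)) :
    L.map (Quotient.mk (st O)) = L'.map (Quotient.mk (st O)) := by
  have h1 : L.map (co γ) = L'.map (co γ) := by
    rw [← roots_multiset_prod_X_sub_C (L.map _), ← roots_multiset_prod_X_sub_C (L'.map _)]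
    exact congrArg _ (eq_of_units fun y y' hy =>
      hf.mul_left_cancel ((h.key hf hy).symm.trans (h'.key hf hy)))
  have h2 := congrArg (Multiset.map (ch γ)) h1
  rw [Multiset.map_map, Multiset.map_map] at h2
  exact (Multiset.map_congr rfl fun l hl => (ch_co (h.unit hf hl)).symm).trans
    (h2.trans (Multiset.map_congr rfl fun l hl => ch_co (h'.unit hf hl)))

variable (k) in
/-- Pairs up to units as a functor. -/
@[reducible] def P1 : Fn k where
  X O := Quotient (st O)
  map g := Quotient.map (fun l => (g l.1, g l.2)) fun _ _ ⟨u, hu, h1, h2⟩ =>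
    ⟨g u, hu.map g, by simp [h1], by simp [h2]⟩
  map_id _ x := Quotient.inductionOn x fun _ => rfl
  map_comp _ _ x := Quotient.inductionOn x fun _ => rfl
  fin O x := Quotient.inductionOn x fun l => by
    classical
    exact ⟨{l.1, l.2}, fun _ f g h => congrArg (Quotient.mk _)
      (Prod.ext (h l.1 (by simp)) (h l.2 (by simp)))⟩

/-- The open subset where a linear function is invertible. -/
def U (a b : k) : (P1 k).Cond := fun O => Quotient.lift
  (fun l : O × O => IsUnit (algebraMap k O a * l.1 + algebraMap k O b * l.2))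
  fun l l' ⟨u, hu, h1, h2⟩ => propext (by
    rw [h1, h2, mul_left_comm, mul_left_comm _ u, ← mul_add, IsUnit.mul_iff, and_iff_right hu])

theorem stab_U (a b : k) : (P1 k).Stab (U a b) := fun _ _ g x =>
  Quotient.inductionOn x fun l h => by
    have : IsUnit (g (algebraMap k _ a * l.1 + algebraMap k _ b * l.2)) := IsUnit.map g h
    rwa [map_add, map_mul, map_mul, g.commutes, g.commutes] at this

theorem U_mk {a b : k} {l : O × O} : U a b (Quotient.mk (st O) l) ↔
    IsUnit (algebraMap k O a * l.1 + algebraMap k O b * l.2) := Iff.rfl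

theorem map_ch (g : O →ₐ[k] O') (a : k) (τ : O) :
    (P1 k).map g (ch (algebraMap k O a) τ) = ch (algebraMap k O' a) (g τ) :=
  congrArg (Quotient.mk _) (Prod.ext (by simp) rfl)

theorem U_ch (a : k) (τ : O) : U 1 a (ch (algebraMap k O a) τ) := U_mk.2 (by simp)

theorem exists_ch {a : k} {x : (P1 k).X O} (h : U 1 a x) : ∃ τ, ch (algebraMap k O a) τ = x := by
  obtain ⟨l, rfl⟩ := Quotient.exists_rep x
  exact ⟨_, ch_co (by simpa using U_mk.1 h)⟩

variable {I : Type} (c : I → k)

/-- A union of charts modulo the finite part. -/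
@[reducible] def Pr (S : Set I) : Pair (P1 k) :=
  ⟨fun _ x => ∃ j ∈ S, U 1 (c j) x, U 0 1, fun _ _ g x ⟨j, h, h'⟩ => ⟨j, h, stab_U _ _ g x h'⟩,
    stab_U 0 1⟩

theorem isMap_κ {S : Set I} {i₀ : I} (h0 : i₀ ∈ S) :
    IsMap (tP k) (Pr c S) fun O τ => ch (algebraMap k O (c i₀)) τ :=
  ⟨fun _ _ g τ _ => map_ch g _ τ, fun _ τ _ => ⟨i₀, h0, U_ch _ τ⟩,
    fun _ τ _ h => U_mk.2 (by simpa using h)⟩

theorem uiso_step [IsAlgClosed k] [Finite I] {S : Set I} {i₀ : I} (h0 : i₀ ∈ S) (j : I) :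
    ∃ h : IsMap (Pr c S) (Pr c (insert j S)) fun _ x => x, UIso (h.hom F) := by
  let P₃ : Pair (P1 k) := ⟨(Pr c (insert j S)).N, fun _ x => U 0 1 x ∨ (Pr c S).N x,
    (Pr c _).sN, fun _ _ g x h => h.imp (stab_U _ _ g x) ((Pr c S).sN g x)⟩
  have h₁ : IsMap (Pr c S) (Pr c (insert j S)) fun _ x => x :=
    isMap_id (fun _ _ ⟨i, h, h'⟩ => ⟨i, .inr h, h'⟩) fun _ _ _ h => h
  have T := Pair.ses (F := F) (P₃ := P₃) h₁ (isMap_id (fun _ _ h => h) fun _ _ _ => .inl)
    (fun _ _ _ h => h) (fun _ _ _ => Iff.rfl) fun _ _ h _ => h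
  refine ⟨h₁, T.uzero₃_iff.1 ?_⟩
  let Q : Pair (.line k) := ⟨fun _ _ => True, fun O τ => P₃.D (ch (algebraMap k O (c j)) τ),
    fun _ _ _ _ h => h, fun _ _ g τ h => by
      have := P₃.sD g _ h
      rwa [map_ch] at this⟩
  have hQ : IsMap Q P₃ fun O τ => ch (algebraMap k O (c j)) τ :=
    ⟨fun _ _ g τ _ => map_ch g _ τ, fun _ τ _ => ⟨j, .inl rfl, U_ch _ τ⟩, fun _ _ _ h => h⟩
  have bQ : Bij (hQ.hom F) := hQ.bij (fun _ _ _ h => h) (fun _ _ _ _ _ _ _ => ch_inj)
    fun _ y ⟨i, h, h'⟩ hd => by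
      rcases h with rfl | h
      · exact (exists_ch h').imp fun _ e => ⟨trivial, e⟩
      · exact (hd (.inr ⟨i, h, h'⟩)).elim
  let f : Option S → k[X] := fun o => o.elim X fun i => 1 + C (c i - c j) * X
  obtain ⟨h, hb⟩ := bij_line (F := F) (P := relP k f) (P' := Q) (fun _ _ => Iff.rfl) fun O x => by
    have e (i : I) : x (1 + C (c i - c j) * X) = algebraMap k O 1 *
        (1 - algebraMap k O (c j) * x X) + algebraMap k O (c i) * x X := by
      rw [map_add, map_mul, map_one, map_one, C_eq_algebraMap, x.commutes, map_sub]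
      ring
    refine Option.exists.trans (or_congr (U_mk.trans (by simp [f])).symm ?_)
    exact ⟨fun ⟨i, h⟩ => ⟨i, i.2, U_mk.2 (e i ▸ h)⟩,
      fun ⟨i, h, h'⟩ => ⟨⟨i, h⟩, (e i).symm ▸ U_mk.1 h'⟩⟩
  refine bQ.uiso.uzero_iff.1 (hb.uiso.uzero_iff.1 (uzero_rel f fun x => ?_))
  by_cases hx : x X = 0
  · exact ⟨some ⟨i₀, h0⟩, by simp [f, hx]⟩
  · exact ⟨none, hx⟩

theorem uiso_κ [IsAlgClosed k] [Finite I] (i₀ : I) :
    UIso ((isMap_κ c (Set.mem_univ i₀)).hom F) := by
  refine (Set.Finite.induction_to_univ (C := fun S => ∃ h : i₀ ∈ S, UIso ((isMap_κ c h).hom F))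
    {i₀} ⟨rfl, Bij.uiso ?_⟩ fun S hS ⟨h0, h⟩ => ?_).2
  · exact IsMap.bij _ (fun _ _ _ h => by simpa using U_mk.1 h) (fun _ _ _ _ _ _ _ => ch_inj)
      fun _ y ⟨i, h, h'⟩ _ => (exists_ch (h ▸ h')).imp fun _ e => ⟨trivial, e⟩
  · obtain ⟨j, hj⟩ := (Set.ne_univ_iff_exists_notMem S).1 hS
    obtain ⟨h₁, hu⟩ := uiso_step (F := F) c h0 j
    refine ⟨j, hj, .inr h0, ?_⟩
    rw [← (isMap_κ c h0).hom_comp h₁ _ fun _ _ _ => rfl]
    exact h.comp hu

variable [Fintype I] [DecidableEq I]

/-- The binary form. -/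
def fm (v : I → O) (s : O) : O[X] :=
  ∑ j, C (v j) * ∏ i ∈ Finset.univ.erase j, (X - C (algebraMap k O (c i))) +
    C s * ∏ i, (X - C (algebraMap k O (c i)))

theorem natDegree_erase (j : I) : (∏ i ∈ Finset.univ.erase j,
    (X - C (algebraMap k O (c i)))).natDegree < Fintype.card I := by
  rw [natDegree_finsetProd_X_sub_C_eq_card]
  exact Finset.card_erase_lt_of_mem (Finset.mem_univ j)

theorem natDegree_fm (v : I → O) (s : O) : (fm c v s).natDegree ≤ Fintype.card I :=
  natDegree_add_le_of_degree_le (natDegree_sum_le_of_forall_le _ _ fun j _ =>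
    (natDegree_C_mul_le _ _).trans (natDegree_erase c j).le)
    ((natDegree_C_mul_le _ _).trans (natDegree_finsetProd_X_sub_C_eq_card _ _).le)

theorem coeff_fm (v : I → O) (s : O) : (fm c v s).coeff (Fintype.card I) = s := by
  have h := (monic_prod_X_sub_C (fun i => algebraMap k O (c i)) Finset.univ).coeff_natDegree
  rw [natDegree_finsetProd_X_sub_C_eq_card, Finset.card_univ] at h
  rw [fm, coeff_add, finsetSum_coeff, coeff_C_mul, h, mul_one, Finset.sum_eq_zero, zero_add]
  exact fun j _ => by rw [coeff_C_mul, coeff_eq_zero_of_natDegree_lt (natDegree_erase c j), mul_zero]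

theorem map_fm (g : O →ₐ[k] O') (v : I → O) (s : O) :
    (fm c v s).map (g : O →+* O') = fm c (fun i => g (v i)) (g s) := by
  simp [fm, Polynomial.map_sum, Polynomial.map_prod]

theorem fm_smul (v : I → O) (s a : O) : fm c (fun i => a * v i) (a * s) = C a * fm c v s := by
  simp [fm, mul_add, Finset.mul_sum, mul_assoc]

variable {c}

theorem isUnit_fm (hc : Function.Injective c) {v : I → O} (s : O) {j : I} (h : IsUnit (v j)) :
    IsUnit ((fm c v s).eval (algebraMap k O (c j))) := by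
  simp only [fm, eval_add, eval_mul, eval_C, eval_finsetSum, eval_prod, eval_sub, eval_X]
  rw [Finset.prod_eq_zero (Finset.mem_univ j) (sub_self _), mul_zero, add_zero,
    Finset.sum_eq_single j (fun i _ hi => by
      rw [Finset.prod_eq_zero (i := j) (by simp [hi.symm]) (sub_self _), mul_zero]) (by simp)]
  refine h.mul (IsUnit.prod_iff.2 fun i hi => ?_)
  rw [← map_sub]
  exact (IsUnit.mk0 _ (sub_ne_zero.2 (hc.ne (Finset.ne_of_mem_erase hi).symm))).map _

theorem fac_base {i₀ : I} (h0 : c i₀ = 0) {v : I → O} (s : O) (h1 : v i₀ = 1)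
    (h2 : ∀ i, i ≠ i₀ → v i = 0) : Fac (Fintype.card I) (fm c v s) ((1, s) ::ₘ
      (Finset.univ.erase i₀).val.map fun i => (-algebraMap k O (c i), 1)) := by
  refine ⟨?_, 1, isUnit_one, ?_⟩
  · rw [Multiset.card_cons, Multiset.card_map]
    exact Finset.card_erase_add_one (Finset.mem_univ i₀)
  · rw [fm, Finset.sum_eq_single i₀ (fun i _ hi => by simp [h2 i hi]) (by simp),
      ← Finset.mul_prod_erase _ _ (Finset.mem_univ i₀), h0, h1, Multiset.map_cons,
      Multiset.prod_cons, Multiset.map_map]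
    have e : ∏ i ∈ Finset.univ.erase i₀, (X - C (algebraMap k O (c i))) = _ :=
      congrArg Multiset.prod (Multiset.map_congr rfl fun i _ =>
        show _ = (lin ∘ fun i => (-algebraMap k O (c i), 1)) i by simp [lin, sub_eq_neg_add])
    rw [← e]
    simp [lin]
    ring

variable (F c) in
/-- The sum of the classes of the roots. -/
def phi ⦃O : Aic k⦄ (v : I → O) (s : O) : ((Pr c Set.univ).ob F).V O :=
  (((Classical.epsilon (Fac (Fintype.card I) (fm c v s))).map (Quotient.mk (st O))).map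
    ((Pr c Set.univ).cl F)).sum

theorem exists_fm [Infinite k] (hc : Function.Injective c) {v : I → O} (s : O)
    (h : ∃ j, IsUnit (v j)) : ∃ L, Fac (Fintype.card I) (fm c v s) L :=
  h.elim fun _ h => exists_fac (natDegree_fm c v s) (isUnit_fm hc s h)

theorem phi_eq [Infinite k] (hc : Function.Injective c) {v : I → O} {s : O}
    (h : ∃ j, IsUnit (v j)) {L : Multiset (O × O)} (hL : Fac (Fintype.card I) (fm c v s) L) :
    phi F c v s = (L.map fun l => (Pr c Set.univ).cl F (Quotient.mk (st O) l)).sum := by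
  obtain ⟨j, h⟩ := h
  rw [phi, (Classical.epsilon_spec ⟨L, hL⟩).uniq hL (isUnit_fm hc s h), Multiset.map_map]
  rfl

theorem thom [IsAlgClosed k] (hc : Function.Injective c) {i₀ : I} (h0 : c i₀ = 0) :
    Thom I i₀ _ ((isMap_κ c (Set.mem_univ i₀)).hom F) (phi F c) where
  uiso := uiso_κ c i₀
  nat O O' g v s h := by
    obtain ⟨L, hL⟩ := exists_fm hc s h
    have hL' := hL.map (g : O →+* O')
    rw [map_fm] at hL'
    rw [phi_eq hc h hL, phi_eq hc (h.imp fun _ h => h.map g) hL', map_multiset_sum,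
      Multiset.map_map, Multiset.map_map]
    obtain ⟨j, h⟩ := h
    exact congrArg _ (Multiset.map_congr rfl fun l hl => map_cl (P := Pr c Set.univ) g
      ⟨j, trivial, U_mk.2 (by simpa using hL.unit (isUnit_fm hc s h) hl)⟩)
  smul O v s a h ha := by
    obtain ⟨L, hL⟩ := exists_fm hc s h
    rw [phi_eq hc h hL, phi_eq hc (h.imp fun _ h => ha.mul h) (fm_smul c v s a ▸ hL.smul ha)]
  dead O v s h hs := by
    obtain ⟨L, hL⟩ := exists_fm hc s h
    rw [phi_eq hc h hL]
    refine Multiset.sum_eq_zero fun x hx => ?_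
    obtain ⟨l, hl, rfl⟩ := Multiset.mem_map.1 hx
    exact Pair.cl_dead _ (U_mk.2 (by simpa using hL.dead (by rwa [coeff_fm]) hl))
  base O v s h1 h2 := by
    rw [phi_eq hc ⟨i₀, h1 ▸ isUnit_one⟩ (fac_base h0 s h1 h2), Multiset.map_cons,
      Multiset.sum_cons, Multiset.sum_eq_zero, add_zero, IsMap.hom_cl _ trivial]
    · simp [ch, h0]
    · intro x hx
      rw [Multiset.map_map] at hx
      obtain ⟨l, -, rfl⟩ := Multiset.mem_map.1 hx
      exact Pair.cl_dead _ (U_mk.2 (by simp))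

end

end Phi

theorem exists_thom [IsAlgClosed k] (I : Type) [Finite I] (i₀ : I) :
    ∃ (R : Ob k F) (κ : (tP k).ob F ⟶ R) (Φ : ∀ ⦃O : Aic k⦄, (I → O) → O → R.V O),
      Thom I i₀ R κ Φ := by
  classical
  have := Fintype.ofFinite I
  obtain ⟨e, he⟩ := exists_injective_nat I
  let c : I → k := fun i => Infinite.natEmbedding k (e i) - Infinite.natEmbedding k (e i₀)
  exact ⟨_, _, _, Phi.thom (c := c)
    (fun _ _ h => he ((Infinite.natEmbedding k).injective (sub_left_injective h))) (sub_self _)⟩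

end Pool.Agent.Lib.MP_fc2ced_ag.E
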