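import Mathlib

/-! Smooth algebras over a field are reduced. -/

namespace Pool.Agent.Lib.MP_fc2ced_ag.E

open scoped TensorProduct

theorem Sm.isReduced_of_etale (P B : Type) [CommRing P] [IsDomain P] [CommRing B] [Algebra P B]
    [Algebra.Etale P B] : IsReduced B := by
  have : IsReduced (FractionRing P ⊗[P] B) :=
    Algebra.FormallyUnramified.isReduced_of_field (FractionRing P) _
  exact isReduced_of_injective (Algebra.TensorProduct.includeRight (R := P) (A := FractionRing P))
    (Algebra.TensorProduct.includeRight_injective (IsFractionRing.injective P _))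

theorem isReduced_of_smooth {k : Type} [Field k] (A : Type) [CommRing A] [Algebra k A]
    [Algebra.Smooth k A] : IsReduced A := by
  refine ⟨fun x hx => ?_⟩
  by_contra h0
  obtain ⟨p, hp, h1⟩ := Ideal.exists_le_maximal (Ideal.torsionOf A A x) (by
    rwa [Ne, Ideal.torsionOf_eq_top_iff])
  obtain ⟨f, hf, n, _, _, _⟩ :=
    Algebra.IsSmoothAt.exists_isStandardEtale_mvPolynomial (R := k) (p := p)
  have := Sm.isReduced_of_etale (MvPolynomial (Fin n) k) (Localization.Away f)
  obtain ⟨⟨_, m, rfl⟩, h⟩ := (IsLocalization.map_eq_zero_iff (Submonoid.powers f) _ x).1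
    (hx.map (algebraMap A (Localization.Away f))).eq_zero
  exact hf (hp.isPrime.mem_of_pow_mem m (h1 h))

end Pool.Agent.Lib.MP_fc2ced_ag.E
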