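import Pool.Agent.Lib.MP_fc2ced_ag.EPure
import Pool.Agent.Lib.MP_fc2ced_ag.R.Defs
import Pool.Agent.Lib.MP_fc2ced_ag.R.Sm

/-! Points of varieties with values in arbitrary algebras. -/

open Function
open scoped TensorProduct Polynomial

namespace Pool.Agent.Lib.MP_fc2ced_ag.E

open Var R

noncomputable section

variable {k : Type} [Field k]

variable {P Q R : Type} [Var k P] [Var k Q] [Var k R]

instance Var.isReduced : IsReduced (B k P) := isReduced_of_smooth (k := k) _

instance Var.unit : Var k Unit := Var.point k Unit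

variable (k P) in
/-- Points with values in an algebra. -/
abbrev Pt (O : Type) [CommRing O] [Algebra k O] := B k P →ₐ[k] O

open Classical in
/-- The element of the coordinate ring that defines a regular function. -/
def fn (f : P → k) : B k P := if h : Rg k f then (rg_line_iff.1 h).choose else 0

theorem pt_fn {f : P → k} (hf : Rg k f) (x : P) : pt x (fn f) = f x := by
  rw [fn, dif_pos hf]; exact ((rg_line_iff.1 hf).choose_spec x).symm

/-- The homomorphism of rings that defines a regular map. -/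
def Rg.hom {e : P → Q} (h : Rg k e) : B k Q →ₐ[k] B k P := h.choose

theorem Rg.pt_hom {e : P → Q} (h : Rg k e) (x : P) : pt (e x) = (pt x).comp h.hom :=
  h.choose_spec x

variable {O O' : Type} [CommRing O] [Algebra k O] [CommRing O'] [Algebra k O']

/-- The action of a regular map on points with values in an algebra. -/
def Rg.pm {e : P → Q} (h : Rg k e) (x : Pt k P O) : Pt k Q O := x.comp h.hom

theorem Rg.comp_pm {e : P → Q} (h : Rg k e) (g : O →ₐ[k] O') (x : Pt k P O) :
    g.comp (h.pm x) = h.pm (g.comp x) := rfl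

theorem Rg.pm_pt {e : P → Q} (h : Rg k e) (x : P) : h.pm (pt x) = pt (e x) := (h.pt_hom x).symm

/-- A pair of points. -/
def Pt.pair (x : Pt k P O) (y : Pt k Q O) : Pt k (P × Q) O :=
  Algebra.TensorProduct.productMap x y

/-- A constant point. -/
def Pt.const (q : Q) : Pt k Q O := (Algebra.ofId k O).comp (pt q)

theorem Pt.comp_pair (g : O →ₐ[k] O') (x : Pt k P O) (y : Pt k Q O) :
    g.comp (x.pair y) = Pt.pair (g.comp x) (g.comp y) :=
  Algebra.TensorProduct.ext (by ext; simp [Pt.pair]) (by ext; simp [Pt.pair])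

theorem Pt.comp_const (g : O →ₐ[k] O') (q : Q) : g.comp (Pt.const q) = Pt.const (k := k) q := by
  ext; simp [Pt.const]

variable [IsAlgClosed k]

theorem B_ext {b b' : B k P} (h : ∀ x : P, pt x b = pt x b') : b = b' := by
  rw [← sub_eq_zero]
  refine (isNilpotent_of_points (k := k) fun x => ?_).eq_zero
  obtain ⟨x, rfl⟩ := pt.surjective x
  rw [map_sub, h, sub_self]

theorem fn_pt (b : B k P) : fn (fun x : P => pt x b) = b := B_ext fun x => pt_fn (rg_pt b) x

theorem fn_eq {f : P → k} {b : B k P} (h : ∀ x, pt x b = f x) : fn f = b := by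
  rw [show f = fun x => pt x b from funext fun x => (h x).symm, fn_pt]

theorem fn_const (c : k) : fn (fun _ : P => c) = algebraMap k _ c := fn_eq fun x => by simp

theorem fn_one : fn (fun _ : P => (1 : k)) = 1 := fn_eq fun x => by simp

theorem fn_zero : fn (fun _ : P => (0 : k)) = 0 := fn_eq fun x => by simp

theorem fn_add {f g : P → k} (hf : Rg k f) (hg : Rg k g) :
    fn (fun x => f x + g x) = fn f + fn g := fn_eq fun x => by rw [map_add, pt_fn hf, pt_fn hg]

theorem fn_sub {f g : P → k} (hf : Rg k f) (hg : Rg k g) :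
    fn (fun x => f x - g x) = fn f - fn g := fn_eq fun x => by rw [map_sub, pt_fn hf, pt_fn hg]

theorem fn_mul {f g : P → k} (hf : Rg k f) (hg : Rg k g) :
    fn (fun x => f x * g x) = fn f * fn g := fn_eq fun x => by rw [map_mul, pt_fn hf, pt_fn hg]

theorem fn_pow {f : P → k} (hf : Rg k f) (m : ℕ) : fn (fun x => f x ^ m) = fn f ^ m :=
  fn_eq fun x => by rw [map_pow, pt_fn hf]

theorem fn_sum {α : Type} (s : Finset α) {f : α → P → k} (hf : ∀ a, Rg k (f a)) :
    fn (fun x => ∑ a ∈ s, f a x) = ∑ a ∈ s, fn (f a) :=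
  fn_eq fun x => by simp only [map_sum, pt_fn (hf _)]

theorem fn_prod {α : Type} (s : Finset α) {f : α → P → k} (hf : ∀ a, Rg k (f a)) :
    fn (fun x => ∏ a ∈ s, f a x) = ∏ a ∈ s, fn (f a) :=
  fn_eq fun x => by simp only [map_prod, pt_fn (hf _)]

theorem isUnit_fn {f : P → k} (hf : Rg k f) (h : ∀ x, f x ≠ 0) : IsUnit (fn f) :=
  isUnit_of_points (k := k) fun x => by
    obtain ⟨x, rfl⟩ := pt.surjective x
    rw [pt_fn hf]; exact h x

theorem Rg.hom_eq {e : P → Q} (h : Rg k e) {ψ : B k Q →ₐ[k] B k P}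
    (hψ : ∀ x, pt (e x) = (pt x).comp ψ) : h.hom = ψ :=
  AlgHom.ext fun b => B_ext fun x => congr($((h.pt_hom x).symm.trans (hψ x)) b)

theorem Rg.hom_fn {e : P → Q} (h : Rg k e) {f : Q → k} (hf : Rg k f) :
    h.hom (fn f) = fn fun x => f (e x) :=
  (fn_eq fun x => (congr($(h.pt_hom x) (fn f))).symm.trans (pt_fn hf _)).symm

theorem Rg.pm_fn {e : P → Q} (h : Rg k e) {f : Q → k} (hf : Rg k f) (x : Pt k P O) :
    h.pm x (fn f) = x (fn fun y => f (e y)) := congrArg x (h.hom_fn hf)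

theorem Rg.pm_apply {e : P → Q} (h : Rg k e) (x : Pt k P O) (b : B k Q) :
    h.pm x b = x (fn fun y => pt (e y) b) := by
  rw [← h.pm_fn (rg_pt b), fn_pt]

/-- Identities between regular maps hold for points with values in any algebra. -/
theorem Rg.pm_pm {e : P → Q} {e' : Q → R} {e'' : P → R} (h : Rg k e) (h' : Rg k e')
    (h'' : Rg k e'') (he : ∀ x, e' (e x) = e'' x) (x : Pt k P O) : h'.pm (h.pm x) = h''.pm x := by
  rw [Rg.pm, Rg.pm, Rg.pm, h''.hom_eq (ψ := h.hom.comp h'.hom) fun y => by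
    rw [← he, h'.pt_hom, h.pt_hom]; rfl]
  rfl

theorem Rg.pm_id {e : P → P} (h : Rg k e) (he : ∀ x, e x = x) (x : Pt k P O) : h.pm x = x := by
  rw [Rg.pm, h.hom_eq (ψ := .id k _) fun y => by rw [he]; rfl]; rfl

theorem Rg.pm_congr {e e' : P → Q} (h : Rg k e) (h' : Rg k e') (he : ∀ x, e x = e' x)
    (x : Pt k P O) : h.pm x = h'.pm x := by
  obtain rfl : e = e' := funext he
  rfl

theorem Rg.pm_pm_id {e : P → Q} {e' : Q → P} (h : Rg k e) (h' : Rg k e')
    (he : ∀ x, e' (e x) = x) (x : Pt k P O) : h'.pm (h.pm x) = x :=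
  (h.pm_pm h' .id he x).trans (Rg.id.pm_id (fun _ => rfl) x)

theorem Rg.pm_comm {P' : Type} [Var k P'] {e : P → Q} {e' : Q → R} {d : P → P'} {d' : P' → R}
    (h : Rg k e) (h' : Rg k e') (g : Rg k d) (g' : Rg k d') (he : ∀ x, e' (e x) = d' (d x))
    (x : Pt k P O) : h'.pm (h.pm x) = g'.pm (g.pm x) :=
  (h.pm_pm h' (g'.comp g) he x).trans (g.pm_pm g' _ (fun _ => rfl) x).symm

theorem Pt.fst_pair (x : Pt k P O) (y : Pt k Q O) : (Rg.id (k := k)).fst.pm (x.pair y) = x := by
  rw [Rg.pm, Rg.hom_eq (ψ := Algebra.TensorProduct.includeLeft) _ fun _ =>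
    (Algebra.TensorProduct.productMap_left _ _).symm]
  exact Algebra.TensorProduct.productMap_left _ _

theorem Pt.snd_pair (x : Pt k P O) (y : Pt k Q O) : (Rg.id (k := k)).snd.pm (x.pair y) = y := by
  rw [Rg.pm, Rg.hom_eq (ψ := Algebra.TensorProduct.includeRight) _ fun _ =>
    (Algebra.TensorProduct.productMap_right _ _).symm]
  exact Algebra.TensorProduct.productMap_right _ _

theorem Pt.ext_prod {z z' : Pt k (P × Q) O}
    (h1 : (Rg.id (k := k)).fst.pm z = (Rg.id (k := k)).fst.pm z')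
    (h2 : (Rg.id (k := k)).snd.pm z = (Rg.id (k := k)).snd.pm z') : z = z' := by
  rw [Rg.pm, Rg.pm, Rg.hom_eq (ψ := Algebra.TensorProduct.includeLeft) _ fun _ =>
    (Algebra.TensorProduct.productMap_left _ _).symm] at h1
  rw [Rg.pm, Rg.pm, Rg.hom_eq (ψ := Algebra.TensorProduct.includeRight) _ fun _ =>
    (Algebra.TensorProduct.productMap_right _ _).symm] at h2
  exact Algebra.TensorProduct.ext h1 h2

theorem Pt.pair_eta (z : Pt k (P × Q) O) :
    Pt.pair ((Rg.id (k := k)).fst.pm z) ((Rg.id (k := k)).snd.pm z) = z :=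
  Pt.ext_prod (Pt.fst_pair _ _) (Pt.snd_pair _ _)

theorem Rg.pm_pair {f : R → P} {g : R → Q} (hf : Rg k f) (hg : Rg k g)
    (h : Rg k fun x => (f x, g x)) (w : Pt k R O) : h.pm w = (hf.pm w).pair (hg.pm w) :=
  Pt.ext_prod ((h.pm_pm _ hf (fun _ => rfl) w).trans (Pt.fst_pair _ _).symm)
    ((h.pm_pm _ hg (fun _ => rfl) w).trans (Pt.snd_pair _ _).symm)

theorem Rg.pm_pair_fst {f : P → R} (hf : Rg k f) (h : Rg k fun x : P × Q => f x.1)
    (x : Pt k P O) (y : Pt k Q O) : h.pm (x.pair y) = hf.pm x := by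
  rw [← Rg.pm_pm (Rg.id (k := k)).fst hf h (fun _ => rfl), Pt.fst_pair]

theorem Rg.pm_pair_snd {f : Q → R} (hf : Rg k f) (h : Rg k fun x : P × Q => f x.2)
    (x : Pt k P O) (y : Pt k Q O) : h.pm (x.pair y) = hf.pm y := by
  rw [← Rg.pm_pm (Rg.id (k := k)).snd hf h (fun _ => rfl), Pt.snd_pair]

theorem Rg.pm_prod {P' Q' : Type} [Var k P'] [Var k Q'] {f : P → P'} {g : Q → Q'} (hf : Rg k f)
    (hg : Rg k g) (h : Rg k fun x : P × Q => (f x.1, g x.2)) (x : Pt k P O) (y : Pt k Q O) :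
    h.pm (x.pair y) = (hf.pm x).pair (hg.pm y) := by
  rw [Rg.pm_pair (hf.comp Rg.id.fst) (hg.comp Rg.id.snd) h, hf.pm_pair_fst, hg.pm_pair_snd]

theorem Rg.pm_const (q : Q) (h : Rg k fun _ : P => q) (w : Pt k P O) : h.pm w = Pt.const q := by
  rw [Rg.pm, h.hom_eq (ψ := (Algebra.ofId k _).comp (pt q)) fun x => by ext; simp]
  ext; simp [Pt.const]

omit [IsAlgClosed k] in
theorem Rg.pm_const' {e : P → Q} (h : Rg k e) (x : P) :
    h.pm (Pt.const x : Pt k P O) = Pt.const (e x) := by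
  rw [Pt.const, Pt.const, h.pt_hom]; rfl

omit [IsAlgClosed k] in
theorem Pt.const_fn {f : Q → k} (hf : Rg k f) (q : Q) :
    (Pt.const q : Pt k Q O) (fn f) = algebraMap k O (f q) := by
  simp [Pt.const, pt_fn hf]

/-- A map is regular if it pulls back regular functions to regular functions. -/
theorem rg_of_forall {e : P → Q} (h : ∀ b : B k Q, Rg k fun x => pt (e x) b) : Rg k e :=
  ⟨{ toFun b := fn fun x => pt (e x) b
     map_one' := fn_eq fun x => by simp
     map_mul' a b := fn_eq fun x => by rw [map_mul, map_mul, pt_fn (h a), pt_fn (h b)]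
     map_zero' := fn_eq fun x => by simp
     map_add' a b := fn_eq fun x => by rw [map_add, map_add, pt_fn (h a), pt_fn (h b)]
     commutes' c := fn_eq fun x => by simp }, fun x => AlgHom.ext fun b => (pt_fn (h b) x).symm⟩

theorem fn_id : fn (fun x : k => x) = (Polynomial.X : k[X]) :=
  fn_eq fun x => Polynomial.aeval_X (R := k) x

theorem Pt.exists_line (a : O) : ∃ x : Pt k k O, x (fn fun c => c) = a :=
  ⟨Polynomial.aeval a, by rw [fn_id]; exact Polynomial.aeval_X (R := k) a⟩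

theorem Pt.ext_line {x y : Pt k k O} (h : x (fn fun c => c) = y (fn fun c => c)) : x = y :=
  Polynomial.algHom_ext (by rwa [fn_id] at h)

theorem Pt.ext_unit (x y : Pt k Unit O) : x = y :=
  AlgHom.ext fun c => (x.commutes c).trans (y.commutes c).symm

section Loc
variable {P' : Type} [Var k P'] {val : P' → P} {f : P → k}

theorem exists_loc (hf : Rg k f) : ∃ _ : Var k {x // f x ≠ 0},
    IsLoc (Subtype.val : {x // f x ≠ 0} → P) f :=
  exists_var_loc _ hf Subtype.val_injective (by simp)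

omit [IsAlgClosed k] in
theorem IsLoc.ne (hv : IsLoc val f) (x : P') : f (val x) ≠ 0 := (hv.range _).1 ⟨x, rfl⟩

omit [IsAlgClosed k] in
theorem IsLoc.exists_lift (hv : IsLoc val f) {e : R → P} (he : Rg k e) (h : ∀ x, f (e x) ≠ 0) :
    ∃ e' : R → P', Rg k e' ∧ ∀ x, val (e' x) = e x := by
  choose e' h' using fun x => (hv.range (e x)).2 (h x)
  exact ⟨e', hv.lift (he.congr h'), h'⟩

theorem IsLoc.isUnit_pm (hv : IsLoc val f) (x : Pt k P' O) : IsUnit (hv.rg_val.pm x (fn f)) := by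
  rw [hv.rg_val.pm_fn hv.rg]
  exact (isUnit_fn (hv.rg.comp hv.rg_val) hv.ne).map x

omit [IsAlgClosed k] in
theorem IsLoc.comp_iso (hv : IsLoc val f) {e : R → P'} {e' : P' → R} (he : Rg k e) (he' : Rg k e')
    (h1 : ∀ x, e' (e x) = x) (h2 : ∀ x, e (e' x) = x) : IsLoc (fun x => val (e x)) f where
  rg := hv.rg
  rg_val := hv.rg_val.comp he
  inj _ _ h := (h1 _).symm.trans ((congrArg e' (hv.inj h)).trans (h1 _))
  range x := ⟨fun ⟨y, h⟩ => (hv.range x).1 ⟨e y, h⟩, fun h => ((hv.range x).2 h).elim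
    fun y h => ⟨e' y, by simp only [h2, h]⟩⟩
  lift h := (he'.comp (hv.lift h)).congr fun _ => (h1 _).symm

omit [IsAlgClosed k] in
theorem IsLoc.iso_comp (hv : IsLoc val f) {e : P → R} {e' : R → P} (he : Rg k e) (he' : Rg k e')
    (h1 : ∀ x, e' (e x) = x) (h2 : ∀ x, e (e' x) = x) :
    IsLoc (fun x => e (val x)) fun y => f (e' y) where
  rg := hv.rg.comp he'
  rg_val := he.comp hv.rg_val
  inj _ _ h := hv.inj ((h1 _).symm.trans ((congrArg e' h).trans (h1 _)))
  range x := ⟨fun ⟨y, h⟩ => by rw [← h, h1]; exact hv.ne y, fun h => ((hv.range _).2 h).elim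
    fun y h => ⟨y, by simp only [h2, h]⟩⟩
  lift h := hv.lift ((he'.comp h).congr fun _ => (h1 _).symm)

omit [IsAlgClosed k] in
theorem IsLoc.congr (hv : IsLoc val f) {g : P → k} (hg : Rg k g) (h : ∀ x, g x ≠ 0 ↔ f x ≠ 0) :
    IsLoc val g :=
  ⟨hg, hv.rg_val, hv.inj, fun x => (hv.range x).trans (h x).symm, hv.lift⟩

omit [IsAlgClosed k] in
theorem isLoc_id : IsLoc (fun x : P => x) fun _ => (1 : k) :=
  ⟨.const _, .id, fun _ _ h => h, by simp, fun h => h⟩

end Loc

end

end Pool.Agent.Lib.MP_fc2ced_ag.E
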