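import Pool.Agent.Lib.MP_fc2ced_ag.R.On
import Pool.Agent.Lib.MP_fc2ced_ag.R.Gr2

/-! Quotients by locally trivial actions of tori, and sums of line bundles. -/

open Function Set

namespace Pool.Agent.Lib.MP_fc2ced_ag.E

open Var R

noncomputable section

variable {k : Type} [Field k] {Q X R E Y : Type} [Var k Q] [Var k X] [Var k R] [Var k E] [Var k Y]
  {H : Type} [Group H] [Var k H]

variable (k) in
/-- Algebraic actions. -/
structure HAct (a : H → Q → Q) : Prop where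
  rg : Rg k fun x : H × Q => a x.1 x.2
  one : ∀ x, a 1 x = x
  mul : ∀ h h' x, a (h * h') x = a h (a h' x)

variable (k) in
/-- Actions that are trivial on invariant principal open subsets. -/
structure Triv (a : H → Q → Q) : Prop where
  act : HAct k a
  loc : ∀ y₀, ∃ f : Q → k, Rg k f ∧ (∀ h y, f (a h y) = f y) ∧ f y₀ ≠ 0 ∧ ∃ ρ : Q → H,
    RgOn k {y | f y ≠ 0} ρ ∧ ∀ h y, f y ≠ 0 → ρ (a h y) = h * ρ y

variable (k) in
/-- Locally trivial quotients. -/
structure IsQuo (a : H → Q → Q) (π : Q → X) : Prop where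
  act : HAct k a
  rg : Rg k π
  eq : ∀ y y', π y = π y' ↔ ∃ h, a h y = y'
  loc : ∀ x₀, ∃ f : X → k, Rg k f ∧ f x₀ ≠ 0 ∧ ∃ (σ : X → Q) (ρ : Q → H),
    RgOn k {x | f x ≠ 0} σ ∧ RgOn k {y | f (π y) ≠ 0} ρ ∧ (∀ x, f x ≠ 0 → π (σ x) = x) ∧
      (∀ y, f (π y) ≠ 0 → a (ρ y) (σ (π y)) = y) ∧
        ∀ h y, f (π y) ≠ 0 → ρ (a h y) = h * ρ y

variable {a : H → Q → Q} {π : Q → X}

theorem IsQuo.sec (h : IsQuo k a π) : IsSec k π :=
  ⟨h.rg, fun x => by
    obtain ⟨f, h1, h2, σ, -, h3, -, h4, -⟩ := h.loc x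
    exact ⟨f, h1, h2, σ, h3, h4⟩⟩

theorem IsQuo.inv (h : IsQuo k a π) (g : H) (y : Q) : π (a g y) = π y :=
  ((h.eq _ _).2 ⟨g, rfl⟩).symm

/-- Maps that are invariant on a subset descend. -/
theorem IsQuo.exists_desc (h : IsQuo k a π) {Z : Type} (e : Q → Z) (U : Set Q)
    (he : ∀ g, ∀ y ∈ U, e (a g y) = e y) : ∃ e' : X → Z, ∀ y ∈ U, e' (π y) = e y := by
  refine ⟨fun x => e (surjInv h.sec.surj x), fun y hy => ?_⟩
  obtain ⟨g, hg⟩ := (h.eq y _).1 (surjInv_eq h.sec.surj (π y)).symm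
  exact (congrArg e hg).symm.trans (he g y hy)

theorem IsQuo.exists_set (h : IsQuo k a π) (U : Set Q) (hU : ∀ g, ∀ y ∈ U, a g y ∈ U) :
    ∃ V : Set X, ∀ y, π y ∈ V ↔ y ∈ U :=
  ⟨π '' U, fun y => ⟨by
    rintro ⟨y', hy, e⟩
    obtain ⟨g, rfl⟩ := (h.eq _ _).1 e
    exact hU g _ hy, fun hy => ⟨y, hy, rfl⟩⟩⟩

theorem Triv.prod (h : Triv k a) {a' : H → R → R} (h' : HAct k a') :
    Triv k fun g (x : Q × R) => (a g x.1, a' g x.2) := by
  refine ⟨⟨(h.act.rg.comp (Rg.id.fst.pair Rg.id.snd.fst)).pair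
    (h'.rg.comp (Rg.id.fst.pair Rg.id.snd.snd)), fun x => by rw [h.act.one, h'.one],
    fun g g' x => by rw [h.act.mul, h'.mul]⟩, fun y₀ => ?_⟩
  obtain ⟨f, h1, h2, h3, ρ, h4, h5⟩ := h.loc y₀.1
  exact ⟨fun x => f x.1, h1.comp Rg.id.fst, fun g y => h2 g y.1, h3, fun x => ρ x.1,
    fun _ _ _ hj hU => h4.rg hj.fst hU, fun g y hy => h5 g y.1 hy⟩

variable (k) in
/-- Sums of line bundles: charts, coordinates and transition functions. -/
structure VB (p : E → Y) (ι : Type) [Finite ι] [IsAlgClosed k] (nz : Set E) where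
  I : Type
  [fin : Finite I]
  f : I → Y → k
  s : I → E → ι → k
  r : I → Y × (ι → k) → E
  g : I → I → Y → ι → kˣ
  rg : Rg k p
  rg_f : ∀ b, Rg k (f b)
  cover : ∀ y, ∃ b, f b y ≠ 0
  rg_s : ∀ b, RgOn k {e | f b (p e) ≠ 0} (s b)
  rg_r : ∀ b, RgOn k {x | f b x.1 ≠ 0} (r b)
  rg_g : ∀ a b, RgOn k {y | f a y ≠ 0 ∧ f b y ≠ 0} (g a b)
  p_r : ∀ b y v, f b y ≠ 0 → p (r b (y, v)) = y
  s_r : ∀ b y v, f b y ≠ 0 → s b (r b (y, v)) = v
  r_s : ∀ b e, f b (p e) ≠ 0 → r b (p e, s b e) = e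
  mem : ∀ b e, f b (p e) ≠ 0 → (e ∈ nz ↔ s b e ≠ 0)
  trans : ∀ a b e i, f a (p e) ≠ 0 → f b (p e) ≠ 0 → s a e i = g a b (p e) i * s b e i

attribute [instance] VB.fin

namespace Quo

section Aw
variable {A C D : Type} [CommRing A] [CommRing C] [CommRing D] [Algebra k A] [Algebra k C]
  [Algebra k D] {ψ : A →ₐ[k] C} {b : A}

/-- The map `ψ` is the localization away from `b`. -/
def Aw (ψ : A →ₐ[k] C) (b : A) : Prop :=
  letI := ψ.toRingHom.toAlgebra
  IsLocalization.Away b C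

theorem Aw.unit (h : Aw ψ b) : IsUnit (ψ b) := by
  let := ψ.toRingHom.toAlgebra
  have : IsLocalization.Away b C := h
  exact IsLocalization.Away.algebraMap_isUnit (S := C) b

theorem Aw.ext (h : Aw ψ b) {φ φ' : C →ₐ[k] D} (e : φ.comp ψ = φ'.comp ψ) : φ = φ' := by
  let := ψ.toRingHom.toAlgebra
  have : IsLocalization.Away b C := h
  exact AlgHom.coe_ringHom_injective
    (IsLocalization.ringHom_ext (Submonoid.powers b) (RingHom.ext fun c => congr($e c)))

theorem Aw.lift (h : Aw ψ b) (φ : A →ₐ[k] D) (hu : IsUnit (φ b)) :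
    ∃ φ' : C →ₐ[k] D, φ'.comp ψ = φ := by
  let := ψ.toRingHom.toAlgebra
  have : IsLocalization.Away b C := h
  have : IsScalarTower k A C := .of_algebraMap_eq fun c => (ψ.commutes c).symm
  exact ⟨IsLocalization.Away.liftAlgHom b (f := φ) hu, AlgHom.ext fun c =>
    IsLocalization.Away.lift_eq (S := C) b (g := φ.toRingHom) hu c⟩

theorem Aw.mk (h1 : IsUnit (ψ b)) (h2 : ∀ s, ∃ (n : ℕ) (c : A), s * ψ b ^ n = ψ c)
    (h3 : ∀ c c', ψ c = ψ c' → b * c = b * c') : Aw ψ b := by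
  let := ψ.toRingHom.toAlgebra
  exact IsLocalization.Away.mk b h1 h2 fun c c' e => ⟨1, by rw [pow_one]; exact h3 c c' e⟩

theorem smooth_of (s : Set A) (hs : Ideal.span s = ⊤)
    (h : ∀ b ∈ s, ∃ (P : Type) (_ : Var k P) (ψ : A →ₐ[k] B k P), Aw ψ b) :
    Algebra.Smooth k A := by
  refine RingHom.smooth_algebraMap.1 (RingHom.Smooth.ofLocalizationSpanTarget.ofIsLocalization
    RingHom.Smooth.respectsIso _ s hs fun r => ?_)
  obtain ⟨P, _, ψ, hψ⟩ := h r r.2
  refine ⟨B k P, inferInstance, ψ.toRingHom.toAlgebra, hψ, ?_⟩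
  have e : ψ.toRingHom.comp (algebraMap k A) = algebraMap k (B k P) :=
    RingHom.ext fun c => ψ.commutes c
  exact e.symm ▸ RingHom.smooth_algebraMap.2 inferInstance

end Aw

variable [IsAlgClosed k]

theorem Aw.isLoc {e : R → X} {ψ : B k X →ₐ[k] B k R} (he : ∀ x, pt (e x) = (pt x).comp ψ)
    {b : B k X} (h : Aw ψ b) : IsLoc e fun x => pt x b where
  rg := rg_pt b
  rg_val := ⟨ψ, he⟩
  inj x x' hx := (pt (k := k)).injective (h.ext (by rw [← he, ← he, hx]))
  range x := by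
    refine ⟨?_, fun hx => ?_⟩
    · rintro ⟨y, rfl⟩
      rw [he]
      exact (h.unit.map (pt y)).ne_zero
    · obtain ⟨φ, hφ⟩ := h.lift (pt x) hx.isUnit
      exact ⟨pt.symm φ, (pt (k := k)).injective (by rw [he, Equiv.apply_symm_apply, hφ])⟩
  lift := by
    rintro S _ j ⟨θ, hθ⟩
    obtain ⟨θ', e'⟩ := h.lift θ (isUnit_of_points (k := k) fun x => by
      obtain ⟨x, rfl⟩ := pt.surjective x
      rw [← show pt (e (j x)) b = pt x (θ b) from congr($(hθ x) b), he]
      exact (h.unit.map (pt (j x))).ne_zero)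
    exact ⟨θ', fun x => h.ext (by rw [← he, hθ, AlgHom.comp_assoc, e'])⟩

omit [IsAlgClosed k] in
/-- An invariant mean on the span of the characters. -/
theorem exists_mean (G : Type) [Group G] : ∃ I : (G → k) →ₗ[k] k, I 1 = 1 ∧
    ∀ f ∈ Submodule.span k (range fun φ : G →* k => (φ : G → k)), ∀ g,
      I (fun h => f (h * g)) = I f := by
  classical
  have li := linearIndependent_monoidHom G k
  obtain ⟨I, hI⟩ := LinearMap.exists_extend
    ((Module.Basis.span li).constr k fun φ : G →* k => if φ = 1 then (1 : k) else 0)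
  have h1 (φ : G →* k) : I φ = if φ = 1 then 1 else 0 := by
    have := congr($hI (Module.Basis.span li φ))
    rwa [Module.Basis.constr_basis, LinearMap.comp_apply, Submodule.subtype_apply,
      Module.Basis.span_apply] at this
  refine ⟨I, (h1 1).trans (if_pos rfl), fun f hf g => ?_⟩
  induction hf using Submodule.span_induction with
  | mem f hf =>
    obtain ⟨φ, rfl⟩ := hf
    rw [show (fun h => φ (h * g)) = φ g • (φ : G → k) from funext fun h => by
      simp [mul_comm], map_smul, h1]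
    split_ifs with h
    · simp [h]
    · simp
  | zero => rfl
  | add f f' _ _ h h' => rw [map_add, ← h, ← h', ← map_add]; rfl
  | smul c f _ h => rw [map_smul, ← h, ← map_smul]; rfl

omit [Group H] [IsAlgClosed k] in
theorem rg_mean (I : (H → k) →ₗ[k] k) {F : H × Q → k} (hF : Rg k F) :
    Rg k fun x => I fun h => F (h, x) := by
  obtain ⟨b, hb⟩ := rg_line_iff.1 hF
  simp only [hb]
  clear hb
  induction b using TensorProduct.induction_on with
  | zero => exact (Rg.const (I 0)).congr fun x => congrArg I (funext fun h => map_zero _)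
  | tmul c d =>
    refine ((rg_pt d).mul (.const (I fun h => pt h c))).congr fun x => ?_
    rw [← smul_eq_mul, ← map_smul]
    exact congrArg I (funext fun h => mul_comm _ _)
  | add b b' h h' =>
    refine (h.add h').congr fun x => ?_
    rw [← map_add]
    exact congrArg I (funext fun h => map_add _ _ _)

variable (k) in
/-- The ring of invariants. -/
def inv (a : H → Q → Q) : Subalgebra k (B k Q) where
  carrier := {b | ∀ h y, pt (a h y) b = pt y b}
  mul_mem' hb hc h y := by rw [map_mul, map_mul, hb h y, hc h y]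
  add_mem' hb hc h y := by rw [map_add, map_add, hb h y, hc h y]
  algebraMap_mem' c h y := by simp

omit [Group H] [Var k H] [IsAlgClosed k] in
theorem fn_mem {f : Q → k} (hf : Rg k f) (h : ∀ g y, f (a g y) = f y) : fn f ∈ inv k a :=
  fun g y => by rw [pt_fn hf, pt_fn hf, h]

/-- Invariant functions without common zero generate the unit ideal of the ring of invariants. -/
theorem span_eq_top {J : Type} [Fintype J] {a : (J → kˣ) → Q → Q} (h : HAct k a)
    (s : Set (inv k a)) (hs : ∀ y : Q, ∃ b ∈ s, pt y b.1 ≠ 0) : Ideal.span s = ⊤ := by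
  obtain ⟨I, h1, h2⟩ := exists_mean (k := k) (J → kˣ)
  have r (c : B k Q) : Rg k fun y => I fun g => pt (a g y) c := rg_mean I ((rg_pt c).comp h.rg)
  have m (c : B k Q) : (fn fun y => I fun g => pt (a g y) c) ∈ inv k a :=
    fn_mem (r c) fun g y => by
      simp only [← h.mul]
      refine h2 (fun g => pt (a g y) c) (Submodule.span_mono ?_ (mem_span_char
        ((rg_pt c).comp (h.rg.comp (Rg.id.pair (.const y)))))) g
      rintro _ ⟨n, rfl⟩
      exact ⟨⟨⟨fun t => ((∏ j, t j ^ n j : kˣ) : k), by simp⟩, fun t t' => by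
        simp [mul_zpow, Finset.prod_mul_distrib]⟩, rfl⟩
  have key : ∀ b ∈ Ideal.span ((↑) '' s : Set (B k Q)), ∀ c : B k Q,
      (⟨_, m (c * b)⟩ : inv k a) ∈ Ideal.span s := by
    intro b hb
    induction hb using Submodule.span_induction with
    | mem b hb =>
      obtain ⟨b, hb, rfl⟩ := hb
      intro c
      have : (⟨_, m (c * b)⟩ : inv k a) = ⟨_, m c⟩ * b := Subtype.ext (fn_eq fun y => by
        rw [Subalgebra.coe_mul, map_mul, pt_fn (r c), mul_comm, ← smul_eq_mul, ← map_smul]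
        exact congrArg I (funext fun g => by
          rw [map_mul, b.2 g y, mul_comm]; rfl))
      rw [this]
      exact Ideal.mul_mem_left _ _ (Ideal.subset_span hb)
    | zero =>
      intro c
      have : (⟨_, m (c * 0)⟩ : inv k a) = 0 := Subtype.ext (fn_eq fun y => by
        simp only [mul_zero, map_zero, Subalgebra.coe_zero]
        exact (map_zero I).symm)
      rw [this]
      exact zero_mem _
    | add b b' _ _ hb hb' =>
      intro c
      have : (⟨_, m (c * (b + b'))⟩ : inv k a) = ⟨_, m (c * b)⟩ + ⟨_, m (c * b')⟩ :=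
        Subtype.ext (fn_eq fun y => by
          rw [Subalgebra.coe_add, map_add, pt_fn (r _), pt_fn (r _), ← map_add]
          exact congrArg I (funext fun g => by rw [mul_add, map_add]; rfl))
      rw [this]
      exact add_mem (hb c) (hb' c)
    | smul d b _ hb =>
      intro c
      simpa only [smul_eq_mul, ← mul_assoc] using hb (c * d)
  have top : Ideal.span ((↑) '' s : Set (B k Q)) = ⊤ := by
    by_contra hne
    obtain ⟨x, hx⟩ := exists_point (k := k) hne
    obtain ⟨y, rfl⟩ := pt.surjective x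
    obtain ⟨b, hb, h0⟩ := hs y
    exact h0 (hx _ (Ideal.subset_span ⟨b, hb, rfl⟩))
  have := key 1 (by rw [top]; trivial) 1
  rw [show (⟨_, m (1 * 1)⟩ : inv k a) = 1 from Subtype.ext (fn_eq fun y => by
    simp only [mul_one, map_one, Subalgebra.coe_one]
    exact h1.symm)] at this
  exact (Ideal.eq_top_iff_one _).2 this

/-- The slice of a chart. -/
theorem exists_chart [GVar k H] (h : HAct k a) {f : Q → k} (hf : Rg k f)
    (hi : ∀ g y, f (a g y) = f y) {ρ : Q → H} (hρ : RgOn k {y | f y ≠ 0} ρ)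
    (he : ∀ g y, f y ≠ 0 → ρ (a g y) = g * ρ y) :
    ∃ (P : Type) (_ : Var k P) (v : P → Q) (hv : Rg k v),
      (∀ y, f y ≠ 0 → ∃ x, v x = a (ρ y)⁻¹ y) ∧
        Aw (hv.hom.comp (inv k a).val) ⟨fn f, fn_mem hf hi⟩ := by
  obtain ⟨_, hl⟩ := exists_loc hf
  let e : {y // f y ≠ 0} → {y // f y ≠ 0} := fun y => ⟨a (ρ y.1)⁻¹ y.1, by rw [hi]; exact y.2⟩
  have e1 : Rg k e := hl.lift (h.rg.comp ((hρ.rg hl.rg_val fun y => y.2).ginv.pair hl.rg_val))
  have e2 (g : H) (y : Q) (hy : f y ≠ 0) : a (ρ (a g y))⁻¹ (a g y) = a (ρ y)⁻¹ y := by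
    rw [he g y hy, ← h.mul, mul_inv_rev, inv_mul_cancel_right]
  have e3 (y : {y // f y ≠ 0}) : e (e y) = e y := Subtype.ext (e2 _ _ y.2)
  obtain ⟨_, r1, r2⟩ := exists_var_fix e1 e3
  have hv := hl.rg_val.comp r1
  have p (x : {y // e y = y}) (c : inv k a) :
      pt x ((hv.hom.comp (inv k a).val) c) = pt x.1.1 c.1 := (congr($(hv.pt_hom x) c.1)).symm
  refine ⟨{y // e y = y}, inferInstance, fun x => x.1.1, hv, fun y hy => ⟨⟨e ⟨y, hy⟩, e3 _⟩, rfl⟩,
    .mk (isUnit_of_points (k := k) fun x => ?_)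
      (fun s => ?_) fun c c' hc => Subtype.ext (B_ext fun y => ?_)⟩
  · obtain ⟨x, rfl⟩ := pt.surjective x
    rw [p, pt_fn hf]
    exact x.1.2
  · obtain ⟨M, t, t1, t2, t3⟩ := hl.exists_mul_pow ((rg_pt s).comp r2)
    refine ⟨M, ⟨fn t, fn_mem t1 fun g y => ?_⟩, B_ext fun x => ?_⟩
    · by_cases hy : f y = 0
      · rw [t3 y hy, t3 _ ((hi g y).trans hy)]
      · refine (t2 ⟨a g y, by rwa [hi]⟩).trans (Eq.trans ?_ (t2 ⟨y, hy⟩).symm)
        exact congrArg₂ (· * ·) (congrArg (· ^ M) (hi g y))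
          (congrArg (fun x => pt x s) (Subtype.ext (Subtype.ext (e2 g y hy))))
    · rw [map_mul, map_pow, p, p, pt_fn hf, pt_fn t1, t2 x.1, mul_comm]
      exact congrArg (fun z => _ * pt z s) (Subtype.ext x.2.symm)
  · rw [Subalgebra.coe_mul, Subalgebra.coe_mul, map_mul, map_mul, pt_fn hf]
    by_cases hy : f y = 0
    · rw [hy, zero_mul, zero_mul]
    · have := congrArg (pt (⟨e ⟨y, hy⟩, e3 _⟩ : {y // e y = y})) hc
      rw [p, p] at this
      rw [← c.2 (ρ y)⁻¹ y, ← c'.2 (ρ y)⁻¹ y]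
      exact congrArg _ this

end Quo

variable [IsAlgClosed k]

theorem exists_quo {J : Type} [Fintype J] {a : (J → kˣ) → Q → Q} (h : Triv k a) :
    ∃ (X : Type) (_ : Var k X) (π : Q → X), IsQuo k a π := by
  choose f f1 f2 f3 ρ f4 f5 using h.loc
  choose P V v hv c1 c3 using fun y => Quo.exists_chart h.act (f1 y) (f2 y) (f4 y) (f5 y)
  let b : Q → Quo.inv k a := fun y => ⟨fn (f y), Quo.fn_mem (f1 y) (f2 y)⟩
  have top : Ideal.span (range b) = ⊤ := Quo.span_eq_top h.act _ fun y =>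
    ⟨b y, ⟨y, rfl⟩, by rw [pt_fn (f1 y)]; exact f3 y⟩
  have sm : Algebra.Smooth k (Quo.inv k a) := Quo.smooth_of _ top (by
    rintro _ ⟨y, rfl⟩
    exact ⟨P y, V y, _, c3 y⟩)
  let W : Var k (Quo.inv k a →ₐ[k] k) := { B := Quo.inv k a, pt := Equiv.refl _ }
  let π : Q → Quo.inv k a →ₐ[k] k := fun y => (pt y).comp (Quo.inv k a).val
  have pi (g y) : π (a g y) = π y := AlgHom.ext fun c => c.2 g y
  have pb (z y) : π y (b z) = f z y := pt_fn (f1 z) y
  have L (y : Q) : IsLoc (fun x => π (v y x)) fun x => x (b y) :=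
    Quo.Aw.isLoc (X := Quo.inv k a →ₐ[k] k) (ψ := (hv y).hom.comp (Quo.inv k a).val)
      (fun x => congrArg (AlgHom.comp · (Quo.inv k a).val) ((hv y).pt_hom x)) (c3 y)
  refine ⟨_, W, π, h.act, ⟨(Quo.inv k a).val, fun _ => rfl⟩, fun y y' => ⟨fun e => ?_, ?_⟩,
    fun x₀ => ?_⟩
  · obtain ⟨x, hx⟩ := c1 y y (f3 y)
    obtain ⟨x', hx'⟩ := c1 y y' (by rw [← pb, ← e, pb]; exact f3 y)
    obtain rfl : x = x' := (L y).inj (by simp only [hx, hx', pi, e])
    exact ⟨ρ y y' * (ρ y y)⁻¹, by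
      rw [h.act.mul, ← hx, hx', ← h.act.mul, mul_inv_cancel, h.act.one]⟩
  · rintro ⟨g, rfl⟩
    exact (pi g y).symm
  · obtain ⟨y, hy⟩ : ∃ y, x₀ (b y) ≠ 0 := by
      by_contra! h0
      have : Ideal.span (range b) ≤ RingHom.ker x₀ := Ideal.span_le.2 (by
        rintro _ ⟨y, rfl⟩
        exact h0 y)
      rw [top] at this
      exact one_ne_zero ((map_one x₀).symm.trans (this Submodule.mem_top))
    have : Nonempty (P y) := ⟨(((L y).range x₀).2 hy).choose⟩
    obtain ⟨j, j1, j2⟩ := (L y).oimm.exists_inv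
    refine ⟨fun x => x (b y), (L y).rg, hy, fun x => v y (j x), ρ y, fun _ _ _ hi hU =>
      (hv y).comp (j1.rg hi fun r => ((L y).range _).2 (hU r)), ?_, fun x hx => ?_,
        fun z hz => ?_, fun g z hz => f5 y g z (by rwa [← pb])⟩
    · simpa only [pb] using f4 y
    · obtain ⟨p, rfl⟩ := ((L y).range x).2 hx
      exact congrArg (fun q => π (v y q)) (j2 p)
    · obtain ⟨p, hp⟩ := c1 y z (by rwa [← pb])
      beta_reduce
      rw [← pi (ρ y z)⁻¹ z, ← hp, j2, hp, ← h.act.mul, mul_inv_cancel, h.act.one]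

end

end Pool.Agent.Lib.MP_fc2ced_ag.E
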