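import Pool.Agent.Lib.MP_fc2ced_ag.R.Geo3
import Pool.Agent.Lib.MP_fc2ced_ag.R.Flag
import Pool.Agent.Lib.MP_fc2ced_ag.R.Nz
import Pool.Agent.Lib.MP_fc2ced_ag.R.LangE

/-! Vanishing along all cosets of unipotent radicals. -/

open CategoryTheory CategoryTheory.Limits Function Set Matrix

set_option linter.unusedSectionVars false

namespace Pool.Agent.Lib.MP_fc2ced_ag.R

open E E.Var E.Pr

noncomputable section

variable {k : Type} [Field k] [IsAlgClosed k] {G : Type} [Group G] {n r : ℕ} {S : Type}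
  (D : Red k G n r S)
  [Var k G] [Var k D.U] [GVar k G] [GVar k D.U] [Geo D] {P : Type} [Var k P]
  {F : Type} [Field F] [CharZero F] [Finite S] {Θ : Theory k F} {q : ℕ} {φ : G →* G}
  [Fintype (fixG φ)] {η : MonoidAlgebra F (fixG φ)}

namespace Red

/-- Left multiplication by the fixed points. -/
abbrev lm (φ : G →* G) (R : Type) (γ : fixG φ) (x : G × R) : G × R := (γ * x.1, x.2)

theorem isAct_lm (R : Type) [Var k R] : IsAct k (lm φ R) :=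
  ⟨fun _ => by fun_prop, fun _ => by simp [lm], fun _ _ _ => by simp [lm, mul_assoc]⟩

omit [Fintype (fixG φ)] in
theorem lang_mul (γ : fixG φ) (g : G) : ((γ : G) * g)⁻¹ * φ (γ * g) = g⁻¹ * φ g := by
  rw [map_mul, show φ γ = γ from γ.2, _root_.mul_inv_rev, mul_assoc, inv_mul_cancel_left]

variable (Θ η) in
/-- The vanishing hypothesis for the varieties attached to the elements of the Weyl group. -/
def Hyp : Prop := ∀ (v : D.W) (R : Type) [Var k R] (W : Set R), LC k W →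
  Nz Θ η (lm φ (R × D.U)) {x | x.2.1 ∈ W ∧ x.1⁻¹ * φ x.1 = D.ν v * x.2.2}

end Red

namespace Van

open Red

section
variable {Q : Type} [Var k Q] {X : Pr k P} {Y : Pr k Q} {e : P → Q}

omit [CharZero F] in
theorem isIso_of_tors (hq : Tors k (fun (_ : Unit) (x : P) => x) e) (h : Mp X Y e)
    (hU : ∀ x, e x ∈ Y.U → x ∈ X.U) (hV : ∀ x, x ∈ X.V ↔ e x ∈ Y.V) : IsIso (h.mt Θ) := by
  classical
  have m : X.Md (Y.hU.choose.image hq.rg.hom) (Y.hV.choose.image hq.rg.hom) := by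
    constructor
    · rw [opSet_image hq.rg.pt_hom, Y.md.u]
      exact Set.ext fun x => ⟨hU x, h.u x⟩
    · rw [opSet_image hq.rg.pt_hom]
      refine Set.ext fun x => and_congr_right fun hx => ?_
      exact (and_congr_right_iff.1 (Set.ext_iff.1 Y.md.v (e x)) (h.u x hx)).trans (hV x).symm
  have im (s : Finset (B k Q)) {O : Aic k} (x : Pt k P O) :
      (∃ f ∈ s.image hq.rg.hom, IsUnit (x f)) ↔ ∃ f ∈ s, IsUnit (hq.rg.pm x f) := by
    simp [Rg.pm]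
  have q : Pair.IsMap (opP k (Y.hU.choose.image hq.rg.hom) (Y.hV.choose.image hq.rg.hom))
      (opP k Y.hU.choose Y.hV.choose) fun _ x => hq.rg.pm x :=
    ⟨fun _ _ _ _ _ => rfl, fun _ x h => (im _ x).1 h, fun _ x _ h => (im _ x).1 h⟩
  have u := (q.bij (F := F) (fun _ x _ h => (im _ x).2 h)
    (fun O x x' _ _ _ _ h => by
      obtain ⟨γ, hγ⟩ := hq.fib O x x' h
      exact (hγ.trans ((hq.act.rg γ).pm_id (fun _ => rfl) x)).symm)
    fun O y hy _ => by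
      obtain ⟨x, rfl⟩ := hq.surj O y
      exact ⟨x, (im _ x).2 hy, rfl⟩).uiso Θ
  have e1 := h.mt_spec Θ m Y.md q fun _ x hx => (h.rg.pm_eq hq.rg (fun _ _ => rfl) hx).symm
  have : IsIso ((m.cmp Θ).hom ≫ h.mt Θ) := e1 ▸ inferInstance
  exact IsIso.of_isIso_comp_left (m.cmp Θ).hom _

omit [CharZero F] in
theorem nz_up {Γ : Type} [Group Γ] [Fintype Γ] {η : MonoidAlgebra F Γ} {a : Γ → P → P}
    {a' : Γ → Q → Q} {Z : Set Q} (h : IsAct k a) (h' : IsAct k a')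
    (he : Tors k (fun (_ : Unit) (x : P) => x) e) (ea : ∀ γ x, e (a γ x) = a' γ (e x))
    (hZ : LC k Z) (sZ : Stb a' Z) (h1 : Nz Θ η a' Z) : Nz Θ η a (e ⁻¹' Z) := by
  obtain ⟨Y, s1, s2, hY⟩ := h'.exists_pr hZ sZ
  let X : Pr k P := ⟨e ⁻¹' Y.U, e ⁻¹' Y.V, Y.hU.preimage he.rg, Y.hV.preimage he.rg⟩
  have ha : ∀ γ, Mp X X (a γ) := fun γ => ⟨(h.rg γ).rgOn _,
    fun x hx => show e (a γ x) ∈ Y.U from ea γ x ▸ (s1 γ _).2 hx,
    fun x _ hx => show e (a γ x) ∈ Y.V from ea γ x ▸ (s2 γ _).2 hx⟩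
  have ha' : ∀ γ, Mp Y Y (a' γ) := fun γ => ⟨(h'.rg γ).rgOn _, fun x hx => (s1 γ x).2 hx,
    fun x _ hx => (s2 γ x).2 hx⟩
  have m : Mp X Y e := ⟨he.rg.rgOn _, fun _ hx => hx, fun _ _ hx => hx⟩
  have := isIso_of_tors (Θ := Θ) he m (fun _ hx => hx) fun _ => Iff.rfl
  refine nz_of_op h ha (fun x => hY (e x)) ?_
  rw [← cancel_mono (m.mt Θ), m.op_nat ha ha' fun γ x _ => ea γ x, h1 Y ha' hY, comp_zero,
    zero_comp]

end

variable {Q Q' : Type} [Var k Q] [Var k Q'] {W : Set Q} {W' : Set Q'} {y : Q → G} {y' : Q' → G}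

variable (Θ η) in
/-- Vanishing along the graph of `y` over `W`. -/
abbrev NZ (W : Set Q) (y : Q → G) : Prop :=
  Nz Θ η (lm φ Q) {x | x.2 ∈ W ∧ x.1⁻¹ * φ x.1 = y x.2}

theorem lc (hφ : Rg k φ) (hW : LC k W) (hy : Rg k y) :
    LC k {x : G × Q | x.2 ∈ W ∧ x.1⁻¹ * φ x.1 = y x.2} :=
  (hW.preimage Rg.id.snd).inter (IsCl.eq (by fun_prop) (by fun_prop)).lc

theorem stb : Stb (lm φ Q) {x : G × Q | x.2 ∈ W ∧ x.1⁻¹ * φ x.1 = y x.2} := fun γ x => by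
  simp only [mem_ofPred_eq, lang_mul]

theorem tw {e : Q' → Q} {d : Q → Q'} (he : Rg k e) (hd : Rg k d) (h1 : ∀ x, d (e x) = x)
    (h2 : ∀ x, e (d x) = x) {b : Q' → G} (hb : Rg k b) (hW : ∀ x, x ∈ W' ↔ e x ∈ W)
    (hy : ∀ x ∈ W', y (e x) = (b x)⁻¹ * y' x * φ (b x)) (h : NZ Θ η W' y') : NZ Θ η W y :=
  Nz.of_iso (isAct_lm Q') (isAct_lm Q) (e := fun x => (x.1 * b x.2, e x.2)) (by fun_prop)
    (d := fun x => (x.1 * (b (d x.2))⁻¹, d x.2)) (by fun_prop) (fun x => by simp [h1])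
    (fun x => by simp [h2]) (fun γ x => by simp [lm, mul_assoc]) h fun x => by
      simp only [mem_ofPred_eq, ← hW]
      refine and_congr_right fun hx => ?_
      rw [hy _ hx, map_mul, _root_.mul_inv_rev, mul_assoc, mul_assoc, mul_right_inj, ← mul_assoc,
        mul_left_inj]

theorem twU {D : Red k G n r S} [Var k D.U] [Geo D] (hφ : Rg k φ) {y' l b : Q → G} (hl : Rg k l)
    (hb : Rg k b) (m1 : ∀ x, ∀ u ∈ D.U, l x * u * φ (b x) ∈ D.U)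
    (m2 : ∀ x, ∀ u ∈ D.U, (l x)⁻¹ * u * (φ (b x))⁻¹ ∈ D.U)
    (hy : ∀ x ∈ W, y x * l x = (b x)⁻¹ * y' x)
    (h : NZ Θ η {x : Q × D.U | x.1 ∈ W} fun x => y' x.1 * x.2) :
    NZ Θ η {x : Q × D.U | x.1 ∈ W} fun x => y x.1 * x.2 := by
  have r1 : Rg k fun x : Q × D.U => (x.2 : G) := Geo.rg_val.comp Rg.id.snd
  have r2 : Rg k fun x : Q × D.U => b x.1 := hb.comp Rg.id.fst
  have r3 : Rg k fun x : Q × D.U => l x.1 := hl.comp Rg.id.fst
  have r4 : Rg k fun x : Q × D.U => (⟨_, m1 x.1 x.2 x.2.2⟩ : D.U) :=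
    Geo.lift ((r3.gmul r1).gmul (hφ.comp r2))
  have r5 : Rg k fun x : Q × D.U => (⟨_, m2 x.1 x.2 x.2.2⟩ : D.U) :=
    Geo.lift ((r3.ginv.gmul r1).gmul (hφ.comp r2).ginv)
  refine tw (Rg.id.fst.pair r4) (Rg.id.fst.pair r5) (fun x => by simp [mul_assoc])
    (fun x => by simp [mul_assoc]) r2 (fun _ => by rfl) (fun x hx => ?_) h
  simp only [← mul_assoc, hy _ hx]

theorem oimm {j : Q' → Q} (hj : OImm k j) (hW : W ⊆ range j)
    (h : NZ Θ η (j ⁻¹' W) fun x => y (j x)) : NZ Θ η W y :=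
  Nz.of_oimm (isAct_lm Q') (isAct_lm Q) (OImm.id.prod hj) (fun _ _ => rfl)
    (fun x hx => by
      obtain ⟨z, hz⟩ := hW hx.1
      exact ⟨(x.1, z), by simp [hz]⟩) h

theorem tors_left {Δ : Type} [Group Δ] {b : Δ → Q' → Q'} {e : Q' → Q} (h : Tors k b e) :
    Tors k (fun γ (x : P × Q') => (x.1, b γ x.2)) fun x => (x.1, e x.2) :=
  (h.prod (R := P)).conj (i := fun x => (x.2, x.1)) (i' := fun x => (x.2, x.1))
    (j := fun x => (x.2, x.1)) (j' := fun x => (x.2, x.1)) (by fun_prop) (by fun_prop)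
    (by fun_prop) (by fun_prop) (fun _ => rfl) (fun _ => rfl) (fun _ => rfl) (fun _ => rfl)
    (fun _ _ => rfl) fun _ => rfl

theorem tors {Δ : Type} [Group Δ] [Finite Δ] {b : Δ → Q' → Q'} {e : Q' → Q} (he : Tors k b e)
    (h : NZ Θ η (e ⁻¹' W) fun x => y (e x)) : NZ Θ η W y :=
  Nz.of_tors (isAct_lm Q') (isAct_lm Q) (tors_left he) (fun _ _ => rfl) h

theorem up (hφ : Rg k φ) {e : Q' → Q} (he : Tors k (fun (_ : Unit) (x : Q') => x) e)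
    (hW : LC k W) (hy : Rg k y) (h : NZ Θ η W y) : NZ Θ η (e ⁻¹' W) fun x => y (e x) :=
  nz_up (isAct_lm Q') (isAct_lm Q) (tors_left he) (fun _ _ => rfl) (lc hφ hW hy) stb h

theorem split (hφ : Rg k φ) (hη : η * η = η) (hW : LC k W) (hy : Rg k y) {V : Set Q}
    (hV : IsOp k V) (h1 : NZ Θ η (W ∩ V) y) (h2 : NZ Θ η (W \ V) y) : NZ Θ η W y :=
  Nz.split hη (isAct_lm Q) (lc hφ hW hy) stb (hV.preimage Rg.id.snd) (fun _ _ => Iff.rfl)
    (h1.congr fun _ => ⟨fun h => ⟨⟨h.1.1, h.2⟩, h.1.2⟩, fun h => ⟨⟨h.1.1, h.2⟩, h.1.2⟩⟩)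
    (h2.congr fun _ => ⟨fun h => ⟨⟨h.1.1, h.2⟩, h.1.2⟩, fun h => ⟨⟨h.1.1, h.2⟩, h.1.2⟩⟩)

theorem empty (h : ∀ x, x ∉ W) : NZ Θ η W y :=
  nz_empty.congr fun _ => ⟨fun k => h _ k.1, False.elim⟩

end Van

namespace Red

open Van

variable {D} (hφ : Stein D q φ) (hq : ∃ p s : ℕ, p.Prime ∧ (p : k) = 0 ∧ 0 < s ∧ q = p ^ s)
  (hη : η * η = η) (H : D.Hyp Θ η)
include hφ hq hη H

theorem van_torus (v : D.W) {R : Type} [Var k R] {t : R → Fin r → kˣ} (ht : Rg k t) {W : Set R}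
    (hW : LC k W) :
    Nz Θ η (lm φ (R × D.U)) {x | x.2.1 ∈ W ∧ x.1⁻¹ * φ x.1 = D.ι (t x.2.1) * D.ν v * x.2.2} := by
  obtain ⟨F', hF, hf⟩ := hφ.frob_T hq (D.ν_mem v)
  obtain ⟨_, hv⟩ := exists_var_fib hf.et ht
  have := hf.finite
  have T := (hf.tors.fibre hv (a' := fun γ x => ⟨(γ * x.1.1, x.1.2),
    (lang_mul γ x.1.1).trans x.2⟩) fun _ _ => rfl).prod (R := D.U)
  have r1 := D.rg_ι hv.rg.fst
  have m1 : ∀ (s : Fin r → kˣ), ∀ u ∈ D.U, φ (D.ι s) * u * (φ (D.ι s))⁻¹ ∈ D.U := fun s u hu => by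
    obtain ⟨s', hs⟩ := hφ.map_T s
    exact hs ▸ D.norm s' u hu
  refine tors (W := {x : R × D.U | x.1 ∈ W}) (y := fun x => D.ι (t x.1) * D.ν v * x.2) T
    (twU (Q := {x : (Fin r → kˣ) × R // x.1⁻¹ * F' x.1 = t x.2}) (W := {x | x.1.2 ∈ W})
      (y := fun x => D.ι (t x.1.2) * D.ν v) (y' := fun _ => D.ν v) hφ.rg
      (hφ.rg.comp r1).ginv r1 (fun x u hu => ?_) (fun x u hu => ?_) (fun x _ => ?_)
      (H v _ _ (hW.preimage hv.rg.snd)))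
  · simpa only [map_inv, inv_inv] using m1 x.1.1⁻¹ u hu
  · simpa only [inv_inv] using m1 x.1.1 u hu
  · simp only [← x.2, map_mul, map_inv, hF]
    group

theorem van_cell (v : D.W) {R : Type} [Var k R] {y : R → G} (hy : Rg k y) {W : Set R}
    (hW : LC k W) (h : ∀ x ∈ W, y x ∈ D.cell (D.ν v)) :
    Nz Θ η (lm φ (R × D.U)) {x | x.2.1 ∈ W ∧ x.1⁻¹ * φ x.1 = y x.2.1 * x.2.2} := by
  obtain ⟨f, u, u', t, hf, hu, hu', ht, hc⟩ := D.exists_cell_coord v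
  obtain ⟨_, hv⟩ := exists_loc (hf.comp hy)
  have r0 := hy.comp hv.rg_val
  refine oimm (W := {x : R × D.U | x.1 ∈ W}) (y := fun x => y x.1 * x.2) hv.prod.oimm
    (fun x hx => ⟨(⟨x.1, (hc _ (h _ hx)).1⟩, x.2), rfl⟩)
    (twU (W := {x | x.1 ∈ W}) (y := fun x => y x.1) (y' := fun x => D.ι (t (y x.1)) * D.ν v)
      hφ.rg (D.rg_val (hu'.rg r0 fun x => x.2)).ginv (D.rg_val (hu.rg r0 fun x => x.2)).ginv
      (fun x w hw => ?_) (fun x w hw => ?_) (fun x hx => ?_)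
      (van_torus hφ hq hη H v (ht.rg r0 fun x => x.2) (hW.preimage hv.rg_val)))
  · exact mul_mem (mul_mem (inv_mem (u' _).2) hw) (hφ.map_U _ (inv_mem (u _).2))
  · exact mul_mem (mul_mem (inv_mem (inv_mem (u' _).2)) hw)
      (inv_mem (hφ.map_U _ (inv_mem (u _).2)))
  · rw [inv_inv, ← mul_assoc, mul_inv_eq_of_eq_mul (hc _ (h _ hx)).2]

theorem van_all {R : Type} [Var k R] {y : R → G} (hy : Rg k y) {W : Set R} (hW : LC k W) :
    Nz Θ η (lm φ (R × D.U)) {x | x.2.1 ∈ W ∧ x.1⁻¹ * φ x.1 = y x.2.1 * x.2.2} := by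
  have r1 : Rg k fun x : R × D.U => y x.1 * x.2 := by fun_prop
  have r2 : Rg k fun x : R × D.U => y x.1 := by fun_prop
  refine (strat D.cl D.strat_cl (p := fun Y => NZ Θ η {x : R × D.U | x.1 ∈ W ∧ y x.1 ∈ Y}
    fun x => y x.1 * x.2) (empty fun _ h => h.2) (fun Z V hZ hV h1 h2 => ?_) fun v => ?_).congr
    fun x => by simp
  · refine split hφ.rg hη ((hW.preimage Rg.id.fst).inter (hZ.preimage r2)) r1 (hV.preimage r2)
      (h1.congr fun x => ?_) (h2.congr fun x => ?_) <;> simp [and_assoc]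
  · exact van_cell hφ hq hη H v hy (hW.inter ((D.lc_cell v).preimage hy))
      fun x hx => D.mem_cell_iff.2 hx.2

theorem van_conj {R : Type} [Var k R] {σ : R → G} (hσ : Rg k σ) {W : Set R} (hW : LC k W) :
    Nz Θ η (lm φ (R × (Fin D.NN → k)))
      {x | x.2.1 ∈ W ∧ x.1⁻¹ * φ x.1 = φ (σ x.2.1 * D.ξ x.2.2 * (σ x.2.1)⁻¹)} := by
  obtain ⟨c, hc, c1, c2⟩ := D.exists_coord
  have r1 := hφ.rg
  have r2 : Rg k fun x => (σ x)⁻¹ * φ (σ x) := by fun_prop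
  have h1 := up hφ.rg (W := {x : R × D.U | x.1 ∈ W}) (y := fun x => (σ x.1)⁻¹ * φ (σ x.1) * x.2)
    (tors_left (hφ.frob_U hq).tors_self) (hW.preimage Rg.id.fst) (by fun_prop)
    (van_all hφ hq hη H r2 hW)
  refine tw (W := {x : R × (Fin D.NN → k) | x.1 ∈ W}) (W' := {x : R × D.U | x.1 ∈ W})
    (y' := fun x => (σ x.1)⁻¹ * φ (σ x.1) * φ x.2)
    (y := fun x => φ (σ x.1 * D.ξ x.2 * (σ x.1)⁻¹)) (e := fun x => (x.1, c x.2))
    (d := fun x => (x.1, D.ξ x.2)) (by fun_prop) (by fun_prop) (fun x => by simp [c2])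
    (fun x => by simp [c1]) (b := fun x => (σ x.1)⁻¹) (by fun_prop) (fun _ => Iff.rfl)
    (fun x _ => ?_) h1
  simp only [c2, map_mul]
  group

theorem van (𝔉 : Flag D) : Nz Θ η (lm φ 𝔉.E) {x | x.1⁻¹ * φ x.1 = φ (𝔉.κ x.2)} := by
  have r1 : Rg k fun e => φ (𝔉.κ e) := hφ.rg.comp 𝔉.rg_κ
  refine (cover_induction (fun b => IsOp.ne (𝔉.vb.rg_f b)) 𝔉.vb.cover
    (p := fun C => NZ Θ η (𝔉.p ⁻¹' C) fun e => φ (𝔉.κ e)) (empty fun _ h => h)
    (fun Z V hZ hV h1 h2 => split hφ.rg hη (hZ.preimage 𝔉.vb.rg) r1 (hV.preimage 𝔉.vb.rg) h1 h2)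
    fun b Z hZ hb => ?_).congr fun x => by simp
  obtain ⟨_, hv⟩ := exists_loc (𝔉.vb.rg_f b)
  obtain ⟨h1, h2⟩ := 𝔉.vb.oimm b hv
  refine oimm h1 (fun x hx => h2 ▸ hb hx) ((van_conj hφ hq hη H
    ((𝔉.rg_σ b).rg hv.rg_val fun x => x.2) (hZ.preimage hv.rg_val)).congr fun x => ?_)
  simp only [mem_ofPred_eq, mem_preimage, 𝔉.vb.p_r b _ _ x.2.1.2]
  rw [𝔉.r_eq, 𝔉.κ_π]

end Red

end

end Pool.Agent.Lib.MP_fc2ced_ag.R
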